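import Mathlib

/-!
Theorem AB (MP_cb8a44_nt): only finitely many totally real abelian number fields have
Pythagoras number at most 3. Definitions. Text: MP_cb8a44_nt_AB_h92.md in the team store.
-/

set_option autoImplicit false

namespace Pool.Agent.Lib.MPcb8a44.AB

/-- The standard primitive `N`-th root of unity. -/
noncomputable def ze (N : ℕ) : ℂ := Complex.exp (2 * Real.pi * Complex.I / N)

/-- The `N`-th cyclotomic field inside the complex numbers. -/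
noncomputable def Cyc (N : ℕ) : IntermediateField ℚ ℂ := IntermediateField.adjoin ℚ {ze N}

/-- Normalised trace of an algebraic number. -/
noncomputable def ntr (z : ℂ) : ℝ :=
  -((minpoly ℚ z).nextCoeff : ℝ) / ((minpoly ℚ z).natDegree : ℝ)

/-- The mean square of the conjugates (for numbers in cyclotomic fields). -/
noncomputable def M (y : ℂ) : ℝ := ntr (y * (starRingEnd ℂ) y)

/-- `α` is a sum of `n` squares of algebraic integers of `K`. -/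
def Sq (n : ℕ) (K : IntermediateField ℚ ℂ) (α : ℂ) : Prop :=
  ∃ g : Fin n → ℂ, (∀ j, g j ∈ K ∧ IsIntegral ℤ (g j)) ∧ α = ∑ j, g j ^ 2

/-- Every sum of squares of algebraic integers of `K` is a sum of `n` such squares. -/
def Pyth (n : ℕ) (K : IntermediateField ℚ ℂ) : Prop :=
  ∀ (k : ℕ) (α : ℂ), Sq k K α → Sq n K α

/-- `e(t) = exp (2 π i t)`. -/
noncomputable def ee (t : ℝ) : ℂ := Complex.exp (2 * Real.pi * Complex.I * t)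

/-- The piece `ℚ(ζ_{N1}) ζ_P ^ g`. -/
def Pc (N1 P g : ℕ) : Set ℂ := {y | ∃ a ∈ Cyc N1, y = a * ze P ^ g}

/-- Abstract frame: a field `L` (think of `ℚ(ζ_N)`, `N = 2 ^ m * N'`, `N'` odd) with its integers `O`,
complex conjugation `cj`, normalised trace `tr`, Galois automorphisms `G` and the projections `P v`
onto the subfield of level at most `v` (think of `ℚ(ζ_{2 ^ v N'})`). -/
structure Lev (L : Type) [Field L] where
  O : Subring L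
  cj : L →+* L
  tr : L →+ ℝ
  G : Set (L →+* L)
  P : ℕ → (L →+ L)
  m : ℕ
  char0 : CharZero L
  one_le : ∀ x ∈ O, x ≠ 0 → 1 ≤ tr (x * cj x)
  tr_nonneg : ∀ x, 0 ≤ tr (x * cj x)
  tr_one : tr 1 = 1
  int_quad : ∀ x, ∀ a ∈ O, ∀ b ∈ O, x ^ 2 - a * x + b = 0 → x ∈ O
  tr_G : ∀ σ ∈ G, ∀ x, tr (σ x) = tr x
  cj_G : ∀ σ ∈ G, ∀ x, σ (cj x) = cj (σ x)
  O_G : ∀ σ ∈ G, ∀ x ∈ O, σ x ∈ O
  G_stab : ∀ σ ∈ G, ∀ F : Subfield L, ∀ x ∈ F, σ x ∈ F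
  P_zero : ∀ x, P 0 x = 0
  P_top : ∀ v, m ≤ v → ∀ x, P v x = x
  P_P : ∀ v w x, P v (P w x) = P (min v w) x
  P_lin : ∀ v x y, 1 ≤ v → P v x = x → P v (x * y) = x * P v y
  P_one : ∀ v, 1 ≤ v → P v 1 = 1
  P_stab : ∀ v, ∀ F : Subfield L, ∀ x ∈ F, P v x ∈ F
  P_O : ∀ v, ∀ x ∈ O, P v x ∈ O
  P_cj : ∀ v x, P v (cj x) = cj (P v x)
  P_tr : ∀ v x, 1 ≤ v → tr (P v x) = tr x
  P_G : ∀ v, ∀ σ ∈ G, ∀ x, P v (σ x) = σ (P v x)
  sq_level : ∀ v, 2 ≤ v → ∀ x y, P v x = x → P (v - 1) x = 0 → P v y = y → P (v - 1) y = 0 →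
    P (v - 1) (x * y) = x * y
  G_quarter : ∀ v, 4 ≤ v → ∃ σ ∈ G, (∀ x, P (v - 2) x = x → σ x = x) ∧
    (∀ x, P v x = x → P (v - 1) x = 0 → σ (σ x) = -x)
  G_half : ∀ v, 2 ≤ v → ∃ σ ∈ G, (∀ x, P (v - 1) x = x → σ x = x) ∧
    (∀ x, P v x = x → P (v - 1) x = 0 → σ x = -x)
  frob : ∃ φ ∈ G, ∃ ψ ∈ G, (∀ x, φ (ψ x) = x) ∧ (∀ x ∈ O, P 1 x = x → ∃ y ∈ O, x ^ 2 - φ x = 2 * y)

namespace Lev

variable {L : Type} [Field L]

/-- Mean square of the conjugates in a frame. -/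
def M (Fr : Lev L) (x : L) : ℝ := Fr.tr (x * Fr.cj x)

/-- The component of level exactly `v` (`v ≥ 1`). -/
def cp (Fr : Lev L) (v : ℕ) (x : L) : L := Fr.P v x - Fr.P (v - 1) x

/-- `x` is pure of level `v`. -/
def Pure (Fr : Lev L) (v : ℕ) (x : L) : Prop := 1 ≤ v ∧ Fr.P v x = x ∧ Fr.P (v - 1) x = 0

end Lev

/-- The concrete frame of `ℚ(ζ_{2 ^ m N'})`. -/
def IsLev (m N' : ℕ) (Fr : Lev (Cyc (2 ^ m * N'))) : Prop :=
  (∀ x, x ∈ Fr.O ↔ IsIntegral ℤ (x : ℂ)) ∧ (∀ x, Fr.M x = M (x : ℂ)) ∧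
  (∀ x, ((Fr.cj x : Cyc (2 ^ m * N')) : ℂ) = (starRingEnd ℂ) (x : ℂ)) ∧
  (∀ σ : Cyc (2 ^ m * N') ≃ₐ[ℚ] Cyc (2 ^ m * N'),
    ((σ : Cyc (2 ^ m * N') →+* Cyc (2 ^ m * N'))) ∈ Fr.G) ∧
  Fr.m = m ∧
  (∀ v, 1 ≤ v → v ≤ m → ∀ x, Fr.P v x = x ↔ (x : ℂ) ∈ Cyc (2 ^ v * N'))

end Pool.Agent.Lib.MPcb8a44.AB
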