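import Mathlib
import Pool.Agent.Lib.MP_cb8a44_nt.AB.Defs

/-!
Exact statements of the modules of Theorem AB (MP_cb8a44_nt). Every module is independent: other
statements may be taken as hypotheses. Proofs: MP_cb8a44_nt_AB_h92.md and the comments below.
-/

set_option autoImplicit false

namespace Pool.Agent.Lib.MPcb8a44.AB

open scoped BigOperators ComplexConjugate

/-! ## Group C: cyclotomic fields -/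

/-- CB (60 lines). Basic facts. `Complex.isPrimitiveRoot_exp`; `ze a = ze b ^ (b / a)` for `a ∣ b`;
everything in `Cyc N` is algebraic; `Cyc N` is stable under complex conjugation. -/
def SpecCB : Prop :=
  (∀ N, 0 < N → IsPrimitiveRoot (ze N) N) ∧
  (∀ a b, 0 < b → a ∣ b → ze a = ze b ^ (b / a)) ∧
  (∀ a b, 0 < b → a ∣ b → Cyc a ≤ Cyc b) ∧
  (∀ N, 0 < N → FiniteDimensional ℚ (Cyc N)) ∧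
  (∀ N, 0 < N → ∀ y ∈ Cyc N, conj y ∈ Cyc N)

/-- GAL (150). The Galois group of `Cyc N`: `IsCyclotomicExtension.Rat.galEquivZMod`
(with `IsPrimitiveRoot.intermediateField_adjoin_isCyclotomicExtension`). Last clause: subfields of an
abelian extension are stable. -/
def SpecGAL : Prop := ∀ N, 0 < N →
  IsGalois ℚ (Cyc N) ∧
  (∀ σ τ : Cyc N ≃ₐ[ℚ] Cyc N, ∀ x, σ (τ x) = τ (σ x)) ∧
  (∀ s : ℕ, s.Coprime N → ∃ σ : Cyc N ≃ₐ[ℚ] Cyc N, ∀ x : Cyc N, (x : ℂ) = ze N →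
    ((σ x : Cyc N) : ℂ) = ze N ^ s) ∧
  (∀ σ : Cyc N ≃ₐ[ℚ] Cyc N, ∃ s : ℕ, s.Coprime N ∧ ∀ x : Cyc N, (x : ℂ) = ze N →
    ((σ x : Cyc N) : ℂ) = ze N ^ s) ∧
  (∀ σ : Cyc N ≃ₐ[ℚ] Cyc N, ∀ x y : Cyc N, (y : ℂ) = conj (x : ℂ) →
    ((σ y : Cyc N) : ℂ) = conj ((σ x : Cyc N) : ℂ)) ∧
  (∀ σ : Cyc N ≃ₐ[ℚ] Cyc N, ∀ K : IntermediateField ℚ ℂ, K ≤ Cyc N → ∀ x : Cyc N, (x : ℂ) ∈ K →
    ((σ x : Cyc N) : ℂ) ∈ K) ∧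
  (∀ σ : Cyc N ≃ₐ[ℚ] Cyc N, ∀ F : Subfield (Cyc N), ∀ x ∈ F, σ x ∈ F)

/-- MF (150). The normalised trace: `ntr z` is the average of the conjugates
(`Algebra.trace` : `trace_eq_sum_automorphisms`, `trace_eq_finrank_mul_minpoly_nextCoeff`), `M y` is the
average of the squares of the absolute values. -/
def SpecMF : Prop := ∀ N, 0 < N →
  (∀ z : Cyc N, ((ntr (z : ℂ) : ℝ) : ℂ) =
    (∑ᶠ σ : Cyc N ≃ₐ[ℚ] Cyc N, ((σ z : Cyc N) : ℂ)) / (Nat.card (Cyc N ≃ₐ[ℚ] Cyc N) : ℂ)) ∧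
  (∀ z : Cyc N, M (z : ℂ) =
    (∑ᶠ σ : Cyc N ≃ₐ[ℚ] Cyc N, ‖((σ z : Cyc N) : ℂ)‖ ^ 2) / (Nat.card (Cyc N ≃ₐ[ℚ] Cyc N) : ℝ))

/-- MB (200, from CB GAL MF). Consequences: additivity of the trace, `1 ≤ M` on nonzero integers
(AM-GM and the norm is a nonzero integer), parallelogram law, invariance, finiteness, and
`∑ M (x i)` depends only on `∑ x i ^ 2` for real numbers whose conjugates are real. -/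
def SpecMB : Prop := ∀ N, 0 < N →
  (∀ x ∈ Cyc N, ∀ y ∈ Cyc N, ntr (x + y) = ntr x + ntr y) ∧
  (∀ x ∈ Cyc N, 0 ≤ M x) ∧
  (∀ x ∈ Cyc N, IsIntegral ℤ x → x ≠ 0 → 1 ≤ M x) ∧
  (∀ x ∈ Cyc N, ∀ y ∈ Cyc N, M (x + y) + M (x - y) = 2 * M x + 2 * M y) ∧
  (∀ x : Cyc N, ∀ σ : Cyc N ≃ₐ[ℚ] Cyc N, M ((σ x : Cyc N) : ℂ) = M (x : ℂ)) ∧
  (∀ T : ℝ, {x : ℂ | x ∈ Cyc N ∧ IsIntegral ℤ x ∧ M x ≤ T}.Finite) ∧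
  (∀ x ∈ Cyc N, x.im = 0 → M x = ntr (x ^ 2))

/-- INT (60). Integers of `Cyc N`: `IsCyclotomicExtension.Rat.isIntegralClosure_adjoin_singleton`. -/
def SpecINT : Prop := ∀ N, 0 < N → ∀ x ∈ Cyc N, IsIntegral ℤ x →
  ∃ a : ℕ → ℤ, x = ∑ j ∈ Finset.range N, (a j : ℂ) * ze N ^ j

/-- GCD (150). `Cyc a ⊓ Cyc b = Cyc (gcd a b)`: degrees (`φ(a)φ(b) = φ(lcm)φ(gcd)`), `lcm_sup`, Galois. -/
def SpecGCD : Prop := ∀ a b, 0 < a → 0 < b → ∀ x ∈ Cyc a, x ∈ Cyc b → x ∈ Cyc (Nat.gcd a b)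

/-- GU (120, from CB GAL). Uniqueness for the grading by `ZMod (p^(k-c))`, `c ≥ 1`: `X^(p^(k-c)) - ζ_{p^c}` is
the minimal polynomial of `ζ_{p^k}` over `Cyc (N0 p^c)` (degrees). -/
def SpecGU : Prop := ∀ (p N0 k c Q : ℕ) [NeZero Q], p.Prime → 0 < N0 → ¬ p ∣ N0 → 1 ≤ c → c ≤ k →
  Q = p ^ (k - c) → ∀ Y : ZMod Q → ℂ, (∀ g, Y g ∈ Pc (N0 * p ^ c) (p ^ k) g.val) → ∑ g, Y g = 0 →
  ∀ g, Y g = 0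

/-- GR (350, from CB GAL MF INT GU). Graded expansion for `c ≥ 1`:
`Y g = p^{-(k-c)} ∑_u e(-ug/Q) τ_{1+p^c u}(y)`, Parseval for `M`, integrality from INT. -/
def SpecGR : Prop := ∀ (p N0 k c Q : ℕ) [NeZero Q], p.Prime → 0 < N0 → ¬ p ∣ N0 → 1 ≤ c → c ≤ k →
  Q = p ^ (k - c) → ∀ y ∈ Cyc (N0 * p ^ k), ∃ Y : ZMod Q → ℂ,
    (∀ g, Y g ∈ Pc (N0 * p ^ c) (p ^ k) g.val) ∧ y = ∑ g, Y g ∧ M y = ∑ g, M (Y g) ∧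
    (IsIntegral ℤ y → ∀ g, IsIntegral ℤ (Y g))

/-- CAS (250, from CB GAL MF INT). Cassels: `y ∈ ℚ(ζ_{N0 p})` integral: `y = ∑_{i<p} a_i ζ_p^i`, `a_i`
integral in `ℚ(ζ_{N0})`, `(p-1) M y = ∑_{i<j} M (a_i - a_j)`. -/
def SpecCAS : Prop := ∀ p N0 : ℕ, p.Prime → 0 < N0 → ¬ p ∣ N0 → ∀ y ∈ Cyc (N0 * p), IsIntegral ℤ y →
  ∃ a : ℕ → ℂ, (∀ i, a i ∈ Cyc N0 ∧ IsIntegral ℤ (a i)) ∧
    y = ∑ i ∈ Finset.range p, a i * ze p ^ i ∧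
    ((p : ℝ) - 1) * M y = ∑ j ∈ Finset.range p, ∑ i ∈ Finset.range j, M (a i - a j)

/-- SA (250, from CAS GR MB CB). Sparse expansion (C4), `c = 0`: at most `2 M y` terms. First the grading GR
with `c = 1`, then for every piece subtract the most frequent coefficient. -/
def SpecSA : Prop := ∀ (p N0 k Q : ℕ) [NeZero Q], p.Prime → 0 < N0 → ¬ p ∣ N0 → 1 ≤ k → Q = p ^ k →
  ∀ y ∈ Cyc (N0 * p ^ k), IsIntegral ℤ y → ∃ (S : Finset (ZMod Q)) (Y : ZMod Q → ℂ),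
    (∀ g ∈ S, Y g ∈ Pc N0 (p ^ k) g.val ∧ Y g ≠ 0) ∧ y = ∑ g ∈ S, Y g ∧ (S.card : ℝ) ≤ 2 * M y

/-- UA (150, from CB GAL GU). Uniqueness (U), `c = 0`: fewer than `p` terms. -/
def SpecUA : Prop := ∀ (p N0 k Q : ℕ) [NeZero Q], p.Prime → 0 < N0 → ¬ p ∣ N0 → 1 ≤ k → Q = p ^ k →
  ∀ (S : Finset (ZMod Q)) (Y : ZMod Q → ℂ), S.card < p → (∀ g ∈ S, Y g ∈ Pc N0 (p ^ k) g.val) →
  ∑ g ∈ S, Y g = 0 → ∀ g ∈ S, Y g = 0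

/-! ## Group S: the sparse lemma -/

/-- LH (300). Lemma H (linear algebra, pigeonhole over the finitely many systems of relations). -/
def SpecLH : Prop := ∀ m : ℕ, ∃ H h : ℕ, 0 < H ∧ 0 < h ∧
  ∀ (Q : ℕ) [NeZero Q] (i : Fin m → ZMod Q) (I0 : Finset (Fin m)) (η : Fin m → ℝ),
    (∀ c : Fin m → ℤ, (∀ a, |c a| ≤ H) → (∀ a, a ∉ I0 → c a = 0) →
      (h : ℤ) • ∑ a, c a • i a = 0 → ∑ a, (c a : ℝ) * η a = 0) →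
    ∃ δ : Fin m → ℝ, (∀ a ∈ I0, δ a = η a) ∧
      ∀ a b a' b', i a + i b = i a' + i b' → δ a + δ b = δ a' + δ b'

/-- BO (350). Lemma B (Bohr set and union bound). -/
def SpecBO : Prop := ∀ r H h n : ℕ, 0 < H → 0 < h → ∃ Y1 : ℕ, ∀ (p e c Q : ℕ) [NeZero Q], p.Prime →
  Q = p ^ e → (c = 0 → Y1 ≤ p) → ∀ J : Finset (ZMod Q), J.card ≤ r →
  (∀ a : ZMod Q → ℤ, (∀ g, |a g| ≤ H) → ∑ g ∈ J, a g • g ≠ 0 →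
    Y1 ≤ addOrderOf ((h * p ^ c) • ∑ g ∈ J, a g • g)) →
  ∀ g0 ∈ J, Y1 ≤ addOrderOf g0 →
  ∃ (us : ℕ) (u : Fin (n + 1) → ℕ),
    (∀ g ∈ J, |((us : ℕ) • g).valMinAbs| * (4 * r * H) ≤ (Q : ℤ)) ∧
    (∀ l, ∀ g ∈ J, |((u l : ℕ) • g).valMinAbs| * (4 * r * H) ≤ (Q : ℤ)) ∧
    us • g0 ≠ 0 ∧ (∀ l, ¬ p ∣ 1 + p ^ c * u l) ∧
    (∀ w : Fin (n + 2) → ZMod Q,
      (∀ l, ∃ a : ZMod Q → ℤ, (∀ g, |a g| ≤ H) ∧ w l = ∑ g ∈ J, a g • g) →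
      h • (w 0 + ∑ l : Fin (n + 1), (1 + p ^ c * u l) • w l.succ) = 0 → ∀ l, w l = 0)

/-- AN (120). Second derivative: `n + 1` squares are not `n` squares. -/
def SpecAN : Prop := ∀ (n : ℕ) (A : ℝ → ℝ) (A' s : ℝ) (B : Fin n → (Fin (n + 2) → ℝ) → ℝ),
  HasDerivAt A A' s → A' ≠ 0 → (∀ j, DifferentiableAt ℝ (B j) (fun _ => s)) →
  (∀ t : Fin (n + 2) → ℝ, ∑ l : Fin (n + 1), (A (t l.succ) - A (t 0)) ^ 2 = ∑ j, B j t ^ 2) → False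

/-- NC (120). A real trigonometric sum with a nonzero frequency is not constant
(`linearIndependent_monoidHom`). -/
def SpecNC : Prop := ∀ (ι : Type) (J : Finset ι) (x : ι → ℂ) (f : ι → ℝ) (v : ℝ), v ≠ 0 →
  (∀ s : ℝ, (∑ g ∈ J, x g * ee (s * f g)).im = 0) →
  (∑ g ∈ J with f g = v, x g) ≠ 0 →
  ∃ s A' : ℝ, HasDerivAt (fun s : ℝ => (∑ g ∈ J, x g * ee (s * f g)).re) A' s ∧ A' ≠ 0

/-- DF (120). Deformation of a quadratic identity along a 2-homomorphism. -/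
def SpecDF : Prop := ∀ (Q : ℕ) [NeZero Q] (Lg : ZMod Q → AddSubgroup ℂ) (R m q : ℕ), m ^ 2 ≤ R →
  (∀ g h x y, x ∈ Lg g → y ∈ Lg h → x * y ∈ Lg (g + h)) →
  (∀ (S : Finset (ZMod Q)) (y : ZMod Q → ℂ), S.card ≤ R → (∀ g ∈ S, y g ∈ Lg g) → ∑ g ∈ S, y g = 0 →
    ∀ g ∈ S, y g = 0) →
  ∀ (i : Fin m → ZMod Q) (ε : Fin q → ℤ) (Y : Fin q → Fin m → ℂ) (δ : Fin m → ℝ),
    (∀ j a, Y j a ∈ Lg (i a)) →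
    (∀ a b a' b', i a + i b = i a' + i b' → δ a + δ b = δ a' + δ b') →
    ∑ j, (ε j : ℂ) * (∑ a, Y j a) ^ 2 = 0 → ∑ j, (ε j : ℂ) * (∑ a, Y j a * ee (δ a)) ^ 2 = 0

/-- SPX (400, from LH BO AN NC DF). The abstract sparse lemma: for suitable rotations `u l`
the element `∑_l (X_l - x)^2`, `X_l = ∑ x_g e(u_l g / Q)`, is not a sum of `n` squares of real elements with few terms. -/
def SpecSPX : Prop := ∀ n r m0 : ℕ, ∃ Y1 H h : ℕ, 0 < H ∧ 0 < h ∧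
  ∀ (p e c Q : ℕ) [NeZero Q], p.Prime → Q = p ^ e → (c = 0 → Y1 ≤ p) →
  ∀ (Lg : ZMod Q → AddSubgroup ℂ) (R : ℕ), m0 ^ 2 ≤ R →
  (1 : ℂ) ∈ Lg 0 →
  (∀ g h x y, x ∈ Lg g → y ∈ Lg h → x * y ∈ Lg (g + h)) →
  (∀ g x, x ∈ Lg g → conj x ∈ Lg (-g)) →
  (∀ u : ℕ, ¬ p ∣ 1 + p ^ c * u → ∀ g x, x ∈ Lg g →
    x * ee ((u : ℝ) * (g.val : ℝ) / (Q : ℝ)) ∈ Lg ((1 + p ^ c * u) • g)) →
  (∀ (S : Finset (ZMod Q)) (y : ZMod Q → ℂ), S.card ≤ R → (∀ g ∈ S, y g ∈ Lg g) → ∑ g ∈ S, y g = 0 →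
    ∀ g ∈ S, y g = 0) →
  ∀ (J : Finset (ZMod Q)) (x : ZMod Q → ℂ), J.card ≤ r → (∀ g ∈ J, x g ∈ Lg g ∧ x g ≠ 0) →
  (∑ g ∈ J, x g).im = 0 →
  (∀ a : ZMod Q → ℤ, (∀ g, |a g| ≤ H) → ∑ g ∈ J, a g • g ≠ 0 →
    Y1 ≤ addOrderOf ((h * p ^ c) • ∑ g ∈ J, a g • g)) →
  (∃ g0 ∈ J, Y1 ≤ addOrderOf g0) →
  ∃ u : Fin (n + 1) → ℕ, (∀ l, ¬ p ∣ 1 + p ^ c * u l) ∧
    ∀ (S : Fin n → Finset (ZMod Q)) (b : Fin n → ZMod Q → ℂ),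
      (∀ j, ∀ g ∈ S j, b j g ∈ Lg g) → (∀ j, (∑ g ∈ S j, b j g).im = 0) →
      1 + (n + 2) * r + ∑ j, (S j).card ≤ m0 →
      ∑ l : Fin (n + 1), ((∑ g ∈ J, x g * ee ((u l : ℝ) * (g.val : ℝ) / (Q : ℝ))) - ∑ g ∈ J, x g) ^ 2 ≠
        ∑ j, (∑ g ∈ S j, b j g) ^ 2

/-- WIN (80). Windows of valuations: `c_0 = 1`, `c_{i+1} = 2 c_i + D`, pigeonhole. -/
def SpecWIN : Prop := ∀ W0 D : ℕ, ∃ cmax : ℕ, ∀ p : ℕ, p.Prime → ∀ k : ℕ, 2 * cmax + D ≤ k →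
  ∀ W : Finset ℤ, W.card ≤ W0 → ∃ c, 1 ≤ c ∧ c ≤ cmax ∧
    ∀ w ∈ W, (p : ℤ) ^ (k - 2 * c - D) ∣ w → (p : ℤ) ^ (k - c) ∣ w

/-- PSA (300, from SPX SA UA CB GAL MB). Regime (A): `p` large. -/
def SpecPSA : Prop := ∀ n T : ℕ, ∃ P0 : ℕ, ∀ (p N0 k k' : ℕ) (K : IntermediateField ℚ ℂ), p.Prime →
  P0 ≤ p → 0 < N0 → ¬ p ∣ N0 → 1 ≤ k → k ≤ k' → K ≤ Cyc (N0 * p ^ k') → (∀ x ∈ K, x.im = 0) →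
  Pyth n K → ∀ x ∈ K, IsIntegral ℤ x → M x ≤ T → x ∈ Cyc (N0 * p ^ k) → x ∈ Cyc (N0 * p ^ (k - 1))

/-- PSB (400, from SPX GR GU WIN CB GAL MB). Regime (B): `k` large. -/
def SpecPSB : Prop := ∀ n T : ℕ, ∃ k0 : ℕ, ∀ (p N0 k k' : ℕ) (K : IntermediateField ℚ ℂ), p.Prime →
  k0 ≤ k → 0 < N0 → ¬ p ∣ N0 → 1 ≤ k → k ≤ k' → K ≤ Cyc (N0 * p ^ k') → (∀ x ∈ K, x.im = 0) →
  Pyth n K → ∀ x ∈ K, IsIntegral ℤ x → M x ≤ T → x ∈ Cyc (N0 * p ^ k) → x ∈ Cyc (N0 * p ^ (k - 1))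

/-- PS (120, from PSA PSB GCD CB). Short elements lie in a fixed cyclotomic field. Take the least
`N'` with `x ∈ Cyc N'`, `N' ∣ N`: its prime powers are bounded. -/
def SpecPS : Prop := ∀ n T : ℕ, ∃ W : ℕ, 0 < W ∧ ∀ (N : ℕ) (K : IntermediateField ℚ ℂ), 0 < N →
  K ≤ Cyc N → (∀ x ∈ K, x.im = 0) → Pyth n K → ∀ x ∈ K, IsIntegral ℤ x → M x ≤ T → x ∈ Cyc W

/-! ## Group L: levels and the core lemma -/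

/-- LEV (600, from CB GAL MF MB INT GR GU; may be split by the writer). The concrete frame:
`P v` = average over `Gal(Cyc (2^m N') / Cyc (2^v N'))` for `1 ≤ v ≤ m`, identity for `v ≥ m`, `0` for `v = 0`;
`O` = integers, `cj` = complex conjugation, `tr` = real part of the average of the conjugates, `G` = everything
in the Galois group. Integrality of `P v`: one step `N -> N/2` (`4 ∣ N`): `x = y + z ζ_N`, `y, z ∈ ℤ[ζ_{N/2}]`. -/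
def SpecLEV : Prop := ∀ m N' : ℕ, 1 ≤ m → Odd N' → ∃ Fr : Lev (Cyc (2 ^ m * N')), IsLev m N' Fr

/-- L4 (250, from CB GAL MB GR GU). `M x ≥ 2^(v-s)` for nonzero pure integers of level `v` of a real field
whose elements with `M ≤ 2` have level at most `s`. -/
def SpecL4 : Prop := ∀ (m N' s : ℕ) (K : IntermediateField ℚ ℂ) (Fr : Lev (Cyc (2 ^ m * N'))),
  1 ≤ m → Odd N' → IsLev m N' Fr → 2 ≤ s → s ≤ m → K ≤ Cyc (2 ^ m * N') → (∀ x ∈ K, x.im = 0) →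
  (∀ x ∈ K, IsIntegral ℤ x → M x ≤ 2 → x ∈ Cyc (2 ^ s * N')) →
  ∀ (v : ℕ) (x : Cyc (2 ^ m * N')), Fr.Pure v x → (x : ℂ) ∈ K → IsIntegral ℤ (x : ℂ) → x ≠ 0 →
    (2 : ℝ) ^ v ≤ 2 ^ s * M (x : ℂ)

/-- ST1 (200). Steps (3.1), (3.2) of the core lemma: from level 1. -/
def SpecST1 : Prop := ∀ (L : Type) [Field L] (Fr : Lev L) (K F : Subfield L) (t T1 C1 : ℝ), F ≤ K →
  (∀ x ∈ K, Fr.cj x = x) → (∀ x ∈ K, x ∈ Fr.O → x ∉ F → t ≤ Fr.M x) → T1 < t → 1 + T1 + C1 < 2 * t →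
  ∀ a b κ : L, Fr.P 1 a = a → a ∈ K → a ∈ Fr.O → a ∉ F → Fr.M a ≤ t + 1 → b ∈ K → b ∈ Fr.O → b ∉ F →
  κ ∈ F → κ ∈ Fr.O → κ ≠ 0 → Fr.M κ ≤ C1 → b ^ 2 = a ^ 2 + κ → Fr.M b ≤ t + T1 →
  ∃ v', 2 ≤ v' ∧ Fr.Pure v' b

/-- ST2 (350). Steps (3.3), (3.4) of the core lemma, with the claim. -/
def SpecST2 : Prop := ∀ (L : Type) [Field L] (Fr : Lev L) (K F : Subfield L) (t T1 C1 : ℝ), F ≤ K →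
  (∀ x ∈ K, Fr.cj x = x) → (∀ x ∈ K, x ∈ Fr.O → x ∉ F → t ≤ Fr.M x) → 0 ≤ T1 → T1 < t →
  ∀ (v : ℕ) (a b κ : L), 2 ≤ v → Fr.Pure v a → a ∈ K → a ∈ Fr.O → a ∉ F → b ∈ K → b ∈ Fr.O → b ∉ F →
  κ ∈ F → κ ∈ Fr.O → κ ≠ 0 → Fr.M κ ≤ C1 → b ^ 2 = (a + 1) ^ 2 + κ → Fr.M b ≤ t + T1 →
  (∀ s c1 c2 : L, s ∈ K → s ∈ Fr.O → Fr.M s ≤ T1 → c1 ∈ K → c1 ∈ Fr.O → Fr.M c1 ≤ C1 →
    c2 ∈ K → c2 ∈ Fr.O → Fr.M c2 ≤ C1 → s ^ 2 ≠ 1 →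
    (1 - s ^ 2) * a ^ 2 + c1 * a + c1 ^ 2 / 4 + s ^ 4 - s ^ 2 * (1 + c2) ≠ 0) →
  ∃ v', v < v' ∧ Fr.Pure v' b ∧ Fr.cp (v' - 1) κ ≠ 0

/-- CLA (350, from ST1 ST2). The core lemma in a frame. -/
def SpecCLA : Prop := ∀ (L : Type) [Field L] (Fr : Lev L) (K F : Subfield L) (n s s0 : ℕ)
  (B C1 C2 T1 t : ℝ), F ≤ K → (∀ x ∈ K, Fr.cj x = x) → 1 ≤ n → 1 ≤ B → 2 ≤ s0 →
  T1 = max (s0 * (B + 1)) 2 → (2 : ℝ) ^ s * (s0 * (B + 1)) < 2 ^ s0 → C1 = (n : ℝ) ^ 2 * C2 →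
  (∀ (v : ℕ) (x : L), Fr.Pure v x → x ∈ K → x ∈ Fr.O → x ≠ 0 → (2 : ℝ) ^ v ≤ 2 ^ s * Fr.M x) →
  (∀ x ∈ K, x ∈ Fr.O → Fr.M x ≤ T1 → Fr.M (x ^ 2) ≤ C2) →
  ∀ (β : L) (k : ℕ) (x : Fin k → L), (∀ i, x i ∈ K ∧ x i ∈ Fr.O) → β = ∑ i, x i ^ 2 →
  ∑ i, Fr.M (x i) ≤ B → Fr.M β ≤ C2 →
  (¬ ∃ z : Fin (n - 1) → L, (∀ j, z j ∈ K ∧ z j ∈ Fr.O) ∧ β = ∑ j, z j ^ 2) →
  (∀ x ∈ K, x ∈ Fr.O → x ∉ F → t ≤ Fr.M x) → (∃ a ∈ K, a ∈ Fr.O ∧ a ∉ F ∧ Fr.M a = t) →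
  T1 + 2 < t → 1 + T1 + C1 < 2 * t →
  (∀ a ∈ K, a ∈ Fr.O → a ∉ F → ∀ s c1 c2 : L, s ∈ K → s ∈ Fr.O → Fr.M s ≤ T1 → c1 ∈ K → c1 ∈ Fr.O →
    Fr.M c1 ≤ C1 → c2 ∈ K → c2 ∈ Fr.O → Fr.M c2 ≤ C1 → s ^ 2 ≠ 1 →
    (1 - s ^ 2) * a ^ 2 + c1 * a + c1 ^ 2 / 4 + s ^ 4 - s ^ 2 * (1 + c2) ≠ 0) →
  ∃ (k' : ℕ) (y : Fin k' → L), (∀ i, y i ∈ K ∧ y i ∈ Fr.O) ∧ ∑ i, Fr.M (y i) ≤ 2 * t ∧
    ¬ ∃ z : Fin n → L, (∀ j, z j ∈ K ∧ z j ∈ Fr.O) ∧ ∑ i, y i ^ 2 = ∑ j, z j ^ 2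

/-- CLC (200, from CLA LEV L4 CB). The core lemma for subfields of a cyclotomic field. -/
def SpecCLC : Prop := ∀ (n s s0 m N' : ℕ) (B C1 C2 T1 t : ℝ) (K F : IntermediateField ℚ ℂ), Odd N' →
  1 ≤ n → 1 ≤ B → 2 ≤ s → s ≤ m → 2 ≤ s0 → K ≤ Cyc (2 ^ m * N') → (∀ x ∈ K, x.im = 0) → F ≤ K →
  T1 = max (s0 * (B + 1)) 2 → (2 : ℝ) ^ s * (s0 * (B + 1)) < 2 ^ s0 → C1 = (n : ℝ) ^ 2 * C2 →
  (∀ x ∈ K, IsIntegral ℤ x → M x ≤ 2 → x ∈ Cyc (2 ^ s * N')) →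
  (∀ x ∈ K, IsIntegral ℤ x → M x ≤ T1 → M (x ^ 2) ≤ C2) →
  ∀ (k : ℕ) (x : Fin k → ℂ), (∀ i, x i ∈ K ∧ IsIntegral ℤ (x i)) → ∑ i, M (x i) ≤ B →
  M (∑ i, x i ^ 2) ≤ C2 → ¬ Sq (n - 1) K (∑ i, x i ^ 2) →
  (∀ x ∈ K, IsIntegral ℤ x → x ∉ F → t ≤ M x) → (∃ a ∈ K, IsIntegral ℤ a ∧ a ∉ F ∧ M a = t) →
  T1 + 2 < t → 1 + T1 + C1 < 2 * t →
  (∀ a ∈ K, IsIntegral ℤ a → a ∉ F → ∀ s1 ∈ K, IsIntegral ℤ s1 → M s1 ≤ T1 →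
    ∀ c1 ∈ K, IsIntegral ℤ c1 → M c1 ≤ C1 → ∀ c2 ∈ K, IsIntegral ℤ c2 → M c2 ≤ C1 → s1 ^ 2 ≠ 1 →
    (1 - s1 ^ 2) * a ^ 2 + c1 * a + c1 ^ 2 / 4 + s1 ^ 4 - s1 ^ 2 * (1 + c2) ≠ 0) →
  ∃ (k' : ℕ) (y : Fin k' → ℂ), (∀ i, y i ∈ K ∧ IsIntegral ℤ (y i)) ∧ ∑ i, M (y i) ≤ 2 * t ∧
    ¬ Sq n K (∑ i, y i ^ 2)

/-! ## The theorem -/

/-- FIN (helper92), from PS CLC MB CB (ultrafilter on the set of fields, `exists_three_not_two`). -/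
def SpecFIN : Prop :=
  {K : IntermediateField ℚ ℂ |
    (∃ N : ℕ, 0 < N ∧ K ≤ IntermediateField.adjoin ℚ {Complex.exp (2 * Real.pi * Complex.I / N)}) ∧
    (∀ φ : K →+* ℂ, ∀ x : K, (φ x).im = 0) ∧
    (∀ x : integralClosure ℤ K,
      (∃ m : ℕ, ∃ f : Fin m → integralClosure ℤ K, x = ∑ i, f i ^ 2) →
        ∃ f : Fin 3 → integralClosure ℤ K, x = ∑ i, f i ^ 2)}.Finite

end Pool.Agent.Lib.MPcb8a44.AB
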