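import Mathlib
import Pool.Agent.Lib.MP_cb8a44_nt.AB.Defs
import Pool.Agent.Lib.MP_cb8a44_nt.AB.Spec

section
/-!
Elementary lemmas on the abstract frame `Lev` (Theorem AB, MP_cb8a44_nt).
-/
set_option autoImplicit false

namespace Pool.Agent.Lib.MPcb8a44.AB.Lev

open scoped BigOperators

variable {L : Type} [Field L] (Fr : Lev L)

lemma M_nonneg (x : L) : 0 ≤ Fr.M x := Fr.tr_nonneg x

@[simp] lemma M_zero : Fr.M 0 = 0 := by simp [Lev.M]

@[simp] lemma M_one : Fr.M 1 = 1 := by simp [Lev.M, Fr.tr_one]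

lemma M_neg (x : L) : Fr.M (-x) = Fr.M x := by simp [Lev.M]

lemma one_le_M {x : L} (hx : x ∈ Fr.O) (h0 : x ≠ 0) : 1 ≤ Fr.M x := Fr.one_le x hx h0

lemma M_par (x y : L) : Fr.M (x + y) + Fr.M (x - y) = 2 * Fr.M x + 2 * Fr.M y := by
  have h : (x + y) * Fr.cj (x + y) + (x - y) * Fr.cj (x - y) =
      (x * Fr.cj x + x * Fr.cj x) + (y * Fr.cj y + y * Fr.cj y) := by
    rw [map_add, map_sub]; ring
  unfold Lev.M
  rw [← map_add, h, map_add, map_add, map_add]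
  ring

lemma M_add_le (x y : L) : Fr.M (x + y) ≤ 2 * Fr.M x + 2 * Fr.M y := by
  have := Fr.M_par x y
  have := Fr.M_nonneg (x - y)
  linarith

lemma M_sub_le (x y : L) : Fr.M (x - y) ≤ 2 * Fr.M x + 2 * Fr.M y := by
  have := Fr.M_par x y
  have := Fr.M_nonneg (x + y)
  linarith

lemma M_G {σ : L →+* L} (hσ : σ ∈ Fr.G) (x : L) : Fr.M (σ x) = Fr.M x := by
  unfold Lev.M
  rw [← Fr.cj_G σ hσ, ← map_mul, Fr.tr_G σ hσ]

include Fr in
lemma two_ne : (2 : L) ≠ 0 := by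
  have := Fr.char0
  exact two_ne_zero

include Fr in
lemma four_ne : (4 : L) ≠ 0 := by
  have := Fr.char0
  norm_num

lemma tr_two_mul (x : L) : Fr.tr (2 * x) = 2 * Fr.tr x := by
  rw [two_mul, map_add]; ring

lemma tr_half (x : L) : Fr.tr (x / 2) = Fr.tr x / 2 := by
  have h := Fr.tr_two_mul (x / 2)
  rw [mul_div_cancel₀ _ Fr.two_ne] at h
  linarith

lemma M_two_mul (x : L) : Fr.M (2 * x) = 4 * Fr.M x := by
  unfold Lev.M
  have : 2 * x * Fr.cj (2 * x) = 2 * (2 * (x * Fr.cj x)) := by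
    rw [map_mul, map_ofNat]; ring
  rw [this, tr_two_mul, tr_two_mul]; ring

lemma M_half (x : L) : Fr.M (x / 2) = Fr.M x / 4 := by
  have h := Fr.M_two_mul (x / 2)
  rw [mul_div_cancel₀ _ Fr.two_ne] at h
  linarith

/-- For an element fixed by conjugation. -/
lemma M_real {x : L} (hx : Fr.cj x = x) : Fr.M x = Fr.tr (x ^ 2) := by
  unfold Lev.M; rw [hx, sq]

lemma sum_M_real {k : ℕ} (x : Fin k → L) (hx : ∀ i, Fr.cj (x i) = x i) :
    ∑ i, Fr.M (x i) = Fr.tr (∑ i, x i ^ 2) := by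
  rw [map_sum]
  exact Finset.sum_congr rfl fun i _ => Fr.M_real (hx i)

/-- `M` of a sum of `n` elements. -/
lemma M_sum_le {n : ℕ} (y : Fin n → L) : Fr.M (∑ i, y i) ≤ n * ∑ i, Fr.M (y i) := by
  -- sum over pairs of `M (y i - y j) ≥ 0`
  have key : (n : ℝ) * ∑ i, Fr.M (y i) - Fr.M (∑ i, y i) =
      (∑ i, ∑ j, Fr.M (y i - y j)) / 2 := by
    have e1 : ∀ i j, Fr.M (y i - y j) =
        Fr.M (y i) + Fr.M (y j) - (Fr.tr (y i * Fr.cj (y j)) + Fr.tr (y j * Fr.cj (y i))) := by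
      intro i j
      unfold Lev.M
      rw [← map_add, ← map_add, ← map_sub]
      congr 1
      rw [map_sub]
      ring
    have e2 : Fr.M (∑ i, y i) = ∑ i, ∑ j, Fr.tr (y i * Fr.cj (y j)) := by
      unfold Lev.M
      rw [map_sum, Finset.sum_mul_sum, map_sum]
      refine Finset.sum_congr rfl fun i _ => ?_
      rw [map_sum]
    simp_rw [e1, Finset.sum_sub_distrib, Finset.sum_add_distrib]
    rw [e2]
    have e3 : ∑ i : Fin n, ∑ j : Fin n, Fr.tr (y j * Fr.cj (y i)) =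
        ∑ i : Fin n, ∑ j : Fin n, Fr.tr (y i * Fr.cj (y j)) := Finset.sum_comm
    rw [e3]
    simp only [Finset.sum_const, Finset.card_univ, Fintype.card_fin, nsmul_eq_mul]
    rw [← Finset.mul_sum]
    ring
  have h0 : 0 ≤ ∑ i, ∑ j, Fr.M (y i - y j) :=
    Finset.sum_nonneg fun i _ => Finset.sum_nonneg fun j _ => Fr.M_nonneg _
  linarith

lemma P_mul_left {v : ℕ} (hv : 1 ≤ v) {x : L} (hx : Fr.P v x = x) (y : L) :
    Fr.P v (x * y) = x * Fr.P v y := Fr.P_lin v x y hv hx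

lemma P_mul_right {v : ℕ} (hv : 1 ≤ v) (x : L) {y : L} (hy : Fr.P v y = y) :
    Fr.P v (x * y) = Fr.P v x * y := by
  rw [mul_comm, Fr.P_lin v y x hv hy, mul_comm]

lemma P_mul {v : ℕ} (hv : 1 ≤ v) {x y : L} (hx : Fr.P v x = x) (hy : Fr.P v y = y) :
    Fr.P v (x * y) = x * y := by
  rw [Fr.P_lin v x y hv hx, hy]

lemma P_mono {v w : ℕ} (hvw : v ≤ w) {x : L} (hx : Fr.P v x = x) : Fr.P w x = x := by
  rw [← hx, Fr.P_P, min_eq_right hvw]

lemma P_idem (v : ℕ) (x : L) : Fr.P v (Fr.P v x) = Fr.P v x := by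
  rw [Fr.P_P, min_self]

lemma P_inv {v : ℕ} (hv : 1 ≤ v) {x : L} (hx : Fr.P v x = x) : Fr.P v x⁻¹ = x⁻¹ := by
  by_cases h : x = 0
  · simp [h]
  · have h1 := Fr.P_lin v x x⁻¹ hv hx
    rw [mul_inv_cancel₀ h, Fr.P_one v hv] at h1
    exact (inv_eq_of_mul_eq_one_right h1.symm).symm

/-- Orthogonality. -/
lemma tr_orth {v : ℕ} (x y : L) (hx : Fr.P v x = x) (hy : Fr.P v y = 0) :
    Fr.tr (x * Fr.cj y) = 0 := by
  rcases Nat.eq_zero_or_pos v with rfl | hv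
  · rw [Fr.P_zero] at hx; rw [← hx]; simp
  · rw [← Fr.P_tr v _ hv, Fr.P_lin v x _ hv hx, Fr.P_cj, hy]; simp

lemma tr_orth' {v : ℕ} (x y : L) (hx : Fr.P v x = x) (hy : Fr.P v y = 0) :
    Fr.tr (y * Fr.cj x) = 0 := by
  rcases Nat.eq_zero_or_pos v with rfl | hv
  · rw [Fr.P_zero] at hx; rw [← hx]; simp
  · have hcx : Fr.P v (Fr.cj x) = Fr.cj x := by rw [Fr.P_cj, hx]
    rw [← Fr.P_tr v _ hv, Fr.P_mul_right hv y hcx, hy]; simp

lemma M_add_orth {v : ℕ} {x y : L} (hx : Fr.P v x = x) (hy : Fr.P v y = 0) :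
    Fr.M (x + y) = Fr.M x + Fr.M y := by
  unfold Lev.M
  have : (x + y) * Fr.cj (x + y) = x * Fr.cj x + y * Fr.cj y + (x * Fr.cj y + y * Fr.cj x) := by
    rw [map_add]; ring
  rw [this, map_add, map_add, map_add, Fr.tr_orth x y hx hy, Fr.tr_orth' x y hx hy]
  ring

lemma M_split (v : ℕ) (x : L) : Fr.M x = Fr.M (Fr.P v x) + Fr.M (x - Fr.P v x) := by
  have h1 : Fr.P v (Fr.P v x) = Fr.P v x := Fr.P_idem v x
  have h2 : Fr.P v (x - Fr.P v x) = 0 := by rw [map_sub, h1, sub_self]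
  rw [← Fr.M_add_orth h1 h2]
  congr 1; ring

lemma M_P_le (v : ℕ) (x : L) : Fr.M (Fr.P v x) ≤ Fr.M x := by
  rw [Fr.M_split v x]
  linarith [Fr.M_nonneg (x - Fr.P v x)]

lemma M_sub_P_le (v : ℕ) (x : L) : Fr.M (x - Fr.P v x) ≤ Fr.M x := by
  rw [Fr.M_split v x]
  linarith [Fr.M_nonneg (Fr.P v x)]

lemma cp_eq_sub_P (v : ℕ) (x : L) : Fr.cp v x = Fr.P v x - Fr.P (v - 1) (Fr.P v x) := by
  unfold Lev.cp
  rw [Fr.P_P, min_eq_left (Nat.sub_le v 1)]

lemma M_cp_le (v : ℕ) (x : L) : Fr.M (Fr.cp v x) ≤ Fr.M x := by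
  rw [Fr.cp_eq_sub_P]
  exact (Fr.M_sub_P_le _ _).trans (Fr.M_P_le _ _)

/-- `M x = M (cp v x) + M (x - cp v x)`. -/
lemma M_split_cp (v : ℕ) (x : L) : Fr.M x = Fr.M (Fr.cp v x) + Fr.M (x - Fr.cp v x) := by
  have hvv : v - 1 ≤ v := Nat.sub_le v 1
  -- x = P (v-1) x + cp v x + (x - P v x)
  have a1 := Fr.M_split v x
  have a2 := Fr.M_split (v - 1) (Fr.P v x)
  rw [Fr.P_P, min_eq_left hvv] at a2
  have e : Fr.P v x - Fr.P (v - 1) x = Fr.cp v x := rfl
  rw [e] at a2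
  have h1 : Fr.P v (Fr.P (v - 1) x) = Fr.P (v - 1) x := by
    rw [Fr.P_P, min_eq_right hvv]
  have h2 : Fr.P v (x - Fr.P v x) = 0 := by rw [map_sub, Fr.P_idem, sub_self]
  have a3 := Fr.M_add_orth h1 h2
  have e3 : Fr.P (v - 1) x + (x - Fr.P v x) = x - Fr.cp v x := by
    unfold Lev.cp; ring
  rw [e3] at a3
  linarith

lemma pure_cp {v : ℕ} (hv : 1 ≤ v) (x : L) : Fr.Pure v (Fr.cp v x) := by
  refine ⟨hv, ?_, ?_⟩
  · unfold Lev.cp
    rw [map_sub, Fr.P_idem, Fr.P_P, min_eq_right (Nat.sub_le v 1)]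
  · unfold Lev.cp
    rw [map_sub, Fr.P_idem, Fr.P_P, min_eq_left (Nat.sub_le v 1), sub_self]

lemma Pure.cp_eq {v : ℕ} {x : L} (h : Fr.Pure v x) : Fr.cp v x = x := by
  unfold Lev.cp; rw [h.2.1, h.2.2, sub_zero]

lemma Pure.P_of_le {v w : ℕ} {x : L} (h : Fr.Pure v x) (hw : v ≤ w) : Fr.P w x = x :=
  Fr.P_mono hw h.2.1

lemma Pure.P_of_lt {v w : ℕ} {x : L} (h : Fr.Pure v x) (hw : w < v) : Fr.P w x = 0 := by
  have : Fr.P w (Fr.P (v - 1) x) = Fr.P w x := by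
    rw [Fr.P_P, min_eq_left (by omega)]
  rw [← this, h.2.2, map_zero]

lemma Pure.cp_ne {v w : ℕ} {x : L} (h : Fr.Pure v x) (hw : w ≠ v) : Fr.cp w x = 0 := by
  unfold Lev.cp
  rcases lt_or_gt_of_ne hw with h1 | h1
  · rw [h.P_of_lt Fr h1, h.P_of_lt Fr (by omega), sub_self]
  · rw [h.P_of_le Fr h1.le, h.P_of_le Fr (by omega), sub_self]

/-- Two different levels: a nonzero element has only one. -/
lemma Pure.unique {v w : ℕ} {x : L} (h : Fr.Pure v x) (h' : Fr.Pure w x) (hx : x ≠ 0) : v = w := by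
  by_contra hne
  have := h.cp_ne Fr (Ne.symm hne)
  rw [h'.cp_eq Fr] at this
  exact hx this

/-- A pure element of level `≥ 2` is not in level one, unless zero. -/
lemma Pure.sq_ne_one {v : ℕ} {x : L} (h : Fr.Pure v x) (hv : 2 ≤ v) : x ^ 2 ≠ 1 := by
  have := Fr.char0
  intro hx
  have h1 : x = 1 ∨ x = -1 := sq_eq_one_iff_of_ne_zero_or x hx
  have hx0 : x ≠ 0 := by rintro rfl; simp at hx
  have hp : Fr.P 1 x = x := by
    rcases h1 with rfl | rfl
    · exact Fr.P_one 1 le_rfl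
    · rw [map_neg, Fr.P_one 1 le_rfl]
  have := h.P_of_lt Fr (show 1 < v by omega)
  rw [hp] at this
  exact hx0 this
where
  sq_eq_one_iff_of_ne_zero_or (x : L) (hx : x ^ 2 = 1) : x = 1 ∨ x = -1 := by
    have : (x - 1) * (x + 1) = 0 := by ring_nf; rw [hx]; ring
    rcases mul_eq_zero.mp this with h | h
    · left; exact sub_eq_zero.mp h
    · right; exact eq_neg_of_add_eq_zero_left h

lemma Pure.neg {v : ℕ} {x : L} (h : Fr.Pure v x) : Fr.Pure v (-x) :=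
  ⟨h.1, by rw [map_neg, h.2.1], by rw [map_neg, h.2.2, neg_zero]⟩

lemma Pure.add {v : ℕ} {x y : L} (h : Fr.Pure v x) (h' : Fr.Pure v y) : Fr.Pure v (x + y) :=
  ⟨h.1, by rw [map_add, h.2.1, h'.2.1], by rw [map_add, h.2.2, h'.2.2, add_zero]⟩

lemma Pure.sub {v : ℕ} {x y : L} (h : Fr.Pure v x) (h' : Fr.Pure v y) : Fr.Pure v (x - y) :=
  ⟨h.1, by rw [map_sub, h.2.1, h'.2.1], by rw [map_sub, h.2.2, h'.2.2, sub_zero]⟩

lemma Pure.map {v : ℕ} {x : L} (h : Fr.Pure v x) {σ : L →+* L} (hσ : σ ∈ Fr.G) : Fr.Pure v (σ x) :=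
  ⟨h.1, by rw [Fr.P_G v σ hσ, h.2.1], by rw [Fr.P_G _ σ hσ, h.2.2, map_zero]⟩

/-- Level `v` times a lower level. -/
lemma Pure.mul_low {v w : ℕ} {x y : L} (h : Fr.Pure v x) (hy : Fr.P w y = y) (hw : w < v) (hw1 : 1 ≤ w) :
    Fr.Pure v (x * y) := by
  refine ⟨h.1, ?_, ?_⟩
  · exact Fr.P_mul h.1 h.2.1 (Fr.P_mono hw.le hy)
  · rw [Fr.P_mul_right (by omega) x (Fr.P_mono (by omega) hy), h.2.2, zero_mul]

lemma Pure.mul_same {v : ℕ} {x y : L} (h : Fr.Pure v x) (h' : Fr.Pure v y) (hv : 2 ≤ v) :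
    Fr.P (v - 1) (x * y) = x * y := Fr.sq_level v hv x y h.2.1 h.2.2 h'.2.1 h'.2.2

/-- Half of a pure element. -/
lemma Pure.half {v : ℕ} {x : L} (h : Fr.Pure v x) : Fr.Pure v (x / 2) := by
  have h2 : ∀ w, 1 ≤ w → Fr.P w (1 / 2 : L) = 1 / 2 := by
    intro w hw
    have : Fr.P w (2 : L) = 2 := by
      rw [← one_add_one_eq_two, map_add, Fr.P_one w hw]
    have := Fr.P_inv hw this
    rwa [one_div]
  refine ⟨h.1, ?_, ?_⟩
  · rw [div_eq_mul_one_div, Fr.P_mul_right h.1 x (h2 v h.1), h.2.1]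
  · rcases Nat.eq_zero_or_pos (v - 1) with h0 | h0
    · rw [h0, Fr.P_zero]
    · rw [div_eq_mul_one_div, Fr.P_mul_right h0 x (h2 _ h0), h.2.2, zero_mul]

/-- Sum of the components up to level `w`. -/
lemma sum_cp (w : ℕ) (x : L) : ∑ v ∈ Finset.Icc 1 w, Fr.cp v x = Fr.P w x := by
  induction w with
  | zero => simp [Fr.P_zero]
  | succ w ih =>
    rw [Finset.sum_Icc_succ_top (by omega), ih]
    unfold Lev.cp
    simp

lemma sum_cp_top (x : L) : ∑ v ∈ Finset.Icc 1 Fr.m, Fr.cp v x = x := by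
  rw [Fr.sum_cp, Fr.P_top _ le_rfl]

lemma sum_M_cp (w : ℕ) (x : L) : ∑ v ∈ Finset.Icc 1 w, Fr.M (Fr.cp v x) = Fr.M (Fr.P w x) := by
  induction w with
  | zero => simp [Fr.P_zero]
  | succ w ih =>
    rw [Finset.sum_Icc_succ_top (by omega), ih]
    have := Fr.M_split w (Fr.P (w + 1) x)
    rw [Fr.P_P, min_eq_left (by omega)] at this
    rw [this]
    rfl

lemma cp_mem {F : Subfield L} {x : L} (hx : x ∈ F) (v : ℕ) : Fr.cp v x ∈ F :=
  F.sub_mem (Fr.P_stab v F x hx) (Fr.P_stab (v - 1) F x hx)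

lemma cp_O {x : L} (hx : x ∈ Fr.O) (v : ℕ) : Fr.cp v x ∈ Fr.O :=
  Fr.O.sub_mem (Fr.P_O v x hx) (Fr.P_O (v - 1) x hx)

/-- If `b` is not in the subfield `F` then some component is not. -/
lemma exists_cp_not_mem {F : Subfield L} {b : L} (hb : b ∉ F) :
    ∃ v, 1 ≤ v ∧ Fr.cp v b ∉ F := by
  by_contra hcon
  push Not at hcon
  apply hb
  rw [← Fr.sum_cp_top b]
  exact F.sum_mem fun v hv => hcon v (Finset.mem_Icc.mp hv).1

/-- The exact top level of a nonzero element. -/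
lemma exists_top {b : L} (hb : b ≠ 0) : ∃ μ, 1 ≤ μ ∧ Fr.P μ b = b ∧ Fr.cp μ b ≠ 0 := by
  classical
  have hex : ∃ μ, Fr.P μ b = b := ⟨Fr.m, Fr.P_top _ le_rfl b⟩
  refine ⟨Nat.find hex, ?_, Nat.find_spec hex, ?_⟩
  · rcases Nat.eq_zero_or_pos (Nat.find hex) with h0 | h0
    · have := Nat.find_spec hex
      rw [h0, Fr.P_zero] at this
      exact absurd this.symm hb
    · exact h0
  · intro h
    unfold Lev.cp at h
    rw [Nat.find_spec hex, sub_eq_zero] at h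
    have hpos : 0 < Nat.find hex := by
      rcases Nat.eq_zero_or_pos (Nat.find hex) with h0 | h0
      · have := Nat.find_spec hex
        rw [h0, Fr.P_zero] at this
        exact absurd this.symm hb
      · exact h0
    exact Nat.find_min hex (Nat.sub_lt hpos one_pos) h.symm

/-- Squares, at the top level `μ ≥ 2`: `b = q + u`, `q = cp μ b`, `u = P (μ-1) b`. -/
lemma cp_sq {μ : ℕ} (hμ : 2 ≤ μ) {b : L} (hb : Fr.P μ b = b) :
    Fr.cp μ (b ^ 2) = 2 * (Fr.cp μ b * Fr.P (μ - 1) b) ∧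
    Fr.P (μ - 1) (b ^ 2) = Fr.cp μ b ^ 2 + Fr.P (μ - 1) b ^ 2 := by
  set q := Fr.cp μ b with hq
  set u := Fr.P (μ - 1) b with hu
  have hbe : b = q + u := by rw [hq, hu, Lev.cp, hb]; ring
  have hqp : Fr.Pure μ q := Fr.pure_cp (by omega) b
  have huu : Fr.P (μ - 1) u = u := by rw [hu, Fr.P_idem]
  have h1 : Fr.P (μ - 1) (q * q) = q * q := hqp.mul_same Fr hqp hμ
  have h2 : Fr.P (μ - 1) (u * u) = u * u := Fr.P_mul (by omega) huu huu
  have h3 : Fr.P (μ - 1) (q * u) = 0 := by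
    rw [Fr.P_mul_right (by omega) q huu, hqp.2.2, zero_mul]
  have hP : Fr.P (μ - 1) (b ^ 2) = q ^ 2 + u ^ 2 := by
    rw [hbe]
    have : (q + u) ^ 2 = q * q + u * u + (q * u + q * u) := by ring
    rw [this, map_add, map_add, map_add, h1, h2, h3]
    ring
  have hPμ : Fr.P μ (b ^ 2) = b ^ 2 := by
    rw [sq]; exact Fr.P_mul (by omega) hb hb
  refine ⟨?_, hP⟩
  unfold Lev.cp
  rw [hPμ, hP, hbe]
  ring

/-- Trace of a pure element of level `≥ 2`. -/
lemma Pure.tr_eq_zero {v : ℕ} {x : L} (h : Fr.Pure v x) (hv : 2 ≤ v) : Fr.tr x = 0 := by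
  rw [← Fr.P_tr 1 x le_rfl, h.P_of_lt Fr (by omega), map_zero]

lemma Pure.M_add_one {v : ℕ} {x : L} (h : Fr.Pure v x) (hv : 2 ≤ v) : Fr.M (x + 1) = Fr.M x + 1 := by
  have h1 : Fr.P 1 (1 : L) = 1 := Fr.P_one 1 le_rfl
  have h2 : Fr.P 1 x = 0 := h.P_of_lt Fr (by omega)
  rw [add_comm x 1, Fr.M_add_orth h1 h2, M_one]
  ring

end Pool.Agent.Lib.MPcb8a44.AB.Lev
end

section
/-!
# ST2: steps (3.3), (3.4) of the core lemma (Theorem AB, MP_cb8a44_nt)
-/
set_option autoImplicit false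

namespace Pool.Agent.Lib.MPcb8a44.AB.St2M

variable {L : Type} [Field L] (Fr : Lev L)

/-- `(a + 1) ^ 2` has level at most `v`. -/
lemma P_sq {v : ℕ} {a : L} (ha : Fr.Pure v a) : Fr.P v ((a + 1) ^ 2) = (a + 1) ^ 2 := by
  have h1 : Fr.P v (a + 1) = a + 1 := by rw [map_add, ha.2.1, Fr.P_one v ha.1]
  rw [sq]
  exact Fr.P_mul ha.1 h1 h1

lemma P_sq_low {v : ℕ} (hv : 2 ≤ v) {a : L} (ha : Fr.Pure v a) :
    Fr.P (v - 1) ((a + 1) ^ 2) = a ^ 2 + 1 := by
  have e : (a + 1) ^ 2 = a * a + (a + a) + 1 := by ring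
  rw [e, map_add, map_add, map_add, ha.2.2, Fr.P_one _ (by omega), ha.mul_same Fr ha hv]
  ring

lemma cp_sq_top {v : ℕ} (hv : 2 ≤ v) {a : L} (ha : Fr.Pure v a) :
    Fr.cp v ((a + 1) ^ 2) = 2 * a := by
  unfold Lev.cp
  rw [P_sq Fr ha, P_sq_low Fr hv ha]
  ring

lemma cp_add (v : ℕ) (x y : L) : Fr.cp v (x + y) = Fr.cp v x + Fr.cp v y := by
  unfold Lev.cp
  rw [map_add, map_add]
  ring

lemma cp_sub (v : ℕ) (x y : L) : Fr.cp v (x - y) = Fr.cp v x - Fr.cp v y := by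
  unfold Lev.cp
  rw [map_sub, map_sub]
  ring

lemma cp_zero_of_lt {v μ : ℕ} (h : v < μ) {x : L} (hx : Fr.P v x = x) : Fr.cp μ x = 0 := by
  unfold Lev.cp
  rw [Fr.P_mono h.le hx, Fr.P_mono (show v ≤ μ - 1 by omega) hx, sub_self]

/-- a component of a lower truncation -/
lemma cp_P {w v' : ℕ} (h : v' ≤ w) (x : L) : Fr.cp v' (Fr.P w x) = Fr.cp v' x := by
  unfold Lev.cp
  rw [Fr.P_P, Fr.P_P, min_eq_left h, min_eq_left (by omega)]

/-- if the big component of `b` has level below the top level, contradiction -/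
lemma top_not_gt {F : Subfield L} {v v' μ : ℕ} {a b κ : L} (hv : 2 ≤ v) (ha : Fr.Pure v a)
    (hκF : κ ∈ F) (hb : b ^ 2 = (a + 1) ^ 2 + κ) (hv' : 1 ≤ v') (hbv : Fr.cp v' b ∉ F)
    (hbs : b - Fr.cp v' b ∈ F) (hμ : Fr.P μ b = b) (hμ0 : Fr.cp μ b ≠ 0) (hvμ : v < μ)
    (hv'μ : v' < μ) : False := by
  have h1 := (Fr.cp_sq (show 2 ≤ μ by omega) hμ).1
  rw [hb, cp_add, cp_zero_of_lt Fr hvμ (P_sq Fr ha), zero_add] at h1
  have hκμ : Fr.cp μ κ ∈ F := Fr.cp_mem hκF μ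
  have hq : Fr.cp μ b ∈ F := by
    have h2 := Fr.cp_mem hbs μ
    rwa [cp_sub, (Fr.pure_cp hv' b).cp_ne Fr (ne_of_gt hv'μ), sub_zero] at h2
  have h2F : (2 : L) ∈ F := by
    have := F.add_mem F.one_mem F.one_mem
    rwa [one_add_one_eq_two] at this
  have hu : Fr.P (μ - 1) b ∈ F := by
    have h3 : Fr.P (μ - 1) b = Fr.cp μ κ / (2 * Fr.cp μ b) := by
      rw [h1]
      have := Fr.two_ne
      field_simp
    rw [h3]
    exact F.div_mem hκμ (F.mul_mem h2F hq)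
  apply hbv
  rw [← cp_P Fr (show v' ≤ μ - 1 by omega) b]
  exact Fr.cp_mem hu v'

end Pool.Agent.Lib.MPcb8a44.AB.St2M

namespace Pool.Agent.Lib.MPcb8a44.AB

open St2M

theorem specST2 : SpecST2 := by
  intro L _ Fr K F t T1 C1 hFK hreal ht hT1 hT1t v a b κ hv ha haK haO haF hbK hbO hbF hκF hκO hκ0
    hκM hbeq hbM hquad
  have h2 := Fr.two_ne
  have hchar := Fr.char0
  have h2F : (2 : L) ∈ F := by
    have := F.add_mem F.one_mem F.one_mem
    rwa [one_add_one_eq_two] at this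
  have hC1 : 0 ≤ C1 := (Fr.M_nonneg κ).trans hκM
  obtain ⟨v', hv', hbv⟩ := Fr.exists_cp_not_mem hbF
  have hcK : Fr.cp v' b ∈ K := Fr.cp_mem hbK v'
  have hcO : Fr.cp v' b ∈ Fr.O := Fr.cp_O hbO v'
  have hMc : t ≤ Fr.M (Fr.cp v' b) := ht _ hcK hcO hbv
  have hMs : Fr.M (b - Fr.cp v' b) ≤ T1 := by
    have := Fr.M_split_cp v' b
    linarith
  have hbs : b - Fr.cp v' b ∈ F := by
    by_contra hcon
    have := ht _ (K.sub_mem hbK hcK) (Fr.O.sub_mem hbO hcO) hcon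
    linarith
  have hb0 : b ≠ 0 := by
    rintro rfl
    exact hbF F.zero_mem
  have hc0 : Fr.cp v' b ≠ 0 := by
    intro h0
    rw [h0] at hbv
    exact hbv F.zero_mem
  have ha0 : a ≠ 0 := by
    rintro rfl
    exact haF F.zero_mem
  obtain ⟨μ, hμ1, hμ, hμ0⟩ := Fr.exists_top hb0
  have hv'μ : v' ≤ μ := by
    by_contra hcon
    exact hc0 (cp_zero_of_lt Fr (by omega) hμ)
  rcases lt_or_ge v v' with hvv' | hvv'
  · -- step (3.4)
    have hμv' : μ = v' := by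
      by_contra hcon
      exact top_not_gt Fr hv ha hκF hbeq hv' hbv hbs hμ hμ0 (by omega) (by omega)
    subst hμv'
    have h1 := (Fr.cp_sq (show 2 ≤ μ by omega) hμ).1
    rw [hbeq, cp_add, cp_zero_of_lt Fr hvv' (P_sq Fr ha), zero_add] at h1
    have hκμ : Fr.cp μ κ ∈ F := Fr.cp_mem hκF μ
    have hu : Fr.P (μ - 1) b ∈ F := by
      have h3 := Fr.P_stab (μ - 1) F _ hbs
      rwa [map_sub, (Fr.pure_cp hv' b).2.2, sub_zero] at h3
    have hu0 : Fr.P (μ - 1) b = 0 := by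
      by_contra hne
      apply hbv
      have h3 : Fr.cp μ b = Fr.cp μ κ / (2 * Fr.P (μ - 1) b) := by
        rw [h1]
        field_simp
      rw [h3]
      exact F.div_mem hκμ (F.mul_mem h2F hu)
    have hbp : Fr.Pure μ b := ⟨hμ1, hμ, hu0⟩
    refine ⟨μ, hvv', hbp, ?_⟩
    intro hκl
    have hb2 : Fr.P (μ - 1) (b ^ 2) = b ^ 2 := by
      rw [sq]
      exact hbp.mul_same Fr hbp (by omega)
    have hκe : κ = b ^ 2 - (a + 1) ^ 2 := by rw [hbeq]; ring
    have hκP : Fr.P (μ - 1) κ = κ := by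
      rw [hκe, map_sub, hb2, Fr.P_mono (show v ≤ μ - 1 by omega) (P_sq Fr ha)]
    have hκP2 : Fr.P (μ - 2) κ = κ := by
      unfold Lev.cp at hκl
      rw [hκP, sub_eq_zero] at hκl
      rw [show μ - 2 = μ - 1 - 1 by omega]
      exact hκl.symm
    rcases Nat.lt_or_ge (v + 1) μ with hlt | hge
    · -- (i)
      obtain ⟨σ, hσG, hσfix, hσq⟩ := Fr.G_quarter μ (by omega)
      have hb2' : σ (b ^ 2) = b ^ 2 := by
        apply hσfix
        rw [hbeq, map_add, hκP2, Fr.P_mono (show v ≤ μ - 2 by omega) (P_sq Fr ha)]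
      rw [map_pow] at hb2'
      have hσσ := hσq b hμ hu0
      have : σ (σ b) = b := by
        rcases sq_eq_sq_iff_eq_or_eq_neg.mp hb2' with h | h
        · rw [h, h]
        · rw [h, map_neg, h, neg_neg]
      rw [this] at hσσ
      have h3 : 2 * b = 0 := by
        have : b + b = 0 := by
          nth_rewrite 1 [hσσ]
          ring
        rw [two_mul]
        exact this
      rcases mul_eq_zero.mp h3 with h | h
      · exact h2 h
      · exact hb0 h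
    · -- (ii)
      have hμe : μ = v + 1 := by omega
      subst hμe
      obtain ⟨σ, hσG, hσfix, hσh⟩ := Fr.G_half v hv
      have hσκ : σ κ = κ := hσfix κ (by simpa using hκP2)
      have hσa : σ a = -a := hσh a ha.2.1 ha.2.2
      have hb'K : σ b ∈ K := Fr.G_stab σ hσG K b hbK
      have hb'O : σ b ∈ Fr.O := Fr.O_G σ hσG b hbO
      have hb'eq : (σ b) ^ 2 = (1 - a) ^ 2 + κ := by
        rw [← map_pow, hbeq, map_add, map_pow, map_add, map_one, hσκ, hσa]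
        ring
      have hb'p : Fr.Pure (v + 1) (σ b) := hbp.map Fr hσG
      -- integrality of (b + b')/2
      have hw2 : (b * σ b) ^ 2 = (a ^ 2 + κ - 1) ^ 2 + 4 * κ := by
        rw [mul_pow, hbeq, hb'eq]; ring
      have hyO : (b * σ b + (a ^ 2 + κ - 1)) / 2 ∈ Fr.O := by
        refine Fr.int_quad _ (b * σ b) (Fr.O.mul_mem hbO hb'O) κ hκO ?_
        have e : ((b * σ b + (a ^ 2 + κ - 1)) / 2) ^ 2 -
            b * σ b * ((b * σ b + (a ^ 2 + κ - 1)) / 2) + κ =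
            ((a ^ 2 + κ - 1) ^ 2 + 4 * κ - (b * σ b) ^ 2) / 4 := by ring
        rw [e, hw2]
        ring
      have hsO : (b + σ b) / 2 ∈ Fr.O := by
        refine Fr.int_quad _ 0 Fr.O.zero_mem (-((b * σ b + (a ^ 2 + κ - 1)) / 2 + 1))
          (Fr.O.neg_mem (Fr.O.add_mem hyO Fr.O.one_mem)) ?_
        have e : ((b + σ b) / 2) ^ 2 - 0 * ((b + σ b) / 2) +
            -((b * σ b + (a ^ 2 + κ - 1)) / 2 + 1) =
            (b ^ 2 + (σ b) ^ 2 - 2 * (a ^ 2 + κ + 1)) / 4 := by ring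
        rw [e, hbeq, hb'eq]
        ring
      have hdO : (b - σ b) / 2 ∈ Fr.O := by
        have e : (b - σ b) / 2 = b - (b + σ b) / 2 := by ring
        rw [e]
        exact Fr.O.sub_mem hbO hsO
      have h2K : (2 : L) ∈ K := hFK h2F
      have hsK : (b + σ b) / 2 ∈ K := K.div_mem (K.add_mem hbK hb'K) h2K
      have hdK : (b - σ b) / 2 ∈ K := K.div_mem (K.sub_mem hbK hb'K) h2K
      have hMsum : Fr.M ((b + σ b) / 2) + Fr.M ((b - σ b) / 2) = Fr.M b := by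
        rw [Fr.M_half, Fr.M_half]
        have h3 := Fr.M_par b (σ b)
        rw [Fr.M_G hσG] at h3
        linarith
      have hsp : Fr.Pure (v + 1) ((b + σ b) / 2) := (hbp.add Fr hb'p).half Fr
      have hdp : Fr.Pure (v + 1) ((b - σ b) / 2) := (hbp.sub Fr hb'p).half Fr
      have hprod : (b + σ b) / 2 * ((b - σ b) / 2) = a := by
        have e : (b + σ b) / 2 * ((b - σ b) / 2) = (b ^ 2 - (σ b) ^ 2) / 4 := by ring
        rw [e, hbeq, hb'eq]
        ring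
      -- general contradiction
      have final : ∀ s l : L, s ∈ K → s ∈ Fr.O → Fr.M s ≤ T1 → Fr.Pure (v + 1) s → s * l = a →
          s ^ 2 + l ^ 2 + 2 * a = b ^ 2 → False := by
        intro s l hsK hsO hsM hsp hsl hsum
        refine hquad s 0 κ hsK hsO hsM K.zero_mem Fr.O.zero_mem (by simpa using hC1)
          (hFK hκF) hκO hκM (hsp.sq_ne_one Fr (by omega)) ?_
        have hl2 : l ^ 2 = a ^ 2 + 1 + κ - s ^ 2 := by
          rw [hbeq] at hsum
          linear_combination hsum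
        have e : a ^ 2 = s ^ 2 * l ^ 2 := by rw [← hsl]; ring
        rw [hl2] at e
        linear_combination e
      by_cases hsF : (b + σ b) / 2 ∈ F
      · by_cases hdF : (b - σ b) / 2 ∈ F
        · apply hbF
          have e : b = (b + σ b) / 2 + (b - σ b) / 2 := by ring
          rw [e]
          exact F.add_mem hsF hdF
        · have hMd := ht _ hdK hdO hdF
          refine final _ _ hsK hsO (by linarith) hsp hprod ?_
          rw [← hprod]
          ring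
      · have hMs' := ht _ hsK hsO hsF
        refine final _ _ hdK hdO (by linarith) hdp (by rw [mul_comm]; exact hprod) ?_
        rw [← hprod]
        ring
  · -- step (3.3)
    exfalso
    have hμv : μ ≤ v := by
      by_contra hcon
      exact top_not_gt Fr hv ha hκF hbeq hv' hbv hbs hμ hμ0 (by omega) (by omega)
    have hbv' : Fr.P v b = b := Fr.P_mono hμv hμ
    obtain ⟨e1, e2⟩ := Fr.cp_sq hv hbv'
    rw [hbeq, cp_add, cp_sq_top Fr hv ha] at e1
    rw [hbeq, map_add, P_sq_low Fr hv ha] at e2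
    set g := Fr.cp v b with hg
    set u := Fr.P (v - 1) b with hu
    -- κ has level at most v
    have hκe : κ = b ^ 2 - (a + 1) ^ 2 := by rw [hbeq]; ring
    have hκP : Fr.P v κ = κ := by
      have : Fr.P v (b ^ 2) = b ^ 2 := by
        rw [sq]
        exact Fr.P_mul (by omega) hbv' hbv'
      rw [hκe, map_sub, this, P_sq Fr ha]
    have hc1F : Fr.cp v κ ∈ F := Fr.cp_mem hκF v
    have hc2F : Fr.P (v - 1) κ ∈ F := Fr.P_stab _ F κ hκF
    have hc1M : Fr.M (Fr.cp v κ) ≤ C1 := (Fr.M_cp_le v κ).trans hκM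
    have hc2M : Fr.M (Fr.P (v - 1) κ) ≤ C1 := (Fr.M_P_le _ κ).trans hκM
    have key : ∀ s l : L, s ∈ K → s ∈ Fr.O → Fr.M s ≤ T1 → 2 * (s * l) = 2 * a + Fr.cp v κ →
        s ^ 2 + l ^ 2 = a ^ 2 + 1 + Fr.P (v - 1) κ → s ^ 2 ≠ 1 → False := by
      intro s l hsK hsO hsM hsl hsum hs1
      refine hquad s (Fr.cp v κ) (Fr.P (v - 1) κ) hsK hsO hsM (hFK hc1F) (Fr.cp_O hκO v) hc1M
        (hFK hc2F) (Fr.P_O _ κ hκO) hc2M hs1 ?_
      have hl2 : l ^ 2 = a ^ 2 + 1 + Fr.P (v - 1) κ - s ^ 2 := by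
        linear_combination hsum
      have e : (2 * a + Fr.cp v κ) ^ 2 = 4 * (s ^ 2 * l ^ 2) := by rw [← hsl]; ring
      rw [hl2] at e
      linear_combination e / 4
    rcases Nat.lt_or_ge v' v with hlt | hge
    · -- g is small
      have hgs : g = Fr.cp v (b - Fr.cp v' b) := by
        rw [cp_sub, (Fr.pure_cp hv' b).cp_ne Fr (ne_of_gt hlt), sub_zero]
      have hgM : Fr.M g ≤ T1 := by
        rw [hgs]
        exact (Fr.M_cp_le _ _).trans hMs
      refine key g u (Fr.cp_mem hbK v) (Fr.cp_O hbO v) hgM e1.symm ?_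
        ((Fr.pure_cp (by omega) b).sq_ne_one Fr hv)
      rw [← e2]
    · -- u is small
      have hv'e : v' = v := by omega
      subst hv'e
      have hus : u = Fr.P (v' - 1) (b - Fr.cp v' b) := by
        rw [map_sub, (Fr.pure_cp hv' b).2.2, sub_zero]
      have huM : Fr.M u ≤ T1 := by
        rw [hus]
        exact (Fr.M_P_le _ _).trans hMs
      have huK : u ∈ K := Fr.P_stab _ K b hbK
      have huO : u ∈ Fr.O := Fr.P_O _ b hbO
      have e1' : 2 * (u * g) = 2 * a + Fr.cp v' κ := by rw [mul_comm u g]; exact e1.symm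
      have e2' : u ^ 2 + g ^ 2 = a ^ 2 + 1 + Fr.P (v' - 1) κ := by rw [e2]; ring
      by_cases hu1 : u ^ 2 = 1
      · have eq1 : Fr.cp v' κ * a + (Fr.cp v' κ) ^ 2 / 4 - Fr.P (v' - 1) κ = 0 := by
          have hg2 : g ^ 2 = a ^ 2 + Fr.P (v' - 1) κ := by
            rw [hu1] at e2'
            linear_combination e2'
          have e : (2 * a + Fr.cp v' κ) ^ 2 = 4 * (u ^ 2 * g ^ 2) := by rw [← e1']; ring
          rw [hu1, hg2] at e
          linear_combination e / 4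
        have hc10 : Fr.cp v' κ = 0 := by
          by_contra hne
          apply haF
          have h4F : (4 : L) ∈ F := by
            have h22 := F.mul_mem h2F h2F
            rwa [show (2 : L) * 2 = 4 by norm_num] at h22
          have e : a = (Fr.P (v' - 1) κ - (Fr.cp v' κ) ^ 2 / 4) / Fr.cp v' κ := by
            rw [eq_div_iff hne]
            linear_combination eq1
          rw [e]
          exact F.div_mem (F.sub_mem hc2F (F.div_mem (F.pow_mem hc1F 2) h4F)) hc1F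
        have hc20 : Fr.P (v' - 1) κ = 0 := by
          rw [hc10] at eq1
          simpa using eq1
        apply hκ0
        unfold Lev.cp at hc10
        rw [hκP, hc20, sub_zero] at hc10
        exact hc10
      · exact key u g huK huO huM e1' e2' hu1

end Pool.Agent.Lib.MPcb8a44.AB
end

section
/-!
# CLA: the core lemma in a frame (Theorem AB, MP_cb8a44_nt)
-/
set_option autoImplicit false

namespace Pool.Agent.Lib.MPcb8a44.AB.ClaM

open St2M

variable {L : Type} [Field L] (Fr : Lev L)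

/-- From `c ^ 2 + β` being a sum of `n' + 1` squares to `b ^ 2 = c ^ 2 + κ`. -/
lemma extract (K F : Subfield L) (hreal : ∀ x ∈ K, Fr.cj x = x) (n' s : ℕ)
    (B C1 C2 T1 t : ℝ) (hC1 : C1 = ((n' + 1 : ℕ) : ℝ) ^ 2 * C2)
    (hL4 : ∀ (v : ℕ) (x : L), Fr.Pure v x → x ∈ K → x ∈ Fr.O → x ≠ 0 →
      (2 : ℝ) ^ v ≤ 2 ^ s * Fr.M x)
    (hC2 : ∀ x ∈ K, x ∈ Fr.O → Fr.M x ≤ T1 → Fr.M (x ^ 2) ≤ C2)
    (β : L) (k : ℕ) (x : Fin k → L) (hx : ∀ i, x i ∈ K ∧ x i ∈ Fr.O) (hβ : β = ∑ i, x i ^ 2)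
    (hxB : ∑ i, Fr.M (x i) ≤ B) (hβM : Fr.M β ≤ C2)
    (hβn : ¬ ∃ z : Fin n' → L, (∀ j, z j ∈ K ∧ z j ∈ Fr.O) ∧ β = ∑ j, z j ^ 2)
    (ht : ∀ x ∈ K, x ∈ Fr.O → x ∉ F → t ≤ Fr.M x) (htT : T1 + 2 < t)
    (H : ∀ (k' : ℕ) (y : Fin k' → L), (∀ i, y i ∈ K ∧ y i ∈ Fr.O) → ∑ i, Fr.M (y i) ≤ 2 * t →
      ∃ z : Fin (n' + 1) → L, (∀ j, z j ∈ K ∧ z j ∈ Fr.O) ∧ ∑ i, y i ^ 2 = ∑ j, z j ^ 2)
    (c : L) (hcK : c ∈ K) (hcO : c ∈ Fr.O) (R : ℝ) (hBR : B ≤ R) (hRT : R ≤ T1)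
    (hcM : Fr.M c + B ≤ t + R) (hcF : c ^ 2 ∉ F) :
    ∃ b κ : L, b ∈ K ∧ b ∈ Fr.O ∧ b ∉ F ∧ κ ∈ F ∧ κ ∈ Fr.O ∧ κ ≠ 0 ∧ Fr.M κ ≤ C1 ∧
      b ^ 2 = c ^ 2 + κ ∧ Fr.M b ≤ t + R ∧
      (∀ w, 2 ≤ w → Fr.cp w κ ≠ 0 → (2 : ℝ) ^ w ≤ 2 ^ s * R) := by
  have hy : ∀ i, (Fin.cons c x : Fin (k + 1) → L) i ∈ K ∧
      (Fin.cons c x : Fin (k + 1) → L) i ∈ Fr.O := by
    intro i
    refine Fin.cases ?_ ?_ i
    · exact ⟨hcK, hcO⟩
    · intro j
      exact hx j
  have hyM : ∑ i, Fr.M ((Fin.cons c x : Fin (k + 1) → L) i) ≤ t + R := by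
    rw [Fin.sum_univ_succ]
    simp only [Fin.cons_zero, Fin.cons_succ]
    linarith
  obtain ⟨z, hz, hsum⟩ := H (k + 1) (Fin.cons c x) hy (by linarith)
  have hzM : ∑ j, Fr.M (z j) ≤ t + R := by
    rw [Fr.sum_M_real z fun j => hreal _ (hz j).1, ← hsum,
      ← Fr.sum_M_real _ fun j => hreal _ (hy j).1]
    exact hyM
  rw [Fin.sum_univ_succ] at hsum
  simp only [Fin.cons_zero, Fin.cons_succ] at hsum
  rw [← hβ] at hsum
  have hxM : ∀ i, Fr.M (x i) ≤ B := by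
    intro i
    refine le_trans ?_ hxB
    exact Finset.single_le_sum (f := fun i => Fr.M (x i)) (fun j _ => Fr.M_nonneg _)
      (Finset.mem_univ i)
  have hsmall : ∀ y ∈ K, y ∈ Fr.O → Fr.M y ≤ R → y ∈ F := by
    intro y hyK hyO hyR
    by_contra hcon
    have := ht y hyK hyO hcon
    linarith
  have hxF : ∀ i, x i ∈ F := fun i => hsmall _ (hx i).1 (hx i).2 ((hxM i).trans hBR)
  have hβF : β ∈ F := by
    rw [hβ]
    exact F.sum_mem fun i _ => F.pow_mem (hxF i) 2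
  have hβO : β ∈ Fr.O := by
    rw [hβ]
    exact Fr.O.sum_mem fun i _ => Fr.O.pow_mem (hx i).2 2
  obtain ⟨k0, hk0⟩ : ∃ k0, z k0 ∉ F := by
    by_contra hcon
    push Not at hcon
    apply hcF
    have e : c ^ 2 = ∑ j, z j ^ 2 - β := by rw [← hsum]; ring
    rw [e]
    exact F.sub_mem (F.sum_mem fun j _ => F.pow_mem (hcon j) 2) hβF
  have hk0M : t ≤ Fr.M (z k0) := ht _ (hz k0).1 (hz k0).2 hk0
  rw [Fin.sum_univ_succAbove _ k0] at hsum hzM
  have hrest : ∀ i, Fr.M (z (k0.succAbove i)) ≤ R := by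
    intro i
    have h1 : Fr.M (z (k0.succAbove i)) ≤ ∑ i, Fr.M (z (k0.succAbove i)) :=
      Finset.single_le_sum (f := fun i => Fr.M (z (k0.succAbove i)))
        (fun j _ => Fr.M_nonneg _) (Finset.mem_univ i)
    linarith
  have hrF : ∀ i, z (k0.succAbove i) ∈ F := fun i => hsmall _ (hz _).1 (hz _).2 (hrest i)
  have hsum0 : 0 ≤ ∑ i, Fr.M (z (k0.succAbove i)) :=
    Finset.sum_nonneg fun j _ => Fr.M_nonneg _
  refine ⟨z k0, β - ∑ i, z (k0.succAbove i) ^ 2, (hz k0).1, (hz k0).2, hk0, ?_, ?_, ?_, ?_, ?_,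
    ?_, ?_⟩
  · exact F.sub_mem hβF (F.sum_mem fun i _ => F.pow_mem (hrF i) 2)
  · exact Fr.O.sub_mem hβO (Fr.O.sum_mem fun i _ => Fr.O.pow_mem (hz _).2 2)
  · intro h0
    exact hβn ⟨fun i => z (k0.succAbove i), fun i => hz _, sub_eq_zero.mp h0⟩
  · have e : β - ∑ i, z (k0.succAbove i) ^ 2 =
        ∑ i, (Fin.cons β (fun i => -(z (k0.succAbove i) ^ 2)) : Fin (n' + 1) → L) i := by
      rw [Fin.sum_univ_succ]
      simp only [Fin.cons_zero, Fin.cons_succ, Finset.sum_neg_distrib]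
      ring
    rw [e]
    refine (Fr.M_sum_le _).trans ?_
    rw [Fin.sum_univ_succ]
    simp only [Fin.cons_zero, Fin.cons_succ, Fr.M_neg]
    have h1 : ∑ i, Fr.M (z (k0.succAbove i) ^ 2) ≤ ∑ _i : Fin n', C2 :=
      Finset.sum_le_sum fun i _ => hC2 _ (hz _).1 (hz _).2 ((hrest i).trans hRT)
    rw [Finset.sum_const, Finset.card_univ, Fintype.card_fin, nsmul_eq_mul] at h1
    rw [hC1, sq, mul_assoc]
    refine mul_le_mul_of_nonneg_left ?_ (Nat.cast_nonneg _)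
    push_cast
    linarith
  · linear_combination (-1 : L) * hsum
  · linarith
  · intro w hw hκw
    -- some small element has level at least `w`
    have hex : ∃ y ∈ K, y ∈ Fr.O ∧ Fr.M y ≤ R ∧ Fr.P (w - 1) y ≠ y := by
      by_contra hcon
      push Not at hcon
      apply hκw
      have hsq : ∀ y ∈ K, y ∈ Fr.O → Fr.M y ≤ R → Fr.P (w - 1) (y ^ 2) = y ^ 2 := by
        intro y hyK hyO hyR
        rw [sq]
        exact Fr.P_mul (by omega) (hcon y hyK hyO hyR) (hcon y hyK hyO hyR)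
      have hP : Fr.P (w - 1) (β - ∑ i, z (k0.succAbove i) ^ 2) =
          β - ∑ i, z (k0.succAbove i) ^ 2 := by
        rw [map_sub, hβ, map_sum, map_sum]
        congr 1
        · exact Finset.sum_congr rfl fun i _ =>
            hsq _ (hx i).1 (hx i).2 ((hxM i).trans hBR)
        · exact Finset.sum_congr rfl fun i _ => hsq _ (hz _).1 (hz _).2 (hrest i)
      exact cp_zero_of_lt Fr (show w - 1 < w by omega) hP
    obtain ⟨y, hyK, hyO, hyR, hyP⟩ := hex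
    have hy0 : y ≠ 0 := by
      rintro rfl
      exact hyP (map_zero _)
    obtain ⟨μ, hμ1, hμ, hμ0⟩ := Fr.exists_top hy0
    have hwμ : w ≤ μ := by
      by_contra hcon
      exact hyP (Fr.P_mono (show μ ≤ w - 1 by omega) hμ)
    have h1 := hL4 μ _ (Fr.pure_cp hμ1 y) (Fr.cp_mem hyK μ) (Fr.cp_O hyO μ) hμ0
    have h2 : (2 : ℝ) ^ w ≤ 2 ^ μ := pow_le_pow_right₀ (by norm_num) hwμ
    have h3 : (2 : ℝ) ^ s * Fr.M (Fr.cp μ y) ≤ 2 ^ s * R :=
      mul_le_mul_of_nonneg_left ((Fr.M_cp_le μ y).trans hyR) (by positivity)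
    linarith

end Pool.Agent.Lib.MPcb8a44.AB.ClaM

namespace Pool.Agent.Lib.MPcb8a44.AB

open St2M ClaM

theorem specCLA (hST1 : SpecST1) (hST2 : SpecST2) : SpecCLA := by
  intro L _ Fr K F n s s0 B C1 C2 T1 t hFK hreal hn hB hs0 hT1 hend hC1 hL4 hC2 β k x hx hβ hxB
    hβM hβn ht hex htT htC hquad
  obtain ⟨n', rfl⟩ : ∃ n', n = n' + 1 := ⟨n - 1, by omega⟩
  rw [Nat.add_sub_cancel] at hβn
  by_contra hcon
  push Not at hcon
  have H : ∀ (k' : ℕ) (y : Fin k' → L), (∀ i, y i ∈ K ∧ y i ∈ Fr.O) → ∑ i, Fr.M (y i) ≤ 2 * t →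
      ∃ z : Fin (n' + 1) → L, (∀ j, z j ∈ K ∧ z j ∈ Fr.O) ∧ ∑ i, y i ^ 2 = ∑ j, z j ^ 2 :=
    fun k' y hy hyt => hcon k' y hy hyt
  have hs0R : (2 : ℝ) ≤ s0 := by exact_mod_cast hs0
  have hT1a : (s0 : ℝ) * (B + 1) ≤ T1 := by rw [hT1]; exact le_max_left _ _
  have hT10 : 0 ≤ T1 := le_trans (by positivity) hT1a
  have h2 := Fr.two_ne
  have h2F : (2 : L) ∈ F := by
    have := F.add_mem F.one_mem F.one_mem
    rwa [one_add_one_eq_two] at this
  have EX := extract Fr K F hreal n' s B C1 C2 T1 t hC1 hL4 hC2 β k x hx hβ hxB hβM hβn ht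
    htT H
  obtain ⟨a0, ha0K, ha0O, ha0F, ha0M⟩ := hex
  -- `a0` is pure
  obtain ⟨v0, hv0, hv0F⟩ := Fr.exists_cp_not_mem ha0F
  have ha0p : Fr.Pure v0 a0 := by
    have h1 := Fr.M_split_cp v0 a0
    have h3 := ht _ (Fr.cp_mem ha0K v0) (Fr.cp_O ha0O v0) hv0F
    have h4 : a0 - Fr.cp v0 a0 = 0 := by
      by_contra hne
      have := Fr.one_le_M (Fr.O.sub_mem ha0O (Fr.cp_O ha0O v0)) hne
      linarith
    rw [sub_eq_zero.mp h4]
    exact Fr.pure_cp hv0 a0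
  -- a pure element of level at least two
  have claimA : ∃ (v : ℕ) (a : L), 2 ≤ v ∧ Fr.Pure v a ∧ a ∈ K ∧ a ∈ Fr.O ∧ a ∉ F ∧
      Fr.M a ≤ t + (B + 1) := by
    rcases Nat.lt_or_ge v0 2 with hlt | hge
    · have hv01 : v0 = 1 := by omega
      subst hv01
      have hP0 : Fr.P 1 a0 = a0 := ha0p.2.1
      obtain ⟨c, hcK, hcO, hcP, hcM, hcF⟩ : ∃ c : L, c ∈ K ∧ c ∈ Fr.O ∧ Fr.P 1 c = c ∧
          Fr.M c ≤ t + 1 ∧ c ^ 2 ∉ F := by
        by_cases hsq : a0 ^ 2 ∈ F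
        · have hpm := Fr.M_par a0 1
          rw [Fr.M_one, ha0M] at hpm
          have hmem : ∀ c : L, c ^ 2 = a0 ^ 2 + 1 + 2 * a0 ∨ c ^ 2 = a0 ^ 2 + 1 - 2 * a0 →
              c ^ 2 ∉ F := by
            intro c hc hcF
            apply ha0F
            rcases hc with hc | hc
            · have e : a0 = (c ^ 2 - (a0 ^ 2 + 1)) / 2 := by
                rw [hc]; field_simp; ring
              rw [e]
              exact F.div_mem (F.sub_mem hcF (F.add_mem hsq F.one_mem)) h2F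
            · have e : a0 = ((a0 ^ 2 + 1) - c ^ 2) / 2 := by
                rw [hc]; field_simp; ring
              rw [e]
              exact F.div_mem (F.sub_mem (F.add_mem hsq F.one_mem) hcF) h2F
          rcases le_total (Fr.M (a0 + 1)) (Fr.M (a0 - 1)) with hle | hle
          · refine ⟨a0 + 1, K.add_mem ha0K K.one_mem, Fr.O.add_mem ha0O Fr.O.one_mem, ?_, ?_, ?_⟩
            · rw [map_add, hP0, Fr.P_one 1 le_rfl]
            · linarith
            · exact hmem _ (Or.inl (by ring))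
          · refine ⟨a0 - 1, K.sub_mem ha0K K.one_mem, Fr.O.sub_mem ha0O Fr.O.one_mem, ?_, ?_, ?_⟩
            · rw [map_sub, hP0, Fr.P_one 1 le_rfl]
            · linarith
            · exact hmem _ (Or.inr (by ring))
        · exact ⟨a0, ha0K, ha0O, hP0, by rw [ha0M]; linarith, hsq⟩
      obtain ⟨b, κ, hbK, hbO, hbF, hκF, hκO, hκ0, hκM, hbeq, hbM, -⟩ :=
        EX c hcK hcO (B + 1) (by linarith) (by nlinarith) (by linarith) hcF
      obtain ⟨v', hv', hpure⟩ := hST1 L Fr K F t T1 C1 hFK hreal ht (by linarith) htC c b κ hcP hcK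
        hcO (fun h => hcF (F.pow_mem h 2)) hcM hbK hbO hbF hκF hκO hκ0 hκM hbeq (by nlinarith)
      exact ⟨v', b, hv', hpure, hbK, hbO, hbF, hbM⟩
    · exact ⟨v0, a0, hge, ha0p, ha0K, ha0O, ha0F, by rw [ha0M]; linarith⟩
  -- the induction
  have main : ∀ j : ℕ, 1 ≤ j → j ≤ s0 → ∃ (v : ℕ) (a : L), j + 1 ≤ v ∧ Fr.Pure v a ∧ a ∈ K ∧
      a ∈ Fr.O ∧ a ∉ F ∧ Fr.M a ≤ t + j * (B + 1) ∧
      (2 ≤ j → (2 : ℝ) ^ (v - 1) ≤ 2 ^ s * (j * (B + 1))) := by
    intro j hj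
    induction j, hj using Nat.le_induction with
    | base =>
      intro _
      obtain ⟨v, a, hv, hp, haK, haO, haF, haM⟩ := claimA
      exact ⟨v, a, hv, hp, haK, haO, haF, by push_cast; linarith, by omega⟩
    | succ j hj ih =>
      intro hjs
      obtain ⟨v, a, hv, hp, haK, haO, haF, haM, -⟩ := ih (by omega)
      have hjs' : ((j : ℝ) + 1) ≤ s0 := by exact_mod_cast hjs
      have hj1 : (1 : ℝ) ≤ j := by exact_mod_cast hj
      have hv2 : 2 ≤ v := by omega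
      have hcF : (a + 1) ^ 2 ∉ F := by
        intro h
        apply haF
        have h1 := Fr.cp_mem h v
        rw [cp_sq_top Fr hv2 hp] at h1
        have e : a = 2 * a / 2 := by field_simp
        rw [e]
        exact F.div_mem h1 h2F
      obtain ⟨b, κ, hbK, hbO, hbF, hκF, hκO, hκ0, hκM, hbeq, hbM, hlev⟩ :=
        EX (a + 1) (K.add_mem haK K.one_mem) (Fr.O.add_mem haO Fr.O.one_mem)
          ((j + 1) * (B + 1)) (by nlinarith) (by nlinarith)
          (by rw [hp.M_add_one Fr hv2]; nlinarith) hcF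
      obtain ⟨v', hvv', hbp, hκc⟩ := hST2 L Fr K F t T1 C1 hFK hreal ht hT10 (by linarith) v a b κ
        hv2 hp haK haO haF hbK hbO hbF hκF hκO hκ0 hκM hbeq (by nlinarith) (hquad a haK haO haF)
      refine ⟨v', b, by omega, hbp, hbK, hbO, hbF, by push_cast; exact hbM, fun _ => ?_⟩
      have := hlev (v' - 1) (by omega) hκc
      push_cast
      exact this
  obtain ⟨v, a, hv, -, -, -, -, -, hfin⟩ := main s0 (by omega) le_rfl
  have h1 := hfin hs0
  have h3 : (2 : ℝ) ^ s0 ≤ 2 ^ (v - 1) := pow_le_pow_right₀ (by norm_num) (by omega)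
  linarith

end Pool.Agent.Lib.MPcb8a44.AB
end

section
/-!
Module CLC of Theorem AB (MP_cb8a44_nt): the core lemma for subfields of a cyclotomic field.
-/
set_option autoImplicit false

namespace Pool.Agent.Lib.MPcb8a44.AB

open scoped BigOperators ComplexConjugate

namespace ClcM

/-- The subfield of a subfield `C` of the complex numbers cut out by `K`. -/
noncomputable def cut (C K : IntermediateField ℚ ℂ) : Subfield C :=
  K.toSubfield.comap (algebraMap C ℂ)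

lemma mem_cut {C K : IntermediateField ℚ ℂ} (x : C) : x ∈ cut C K ↔ (x : ℂ) ∈ K := Iff.rfl

lemma coe_sum_sq {C : IntermediateField ℚ ℂ} {k : ℕ} (x : Fin k → C) :
    ((∑ i, x i ^ 2 : C) : ℂ) = ∑ i, (x i : ℂ) ^ 2 := by
  simp

end ClcM

open ClcM in
theorem specCLC (hCLA : SpecCLA) (hLEV : SpecLEV) (hL4 : SpecL4) : SpecCLC := by
  intro n s s0 m N' B C1 C2 T1 t K F hN' hn hB hs hsm hs0 hKC hKre hFK hT1 hss hC1 hX2 hC2 k x hx
    hxB hβ hnS htmin htex ht1 ht2 hquad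
  obtain ⟨Fr, hFr⟩ := hLEV m N' (by omega) hN'
  obtain ⟨hO, hM, hcj, -, -, -⟩ := id hFr
  have hL4' := hL4 m N' s K Fr (by omega) hN' hFr hs hsm hKC hKre hX2
  have hCLA' := hCLA (Cyc (2 ^ m * N')) Fr (cut (Cyc (2 ^ m * N')) K) (cut (Cyc (2 ^ m * N')) F)
    n s s0 B C1 C2 T1 t
    (fun y hy => hFK hy)
    (fun y hy => by
      apply Subtype.ext
      rw [hcj]
      exact Complex.conj_eq_iff_im.mpr (hKre _ hy))
    hn hB hs0 hT1 hss hC1
    (fun v y hp hyK hyO hy0 => by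
      rw [hM]
      exact hL4' v y hp hyK ((hO y).mp hyO) hy0)
    (fun y hyK hyO hyM => by
      rw [hM] at hyM ⊢
      have := hC2 (y : ℂ) hyK ((hO y).mp hyO) hyM
      simpa using this)
    (∑ i, (⟨x i, hKC (hx i).1⟩ : Cyc (2 ^ m * N')) ^ 2) k (fun i => ⟨x i, hKC (hx i).1⟩)
    (fun i => ⟨(hx i).1, (hO _).mpr (hx i).2⟩) rfl
    (by
      simp only [hM]
      exact hxB)
    (by
      rw [hM, coe_sum_sq]
      exact hβ)
    (by
      rintro ⟨z, hz, hzs⟩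
      apply hnS
      refine ⟨fun j => (z j : ℂ), fun j => ⟨(hz j).1, (hO _).mp (hz j).2⟩, ?_⟩
      have := congrArg (fun y : Cyc (2 ^ m * N') => (y : ℂ)) hzs
      simp only [coe_sum_sq] at this
      exact this)
    (fun y hyK hyO hyF => by
      rw [hM]
      exact htmin _ hyK ((hO _).mp hyO) hyF)
    (by
      obtain ⟨a, haK, haI, haF, haM⟩ := htex
      refine ⟨⟨a, hKC haK⟩, haK, (hO _).mpr haI, haF, ?_⟩
      rw [hM]
      exact haM)
    ht1 ht2
    (fun a haK haO haF s1 c1 c2 hs1K hs1O hs1M hc1K hc1O hc1M hc2K hc2O hc2M hs1 => by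
      intro h0
      rw [hM] at hs1M hc1M hc2M
      have hs1' : (s1 : ℂ) ^ 2 ≠ 1 := by
        intro h
        apply hs1
        apply Subtype.ext
        simpa using h
      refine hquad (a : ℂ) haK ((hO _).mp haO) haF (s1 : ℂ) hs1K ((hO _).mp hs1O) hs1M
        (c1 : ℂ) hc1K ((hO _).mp hc1O) hc1M (c2 : ℂ) hc2K ((hO _).mp hc2O) hc2M hs1' ?_
      have h4 : ((4 : Cyc (2 ^ m * N')) : ℂ) = 4 :=
        map_ofNat (algebraMap (Cyc (2 ^ m * N')) ℂ) 4
      have := congrArg (algebraMap (Cyc (2 ^ m * N')) ℂ) h0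
      simpa [map_add, map_sub, map_mul, map_pow, map_div₀, h4] using this)
  obtain ⟨k', y, hy, hyM, hyn⟩ := hCLA'
  refine ⟨k', fun i => (y i : ℂ), fun i => ⟨(hy i).1, (hO _).mp (hy i).2⟩, ?_, ?_⟩
  · simp only [hM] at hyM
    exact hyM
  · rintro ⟨g, hg, hgs⟩
    apply hyn
    refine ⟨fun j => ⟨g j, hKC (hg j).1⟩, fun j => ⟨(hg j).1, (hO _).mpr (hg j).2⟩, ?_⟩
    apply Subtype.ext
    rw [coe_sum_sq, coe_sum_sq]
    exact hgs

end Pool.Agent.Lib.MPcb8a44.AB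
end

section
/-!
Module DF of Theorem AB (MP_cb8a44_nt): deformation of a quadratic identity along a 2-homomorphism.
-/
set_option autoImplicit false

namespace Pool.Agent.Lib.MPcb8a44.AB

namespace DfM

theorem ee_add (s t : ℝ) : ee (s + t) = ee s * ee t := by
  unfold ee
  rw [← Complex.exp_add]
  congr 1
  push_cast
  ring

/-- Expansion of a combination of squares. -/
theorem expand {q m : ℕ} (ε : Fin q → ℤ) (Y : Fin q → Fin m → ℂ) (e : Fin m → ℂ) :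
    ∑ j, (ε j : ℂ) * (∑ a, Y j a * e a) ^ 2 =
      ∑ ab : Fin m × Fin m, (∑ j, (ε j : ℂ) * (Y j ab.1 * Y j ab.2)) * (e ab.1 * e ab.2) := by
  simp_rw [Finset.sum_mul]
  rw [Finset.sum_comm]
  refine Finset.sum_congr rfl fun j _ => ?_
  rw [sq, Finset.sum_mul_sum, ← Finset.sum_product', Finset.mul_sum]
  refine Finset.sum_congr (by simp) fun ab _ => ?_
  ring

end DfM

open DfM

theorem specDF : SpecDF := by
  intro Q _ Lg R m q hR hmul huniq i ε Y δ hY hδ h0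
  classical
  set G : Fin m × Fin m → ℂ := fun ab => ∑ j, (ε j : ℂ) * (Y j ab.1 * Y j ab.2) with hG
  set σ : Fin m × Fin m → ZMod Q := fun ab => i ab.1 + i ab.2 with hσ
  set S : Finset (ZMod Q) := Finset.univ.image σ with hS
  have hcard : S.card ≤ R := by
    refine le_trans Finset.card_image_le ?_
    rw [Finset.card_univ, Fintype.card_prod, Fintype.card_fin]
    nlinarith [hR]
  have hmem : ∀ ab ∈ (Finset.univ : Finset (Fin m × Fin m)), σ ab ∈ S := fun ab _ =>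
    Finset.mem_image_of_mem _ (Finset.mem_univ _)
  have hGL : ∀ ab, G ab ∈ Lg (σ ab) := by
    intro ab
    refine AddSubgroup.sum_mem _ fun j _ => ?_
    have := hmul _ _ _ _ (hY j ab.1) (hY j ab.2)
    have h2 := AddSubgroup.zsmul_mem _ this (ε j)
    simpa [zsmul_eq_mul] using h2
  set y : ZMod Q → ℂ := fun s => ∑ ab with σ ab = s, G ab with hy
  have hyL : ∀ s ∈ S, y s ∈ Lg s := by
    intro s _
    refine AddSubgroup.sum_mem _ fun ab hab => ?_
    have h1 : σ ab = s := (Finset.mem_filter.1 hab).2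
    rw [← h1]
    exact hGL ab
  have hsum : ∑ s ∈ S, y s = 0 := by
    rw [hy, Finset.sum_fiberwise_of_maps_to hmem]
    have := expand ε Y (fun _ => 1)
    simp only [mul_one] at this
    rw [← h0, this]
  have hy0 := huniq S y hcard hyL hsum
  rw [expand, ← Finset.sum_fiberwise_of_maps_to hmem]
  refine Finset.sum_eq_zero fun s hs => ?_
  obtain ⟨⟨a0, b0⟩, -, hab0⟩ := Finset.mem_image.1 hs
  have : ∑ ab with σ ab = s, (∑ j, (ε j : ℂ) * (Y j ab.1 * Y j ab.2)) * (ee (δ ab.1) * ee (δ ab.2)) =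
      ∑ ab with σ ab = s, G ab * ee (δ a0 + δ b0) := by
    refine Finset.sum_congr rfl fun ab hab => ?_
    have h1 : σ ab = s := (Finset.mem_filter.1 hab).2
    have h2 : δ ab.1 + δ ab.2 = δ a0 + δ b0 := hδ _ _ _ _ (h1.trans hab0.symm)
    rw [← h2, ee_add]
  rw [this, ← Finset.sum_mul]
  have h3 : y s = 0 := hy0 s hs
  rw [hy] at h3
  simp only at h3
  rw [h3, zero_mul]

end Pool.Agent.Lib.MPcb8a44.AB
end

section
/-!
`Cyc a ⊓ Cyc b = Cyc (gcd a b)`.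
-/
set_option autoImplicit false

namespace Pool.Agent.Lib.MPcb8a44.AB

namespace GcdM

open IntermediateField Module

section

variable {F E : Type} [Field F] [Field E] [Algebra F E]

theorem isGalois_ext (I A : IntermediateField F E)
    [IsGalois F A] (h : I ≤ A) : IsGalois I ↥(extendScalars h) := by
  have h0 : IsGalois F ↥(extendScalars h) :=
    IsGalois.of_algEquiv (show A ≃ₐ[F] ↥(extendScalars h) from
      { toFun := fun x => ⟨x.1, x.2⟩
        invFun := fun x => ⟨x.1, x.2⟩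
        left_inv := fun x => rfl
        right_inv := fun x => rfl
        map_mul' := fun x y => rfl
        map_add' := fun x y => rfl
        commutes' := fun r => rfl })
  exact IsGalois.tower_top_of_isGalois F I ↥(extendScalars h)

theorem finDim_ext (I A : IntermediateField F E)
    [FiniteDimensional F A] (h : I ≤ A) : FiniteDimensional I ↥(extendScalars h) := by
  have h1 : finrank F I * finrank I ↥(extendScalars h) = finrank F A := by
    rw [← relfinrank_eq_finrank_of_le, finrank_bot_mul_relfinrank h]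
  refine FiniteDimensional.of_finrank_pos (Nat.pos_of_ne_zero fun h0 => ?_)
  rw [h0, mul_zero] at h1
  exact (finrank_pos (R := F) (M := A)).ne h1

theorem degrees (A B : IntermediateField F E)
    [FiniteDimensional F A] [FiniteDimensional F B] [IsGalois F A] :
    finrank F A * finrank F B = finrank F ↥(A ⊔ B) * finrank F ↥(A ⊓ B) := by
  have hIA : A ⊓ B ≤ A := inf_le_left
  have hIB : A ⊓ B ≤ B := inf_le_right
  have hIS : A ⊓ B ≤ A ⊔ B := hIA.trans le_sup_left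
  have hfA : finrank F ↥(A ⊓ B) * finrank ↥(A ⊓ B) ↥(extendScalars hIA) = finrank F A := by
    rw [← relfinrank_eq_finrank_of_le, finrank_bot_mul_relfinrank hIA]
  have hfB : finrank F ↥(A ⊓ B) * finrank ↥(A ⊓ B) ↥(extendScalars hIB) = finrank F B := by
    rw [← relfinrank_eq_finrank_of_le, finrank_bot_mul_relfinrank hIB]
  have hfS : finrank F ↥(A ⊓ B) * finrank ↥(A ⊓ B) ↥(extendScalars hIS) =
      finrank F ↥(A ⊔ B) := by
    rw [← relfinrank_eq_finrank_of_le, finrank_bot_mul_relfinrank hIS]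
  have hinf : extendScalars hIA ⊓ extendScalars hIB = ⊥ := by
    rw [eq_bot_iff]
    intro x hx
    exact IntermediateField.mem_bot.2 ⟨⟨x, ⟨hx.1, hx.2⟩⟩, rfl⟩
  have hsup : extendScalars hIA ⊔ extendScalars hIB = extendScalars hIS :=
    extendScalars_sup hIA hIB
  have := finDim_ext _ _ hIA
  have := finDim_ext _ _ hIB
  have := isGalois_ext _ _ hIA
  have h1 := (IntermediateField.LinearDisjoint.of_inf_eq_bot hinf).finrank_sup
  rw [hsup] at h1
  rw [← hfS, h1, ← hfA, ← hfB]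
  ring

theorem isCyc {N : ℕ} [NeZero N] {z : E} (hζ : IsPrimitiveRoot z N) :
    IsCyclotomicExtension {N} F ↥(IntermediateField.adjoin F {z}) := by
  change IsCyclotomicExtension {N} F (IntermediateField.adjoin F {z}).toSubalgebra
  rw [IntermediateField.adjoin_simple_toSubalgebra_of_isAlgebraic
    (hζ.isIntegral (NeZero.pos N)).tower_top.isAlgebraic]
  exact hζ.adjoin_isCyclotomicExtension F

theorem totient_gcd_lcm (a b : ℕ) (ha : 0 < a) :
    Nat.totient a * Nat.totient b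
      = Nat.totient (Nat.lcm a b) * Nat.totient (Nat.gcd a b) := by
  have h1 := Nat.totient_gcd_mul_totient_mul a b
  have hg : 0 < Nat.gcd a b := Nat.gcd_pos_of_pos_left b ha
  have h2 := Nat.totient_gcd_mul_totient_mul (Nat.gcd a b) (Nat.lcm a b)
  rw [Nat.gcd_mul_lcm, Nat.gcd_eq_left ((Nat.gcd_dvd_left a b).trans (Nat.dvd_lcm_left a b))] at h2
  rw [h1] at h2
  have h3 := Nat.eq_of_mul_eq_mul_right hg h2
  rw [h3, mul_comm]

theorem main (hirr : ∀ n : ℕ, 0 < n → Irreducible (Polynomial.cyclotomic n F))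
    (a b : ℕ) (ha : 0 < a) (hb : 0 < b) (za zb zg zl : E)
    (hza : IsPrimitiveRoot za a) (hzb : IsPrimitiveRoot zb b)
    (hzg : IsPrimitiveRoot zg (Nat.gcd a b)) (hzl : IsPrimitiveRoot zl (Nat.lcm a b)) :
    IntermediateField.adjoin F {zg}
      = IntermediateField.adjoin F {za} ⊓ IntermediateField.adjoin F {zb} := by
  have : NeZero a := ⟨ha.ne'⟩
  have : NeZero b := ⟨hb.ne'⟩
  have hg : 0 < Nat.gcd a b := Nat.gcd_pos_of_pos_left b ha
  have : NeZero (Nat.gcd a b) := ⟨hg.ne'⟩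
  have : NeZero (Nat.lcm a b) := ⟨Nat.lcm_ne_zero ha.ne' hb.ne'⟩
  have hca := isCyc (F := F) hza
  have hcb := isCyc (F := F) hzb
  have hcg := isCyc (F := F) hzg
  have hcl := isCyc (F := F) hzl
  have hsup : (IntermediateField.adjoin F {za} ⊔ IntermediateField.adjoin F {zb} :
      IntermediateField F E) = IntermediateField.adjoin F {zl} := by
    have h1 := IntermediateField.isCyclotomicExtension_lcm_sup F E a b
      (IntermediateField.adjoin F {za}) (IntermediateField.adjoin F {zb})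
    exact IntermediateField.isCyclotomicExtension_eq {Nat.lcm a b} F E _ _
  have : FiniteDimensional F ↥(IntermediateField.adjoin F {za}) :=
    IsCyclotomicExtension.finite_of_singleton a F _
  have : FiniteDimensional F ↥(IntermediateField.adjoin F {zb}) :=
    IsCyclotomicExtension.finite_of_singleton b F _
  have : IsGalois F ↥(IntermediateField.adjoin F {za}) := IsCyclotomicExtension.isGalois {a} F _
  have hle : IntermediateField.adjoin F {zg}
      ≤ IntermediateField.adjoin F {za} ⊓ IntermediateField.adjoin F {zb} :=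
    le_inf (IntermediateField.isCyclotomicExtension_le_of_dvd F E (Nat.gcd a b) a _ _
        (Nat.gcd_dvd_left a b))
      (IntermediateField.isCyclotomicExtension_le_of_dvd F E (Nat.gcd a b) b _ _
        (Nat.gcd_dvd_right a b))
  have hd := degrees (IntermediateField.adjoin F {za}) (IntermediateField.adjoin F {zb})
  rw [hsup, IsCyclotomicExtension.finrank (n := a) _ (hirr a ha),
    IsCyclotomicExtension.finrank (n := b) _ (hirr b hb),
    IsCyclotomicExtension.finrank (n := Nat.lcm a b) _ (hirr _ (NeZero.pos _)),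
    totient_gcd_lcm a b ha] at hd
  have hpos : 0 < Nat.totient (Nat.lcm a b) := Nat.totient_pos.2 (NeZero.pos _)
  have hfin := Nat.eq_of_mul_eq_mul_left hpos hd
  refine IntermediateField.eq_of_le_of_finrank_eq hle ?_
  rw [IsCyclotomicExtension.finrank (n := Nat.gcd a b) _ (hirr _ hg), hfin]

end

theorem ze_prim (N : ℕ) (hN : 0 < N) : IsPrimitiveRoot (ze N) N :=
  Complex.isPrimitiveRoot_exp N hN.ne'

end GcdM

theorem specGCD : SpecGCD := by
  intro a b ha hb x hxa hxb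
  have h := GcdM.main (F := ℚ) (fun n hn => Polynomial.cyclotomic.irreducible_rat hn) a b ha hb
    (ze a) (ze b) (ze (Nat.gcd a b)) (ze (Nat.lcm a b)) (GcdM.ze_prim a ha) (GcdM.ze_prim b hb)
    (GcdM.ze_prim _ (Nat.gcd_pos_of_pos_left b ha)) (GcdM.ze_prim _ (Nat.lcm_pos ha hb))
  have hx : x ∈ Cyc a ⊓ Cyc b := ⟨hxa, hxb⟩
  have h' : Cyc (Nat.gcd a b) = Cyc a ⊓ Cyc b := h
  rw [h']
  exact hx

end Pool.Agent.Lib.MPcb8a44.AB
end

section
/-!
# L4: the lower bound `2 ^ (v - s) ≤ M x` for pure integers (Theorem AB, MP_cb8a44_nt)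
-/
set_option autoImplicit false

namespace Pool.Agent.Lib.MPcb8a44.AB.L4M

open scoped BigOperators ComplexConjugate

/-- If an automorphism of `Cyc n` fixes the generator of `Cyc d` then it fixes `Cyc d`. -/
lemma fix_of_gen {n d : ℕ} (hd : ze d ∈ Cyc n) (σ : Cyc n ≃ₐ[ℚ] Cyc n)
    (h : σ ⟨ze d, hd⟩ = ⟨ze d, hd⟩) (w : Cyc n) (hw : (w : ℂ) ∈ Cyc d) : σ w = w := by
  have hle : Cyc d ≤ IntermediateField.lift (IntermediateField.fixedField (Subgroup.zpowers σ)) := by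
    unfold Cyc
    rw [IntermediateField.adjoin_simple_le_iff]
    have : ((⟨ze d, hd⟩ : Cyc n) : ℂ) ∈
        IntermediateField.lift (IntermediateField.fixedField (Subgroup.zpowers σ)) := by
      rw [IntermediateField.mem_lift, IntermediateField.mem_fixedField_iff]
      intro f hf
      obtain ⟨k, rfl⟩ := Subgroup.mem_zpowers_iff.mp hf
      have hs : σ ∈ MulAction.stabilizer (Cyc n ≃ₐ[ℚ] Cyc n) (⟨ze d, hd⟩ : Cyc n) := h
      exact Subgroup.zpow_mem _ hs k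
    exact this
  have h1 := hle hw
  rw [IntermediateField.mem_lift, IntermediateField.mem_fixedField_iff] at h1
  exact h1 σ (Subgroup.mem_zpowers σ)

lemma ze_ne_zero (hCB : SpecCB) {n : ℕ} (hn : 0 < n) : ze n ≠ 0 :=
  (hCB.1 n hn).ne_zero hn.ne'

lemma ze_mem {n : ℕ} : ze n ∈ Cyc n := IntermediateField.mem_adjoin_simple_self ℚ _

lemma ze_mem_of_dvd (hCB : SpecCB) {a b : ℕ} (hb : 0 < b) (h : a ∣ b) : ze a ∈ Cyc b :=
  hCB.2.2.1 a b hb h ze_mem

/-- `ζ_{2 ^ j}` is not of level `j - 1`. -/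
lemma notmem (hCB : SpecCB) (hGAL : SpecGAL) {j N' : ℕ} (hj : 2 ≤ j) (hN' : Odd N') :
    ze (2 ^ j) ∉ Cyc (2 ^ (j - 1) * N') := by
  intro hmem
  have hN'0 : 0 < N' := hN'.pos
  obtain ⟨i, rfl⟩ : ∃ i, j = i + 1 := ⟨j - 1, by omega⟩
  have hi : 1 ≤ i := by omega
  rw [Nat.add_sub_cancel] at hmem
  set n := 2 ^ (i + 1) * N' with hn
  have hn0 : 0 < n := by positivity
  have hprim := hCB.1 n hn0
  have hd : 2 ^ i * N' ∣ n := by
    rw [hn, pow_succ]
    exact ⟨2, by ring⟩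
  have hhalf : n = 2 * (2 ^ i * N') := by rw [hn, pow_succ]; ring
  have hcop : (1 + 2 ^ i * N').Coprime n := by
    have h1 : (1 + 2 ^ i * N').Coprime (2 ^ i * N') := by
      have : (1 + 2 ^ i * N').Coprime (2 ^ i * N') ↔ Nat.Coprime 1 (2 ^ i * N') := by
        simp
      rw [this]
      exact Nat.coprime_one_left _
    rw [hhalf]
    refine Nat.Coprime.mul_right ?_ h1
    exact (Nat.Coprime.coprime_dvd_right (dvd_mul_of_dvd_left (dvd_pow_self 2 (by omega)) N') h1)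
  obtain ⟨σ, hσ⟩ := (hGAL n hn0).2.2.1 (1 + 2 ^ i * N') hcop
  set Z : Cyc n := ⟨ze n, ze_mem⟩ with hZ
  have hσZ : ((σ Z : Cyc n) : ℂ) = ze n ^ (1 + 2 ^ i * N') := hσ Z rfl
  have hσZ' : σ Z = Z ^ (1 + 2 ^ i * N') := by
    apply Subtype.ext
    rw [hσZ]
    rfl
  have hZn : Z ^ n = 1 := by
    apply Subtype.ext
    simp only [hZ, SubmonoidClass.mk_pow, OneMemClass.coe_one]
    exact hprim.pow_eq_one
  have hZh : Z ^ (2 ^ i * N') = -1 := by
    have h1 : (Z ^ (2 ^ i * N')) ^ 2 = 1 := by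
      rw [← pow_mul, mul_comm (2 ^ i * N') 2, ← hhalf, hZn]
    rcases sq_eq_one_iff_of_side h1 with h | h
    · exfalso
      have h2 : ze n ^ (2 ^ i * N') = 1 := by
        have := congrArg (Subtype.val) h
        simpa using this
      have h3 := hprim.dvd_of_pow_eq_one _ h2
      have h4 := Nat.le_of_dvd (by positivity) h3
      have : 0 < 2 ^ i * N' := by positivity
      omega
    · exact h
  -- σ fixes level `i`
  have hfix : ∀ w : Cyc n, (w : ℂ) ∈ Cyc (2 ^ i * N') → σ w = w := by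
    refine fun w hw => fix_of_gen (ze_mem_of_dvd hCB hn0 hd) σ ?_ w hw
    have e : (⟨ze (2 ^ i * N'), ze_mem_of_dvd hCB hn0 hd⟩ : Cyc n) = Z ^ 2 := by
      apply Subtype.ext
      simp only [hZ, SubmonoidClass.mk_pow]
      rw [hCB.2.1 _ n hn0 hd]
      congr 1
      rw [hhalf]
      exact Nat.mul_div_cancel _ (by positivity)
    rw [e, map_pow, hσZ', ← pow_mul]
    have e2 : (1 + 2 ^ i * N') * 2 = 2 + n := by rw [hhalf]; ring
    rw [e2, pow_add, hZn, mul_one]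
  -- σ negates `ζ_{2 ^ (i+1)}`
  have hdj : 2 ^ (i + 1) ∣ n := ⟨N', hn⟩
  have hze : ze (2 ^ (i + 1)) = ze n ^ N' := by
    rw [hCB.2.1 _ n hn0 hdj]
    congr 1
    rw [hn]
    exact Nat.mul_div_cancel_left _ (by positivity)
  have hw := hfix (Z ^ N') (by
    simp only [hZ, SubmonoidClass.mk_pow]
    rw [← hze]; exact hmem)
  rw [map_pow, hσZ', ← pow_mul, add_mul, one_mul, pow_add, pow_mul Z (2 ^ i * N') N', hZh,
    hN'.neg_one_pow] at hw
  have hZ0 : Z ^ N' ≠ 0 := by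
    apply pow_ne_zero
    intro h
    have := congrArg Subtype.val h
    exact ze_ne_zero hCB hn0 this
  have h2 : (2 : Cyc n) * Z ^ N' = 0 := by linear_combination (-1 : Cyc n) * hw
  rcases mul_eq_zero.mp h2 with h | h
  · exact two_ne_zero h
  · exact hZ0 h
where
  sq_eq_one_iff_of_side {n : ℕ} {x : Cyc n} (h : x ^ 2 = 1) : x = 1 ∨ x = -1 := by
    have : (x - 1) * (x + 1) = 0 := by ring_nf; rw [h]; ring
    rcases mul_eq_zero.mp this with h | h
    · left; exact sub_eq_zero.mp h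
    · right; exact eq_neg_of_add_eq_zero_left h

section frame

variable {m N' : ℕ} (Fr : Lev (Cyc (2 ^ m * N')))

/-- the projection of `ζ_{2 ^ j}` to level `j - 1` is zero -/
lemma P_ze (hCB : SpecCB) (hGAL : SpecGAL) (hN' : Odd N') (hL : IsLev m N' Fr) {j : ℕ}
    (hj : 2 ≤ j) (hjm : j ≤ m) (y : Cyc (2 ^ m * N')) (hy : (y : ℂ) = ze (2 ^ j)) :
    Fr.P (j - 1) y = 0 := by
  have hpos : ∀ i, 0 < 2 ^ i * N' := fun i => Nat.mul_pos (by positivity) hN'.pos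
  obtain ⟨-, -, -, -, -, hP⟩ := hL
  have h1 : Fr.P j y = y := by
    rw [hP j (by omega) hjm, hy]
    exact ze_mem_of_dvd hCB (hpos j) ⟨N', rfl⟩
  have h2 : Fr.P (j - 1) (y ^ 2) = y ^ 2 := by
    rw [hP (j - 1) (by omega) (by omega)]
    have e : ((y ^ 2 : Cyc (2 ^ m * N')) : ℂ) = ze (2 ^ (j - 1)) := by
      push_cast
      rw [hy, hCB.2.1 (2 ^ (j - 1)) (2 ^ j) (by positivity) (pow_dvd_pow 2 (by omega)),
        Nat.pow_div (by omega) (by norm_num)]
      congr 1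
      rw [show j - (j - 1) = 1 by omega]
    rw [e]
    exact ze_mem_of_dvd hCB (hpos _) ⟨N', rfl⟩
  have h3 : Fr.cp j y ≠ 0 := by
    intro h
    unfold Lev.cp at h
    rw [h1, sub_eq_zero] at h
    have h4 := (hP (j - 1) (by omega) (by omega) y).mp h.symm
    rw [hy] at h4
    exact notmem hCB hGAL hj hN' h4
  have h5 := (Fr.cp_sq hj h1).1
  have h6 : Fr.cp j (y ^ 2) = 0 := by
    unfold Lev.cp
    rw [Fr.P_mono (show j - 1 ≤ j by omega) h2, h2, sub_self]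
  rw [h6] at h5
  rcases mul_eq_zero.mp h5.symm with h | h
  · exact absurd h Fr.two_ne
  · rcases mul_eq_zero.mp h with h' | h'
    · exact absurd h' h3
    · exact h'

/-- the real element `ζ + ζ⁻¹`, `ζ = ζ_{2 ^ j}`, `j ≥ 3`, has `M = 2` and is not of level `j - 1` -/
lemma M_two (hCB : SpecCB) (hGAL : SpecGAL) (hN' : Odd N') (hL : IsLev m N' Fr) {j : ℕ}
    (hj : 3 ≤ j) (hjm : j ≤ m) :
    M (ze (2 ^ j) + conj (ze (2 ^ j))) = 2 ∧
      ze (2 ^ j) + conj (ze (2 ^ j)) ∉ Cyc (2 ^ (j - 1) * N') := by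
  have hpos : ∀ i, 0 < 2 ^ i * N' := fun i => Nat.mul_pos (by positivity) hN'.pos
  have hm : ∀ i, i ≤ m → ze (2 ^ i) ∈ Cyc (2 ^ m * N') := fun i hi =>
    ze_mem_of_dvd hCB (hpos m) (Dvd.dvd.mul_right (pow_dvd_pow 2 hi) N')
  set y : Cyc (2 ^ m * N') := ⟨ze (2 ^ j), hm j hjm⟩ with hy
  set w : Cyc (2 ^ m * N') := ⟨ze (2 ^ (j - 1)), hm (j - 1) (by omega)⟩ with hw
  have hLc := hL
  obtain ⟨-, hM, hcj, -, -, hP⟩ := hL
  have hnorm : ze (2 ^ j) * conj (ze (2 ^ j)) = 1 := by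
    have h1 : ‖ze (2 ^ j)‖ = 1 := (hCB.1 (2 ^ j) (by positivity)).norm'_eq_one (by positivity)
    rw [Complex.mul_conj, Complex.normSq_eq_norm_sq, h1]
    norm_num
  have hyc : y * Fr.cj y = 1 := by
    apply Subtype.ext
    push_cast
    rw [hcj]
    exact hnorm
  have hcc : Fr.cj (Fr.cj y) = y := by
    apply Subtype.ext
    rw [hcj, hcj, Complex.conj_conj]
  have hyw : y ^ 2 = w := by
    apply Subtype.ext
    push_cast
    rw [hy, hw]
    simp only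
    rw [hCB.2.1 (2 ^ (j - 1)) (2 ^ j) (by positivity) (pow_dvd_pow 2 (by omega)),
      Nat.pow_div (by omega) (by norm_num)]
    congr 1
    rw [show j - (j - 1) = 1 by omega]
  have hwP : Fr.P (j - 2) w = 0 := by
    have := P_ze Fr hCB hGAL hN' hLc (j := j - 1) (by omega) (by omega) w rfl
    rwa [show j - 1 - 1 = j - 2 by omega] at this
  have hz : ((y + Fr.cj y : Cyc (2 ^ m * N')) : ℂ) = ze (2 ^ j) + conj (ze (2 ^ j)) := by
    push_cast
    rw [hcj]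
  have htw : Fr.tr w = 0 := by
    rw [← Fr.P_tr (j - 2) w (by omega), hwP, map_zero]
  have htw' : Fr.tr (Fr.cj w) = 0 := by
    rw [← Fr.P_tr (j - 2) _ (by omega), Fr.P_cj, hwP, map_zero, map_zero]
  have hMz : Fr.M (y + Fr.cj y) = 2 := by
    unfold Lev.M
    have e : (y + Fr.cj y) * Fr.cj (y + Fr.cj y) = w + Fr.cj w + (1 + 1) := by
      rw [map_add, hcc, ← hyw, map_pow]
      linear_combination 2 * hyc
    rw [e, map_add, map_add, htw, htw', map_add, Fr.tr_one]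
    norm_num
  refine ⟨by rw [← hz, ← hM, hMz], ?_⟩
  rw [← hz]
  intro hmem
  have h1 : Fr.P (j - 1) (y + Fr.cj y) = y + Fr.cj y :=
    (hP (j - 1) (by omega) (by omega) _).mpr hmem
  have h2 : Fr.P (j - 1) y = 0 := P_ze Fr hCB hGAL hN' hLc (by omega) hjm y rfl
  rw [map_add, Fr.P_cj, h2, map_zero, add_zero] at h1
  rw [← h1, Fr.M_zero] at hMz
  norm_num at hMz

end frame

/-- a Galois element moving `ζ + ζ⁻¹`, `ζ = ζ_{2 ^ j}` -/
lemma exists_gal (hCB : SpecCB) (hGAL : SpecGAL) {N j : ℕ} (hN : 0 < N) (hj : 2 ^ j ∣ N)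
    (K : IntermediateField ℚ ℂ)
    (hz : ze (2 ^ j) + conj (ze (2 ^ j)) ∉ K) :
    ∃ (h : Cyc N ≃ₐ[ℚ] Cyc N) (a : ℕ), (∀ x : Cyc N, (x : ℂ) ∈ K → h x = x) ∧ a.Coprime N ∧
      (∀ x : Cyc N, (x : ℂ) = ze N → ((h x : Cyc N) : ℂ) = ze N ^ a) ∧
      ¬ ((2 ^ j : ℤ) ∣ a - 1) ∧ ¬ ((2 ^ j : ℤ) ∣ a + 1) := by
  have hjpos : 0 < 2 ^ j := by positivity
  have hprim := hCB.1 (2 ^ j) hjpos
  have hzm : ze (2 ^ j) ∈ Cyc N := ze_mem_of_dvd hCB hN hj
  have hcm : conj (ze (2 ^ j)) ∈ Cyc N := hCB.2.2.2.2 N hN _ hzm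
  have hgal : IsGalois ℚ (Cyc N) := (hGAL N hN).1
  have hfin : FiniteDimensional ℚ (Cyc N) := hCB.2.2.2.1 N hN
  set K' : IntermediateField ℚ (Cyc N) := K.comap (Cyc N).val with hK'
  set zz : Cyc N := ⟨ze (2 ^ j) + conj (ze (2 ^ j)), (Cyc N).add_mem hzm hcm⟩ with hzz
  have hnot : zz ∉ IntermediateField.fixedField (IntermediateField.fixingSubgroup K') := by
    rw [IsGalois.fixedField_fixingSubgroup]
    exact hz
  rw [IntermediateField.mem_fixedField_iff] at hnot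
  push Not at hnot
  obtain ⟨h, hh, hne⟩ := hnot
  obtain ⟨a, hac, ha⟩ := (hGAL N hN).2.2.2.1 h
  have hconj := (hGAL N hN).2.2.2.2.1 h
  have hfix : ∀ x : Cyc N, (x : ℂ) ∈ K → h x = x := by
    intro x hx
    exact (IntermediateField.mem_fixingSubgroup_iff K' h).mp hh x hx
  refine ⟨h, a, hfix, hac, ha, ?_⟩
  -- action on `ζ_{2 ^ j}`
  set y : Cyc N := ⟨ze (2 ^ j), hzm⟩ with hy
  set yc : Cyc N := ⟨conj (ze (2 ^ j)), hcm⟩ with hyc
  have hhy : ((h y : Cyc N) : ℂ) = ze (2 ^ j) ^ a := by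
    have e : y = (⟨ze N, ze_mem⟩ : Cyc N) ^ (N / 2 ^ j) := by
      apply Subtype.ext
      simp only [hy, SubmonoidClass.mk_pow]
      exact hCB.2.1 _ N hN hj
    rw [e, map_pow]
    push_cast
    rw [ha _ rfl, ← pow_mul, mul_comm, pow_mul]
    congr 1
    exact (hCB.2.1 _ N hN hj).symm
  have hhyc : ((h yc : Cyc N) : ℂ) = conj (ze (2 ^ j)) ^ a := by
    rw [hconj y yc rfl, hhy, map_pow]
  have hhz : ((h zz : Cyc N) : ℂ) = ze (2 ^ j) ^ a + conj (ze (2 ^ j)) ^ a := by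
    have e : zz = y + yc := rfl
    rw [e, map_add]
    push_cast
    rw [hhy, hhyc]
  have hnorm : ze (2 ^ j) * conj (ze (2 ^ j)) = 1 := by
    have h1 : ‖ze (2 ^ j)‖ = 1 := hprim.norm'_eq_one (by positivity)
    rw [Complex.mul_conj, Complex.normSq_eq_norm_sq, h1]
    norm_num
  have hz0 : ze (2 ^ j) ≠ 0 := ze_ne_zero hCB hjpos
  constructor
  · intro hdvd
    apply hne
    apply Subtype.ext
    rw [hhz]
    have e1 : ze (2 ^ j) ^ a = ze (2 ^ j) := by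
      have h1 : ze (2 ^ j) ^ ((a : ℤ) - 1) = 1 := by
        rw [hprim.zpow_eq_one_iff_dvd]
        exact_mod_cast hdvd
      rw [zpow_sub₀ hz0, zpow_one, zpow_natCast, div_eq_one_iff_eq hz0] at h1
      exact h1
    rw [← map_pow, e1]
  · intro hdvd
    apply hne
    apply Subtype.ext
    rw [hhz]
    have e1 : ze (2 ^ j) ^ a = conj (ze (2 ^ j)) := by
      have h1 : ze (2 ^ j) ^ ((a : ℤ) + 1) = 1 := by
        rw [hprim.zpow_eq_one_iff_dvd]
        exact_mod_cast hdvd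
      rw [zpow_add₀ hz0, zpow_one, zpow_natCast] at h1
      calc ze (2 ^ j) ^ a = ze (2 ^ j) ^ a * (ze (2 ^ j) * conj (ze (2 ^ j))) := by
            rw [hnorm, mul_one]
        _ = (ze (2 ^ j) ^ a * ze (2 ^ j)) * conj (ze (2 ^ j)) := by ring
        _ = conj (ze (2 ^ j)) := by rw [h1, one_mul]
    rw [← map_pow, e1, Complex.conj_conj]
    rw [add_comm]

/-- the pieces are groups -/
lemma Pc_sub {N1 P g : ℕ} {x y : ℂ} (hx : x ∈ Pc N1 P g) (hy : y ∈ Pc N1 P g) :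
    x - y ∈ Pc N1 P g := by
  obtain ⟨a, ha, rfl⟩ := hx
  obtain ⟨b, hb, rfl⟩ := hy
  exact ⟨a - b, (Cyc N1).sub_mem ha hb, by ring⟩

lemma Pc_mem (hCB : SpecCB) {N1 P n g : ℕ} (hn : 0 < n) (h1 : N1 ∣ n) (h2 : P ∣ n) {x : ℂ}
    (hx : x ∈ Pc N1 P g) : x ∈ Cyc n := by
  obtain ⟨a, ha, rfl⟩ := hx
  exact (Cyc n).mul_mem (hCB.2.2.1 _ _ hn h1 ha) ((Cyc n).pow_mem (ze_mem_of_dvd hCB hn h2) g)

/-- Stability of the graded expansion under a homomorphism fixing `x`. -/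
lemma stab (hCB : SpecCB) (hGU : SpecGU) {n N' v : ℕ} [NeZero (2 ^ (v - 1))] (hn : 0 < n)
    (hv : 1 ≤ v) (hN' : Odd N') (hvn : 2 ^ v * N' ∣ n) (x : Cyc n)
    (Y : ZMod (2 ^ (v - 1)) → ℂ) (hY : ∀ g, Y g ∈ Pc (N' * 2 ^ 1) (2 ^ v) g.val)
    (hsum : (x : ℂ) = ∑ g, Y g) (θ : Cyc n →+* ℂ) (hθx : θ x = x) (a : ℕ) (ha : Odd a)
    (hθ1 : ∀ w : Cyc n, (w : ℂ) ∈ Cyc (N' * 2 ^ 1) → θ w ∈ Cyc (N' * 2 ^ 1))
    (hθ2 : ∀ w : Cyc n, (w : ℂ) = ze (2 ^ v) → θ w = ze (2 ^ v) ^ a)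
    (g : ZMod (2 ^ (v - 1))) (hg : Y g ≠ 0) : Y ((a : ZMod (2 ^ (v - 1))) * g) ≠ 0 := by
  classical
  have hN'0 : 0 < N' := hN'.pos
  have hd1 : N' * 2 ^ 1 ∣ n := by
    refine dvd_trans ?_ hvn
    rw [mul_comm N']
    exact Nat.mul_dvd_mul_right (pow_dvd_pow 2 hv) N'
  have hd2 : 2 ^ v ∣ n := (dvd_mul_right _ _).trans hvn
  have hYm : ∀ g, Y g ∈ Cyc n := fun g => Pc_mem hCB hn hd1 hd2 (hY g)
  have hcop : Nat.Coprime a (2 ^ (v - 1)) := by
    rcases Nat.eq_zero_or_pos (v - 1) with h | h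
    · rw [h, pow_zero]; exact Nat.coprime_one_right _
    · exact (Nat.coprime_pow_right_iff h a 2).mpr (Nat.coprime_two_right.mpr ha)
  set u : (ZMod (2 ^ (v - 1)))ˣ := ZMod.unitOfCoprime a hcop with hu
  have huv : (u : ZMod (2 ^ (v - 1))) = a := rfl
  -- the image of the pieces
  have himg : ∀ g, θ ⟨Y g, hYm g⟩ ∈ Pc (N' * 2 ^ 1) (2 ^ v) ((a : ZMod (2 ^ (v - 1))) * g).val := by
    intro g
    obtain ⟨b, hb, hbY⟩ := hY g
    have hbn : b ∈ Cyc n := hCB.2.2.1 _ _ hn hd1 hb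
    have e : (⟨Y g, hYm g⟩ : Cyc n) = ⟨b, hbn⟩ * ⟨ze (2 ^ v), ze_mem_of_dvd hCB hn hd2⟩ ^ g.val := by
      apply Subtype.ext
      simp only [SubmonoidClass.mk_pow, MulMemClass.mk_mul_mk]
      exact hbY
    rw [e, map_mul, map_pow, hθ2 ⟨ze (2 ^ v), ze_mem_of_dvd hCB hn hd2⟩ rfl, ← pow_mul]
    have hval : a * g.val = ((a : ZMod (2 ^ (v - 1))) * g).val +
        2 ^ (v - 1) * (a * g.val / 2 ^ (v - 1)) := by
      have h1 : ((a : ZMod (2 ^ (v - 1))) * g).val = (a * g.val) % 2 ^ (v - 1) := by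
        rw [← ZMod.val_natCast]
        congr 1
        push_cast
        rw [ZMod.natCast_zmod_val]
      rw [h1]
      exact (Nat.mod_add_div _ _).symm
    rw [hval, pow_add]
    refine ⟨θ ⟨b, hbn⟩ * ze (2 ^ v) ^ (2 ^ (v - 1) * (a * g.val / 2 ^ (v - 1))), ?_, by ring⟩
    refine (Cyc (N' * 2 ^ 1)).mul_mem (hθ1 _ hb) ?_
    rw [pow_mul]
    refine pow_mem ?_ _
    have h2 : ze (2 ^ v) ^ 2 ^ (v - 1) = ze 2 := by
      rw [hCB.2.1 2 (2 ^ v) (by positivity) (dvd_pow_self 2 (by omega))]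
      congr 1
      obtain ⟨i, rfl⟩ : ∃ i, v = i + 1 := ⟨v - 1, by omega⟩
      rw [Nat.add_sub_cancel, pow_succ]
      exact (Nat.mul_div_cancel _ (by norm_num)).symm
    rw [h2]
    exact ze_mem_of_dvd hCB (by positivity) ⟨N', by ring⟩
  -- compare
  set Y' : ZMod (2 ^ (v - 1)) → ℂ := fun g => θ ⟨Y ((u⁻¹ : (ZMod (2 ^ (v - 1)))ˣ) * g), hYm _⟩ with hY'
  have hY'm : ∀ g, Y' g ∈ Pc (N' * 2 ^ 1) (2 ^ v) g.val := by
    intro g
    have h1 := himg ((u⁻¹ : (ZMod (2 ^ (v - 1)))ˣ) * g)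
    rwa [← huv, ← mul_assoc, Units.mul_inv, one_mul] at h1
  have hsum' : ∑ g, Y' g = x := by
    have h1 : ∑ g, Y' g = ∑ g, θ ⟨Y g, hYm g⟩ := by
      refine Fintype.sum_bijective (fun g : ZMod (2 ^ (v - 1)) =>
        ((u⁻¹ : (ZMod (2 ^ (v - 1)))ˣ) : ZMod (2 ^ (v - 1))) * g) ?_ _ _ ?_
      · exact (Units.mulLeft_bijective u⁻¹)
      · intro g; rfl
    rw [h1, ← map_sum]
    have h2 : ∑ g, (⟨Y g, hYm g⟩ : Cyc n) = x := by
      apply Subtype.ext
      rw [hsum]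
      push_cast
      rfl
    rw [h2, hθx]
  have hzero := hGU 2 N' v 1 (2 ^ (v - 1)) Nat.prime_two hN'0
    (by rw [← even_iff_two_dvd]; exact Nat.not_even_iff_odd.mpr hN') le_rfl hv rfl
    (fun g => Y g - Y' g) (fun g => Pc_sub (hY g) (hY'm g))
    (by rw [Finset.sum_sub_distrib, hsum', hsum, sub_self])
  have h1 : Y ((a : ZMod (2 ^ (v - 1))) * g) - θ ⟨Y g, hYm g⟩ = 0 := by
    have h2 := hzero ((a : ZMod (2 ^ (v - 1))) * g)
    have h3 : Y' ((a : ZMod (2 ^ (v - 1))) * g) = θ ⟨Y g, hYm g⟩ := by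
      simp only [hY']
      congr 1
      apply Subtype.ext
      simp only
      rw [← huv, ← mul_assoc, Units.inv_mul, one_mul]
    rw [h3] at h2
    exact h2
  rw [sub_eq_zero] at h1
  rw [h1]
  intro h0
  apply hg
  have h4 : (⟨Y g, hYm g⟩ : Cyc n) = 0 := (map_eq_zero θ).mp h0
  exact congrArg Subtype.val h4

/-- Counting: a set closed under `-1` and `1 + 2 ^ e b` (`b` odd, `e ≥ 2`) containing a unit. -/
lemma count {e k : ℕ} (he : 2 ≤ e) (b : ℤ) (hb : ¬ (2 : ℤ) ∣ b) (S : Finset (ZMod (2 ^ (k + e))))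
    (hneg : ∀ g ∈ S, -g ∈ S) (hmul : ∀ g ∈ S, ((1 + 2 ^ e * b : ℤ) : ZMod (2 ^ (k + e))) * g ∈ S)
    (g0 : ZMod (2 ^ (k + e))) (hg0 : g0 ∈ S) (hu : IsUnit g0) : 2 ^ (k + 1) ≤ S.card := by
  classical
  set α : ZMod (2 ^ (k + e)) := ((1 + 2 ^ e * b : ℤ) : ZMod (2 ^ (k + e))) with hα
  have hord : orderOf α = 2 ^ k := by
    have h1 := ZMod.orderOf_one_add_mul_prime_pow Nat.prime_two e (by omega) (by omega) b
      (by exact_mod_cast hb) k
    rw [← h1, hα]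
    push_cast
    rfl
  have hpow : ∀ i : ℕ, α ^ i * g0 ∈ S := by
    intro i
    induction i with
    | zero => simpa using hg0
    | succ i ih =>
      rw [pow_succ', mul_assoc]
      exact hmul _ ih
  obtain ⟨u, rfl⟩ := hu
  have h4 : 4 ∣ 2 ^ (k + e) := by
    rw [show (4 : ℕ) = 2 ^ 2 by norm_num]
    exact pow_dvd_pow 2 (by omega)
  have hα4 : (ZMod.castHom h4 (ZMod 4)) α = 1 := by
    rw [hα, map_intCast]
    have h5 : ((4 : ℤ)) ∣ 2 ^ e * b := by
      rw [show (4 : ℤ) = 2 ^ 2 by norm_num]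
      exact Dvd.dvd.mul_right (pow_dvd_pow 2 he) b
    have h6 : ((2 ^ e * b : ℤ) : ZMod 4) = 0 := by
      rw [ZMod.intCast_zmod_eq_zero_iff_dvd]
      exact_mod_cast h5
    rw [Int.cast_add, h6]
    simp
  -- the map
  let Φ : Bool × Fin (2 ^ k) → ZMod (2 ^ (k + e)) := fun p =>
    if p.1 then α ^ (p.2 : ℕ) * u else -(α ^ (p.2 : ℕ) * u)
  have hΦS : ∀ p, Φ p ∈ S := by
    intro p
    by_cases h : p.1
    · simp only [Φ, h, if_true]; exact hpow _
    · simp only [Φ, h]; exact hneg _ (hpow _)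
  have hcross : ∀ i j : ℕ, α ^ i * (u : ZMod (2 ^ (k + e))) ≠ -(α ^ j * u) := by
    intro i j h
    rw [← neg_mul] at h
    have h1 := (Units.mul_left_inj u).mp h
    have h2 := congrArg (ZMod.castHom h4 (ZMod 4)) h1
    rw [map_neg, map_pow, map_pow, hα4, one_pow, one_pow] at h2
    revert h2
    decide
  have hsame : ∀ i j : Fin (2 ^ k), α ^ (i : ℕ) * (u : ZMod (2 ^ (k + e))) = α ^ (j : ℕ) * u →
      i = j := by
    intro i j h
    have h1 := (Units.mul_left_inj u).mp h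
    have h2 := pow_injOn_Iio_orderOf (x := α) (show (i : ℕ) ∈ Set.Iio (orderOf α) by
      rw [hord]; exact i.2) (show (j : ℕ) ∈ Set.Iio (orderOf α) by rw [hord]; exact j.2) h1
    exact Fin.ext h2
  have hinj : Function.Injective Φ := by
    rintro ⟨a, i⟩ ⟨c, j⟩ h
    cases a <;> cases c
    · simp only [Φ, Bool.false_eq_true, if_false, neg_inj] at h
      rw [hsame i j h]
    · simp only [Φ, Bool.false_eq_true, if_false, if_true] at h
      exact absurd h.symm (hcross _ _)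
    · simp only [Φ, Bool.false_eq_true, if_false, if_true] at h
      exact absurd h (hcross _ _)
    · simp only [Φ, if_true] at h
      rw [hsame i j h]
  have hcard : (Finset.univ.image Φ).card = 2 ^ (k + 1) := by
    rw [Finset.card_image_of_injective _ hinj, Finset.card_univ, Fintype.card_prod,
      Fintype.card_bool, Fintype.card_fin, pow_succ]
    ring
  rw [← hcard]
  refine Finset.card_le_card ?_
  intro z hz
  obtain ⟨p, -, rfl⟩ := Finset.mem_image.mp hz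
  exact hΦS p

lemma count' {e k Q : ℕ} [NeZero Q] (hQ : Q = 2 ^ (k + e)) (he : 2 ≤ e) (b : ℤ)
    (hb : ¬ (2 : ℤ) ∣ b) (S : Finset (ZMod Q)) (hneg : ∀ g ∈ S, -g ∈ S)
    (hmul : ∀ g ∈ S, ((1 + 2 ^ e * b : ℤ) : ZMod Q) * g ∈ S) (g0 : ZMod Q) (hg0 : g0 ∈ S)
    (hu : IsUnit g0) : 2 ^ (k + 1) ≤ S.card := by
  subst hQ
  exact count he b hb S hneg hmul g0 hg0 hu

lemma split_two (A : ℤ) (s : ℕ) (h4 : (4 : ℤ) ∣ A - 1) (hs : ¬ (2 ^ (s + 1) : ℤ) ∣ A - 1) :
    ∃ (e : ℕ) (b : ℤ), 2 ≤ e ∧ e ≤ s ∧ ¬ (2 : ℤ) ∣ b ∧ A = 1 + 2 ^ e * b := by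
  classical
  have hex : ∃ i : ℕ, ¬ (2 ^ i : ℤ) ∣ A - 1 := ⟨s + 1, hs⟩
  have hspec := Nat.find_spec hex
  have hle : Nat.find hex ≤ s + 1 := Nat.find_min' hex hs
  have h3 : 3 ≤ Nat.find hex := by
    by_contra hcon
    have : Nat.find hex ≤ 2 := by omega
    apply hspec
    refine dvd_trans (pow_dvd_pow 2 this) ?_
    norm_num
    exact h4
  have hprev : (2 ^ (Nat.find hex - 1) : ℤ) ∣ A - 1 := by
    by_contra hcon
    exact Nat.find_min hex (by omega : Nat.find hex - 1 < Nat.find hex) hcon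
  obtain ⟨b, hb⟩ := hprev
  refine ⟨Nat.find hex - 1, b, by omega, by omega, ?_, by linarith⟩
  rintro ⟨c, rfl⟩
  apply hspec
  refine ⟨c, ?_⟩
  have e2 : (2 : ℤ) ^ Nat.find hex = 2 ^ (Nat.find hex - 1) * 2 := by
    rw [← pow_succ, Nat.sub_add_cancel (by omega)]
  linear_combination hb - c * e2

end Pool.Agent.Lib.MPcb8a44.AB.L4M

namespace Pool.Agent.Lib.MPcb8a44.AB

open L4M
open scoped BigOperators ComplexConjugate

theorem specL4 (hCB : SpecCB) (hGAL : SpecGAL) (hMB : SpecMB) (hGU : SpecGU) (hGR : SpecGR) :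
    SpecL4 := by
  classical
  intro m N' s K Fr hm hN' hL hs hsm hK hreal hshort v x hp hxK hxI hx0
  have hpos : ∀ i, 0 < 2 ^ i * N' := fun i => Nat.mul_pos (by positivity) hN'.pos
  have hN : 0 < 2 ^ m * N' := hpos m
  have hxC0 : (x : ℂ) ≠ 0 := by
    intro h
    exact hx0 (Subtype.ext h)
  have hMB' := hMB _ hN
  have hLc := hL
  obtain ⟨-, -, -, -, hFm, hP⟩ := hL
  rcases Nat.lt_or_ge s v with hsv | hvs
  swap
  · have h1 : 1 ≤ M (x : ℂ) := hMB'.2.2.1 _ x.2 hxI hxC0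
    have h2 : (2 : ℝ) ^ v ≤ 2 ^ s := pow_le_pow_right₀ (by norm_num) hvs
    have h3 : (0 : ℝ) < 2 ^ s := by positivity
    nlinarith
  have hvm : v ≤ m := by
    by_contra hcon
    have h1 := Fr.P_top (v - 1) (by omega) x
    rw [hp.2.2] at h1
    exact hx0 h1.symm
  -- the Galois element
  obtain ⟨hM2, hnot⟩ := M_two Fr hCB hGAL hN' hLc (j := s + 1) (by omega) (by omega)
  rw [Nat.add_sub_cancel] at hnot
  have hzI : IsIntegral ℤ (ze (2 ^ (s + 1)) + conj (ze (2 ^ (s + 1)))) := by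
    have h1 : IsIntegral ℤ (ze (2 ^ (s + 1))) :=
      (hCB.1 (2 ^ (s + 1)) (by positivity)).isIntegral (by positivity)
    exact h1.add (h1.map (Complex.conjAe.toAlgHom.restrictScalars ℤ))
  have hzK : ze (2 ^ (s + 1)) + conj (ze (2 ^ (s + 1))) ∉ K := by
    intro h
    exact hnot (hshort _ h hzI hM2.le)
  obtain ⟨h, a, hfix, hac, hha, hd1, hd2⟩ := exists_gal hCB hGAL hN
    (Dvd.dvd.mul_right (pow_dvd_pow 2 (show s + 1 ≤ m by omega)) N') K hzK
  have haodd : Odd a := by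
    have h1 : Nat.Coprime a 2 := Nat.Coprime.coprime_dvd_right
      (Dvd.dvd.mul_right (dvd_pow_self 2 (by omega)) N') hac
    exact Nat.coprime_two_right.mp h1
  -- the expansion
  have hxv : (x : ℂ) ∈ Cyc (N' * 2 ^ v) := by
    rw [mul_comm]
    exact (hP v hp.1 hvm x).mp hp.2.1
  have hn2 : ¬ 2 ∣ N' := by
    rw [← even_iff_two_dvd]; exact Nat.not_even_iff_odd.mpr hN'
  obtain ⟨Y, hY, hsum, hMsum, hint⟩ := hGR 2 N' v 1 (2 ^ (v - 1)) Nat.prime_two hN'.pos hn2 le_rfl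
    hp.1 rfl (x : ℂ) hxv
  have hintY := hint hxI
  have hvn : 2 ^ v * N' ∣ 2 ^ m * N' := Nat.mul_dvd_mul_right (pow_dvd_pow 2 hvm) N'
  have hd3 : N' * 2 ^ 1 ∣ 2 ^ m * N' := by
    rw [mul_comm N']
    exact Nat.mul_dvd_mul_right (pow_dvd_pow 2 (by omega)) N'
  have hd4 : 2 ^ v ∣ 2 ^ m * N' := (dvd_mul_right _ _).trans hvn
  have hYm : ∀ g, Y g ∈ Cyc (2 ^ m * N') := fun g => Pc_mem hCB hN hd3 hd4 (hY g)
  set S : Finset (ZMod (2 ^ (v - 1))) := Finset.univ.filter fun g => Y g ≠ 0 with hS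
  have hSmem : ∀ g, g ∈ S ↔ Y g ≠ 0 := fun g => by simp [hS]
  -- closure under `a`
  have hcla : ∀ g ∈ S, (a : ZMod (2 ^ (v - 1))) * g ∈ S := by
    intro g hg
    rw [hSmem] at hg ⊢
    refine stab hCB hGU hN hp.1 hN' hvn x Y hY hsum
      ((algebraMap (Cyc (2 ^ m * N')) ℂ).comp (h : Cyc (2 ^ m * N') →+* Cyc (2 ^ m * N')))
      ?_ a haodd ?_ ?_ g hg
    · exact congrArg Subtype.val (hfix x hxK)
    · intro w hw
      exact (hGAL _ hN).2.2.2.2.2.1 h (Cyc (N' * 2 ^ 1)) (hCB.2.2.1 _ _ hN hd3) w hw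
    · intro w hw
      have e : w = (⟨ze (2 ^ m * N'), ze_mem⟩ : Cyc (2 ^ m * N')) ^ (2 ^ m * N' / 2 ^ v) := by
        apply Subtype.ext
        simp only [SubmonoidClass.mk_pow]
        rw [hw]
        exact hCB.2.1 _ _ hN hd4
      have h1 : ((h w : Cyc (2 ^ m * N')) : ℂ) = ze (2 ^ v) ^ a := by
        rw [e, map_pow]
        push_cast
        rw [hha _ rfl, ← pow_mul, mul_comm a, pow_mul]
        congr 1
        exact (hCB.2.1 _ _ hN hd4).symm
      exact h1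
  -- closure under `-1`
  have hcln : ∀ g ∈ S, -g ∈ S := by
    intro g hg
    rw [hSmem] at hg ⊢
    have hodd : Odd (2 ^ v - 1) := by
      obtain ⟨i, rfl⟩ : ∃ i, v = i + 1 := ⟨v - 1, by omega⟩
      have : 0 < 2 ^ i := by positivity
      exact ⟨2 ^ i - 1, by rw [pow_succ]; omega⟩
    have h1 := stab hCB hGU hN hp.1 hN' hvn x Y hY hsum
      ((starRingEnd ℂ).comp (algebraMap (Cyc (2 ^ m * N')) ℂ)) ?_ (2 ^ v - 1) hodd ?_ ?_ g hg
    · have e : (((2 ^ v - 1 : ℕ)) : ZMod (2 ^ (v - 1))) = -1 := by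
        have h2 : 1 ≤ 2 ^ v := Nat.one_le_two_pow
        have h3 : ((2 ^ v : ℕ) : ZMod (2 ^ (v - 1))) = 0 := by
          rw [ZMod.natCast_eq_zero_iff]
          exact pow_dvd_pow 2 (Nat.sub_le v 1)
        rw [Nat.cast_sub h2, h3]
        simp
      rwa [e, neg_one_mul] at h1
    · have : (conj (x : ℂ)) = x := Complex.conj_eq_iff_im.mpr (hreal _ hxK)
      exact this
    · intro w hw
      exact hCB.2.2.2.2 _ (Nat.mul_pos hN'.pos (by norm_num)) _ hw
    · intro w hw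
      change conj (w : ℂ) = _
      rw [hw]
      have hprim := hCB.1 (2 ^ v) (by positivity)
      have h1 : ‖ze (2 ^ v)‖ = 1 := hprim.norm'_eq_one (by positivity)
      have hz0 : ze (2 ^ v) ≠ 0 := ze_ne_zero hCB (by positivity)
      have h2 : ze (2 ^ v) * conj (ze (2 ^ v)) = 1 := by
        rw [Complex.mul_conj, Complex.normSq_eq_norm_sq, h1]
        norm_num
      have h3 : ze (2 ^ v) * ze (2 ^ v) ^ (2 ^ v - 1) = 1 := by
        rw [← pow_succ', Nat.sub_add_cancel Nat.one_le_two_pow, hprim.pow_eq_one]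
      exact mul_left_cancel₀ hz0 (h2.trans h3.symm)
  -- an odd element of the support
  obtain ⟨g0, hg0S, hg0⟩ : ∃ g0, g0 ∈ S ∧ Odd g0.val := by
    by_contra hcon
    push Not at hcon
    have hmem : (x : ℂ) ∈ Cyc (2 ^ (v - 1) * N') := by
      rw [hsum]
      refine (Cyc (2 ^ (v - 1) * N')).sum_mem fun g _ => ?_
      by_cases hg : Y g = 0
      · rw [hg]; exact (Cyc (2 ^ (v - 1) * N')).zero_mem
      · have hev : ¬ Odd g.val := hcon g ((hSmem g).mpr hg)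
        rw [Nat.not_odd_iff_even] at hev
        obtain ⟨r, hr⟩ := hev
        obtain ⟨b, hb, hbY⟩ := hY g
        rw [hbY, hr, ← two_mul, pow_mul]
        refine (Cyc (2 ^ (v - 1) * N')).mul_mem ?_ ?_
        · refine hCB.2.2.1 _ _ (hpos _) ?_ hb
          rw [mul_comm N']
          exact Nat.mul_dvd_mul_right (pow_dvd_pow 2 (by omega)) N'
        · refine pow_mem ?_ _
          have e : ze (2 ^ v) ^ 2 = ze (2 ^ (v - 1)) := by
            rw [hCB.2.1 (2 ^ (v - 1)) (2 ^ v) (by positivity) (pow_dvd_pow 2 (by omega)),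
              Nat.pow_div (by omega) (by norm_num)]
            congr 1
            rw [show v - (v - 1) = 1 by omega]
          rw [e]
          exact ze_mem_of_dvd hCB (hpos _) ⟨N', rfl⟩
    have h1 := (hP (v - 1) (by omega) (by omega) x).mpr hmem
    rw [hp.2.2] at h1
    exact hx0 h1.symm
  have hunit : IsUnit g0 := by
    rw [← ZMod.natCast_zmod_val g0, ZMod.isUnit_iff_coprime]
    exact (Nat.coprime_pow_right_iff (by omega) _ 2).mpr (Nat.coprime_two_right.mpr hg0)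
  -- the number `A = ± a`
  obtain ⟨A, hA4, hAs, hAcl⟩ : ∃ A : ℤ, (4 : ℤ) ∣ A - 1 ∧ ¬ (2 ^ (s + 1) : ℤ) ∣ A - 1 ∧
      ∀ g ∈ S, (A : ZMod (2 ^ (v - 1))) * g ∈ S := by
    obtain ⟨r, hr⟩ := haodd
    rcases Nat.even_or_odd r with ⟨q, hq⟩ | ⟨q, hq⟩
    · refine ⟨a, ⟨q, ?_⟩, hd1, ?_⟩
      · rw [hr, hq]; push_cast; ring
      · intro g hg
        rw [Int.cast_natCast]
        exact hcla g hg
    · refine ⟨-a, ⟨-(q + 1), ?_⟩, ?_, ?_⟩
      · rw [hr, hq]; push_cast; ring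
      · intro h1
        apply hd2
        have e : ((a : ℤ) + 1) = -(-(a : ℤ) - 1) := by ring
        rw [e]
        exact (dvd_neg.mpr h1)
      · intro g hg
        rw [Int.cast_neg, Int.cast_natCast, neg_mul]
        exact hcln _ (hcla g hg)
  obtain ⟨e, b, he2, hes, hb, rfl⟩ := split_two A s hA4 hAs
  have hcard := count' (e := e) (k := v - 1 - e) (Q := 2 ^ (v - 1))
    (by rw [Nat.sub_add_cancel (by omega)]) he2 b hb S hcln hAcl g0 hg0S hunit
  have hge : (S.card : ℝ) ≤ M (x : ℂ) := by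
    rw [hMsum]
    have h1 : (S.card : ℝ) = ∑ g ∈ S, (1 : ℝ) := by simp
    rw [h1]
    refine (Finset.sum_le_sum fun g hg => hMB'.2.2.1 _ (hYm g) (hintY g) ((hSmem g).mp hg)).trans ?_
    exact Finset.sum_le_sum_of_subset_of_nonneg (Finset.subset_univ S)
      fun g _ _ => hMB'.2.1 _ (hYm g)
  have hcard' : (2 : ℝ) ^ (v - 1 - e + 1) ≤ M (x : ℂ) := le_trans (by exact_mod_cast hcard) hge
  have hsplit : (2 : ℝ) ^ v = 2 ^ e * 2 ^ (v - 1 - e + 1) := by
    rw [← pow_add]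
    congr 1
    omega
  rw [hsplit]
  have h5 : (2 : ℝ) ^ e ≤ 2 ^ s := pow_le_pow_right₀ (by norm_num) hes
  exact mul_le_mul h5 hcard' (by positivity) (by positivity)

end Pool.Agent.Lib.MPcb8a44.AB
end

section
/-!
Module NC of Theorem AB (MP_cb8a44_nt): a real trigonometric sum with a nonzero frequency is not constant.
-/
set_option autoImplicit false

namespace Pool.Agent.Lib.MPcb8a44.AB

namespace NcM

theorem ee_zero : ee 0 = 1 := by simp [ee]

theorem ee_add (s t : ℝ) : ee (s + t) = ee s * ee t := by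
  unfold ee
  rw [← Complex.exp_add]
  congr 1
  push_cast
  ring

theorem ee_ne_zero (s : ℝ) : ee s ≠ 0 := Complex.exp_ne_zero _

theorem ee_half : ee (1 / 2) = -1 := by
  unfold ee
  rw [← Complex.exp_pi_mul_I]
  congr 1
  push_cast
  ring

/-- The character `s ↦ e(s w)`. -/
noncomputable def chi (w : ℝ) : Multiplicative ℝ →* ℂ where
  toFun s := ee (s.toAdd * w)
  map_one' := by simp [ee_zero]
  map_mul' s t := by rw [toAdd_mul, add_mul, ee_add]

theorem chi_inj : Function.Injective chi := by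
  intro w w' h
  by_contra hne
  have hd : w - w' ≠ 0 := sub_ne_zero.2 hne
  have h1 := DFunLike.congr_fun h (Multiplicative.ofAdd (1 / (2 * (w - w'))))
  simp only [chi, MonoidHom.coe_mk, OneHom.coe_mk, toAdd_ofAdd] at h1
  have h2 : 1 / (2 * (w - w')) * w = 1 / (2 * (w - w')) * w' + 1 / 2 := by
    field_simp
    ring
  rw [h2, ee_add, ee_half, mul_neg, mul_one] at h1
  have h3 := ee_ne_zero (1 / (2 * (w - w')) * w')
  apply h3
  linear_combination (-1 / 2 : ℂ) * h1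

theorem ee_deriv (f s : ℝ) :
    HasDerivAt (fun s : ℝ => ee (s * f)) (ee (s * f) * (2 * Real.pi * Complex.I * f)) s := by
  unfold ee
  have h1 : HasDerivAt (fun s : ℝ => (((s * f : ℝ)) : ℂ)) ((f : ℝ) : ℂ) s := by
    have := ((hasDerivAt_id s).mul_const f).ofReal_comp
    simpa using this
  exact (h1.const_mul (2 * Real.pi * Complex.I)).cexp

end NcM

open NcM

theorem specNC : SpecNC := by
  intro ι J x f v hv him hne
  classical
  set F' : ℝ → ℂ := fun s => ∑ g ∈ J, x g * (ee (s * f g) * (2 * Real.pi * Complex.I * f g)) with hF'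
  have hF : ∀ s, HasDerivAt (fun s : ℝ => ∑ g ∈ J, x g * ee (s * f g)) (F' s) s := fun s =>
    HasDerivAt.fun_sum fun g _ => (ee_deriv (f g) s).const_mul (x g)
  have hre : ∀ s, HasDerivAt (fun s : ℝ => (∑ g ∈ J, x g * ee (s * f g)).re) (F' s).re s := fun s =>
    (Complex.reCLM.hasFDerivAt.comp_hasDerivAt s (hF s))
  have him' : ∀ s, (F' s).im = 0 := by
    intro s
    have h1 : HasDerivAt (fun s : ℝ => (∑ g ∈ J, x g * ee (s * f g)).im) (F' s).im s :=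
      (Complex.imCLM.hasFDerivAt.comp_hasDerivAt s (hF s))
    have h2 : (fun s : ℝ => (∑ g ∈ J, x g * ee (s * f g)).im) = fun _ => 0 := funext him
    rw [h2] at h1
    exact h1.unique (hasDerivAt_const s 0)
  by_contra hcon
  push Not at hcon
  have hzero : ∀ s, F' s = 0 := by
    intro s
    refine Complex.ext ?_ (him' s)
    exact hcon s _ (hre s)
  have hli := (linearIndependent_monoidHom (Multiplicative ℝ) ℂ).comp chi chi_inj
  rw [linearIndependent_iff'] at hli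
  set c : ℝ → ℂ := fun w => ∑ g ∈ J with f g = w, x g * (2 * Real.pi * Complex.I * f g) with hc
  have hcomb : ∑ w ∈ J.image f, c w • ((fun φ : Multiplicative ℝ →* ℂ => (φ : Multiplicative ℝ → ℂ)) ∘ chi) w
      = 0 := by
    funext s
    have h1 := hzero s.toAdd
    rw [hF'] at h1
    simp only at h1
    rw [← Finset.sum_fiberwise_of_maps_to (s := J) (t := J.image f) (g := f)
      (fun g hg => Finset.mem_image_of_mem _ hg)] at h1
    rw [Finset.sum_apply, Pi.zero_apply, ← h1]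
    refine Finset.sum_congr rfl fun w _ => ?_
    simp only [Function.comp_apply, Pi.smul_apply, smul_eq_mul, hc, chi, MonoidHom.coe_mk, OneHom.coe_mk]
    rw [Finset.sum_mul]
    refine Finset.sum_congr rfl fun g hg => ?_
    rw [(Finset.mem_filter.1 hg).2]
    ring
  have hmem : v ∈ J.image f := by
    by_contra hnm
    apply hne
    refine Finset.sum_eq_zero fun g hg => ?_
    obtain ⟨h1, h2⟩ := Finset.mem_filter.1 hg
    exact absurd (Finset.mem_image.2 ⟨g, h1, h2⟩) hnm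
  have hcv := hli (J.image f) c hcomb v hmem
  apply hne
  have h2 : c v = (∑ g ∈ J with f g = v, x g) * (2 * Real.pi * Complex.I * v) := by
    rw [hc]
    simp only
    rw [Finset.sum_mul]
    refine Finset.sum_congr rfl fun g hg => ?_
    rw [(Finset.mem_filter.1 hg).2]
  rw [h2] at hcv
  rcases mul_eq_zero.1 hcv with h | h
  · exact h
  · exfalso
    have hpi : (Real.pi : ℂ) ≠ 0 := by exact_mod_cast Real.pi_ne_zero
    have hv' : (v : ℂ) ≠ 0 := by exact_mod_cast hv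
    exact mul_ne_zero (mul_ne_zero (mul_ne_zero two_ne_zero hpi) Complex.I_ne_zero) hv' h

end Pool.Agent.Lib.MPcb8a44.AB
end

section
/-!
Theorem AB (MP_cb8a44_nt): common part of the modules PSA and PSB.
-/
set_option autoImplicit false

namespace Pool.Agent.Lib.MPcb8a44.AB.PsCoreM

open scoped BigOperators ComplexConjugate
open Pool.Agent.Lib.MPcb8a44.AB

theorem ze_pow_self (hCB : SpecCB) {N : ℕ} (hN : 0 < N) : ze N ^ N = 1 :=
  (hCB.1 N hN).pow_eq_one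

theorem ze_pow_mod (hCB : SpecCB) {N : ℕ} (hN : 0 < N) {a b : ℕ} (h : a ≡ b [MOD N]) :
    ze N ^ a = ze N ^ b := by
  have h1 := ze_pow_self hCB hN
  rw [← Nat.div_add_mod a N, ← Nat.div_add_mod b N, pow_add, pow_add, pow_mul, pow_mul, h1,
    one_pow, one_pow, h]

theorem ze_mem (N : ℕ) : ze N ∈ Cyc N := IntermediateField.subset_adjoin ℚ _ rfl

theorem ze_mem_of_dvd (hCB : SpecCB) {a b : ℕ} (hb : 0 < b) (h : a ∣ b) : ze a ∈ Cyc b :=
  hCB.2.2.1 a b hb h (ze_mem a)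

theorem ee_eq (k c u v : ℕ) {p : ℕ} (hp : 0 < p) (hc : c ≤ k) :
    ee ((u : ℝ) * (v : ℝ) / ((p ^ (k - c) : ℕ) : ℝ)) = ze (p ^ k) ^ (p ^ c * u * v) := by
  unfold ee ze
  rw [← Complex.exp_nat_mul]
  congr 1
  have hp' : (p : ℂ) ≠ 0 := by exact_mod_cast hp.ne'
  have : (p : ℂ) ^ k = (p : ℂ) ^ c * (p : ℂ) ^ (k - c) := by
    rw [← pow_add]; congr 1; omega
  push_cast
  rw [this]
  field_simp

/-- the set `Pc N1 P g` as an additive subgroup -/
noncomputable def LG (N1 P g : ℕ) : AddSubgroup ℂ where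
  carrier := Pc N1 P g
  zero_mem' := ⟨0, zero_mem _, by simp⟩
  add_mem' := by
    rintro x y ⟨a, ha, rfl⟩ ⟨b, hb, rfl⟩
    exact ⟨a + b, add_mem ha hb, by ring⟩
  neg_mem' := by
    rintro x ⟨a, ha, rfl⟩
    exact ⟨-a, neg_mem ha, by ring⟩

theorem mem_LG {N1 P g : ℕ} {x : ℂ} : x ∈ LG N1 P g ↔ x ∈ Pc N1 P g := Iff.rfl

/-- shifting the exponent by a multiple of `Q` where `ze P ^ Q ∈ Cyc N1` -/
theorem pc_shift {N1 P Q : ℕ} (hQ : ze P ^ Q ∈ Cyc N1) {a b : ℕ} (h : a ≡ b [MOD Q])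
    {x : ℂ} (hx : x ∈ Pc N1 P a) : x ∈ Pc N1 P b := by
  obtain ⟨c, hc, rfl⟩ := hx
  have hP : ze P ≠ 0 := by unfold ze; exact Complex.exp_ne_zero _
  refine ⟨c * (ze P ^ Q) ^ (a / Q) * ((ze P ^ Q) ^ (b / Q))⁻¹, ?_, ?_⟩
  · exact mul_mem (mul_mem hc (pow_mem hQ _)) (inv_mem (pow_mem hQ _))
  · have h1 : ze P ^ a = (ze P ^ Q) ^ (a / Q) * ze P ^ (a % Q) := by
      rw [← pow_mul, ← pow_add, Nat.div_add_mod]
    have h2 : ze P ^ b = (ze P ^ Q) ^ (b / Q) * ze P ^ (a % Q) := by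
      rw [h, ← pow_mul, ← pow_add, Nat.div_add_mod]
    rw [h1, h2]
    have h3 : (ze P ^ Q) ^ (b / Q) ≠ 0 := pow_ne_zero _ (pow_ne_zero _ hP)
    field_simp

/-- `ze (p ^ k) ^ p ^ (k - c) = ze (p ^ c)` -/
theorem ze_pow_Q (hCB : SpecCB) {p k c : ℕ} (hp : p.Prime) (hc : c ≤ k) :
    ze (p ^ k) ^ (p ^ (k - c)) = ze (p ^ c) := by
  have h := hCB.2.1 (p ^ c) (p ^ k) (pow_pos hp.pos _) (pow_dvd_pow _ hc)
  rw [h, Nat.pow_div hc hp.pos]

theorem hQmem (hCB : SpecCB) {p N0 k c : ℕ} (hp : p.Prime) (hN0 : 0 < N0) (hc : c ≤ k) :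
    ze (p ^ k) ^ (p ^ (k - c)) ∈ Cyc (N0 * p ^ c) := by
  rw [ze_pow_Q hCB hp hc]
  exact ze_mem_of_dvd hCB (Nat.mul_pos hN0 (pow_pos hp.pos _)) (dvd_mul_left _ _)

section Grading

variable {p N0 k c Q : ℕ} [NeZero Q]

theorem val_add_mod (g h : ZMod Q) : g.val + h.val ≡ (g + h).val [MOD Q] := by
  rw [ZMod.val_add]; exact (Nat.mod_modEq _ _).symm

theorem lg_mul (hCB : SpecCB) (hp : p.Prime) (hN0 : 0 < N0) (hc : c ≤ k) (hQ : Q = p ^ (k - c))
    (g h : ZMod Q) {x y : ℂ} (hx : x ∈ LG (N0 * p ^ c) (p ^ k) g.val)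
    (hy : y ∈ LG (N0 * p ^ c) (p ^ k) h.val) : x * y ∈ LG (N0 * p ^ c) (p ^ k) (g + h).val := by
  obtain ⟨a, ha, rfl⟩ := hx
  obtain ⟨b, hb, rfl⟩ := hy
  have hm : ze (p ^ k) ^ Q ∈ Cyc (N0 * p ^ c) := by rw [hQ]; exact hQmem hCB hp hN0 hc
  refine mem_LG.2 (pc_shift hm (val_add_mod g h) ⟨a * b, mul_mem ha hb, ?_⟩)
  rw [pow_add]; ring

theorem conj_ze (N : ℕ) : conj (ze N) = (ze N)⁻¹ := by
  unfold ze
  rw [← Complex.exp_conj, ← Complex.exp_neg]
  congr 1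
  simp only [map_div₀, map_mul, Complex.conj_I, Complex.conj_ofReal, map_ofNat, map_natCast]
  ring

theorem lg_conj (hCB : SpecCB) (hp : p.Prime) (hN0 : 0 < N0) (hc : c ≤ k) (hQ : Q = p ^ (k - c))
    (g : ZMod Q) {x : ℂ} (hx : x ∈ LG (N0 * p ^ c) (p ^ k) g.val) :
    conj x ∈ LG (N0 * p ^ c) (p ^ k) (-g).val := by
  obtain ⟨a, ha, rfl⟩ := hx
  have hm : ze (p ^ k) ^ Q ∈ Cyc (N0 * p ^ c) := by rw [hQ]; exact hQmem hCB hp hN0 hc
  have hP : ze (p ^ k) ≠ 0 := by unfold ze; exact Complex.exp_ne_zero _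
  have hN : 0 < N0 * p ^ c := Nat.mul_pos hN0 (pow_pos hp.pos _)
  have hle : g.val ≤ Q := (ZMod.val_lt g).le
  have h1 : (Q - g.val) ≡ (-g).val [MOD Q] := by
    have h2 : ((Q - g.val : ℕ) : ZMod Q) = (((-g).val : ℕ) : ZMod Q) := by
      rw [Nat.cast_sub hle]; simp
    exact (ZMod.natCast_eq_natCast_iff _ _ _).1 h2
  refine mem_LG.2 (pc_shift hm h1 ⟨conj a * (ze (p ^ k) ^ Q)⁻¹,
    mul_mem (hCB.2.2.2.2 _ hN a ha) (inv_mem hm), ?_⟩)
  rw [map_mul, map_pow, conj_ze, inv_pow]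
  have h3 : ze (p ^ k) ^ Q = ze (p ^ k) ^ (Q - g.val) * ze (p ^ k) ^ g.val := by
    rw [← pow_add]; congr 1; omega
  have h4 : ze (p ^ k) ^ (Q - g.val) ≠ 0 := pow_ne_zero _ hP
  have h5 : ze (p ^ k) ^ g.val ≠ 0 := pow_ne_zero _ hP
  rw [h3]
  field_simp

theorem lg_rot (hCB : SpecCB) (hp : p.Prime) (hN0 : 0 < N0) (hc : c ≤ k) (hQ : Q = p ^ (k - c))
    (u : ℕ) (g : ZMod Q) {x : ℂ} (hx : x ∈ LG (N0 * p ^ c) (p ^ k) g.val) :
    x * ee ((u : ℝ) * (g.val : ℝ) / (Q : ℝ)) ∈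
      LG (N0 * p ^ c) (p ^ k) ((1 + p ^ c * u) • g).val := by
  obtain ⟨a, ha, rfl⟩ := hx
  have hm : ze (p ^ k) ^ Q ∈ Cyc (N0 * p ^ c) := by rw [hQ]; exact hQmem hCB hp hN0 hc
  have h1 : (1 + p ^ c * u) * g.val ≡ ((1 + p ^ c * u) • g).val [MOD Q] := by
    refine (ZMod.natCast_eq_natCast_iff _ _ _).1 ?_
    rw [Nat.cast_mul, ZMod.natCast_zmod_val, ZMod.natCast_zmod_val, nsmul_eq_mul]
  refine mem_LG.2 (pc_shift hm h1 ⟨a, ha, ?_⟩)
  have h2 : ee ((u : ℝ) * (g.val : ℝ) / (Q : ℝ)) = ze (p ^ k) ^ (p ^ c * u * g.val) := by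
    rw [← ee_eq k c u g.val hp.pos hc, ← hQ]
  rw [h2, mul_assoc, ← pow_add]
  congr 2
  ring

end Grading

/-- The automorphism `ζ ↦ ζ ^ s` fixing `Cyc (N0 p ^ c)`. -/
theorem exists_aut (hCB : SpecCB) (hGAL : SpecGAL) {p N0 k c : ℕ} (hp : p.Prime) (hN0 : 0 < N0)
    (hpN : ¬ p ∣ N0) (hk : 1 ≤ k) (hc : c ≤ k) (u : ℕ) (hu : ¬ p ∣ 1 + p ^ c * u) :
    ∃ σ : Cyc (N0 * p ^ k) ≃ₐ[ℚ] Cyc (N0 * p ^ k),
      (∀ z : Cyc (N0 * p ^ k), (z : ℂ) ∈ Cyc (N0 * p ^ c) → σ z = z) ∧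
      (∀ z : Cyc (N0 * p ^ k), (z : ℂ) = ze (p ^ k) →
        ((σ z : Cyc (N0 * p ^ k)) : ℂ) = ze (p ^ k) ^ (1 + p ^ c * u)) := by
  have hN : 0 < N0 * p ^ k := Nat.mul_pos hN0 (pow_pos hp.pos _)
  have hcop : N0.Coprime (p ^ k) := Nat.Coprime.pow_right _ ((Nat.coprime_comm.1
    ((Nat.Prime.coprime_iff_not_dvd hp).2 hpN)))
  obtain ⟨s, hs1, hs2⟩ := Nat.chineseRemainder hcop 1 (1 + p ^ c * u)
  have hsN0 : s.Coprime N0 := by
    have : Nat.gcd s N0 = Nat.gcd 1 N0 := hs1.gcd_eq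
    rw [Nat.coprime_iff_gcd_eq_one, this]; simp
  have hsp : ¬ p ∣ s := by
    intro h
    apply hu
    have h1 : s ≡ 1 + p ^ c * u [MOD p] := hs2.of_dvd (dvd_pow_self p (by omega))
    exact (h1.dvd_iff dvd_rfl).1 h
  have hsP : s.Coprime (p ^ k) := Nat.Coprime.pow_right _
    (Nat.coprime_comm.1 ((Nat.Prime.coprime_iff_not_dvd hp).2 hsp))
  have hsN : s.Coprime (N0 * p ^ k) := Nat.Coprime.mul_right hsN0 hsP
  obtain ⟨-, -, hex, -⟩ := hGAL _ hN
  obtain ⟨σ, hσ⟩ := hex s hsN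
  have hgen : ∀ (z : Cyc (N0 * p ^ k)) (d : ℕ), d ∣ N0 * p ^ k → (z : ℂ) = ze d →
      ((σ z : Cyc (N0 * p ^ k)) : ℂ) = ze d ^ s := by
    intro z d hd hz
    have h1 : z = (⟨ze (N0 * p ^ k), ze_mem _⟩ : Cyc (N0 * p ^ k)) ^ (N0 * p ^ k / d) := by
      apply Subtype.ext
      rw [hz, hCB.2.1 d _ hN hd]
      rfl
    rw [h1, map_pow]
    have h2 := hσ ⟨ze (N0 * p ^ k), ze_mem _⟩ rfl
    rw [SubmonoidClass.coe_pow, h2, ← pow_mul, mul_comm s, pow_mul, ← hCB.2.1 d _ hN hd]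
  refine ⟨σ, ?_, ?_⟩
  · have hN1 : 0 < N0 * p ^ c := Nat.mul_pos hN0 (pow_pos hp.pos _)
    have hdvd : N0 * p ^ c ∣ N0 * p ^ k := Nat.mul_dvd_mul_left _ (pow_dvd_pow _ hc)
    have hs3 : s ≡ 1 [MOD N0 * p ^ c] := by
      refine (Nat.modEq_and_modEq_iff_modEq_mul (Nat.Coprime.pow_right _ ((Nat.coprime_comm.1
        ((Nat.Prime.coprime_iff_not_dvd hp).2 hpN))))).1 ⟨hs1, ?_⟩
      have h1 : s ≡ 1 + p ^ c * u [MOD p ^ c] := hs2.of_dvd (pow_dvd_pow _ hc)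
      refine h1.trans ?_
      have h2 : p ^ c * u ≡ 0 [MOD p ^ c] := (Nat.modEq_zero_iff_dvd).2 (dvd_mul_right _ _)
      exact (Nat.ModEq.refl 1).add h2
    have key : ∀ a : ℂ, a ∈ Cyc (N0 * p ^ c) → ∀ z : Cyc (N0 * p ^ k), (z : ℂ) = a → σ z = z := by
      intro a ha
      have hle : Cyc (N0 * p ^ c) ≤ Cyc (N0 * p ^ k) := hCB.2.2.1 _ _ hN hdvd
      refine IntermediateField.adjoin_induction (F := ℚ)
        (p := fun a _ => ∀ z : Cyc (N0 * p ^ k), (z : ℂ) = a → σ z = z) ?_ ?_ ?_ ?_ ?_ ha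
      · rintro x hx z hz
        rw [Set.mem_singleton_iff] at hx
        apply Subtype.ext
        rw [hgen z _ hdvd (hz.trans hx), ze_pow_mod hCB hN1 hs3, pow_one, hz, hx]
      · rintro q z hz
        have : z = algebraMap ℚ _ q := Subtype.ext (by rw [hz]; rfl)
        rw [this, AlgEquiv.commutes]
      · rintro x y hx hy h1 h2 z hz
        have hx' := hle hx
        have hy' := hle hy
        have e : z = ⟨x, hx'⟩ + ⟨y, hy'⟩ := Subtype.ext hz
        rw [e, map_add, h1 ⟨x, hx'⟩ rfl, h2 ⟨y, hy'⟩ rfl]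
      · rintro x hx h1 z hz
        have hx' := hle hx
        have e : z = (⟨x, hx'⟩ : Cyc (N0 * p ^ k))⁻¹ := Subtype.ext hz
        rw [e, map_inv₀, h1 ⟨x, hx'⟩ rfl]
      · rintro x y hx hy h1 h2 z hz
        have hx' := hle hx
        have hy' := hle hy
        have e : z = ⟨x, hx'⟩ * ⟨y, hy'⟩ := Subtype.ext hz
        rw [e, map_mul, h1 ⟨x, hx'⟩ rfl, h2 ⟨y, hy'⟩ rfl]
    exact fun z hz => key _ hz z rfl
  · intro z hz
    rw [hgen z _ (dvd_mul_left _ _) hz]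
    exact ze_pow_mod hCB (pow_pos hp.pos _) hs2


theorem M_zero : M 0 = 0 := by
  unfold M ntr
  rw [zero_mul, minpoly.zero]
  simp [Polynomial.nextCoeff]

/-- The sums of squares produced by the Pythagoras hypothesis. -/
theorem core (hCB : SpecCB) (hGAL : SpecGAL) (hMB : SpecMB) {n T p N0 k c Q : ℕ} [NeZero Q]
    (hp : p.Prime) (hN0 : 0 < N0) (hpN : ¬ p ∣ N0) (hk : 1 ≤ k) (hc : c ≤ k)
    (hQ : Q = p ^ (k - c)) (K : IntermediateField ℚ ℂ) (hK : K ≤ Cyc (N0 * p ^ k))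
    (hre : ∀ x ∈ K, x.im = 0) (hP : Pyth n K) {x : ℂ} (hxK : x ∈ K) (hxi : IsIntegral ℤ x)
    (hxM : M x ≤ T) (J : Finset (ZMod Q)) (X : ZMod Q → ℂ)
    (hX : ∀ g ∈ J, X g ∈ Pc (N0 * p ^ c) (p ^ k) g.val) (hx : x = ∑ g ∈ J, X g)
    (u : Fin (n + 1) → ℕ) (hu : ∀ l, ¬ p ∣ 1 + p ^ c * u l) :
    ∃ b : Fin n → ℂ, (∀ j, b j ∈ K ∧ IsIntegral ℤ (b j)) ∧
      ∑ j, M (b j) ≤ 4 * (n + 1) * T ∧
      ∑ l : Fin (n + 1), ((∑ g ∈ J, X g * ee ((u l : ℝ) * (g.val : ℝ) / (Q : ℝ))) -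
        ∑ g ∈ J, X g) ^ 2 = ∑ j, b j ^ 2 := by
  have hN : 0 < N0 * p ^ k := Nat.mul_pos hN0 (pow_pos hp.pos _)
  obtain ⟨mb1, mb2, -, mb4, mb5, -, mb7⟩ := hMB _ hN
  obtain ⟨-, -, -, -, -, hst, -⟩ := hGAL _ hN
  have hle1 : Cyc (N0 * p ^ c) ≤ Cyc (N0 * p ^ k) :=
    hCB.2.2.1 _ _ hN (Nat.mul_dvd_mul_left _ (pow_dvd_pow _ hc))
  have hzP : ze (p ^ k) ∈ Cyc (N0 * p ^ k) := ze_mem_of_dvd hCB hN (dvd_mul_left _ _)
  -- the conjugates
  have hconj : ∀ l, ∃ y : ℂ, y ∈ K ∧ IsIntegral ℤ y ∧ M y = M x ∧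
      y = ∑ g ∈ J, X g * ee ((u l : ℝ) * (g.val : ℝ) / (Q : ℝ)) := by
    intro l
    obtain ⟨σ, hσ1, hσ2⟩ := exists_aut hCB hGAL hp hN0 hpN hk hc (u l) (hu l)
    have hxC : x ∈ Cyc (N0 * p ^ k) := hK hxK
    refine ⟨((σ ⟨x, hxC⟩ : Cyc (N0 * p ^ k)) : ℂ), hst σ K hK ⟨x, hxC⟩ hxK, ?_,
      mb5 ⟨x, hxC⟩ σ, ?_⟩
    · have h1 : IsIntegral ℤ (⟨x, hxC⟩ : Cyc (N0 * p ^ k)) :=
        (isIntegral_algebraMap_iff (algebraMap (Cyc (N0 * p ^ k)) ℂ).injective).1 hxi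
      have h2 : IsIntegral ℤ (σ ⟨x, hxC⟩) := h1.map σ
      exact (isIntegral_algebraMap_iff (algebraMap (Cyc (N0 * p ^ k)) ℂ).injective).2 h2
    · choose! a ha1 ha2 using hX
      have h1 : (⟨x, hxC⟩ : Cyc (N0 * p ^ k)) = ∑ g ∈ J.attach,
          (⟨a g.1, hle1 (ha1 g.1 g.2)⟩ : Cyc (N0 * p ^ k)) * ⟨ze (p ^ k), hzP⟩ ^ (g.1.val) := by
        apply Subtype.ext
        push_cast
        rw [Finset.sum_attach J (fun g => a g * ze (p ^ k) ^ g.val)]
        exact hx.trans (Finset.sum_congr rfl ha2)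
      rw [h1, map_sum]
      push_cast
      rw [← Finset.sum_attach J]
      refine Finset.sum_congr rfl fun g _ => ?_
      rw [map_mul, map_pow, hσ1 ⟨a g.1, hle1 (ha1 g.1 g.2)⟩ (ha1 g.1 g.2)]
      push_cast
      rw [hσ2 ⟨ze (p ^ k), hzP⟩ rfl, ha2 g.1 g.2]
      have h2 : ee ((u l : ℝ) * (g.1.val : ℝ) / (Q : ℝ)) =
          ze (p ^ k) ^ (p ^ c * u l * g.1.val) := by
        rw [← ee_eq k c (u l) g.1.val hp.pos hc, ← hQ]
      rw [h2, ← pow_mul, mul_assoc, ← pow_add]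
      congr 2
      ring
  choose y hyK hyi hyM hy using hconj
  have hd : ∀ l, y l - x ∈ K ∧ IsIntegral ℤ (y l - x) := fun l =>
    ⟨sub_mem (hyK l) hxK, (hyi l).sub hxi⟩
  have hSq : Sq (n + 1) K (∑ l, (y l - x) ^ 2) := ⟨fun l => y l - x, hd, rfl⟩
  obtain ⟨b, hb, hb2⟩ := hP _ _ hSq
  have hsum : ∀ {ι : Type} [Fintype ι] (z : ι → ℂ), (∀ i, z i ∈ K) →
      ntr (∑ i, z i ^ 2) = ∑ i, M (z i) := by
    intro ι _ z hz
    have h0 : ∀ s : Finset ι, ntr (∑ i ∈ s, z i ^ 2) = ∑ i ∈ s, M (z i) := by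
      classical
      intro s
      induction s using Finset.induction_on with
      | empty =>
        simp only [Finset.sum_empty]
        have := mb1 0 (zero_mem _) 0 (zero_mem _)
        rw [add_zero] at this
        linarith
      | insert i s hi ih =>
        rw [Finset.sum_insert hi, Finset.sum_insert hi,
          mb1 _ (pow_mem (hK (hz i)) 2) _ (sum_mem fun j _ => pow_mem (hK (hz j)) 2), ih,
          mb7 _ (hK (hz i)) (hre _ (hz i))]
    exact h0 Finset.univ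
  refine ⟨b, hb, ?_, ?_⟩
  · rw [← hsum b fun j => (hb j).1, ← hb2, hsum (fun l => y l - x) fun l => (hd l).1]
    have h1 : ∀ l, M (y l - x) ≤ 4 * T := by
      intro l
      have h2 := mb4 (y l) (hK (hyK l)) x (hK hxK)
      have h3 := mb2 (y l + x) (add_mem (hK (hyK l)) (hK hxK))
      rw [hyM l] at h2
      linarith
    calc ∑ l, M (y l - x) ≤ ∑ _l : Fin (n + 1), (4 * T : ℝ) := Finset.sum_le_sum fun l _ => h1 l
      _ = 4 * (n + 1) * T := by simp; ring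
  · rw [← hb2]
    refine Finset.sum_congr rfl fun l _ => ?_
    rw [← hy l, ← hx]


theorem pow_le_addOrderOf {p e Q : ℕ} [NeZero Q] (hp : p.Prime) (hQ : Q = p ^ e) (v : ZMod Q)
    (j : ℕ) (hv : p ^ j • v ≠ 0) : p ^ (j + 1) ≤ addOrderOf v := by
  have h1 : addOrderOf v ∣ p ^ e := by
    rw [← hQ]
    have := addOrderOf_dvd_natCard v
    rwa [Nat.card_zmod] at this
  obtain ⟨i, -, hi⟩ := (Nat.dvd_prime_pow hp).1 h1
  rw [hi]
  refine Nat.pow_le_pow_right hp.pos ?_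
  by_contra h2
  apply hv
  have h3 : addOrderOf v ∣ p ^ j := by rw [hi]; exact pow_dvd_pow _ (by omega)
  exact addOrderOf_dvd_iff_nsmul_eq_zero.1 h3

theorem pc_le_cyc (hCB : SpecCB) {p N0 k c : ℕ} (hp : p.Prime) (hN0 : 0 < N0) (hc : c ≤ k)
    {g : ℕ} {x : ℂ} (hx : x ∈ Pc (N0 * p ^ c) (p ^ k) g) : x ∈ Cyc (N0 * p ^ k) := by
  obtain ⟨a, ha, rfl⟩ := hx
  have hN : 0 < N0 * p ^ k := Nat.mul_pos hN0 (pow_pos hp.pos _)
  exact mul_mem (hCB.2.2.1 _ _ hN (Nat.mul_dvd_mul_left _ (pow_dvd_pow _ hc)) ha)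
    (pow_mem (ze_mem_of_dvd hCB hN (dvd_mul_left _ _)) _)

end Pool.Agent.Lib.MPcb8a44.AB.PsCoreM
end

section
/-!
Theorem AB (MP_cb8a44_nt): module PSA.
-/
set_option autoImplicit false

namespace Pool.Agent.Lib.MPcb8a44.AB

open scoped BigOperators ComplexConjugate
open PsCoreM

theorem specPSA (hSPX : SpecSPX) (hSA : SpecSA) (hUA : SpecUA) (hCB : SpecCB) (hGAL : SpecGAL)
    (hMB : SpecMB) : SpecPSA := by
  intro n T
  obtain ⟨Y1, H, h, hH, hh, hspx⟩ := hSPX n (2 * T) (1 + (n + 2) * (2 * T) + 8 * (n + 1) * T)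
  set m0 := 1 + (n + 2) * (2 * T) + 8 * (n + 1) * T with hm0
  refine ⟨Y1 + h + m0 ^ 2 + 1, ?_⟩
  intro p N0 k k' K hp hP0 hN0 hpN hk hkk' hK hre hPyth x hxK hxi hxM hxk
  by_contra hnot
  have hk' : 1 ≤ k' := hk.trans hkk'
  have hN : 0 < N0 * p ^ k' := Nat.mul_pos hN0 (pow_pos hp.pos _)
  haveI : NeZero (p ^ k') := ⟨pow_ne_zero _ hp.ne_zero⟩
  obtain ⟨J, X, hJ, hxX, hJc⟩ := hSA p N0 k' (p ^ k') hp hN0 hpN hk' rfl x (hK hxK) hxi
  have hN00 : N0 * p ^ 0 = N0 := by simp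
  have hJcard : J.card ≤ 2 * T := by
    have : (J.card : ℝ) ≤ ((2 * T : ℕ) : ℝ) := by push_cast; linarith
    exact_mod_cast this
  have hord : ∀ v : ZMod (p ^ k'), v ≠ 0 → p ≤ addOrderOf v := by
    intro v hv
    have := pow_le_addOrderOf hp rfl v 0 (by simpa using hv)
    simpa using this
  have hX : ∀ g ∈ J, X g ∈ Pc (N0 * p ^ 0) (p ^ k') g.val := by
    intro g hg
    rw [hN00]; exact (hJ g hg).1
  obtain ⟨u, hu, hfin⟩ := hspx p k' 0 (p ^ k') hp rfl (fun _ => by omega)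
    (fun g => LG (N0 * p ^ 0) (p ^ k') g.val) (p - 1) (by omega)
    ⟨1, one_mem _, by simp⟩
    (fun g g' a b ha hb => lg_mul hCB hp hN0 (Nat.zero_le _) rfl g g' ha hb)
    (fun g a ha => lg_conj hCB hp hN0 (Nat.zero_le _) rfl g ha)
    (fun v _ g a ha => lg_rot hCB hp hN0 (Nat.zero_le _) rfl v g ha)
    (by
      intro S y hS hy hsum
      refine hUA p N0 k' (p ^ k') hp hN0 hpN hk' rfl S y (by omega) ?_ hsum
      intro g hg
      have := hy g hg
      rw [mem_LG, hN00] at this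
      exact this)
    J X hJcard (fun g hg => ⟨hX g hg, (hJ g hg).2⟩) (by rw [← hxX]; exact hre x hxK)
    (by
      intro a _ hw
      refine le_trans (by omega) (hord _ ?_)
      intro h0
      have h1 : addOrderOf (∑ g ∈ J, a g • g) ∣ h * p ^ 0 := addOrderOf_dvd_iff_nsmul_eq_zero.2 h0
      have h2 := hord _ hw
      have h3 := Nat.le_of_dvd (by simpa using hh) h1
      simp only [pow_zero, mul_one] at h3
      omega)
    (by
      by_contra hno
      push Not at hno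
      apply hnot
      have h0 : ∀ g ∈ J, g = 0 := by
        intro g hg
        by_contra hg0
        have := hord g hg0
        have := hno g hg
        omega
      rw [hxX]
      refine sum_mem fun g hg => ?_
      obtain ⟨a, ha, hag⟩ := (hJ g hg).1
      rw [hag, h0 g hg, ZMod.val_zero, pow_zero, mul_one]
      exact hCB.2.2.1 _ _ (Nat.mul_pos hN0 (pow_pos hp.pos _)) (dvd_mul_right _ _) ha)
  obtain ⟨b, hb, hbM, hbeq⟩ := core hCB hGAL hMB (c := 0) (Q := p ^ k') hp hN0 hpN hk' (Nat.zero_le _) rfl K hK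
    hre hPyth hxK hxi hxM J X hX hxX u hu
  have hex : ∀ j, ∃ (S : Finset (ZMod (p ^ k'))) (Y : ZMod (p ^ k') → ℂ),
      (∀ g ∈ S, Y g ∈ Pc N0 (p ^ k') g.val ∧ Y g ≠ 0) ∧ b j = ∑ g ∈ S, Y g ∧
      (S.card : ℝ) ≤ 2 * M (b j) := fun j =>
    hSA p N0 k' (p ^ k') hp hN0 hpN hk' rfl (b j) (hK (hb j).1) (hb j).2
  choose S B hSB hbS hSc using hex
  refine hfin S B (fun j g hg => ?_) (fun j => ?_) ?_ ?_
  · rw [mem_LG, hN00]; exact (hSB j g hg).1
  · rw [← hbS j]; exact hre _ (hb j).1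
  · have h1 : ((∑ j, (S j).card : ℕ) : ℝ) ≤ ((8 * (n + 1) * T : ℕ) : ℝ) := by
      push_cast
      calc ∑ j, ((S j).card : ℝ) ≤ ∑ j, 2 * M (b j) := Finset.sum_le_sum fun j _ => hSc j
        _ = 2 * ∑ j, M (b j) := by rw [Finset.mul_sum]
        _ ≤ 8 * (n + 1) * T := by linarith
    have h2 : ∑ j, (S j).card ≤ 8 * (n + 1) * T := by exact_mod_cast h1
    omega
  · rw [hbeq]
    exact Finset.sum_congr rfl fun j _ => by rw [← hbS j]

end Pool.Agent.Lib.MPcb8a44.AB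
end

section
/-!
Theorem AB (MP_cb8a44_nt): module PSB.
-/
set_option autoImplicit false

namespace Pool.Agent.Lib.MPcb8a44.AB

open scoped BigOperators ComplexConjugate
open PsCoreM

namespace PsbM

/-- the divisibility step -/
theorem dvd_step {p c k D m : ℕ} (hp : p.Prime) (hck : 2 * c + D ≤ k) (hm : 0 < m)
    (hmD : m < p ^ D) (w : ℤ) (h : ((p ^ (k - c) : ℕ) : ℤ) ∣ (m * p ^ c : ℕ) * w) :
    (p : ℤ) ^ (k - 2 * c - D) ∣ w := by
  obtain ⟨v, q, hq, hmq⟩ := Nat.exists_eq_pow_mul_and_not_dvd hm.ne' p hp.ne_one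
  have hv : v < D := by
    by_contra hle
    have h1 : p ^ D ≤ p ^ v := Nat.pow_le_pow_right hp.pos (by omega)
    have hq0 : 0 < q := Nat.pos_of_ne_zero (by rintro rfl; simp at hq)
    have h2 : p ^ v ≤ p ^ v * q := Nat.le_mul_of_pos_right _ hq0
    omega
  have h1 : (p : ℤ) ^ (k - c) = (p : ℤ) ^ (v + c) * (p : ℤ) ^ (k - 2 * c - v) := by
    rw [← pow_add]; congr 1; omega
  have h2 : (p : ℤ) ^ (v + c) * (p : ℤ) ^ (k - 2 * c - v) ∣ (p : ℤ) ^ (v + c) * (q * w) := by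
    rw [← h1]
    have h3 : ((m * p ^ c : ℕ) : ℤ) * w = (p : ℤ) ^ (v + c) * (q * w) := by
      rw [hmq]; push_cast; ring
    rw [← h3]
    simpa using h
  have hp0 : (p : ℤ) ^ (v + c) ≠ 0 := pow_ne_zero _ (by exact_mod_cast hp.ne_zero)
  have h4 : (p : ℤ) ^ (k - 2 * c - v) ∣ q * w := (mul_dvd_mul_iff_left hp0).1 h2
  have h5 : IsCoprime ((p : ℤ) ^ (k - 2 * c - v)) (q : ℤ) := by
    apply IsCoprime.pow_left
    rw [Nat.isCoprime_iff_coprime]
    exact (Nat.Prime.coprime_iff_not_dvd hp).2 hq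
  have h6 := h5.dvd_of_dvd_mul_left h4
  exact dvd_trans (pow_dvd_pow _ (by omega)) h6

/-- the support has at most `M y` elements -/
theorem card_le {p N0 k c T : ℕ} {Q : ℕ} [NeZero Q] (hCB : SpecCB) (hMB : SpecMB)
    (hp : p.Prime) (hN0 : 0 < N0) (hc : c ≤ k) (Y : ZMod Q → ℂ)
    (hY : ∀ g, Y g ∈ Pc (N0 * p ^ c) (p ^ k) g.val) (hYi : ∀ g, IsIntegral ℤ (Y g))
    {m : ℝ} (hM : m = ∑ g, M (Y g)) :
    ((Finset.univ.filter (fun g => Y g ≠ 0)).card : ℝ) ≤ m := by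
  classical
  have hN : 0 < N0 * p ^ k := Nat.mul_pos hN0 (pow_pos hp.pos _)
  obtain ⟨-, mb2, mb3, -⟩ := hMB _ hN
  rw [hM]
  calc ((Finset.univ.filter (fun g => Y g ≠ 0)).card : ℝ)
      = ∑ _g ∈ Finset.univ.filter (fun g => Y g ≠ 0), (1 : ℝ) := by simp
    _ ≤ ∑ g ∈ Finset.univ.filter (fun g => Y g ≠ 0), M (Y g) := by
        refine Finset.sum_le_sum fun g hg => ?_
        exact mb3 _ (pc_le_cyc hCB hp hN0 hc (hY g)) (hYi g) (Finset.mem_filter.1 hg).2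
    _ ≤ ∑ g, M (Y g) := by
        refine Finset.sum_le_sum_of_subset_of_nonneg (Finset.filter_subset _ _) fun g _ _ => ?_
        exact mb2 _ (pc_le_cyc hCB hp hN0 hc (hY g))

end PsbM

open PsbM

theorem specPSB (hSPX : SpecSPX) (hGR : SpecGR) (hGU : SpecGU) (hWIN : SpecWIN) (hCB : SpecCB)
    (hGAL : SpecGAL) (hMB : SpecMB) : SpecPSB := by
  classical
  intro n T
  obtain ⟨Y1, H, h, hH, hh, hspx⟩ := hSPX n T (1 + (n + 2) * T + 4 * (n + 1) * T)
  set m0 := 1 + (n + 2) * T + 4 * (n + 1) * T with hm0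
  set D := Y1 * h with hD
  obtain ⟨cmax, hwin⟩ := hWIN ((2 * H + 1) ^ T) D
  refine ⟨2 * cmax + D + Y1 + 2, ?_⟩
  intro p N0 k k' K hp hk0 hN0 hpN hk hkk' hK hre hPyth x hxK hxi hxM hxk
  by_contra hnot
  have hk' : 1 ≤ k' := hk.trans hkk'
  have hp2 := hp.two_le
  have hN : 0 < N0 * p ^ k' := Nat.mul_pos hN0 (pow_pos hp.pos _)
  -- the grading with `c = 1`
  haveI : NeZero (p ^ (k' - 1)) := ⟨pow_ne_zero _ hp.ne_zero⟩
  obtain ⟨X1, hX1, hxX1, hMX1, hiX1⟩ := hGR p N0 k' 1 (p ^ (k' - 1)) hp hN0 hpN le_rfl hk' rfl x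
    (hK hxK)
  set J1 := Finset.univ.filter (fun g => X1 g ≠ 0) with hJ1
  have hJ1c : J1.card ≤ T := by
    have h1 := card_le hCB hMB (T := T) hp hN0 hk' X1 hX1 (hiX1 hxi) hMX1
    exact_mod_cast h1.trans hxM
  -- the integers
  set W : Finset ℤ := (Fintype.piFinset (fun _ : J1 => Finset.Icc (-(H : ℤ)) H)).image
    (fun a => ∑ g : J1, a g * ((g.1.val : ℕ) : ℤ)) with hW
  have hWc : W.card ≤ (2 * H + 1) ^ T := by
    refine Finset.card_image_le.trans ?_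
    rw [Fintype.card_piFinset]
    simp only [Int.card_Icc, Finset.prod_const, Finset.card_univ, Fintype.card_coe]
    have e : ((H : ℤ) + 1 - -(H : ℤ)).toNat = 2 * H + 1 := by omega
    rw [e]
    exact Nat.pow_le_pow_right (by omega) hJ1c
  obtain ⟨c, hc1, hc2, hcW⟩ := hwin p hp k' (by omega) W hWc
  have hck : c ≤ k' := by omega
  haveI : NeZero (p ^ (k' - c)) := ⟨pow_ne_zero _ hp.ne_zero⟩
  -- the coarser grading
  set π : ZMod (p ^ (k' - 1)) → ZMod (p ^ (k' - c)) := fun g => ((g.val : ℕ) : ZMod (p ^ (k' - c)))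
    with hπ
  set X : ZMod (p ^ (k' - c)) → ℂ := fun g' => ∑ g ∈ J1 with π g = g', X1 g with hXdef
  have hX : ∀ g', X g' ∈ Pc (N0 * p ^ c) (p ^ k') g'.val := by
    intro g'
    have h1 : ∀ g ∈ J1.filter (fun g => π g = g'), X1 g ∈ LG (N0 * p ^ c) (p ^ k') g'.val := by
      intro g hg
      have hgg : π g = g' := (Finset.mem_filter.1 hg).2
      obtain ⟨a, ha, hag⟩ := hX1 g
      have h2 : X1 g ∈ Pc (N0 * p ^ c) (p ^ k') g.val := by
        refine ⟨a, ?_, hag⟩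
        exact hCB.2.2.1 _ _ (Nat.mul_pos hN0 (pow_pos hp.pos _))
          (Nat.mul_dvd_mul_left _ (pow_dvd_pow _ hc1)) ha
      refine mem_LG.2 (pc_shift (hQmem hCB hp hN0 hck) ?_ h2)
      refine (ZMod.natCast_eq_natCast_iff _ _ _).1 ?_
      rw [ZMod.natCast_zmod_val, ← hgg]
    exact mem_LG.1 (sum_mem h1)
  set J := Finset.univ.filter (fun g' => X g' ≠ 0) with hJ
  have hxX : x = ∑ g' ∈ J, X g' := by
    have h1 : x = ∑ g ∈ J1, X1 g := by
      rw [hxX1, hJ1, Finset.sum_filter_ne_zero]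
    rw [hJ, Finset.sum_filter_ne_zero, h1]
    exact (Finset.sum_fiberwise J1 π X1).symm
  have hlift : ∀ g' ∈ J, ∃ g ∈ J1, π g = g' := by
    intro g' hg'
    by_contra hno
    push Not at hno
    apply (Finset.mem_filter.1 hg').2
    simp only [hXdef]
    rw [Finset.filter_false_of_mem (fun g hg => hno g hg), Finset.sum_empty]
  choose! lf hlf1 hlf2 using hlift
  have hlinj : ∀ g ∈ J, ∀ g' ∈ J, lf g = lf g' → g = g' := by
    intro g hg g' hg' e
    rw [← hlf2 g hg, ← hlf2 g' hg', e]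
  have hJc : J.card ≤ T := by
    refine le_trans ?_ hJ1c
    exact Finset.card_le_card_of_injOn lf (fun g hg => hlf1 g hg)
      (fun g hg g' hg' e => hlinj g hg g' hg' e)
  -- lifting integer combinations
  have hcomb : ∀ a : ZMod (p ^ (k' - c)) → ℤ, (∀ g, |a g| ≤ H) →
      ∑ g ∈ J, a g * (((lf g).val : ℕ) : ℤ) ∈ W := by
    intro a ha
    rw [hW, Finset.mem_image]
    refine ⟨fun g => if ∃ g' ∈ J, lf g' = g.1 then a (π g.1) else 0, ?_, ?_⟩
    · rw [Fintype.mem_piFinset]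
      intro g
      rw [Finset.mem_Icc]
      split_ifs
      · exact abs_le.1 (ha _)
      · constructor <;> omega
    · rw [Finset.sum_coe_sort J1 (fun g => (if ∃ g' ∈ J, lf g' = g then a (π g) else 0) *
        ((g.val : ℕ) : ℤ))]
      simp only [ite_mul, zero_mul]
      rw [← Finset.sum_filter]
      symm
      refine Finset.sum_bij (fun g _ => lf g) ?_ ?_ ?_ ?_
      · intro g hg
        rw [Finset.mem_filter]
        exact ⟨hlf1 g hg, g, hg, rfl⟩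
      · intro g hg g' hg' e
        exact hlinj g hg g' hg' e
      · intro g hg
        obtain ⟨-, g', hg', e⟩ := Finset.mem_filter.1 hg
        exact ⟨g', hg', e⟩
      · intro g hg
        rw [hlf2 g hg]
  have hcast : ∀ a : ZMod (p ^ (k' - c)) → ℤ,
      (((∑ g ∈ J, a g * (((lf g).val : ℕ) : ℤ) : ℤ)) : ZMod (p ^ (k' - c))) = ∑ g ∈ J, a g • g := by
    intro a
    push_cast
    refine Finset.sum_congr rfl fun g hg => ?_
    rw [zsmul_eq_mul]
    congr 1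
    exact hlf2 g hg
  have hordw : ∀ a : ZMod (p ^ (k' - c)) → ℤ, (∀ g, |a g| ≤ H) → ∑ g ∈ J, a g • g ≠ 0 →
      Y1 ≤ addOrderOf ((h * p ^ c) • ∑ g ∈ J, a g • g) := by
    intro a ha hw
    set wt : ℤ := ∑ g ∈ J, a g * (((lf g).val : ℕ) : ℤ) with hwt
    set v := (h * p ^ c) • ∑ g ∈ J, a g • g with hv
    by_contra hlt
    push Not at hlt
    have hpos : 0 < addOrderOf v := addOrderOf_pos v
    have h0 : addOrderOf v • v = 0 := addOrderOf_nsmul_eq_zero v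
    have h1 : ((((addOrderOf v * h) * p ^ c : ℕ) : ℤ) * wt : ℤ) = (0 : ZMod (p ^ (k' - c))) := by
      rw [Int.cast_mul, hcast a, Int.cast_natCast]
      rw [hv, ← mul_nsmul', nsmul_eq_mul] at h0
      rw [mul_assoc]
      exact h0
    have h2 := (ZMod.intCast_zmod_eq_zero_iff_dvd _ _).1 h1
    have h3 : addOrderOf v * h < p ^ D := by
      calc addOrderOf v * h < Y1 * h := Nat.mul_lt_mul_of_pos_right hlt hh
        _ < 2 ^ D := Nat.lt_two_pow_self
        _ ≤ p ^ D := Nat.pow_le_pow_left hp2 _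
    have h4 := dvd_step hp (by omega) (Nat.mul_pos hpos hh) h3 wt h2
    have h5 := hcW wt (hcomb a ha) h4
    apply hw
    rw [← hcast a]
    refine (ZMod.intCast_zmod_eq_zero_iff_dvd _ _).2 ?_
    rw [Nat.cast_pow]
    exact h5
  have hg0 : ∃ g0 ∈ J, Y1 ≤ addOrderOf g0 := by
    by_contra hno
    push Not at hno
    apply hnot
    rw [hxX]
    refine sum_mem fun g hg => ?_
    have h1 : p ^ (k - 1 - c) • g = 0 := by
      by_contra h2
      have h3 := pow_le_addOrderOf hp rfl g _ h2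
      have h4 := hno g hg
      have h5 : k - 1 - c + 1 < p ^ (k - 1 - c + 1) :=
        lt_of_lt_of_le Nat.lt_two_pow_self (Nat.pow_le_pow_left hp2 _)
      omega
    have h2 : p ^ (k' - c) ∣ p ^ (k - 1 - c) * g.val := by
      rw [← ZMod.natCast_eq_zero_iff]
      rw [Nat.cast_mul, ZMod.natCast_zmod_val, ← nsmul_eq_mul, h1]
    have h3 : p ^ (k' - c) = p ^ (k - 1 - c) * p ^ (k' - (k - 1)) := by
      rw [← pow_add]; congr 1; omega
    have h4 : p ^ (k' - (k - 1)) ∣ g.val :=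
      (Nat.mul_dvd_mul_iff_left (pow_pos hp.pos _)).1 (Dvd.dvd.trans (dvd_of_eq h3.symm) h2)
    obtain ⟨t, ht⟩ := h4
    obtain ⟨a, ha, hag⟩ := hX g
    rw [hag, ht, pow_mul, ze_pow_Q hCB hp (by omega : k - 1 ≤ k')]
    have hNN : 0 < N0 * p ^ (k - 1) := Nat.mul_pos hN0 (pow_pos hp.pos _)
    exact mul_mem (hCB.2.2.1 _ _ hNN (Nat.mul_dvd_mul_left _ (pow_dvd_pow _ (by omega))) ha)
      (pow_mem (ze_mem_of_dvd hCB hNN (dvd_mul_left _ _)) _)
  obtain ⟨u, hu, hfin⟩ := hspx p (k' - c) c (p ^ (k' - c)) hp rfl (fun h0 => by omega)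
    (fun g => LG (N0 * p ^ c) (p ^ k') g.val) (m0 ^ 2) le_rfl
    ⟨1, one_mem _, by simp⟩
    (fun g g' a b ha hb => lg_mul hCB hp hN0 hck rfl g g' ha hb)
    (fun g a ha => lg_conj hCB hp hN0 hck rfl g ha)
    (fun v _ g a ha => lg_rot hCB hp hN0 hck rfl v g ha)
    (by
      intro S y _ hy hsum g hg
      have h1 := hGU p N0 k' c (p ^ (k' - c)) hp hN0 hpN hc1 hck rfl
        (fun g => if g ∈ S then y g else 0) (fun g => by
          by_cases hgS : g ∈ S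
          · simp only [hgS, if_true]; exact hy g hgS
          · simp only [hgS, if_false]; exact ⟨0, zero_mem _, by simp⟩)
        (by rw [Finset.sum_ite_mem, Finset.univ_inter]; exact hsum) g
      simpa [hg] using h1)
    J X hJc (fun g hg => ⟨hX g, (Finset.mem_filter.1 hg).2⟩) (by rw [← hxX]; exact hre x hxK)
    hordw hg0
  obtain ⟨b, hb, hbM, hbeq⟩ := core hCB hGAL hMB (c := c) (Q := p ^ (k' - c)) hp hN0 hpN hk' hck
    rfl K hK hre hPyth hxK hxi hxM J X (fun g _ => hX g) hxX u hu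
  have hex : ∀ j, ∃ (S : Finset (ZMod (p ^ (k' - c)))) (Y : ZMod (p ^ (k' - c)) → ℂ),
      (∀ g ∈ S, Y g ∈ Pc (N0 * p ^ c) (p ^ k') g.val) ∧ b j = ∑ g ∈ S, Y g ∧
      (S.card : ℝ) ≤ M (b j) := by
    intro j
    obtain ⟨Y, hY1, hY2, hY3, hY4⟩ := hGR p N0 k' c (p ^ (k' - c)) hp hN0 hpN hc1 hck rfl (b j)
      (hK (hb j).1)
    refine ⟨Finset.univ.filter (fun g => Y g ≠ 0), Y, fun g _ => hY1 g, ?_,
      card_le hCB hMB (T := T) hp hN0 hck Y hY1 (hY4 (hb j).2) hY3⟩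
    rw [Finset.sum_filter_ne_zero]
    exact hY2
  choose S B hSB hbS hSc using hex
  refine hfin S B (fun j g hg => hSB j g hg) (fun j => ?_) ?_ ?_
  · rw [← hbS j]; exact hre _ (hb j).1
  · have h1 : ((∑ j, (S j).card : ℕ) : ℝ) ≤ ((4 * (n + 1) * T : ℕ) : ℝ) := by
      push_cast
      calc ∑ j, ((S j).card : ℝ) ≤ ∑ j, M (b j) := Finset.sum_le_sum fun j _ => hSc j
        _ ≤ 4 * (n + 1) * T := hbM
    have h2 : ∑ j, (S j).card ≤ 4 * (n + 1) * T := by exact_mod_cast h1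
    omega
  · rw [hbeq]
    exact Finset.sum_congr rfl fun j _ => by rw [← hbS j]

end Pool.Agent.Lib.MPcb8a44.AB
end

section
/-!
Module ST1 of Theorem AB (MP_cb8a44_nt): steps (3.1), (3.2) of the core lemma.
-/
set_option autoImplicit false

namespace Pool.Agent.Lib.MPcb8a44.AB.St1M

variable {L : Type} [Field L]

/-- The four halves: one of them is short. -/
lemma four_sum (Fr : Lev L) (a b c : L) :
    Fr.M ((a + b + c) / 2) + Fr.M ((a + b - c) / 2) + Fr.M ((a - b + c) / 2) +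
      Fr.M ((a - b - c) / 2) = Fr.M a + Fr.M b + Fr.M c := by
  rw [Fr.M_half, Fr.M_half, Fr.M_half, Fr.M_half]
  have h1 := Fr.M_par (a + b) c
  have h2 := Fr.M_par (a - b) c
  have h3 := Fr.M_par a b
  linarith

/-- Step (3.1): everything of level one. -/
lemma step31 (Fr : Lev L) (K F : Subfield L) (t T1 C1 : ℝ) (hFK : F ≤ K)
    (hmin : ∀ x ∈ K, x ∈ Fr.O → x ∉ F → t ≤ Fr.M x) (ht : 1 + T1 + C1 < 2 * t)
    {a b κ : L} (ha1 : Fr.P 1 a = a) (haK : a ∈ K) (haO : a ∈ Fr.O) (haF : a ∉ F)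
    (haM : Fr.M a ≤ t + 1) (hbK : b ∈ K) (hbO : b ∈ Fr.O) (hκF : κ ∈ F) (hκO : κ ∈ Fr.O)
    (hκ0 : κ ≠ 0) (hκM : Fr.M κ ≤ C1) (hb : b ^ 2 = a ^ 2 + κ) (hbM : Fr.M b ≤ t + T1)
    (hb1 : Fr.P 1 b = b) : False := by
  have h2 : (2 : L) ≠ 0 := Fr.two_ne
  obtain ⟨φ, hφ, ψ, hψ, hφψ, hfr⟩ := Fr.frob
  have hψφ : ∀ x, ψ (φ x) = x := fun x => φ.injective (hφψ (φ x))
  obtain ⟨y, hyO, hy⟩ := hfr (a + b) (Fr.O.add_mem haO hbO) (by rw [map_add, ha1, hb1])
  set c : L := ψ κ with hc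
  have hcF : c ∈ F := Fr.G_stab ψ hψ F κ hκF
  have hcO : c ∈ Fr.O := Fr.O_G ψ hψ κ hκO
  have hcM : Fr.M c = Fr.M κ := Fr.M_G hψ κ
  -- `a + b - c = 2 w`
  have hw0 : φ (a + b) - κ = 2 * (a ^ 2 + a * b - y) := by
    have : φ (a + b) = (a + b) ^ 2 - 2 * y := by rw [← hy]; ring
    rw [this]
    have : (a + b) ^ 2 = a ^ 2 + 2 * (a * b) + b ^ 2 := by ring
    rw [this, hb]; ring
  have hw1 : a + b - c = 2 * ψ (a ^ 2 + a * b - y) := by
    have := congrArg ψ hw0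
    rw [map_sub, hψφ, map_mul, map_ofNat] at this
    exact this
  set w : L := ψ (a ^ 2 + a * b - y) with hw
  have hwO : w ∈ Fr.O := by
    refine Fr.O_G ψ hψ _ ?_
    exact Fr.O.sub_mem (Fr.O.add_mem (Fr.O.pow_mem haO 2) (Fr.O.mul_mem haO hbO)) hyO
  have e1 : (a + b - c) / 2 = w := by rw [hw1]; field_simp
  have e2 : (a + b + c) / 2 = w + c := by
    have : a + b + c = 2 * (w + c) := by rw [mul_add, ← hw1]; ring
    rw [this]; field_simp
  have e3 : (a - b + c) / 2 = w + c - b := by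
    have : a - b + c = 2 * (w + c - b) := by rw [mul_sub, mul_add, ← hw1]; ring
    rw [this]; field_simp
  have e4 : (a - b - c) / 2 = w - b := by
    have : a - b - c = 2 * (w - b) := by rw [mul_sub, ← hw1]; ring
    rw [this]; field_simp
  have h2F : (2 : L) ∈ F := by
    have := F.add_mem F.one_mem F.one_mem
    rwa [one_add_one_eq_two] at this
  have h2K : (2 : L) ∈ K := hFK h2F
  have hcK : c ∈ K := hFK hcF
  -- one of the four is in `F`
  have key : a + b ∈ F ∨ a - b ∈ F := by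
    by_contra hcon
    push Not at hcon
    obtain ⟨hn1, hn2⟩ := hcon
    have back : ∀ g : L, g / 2 ∈ F → g ∈ F := by
      intro g hg
      have := F.mul_mem hg h2F
      rwa [div_mul_cancel₀ _ h2] at this
    have m1 : t ≤ Fr.M ((a + b + c) / 2) := by
      apply hmin
      · exact K.div_mem (K.add_mem (K.add_mem haK hbK) hcK) h2K
      · rw [e2]; exact Fr.O.add_mem hwO hcO
      · intro h
        have := F.sub_mem (back _ h) hcF
        rw [add_sub_cancel_right] at this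
        exact hn1 this
    have m2 : t ≤ Fr.M ((a + b - c) / 2) := by
      apply hmin
      · exact K.div_mem (K.sub_mem (K.add_mem haK hbK) hcK) h2K
      · rw [e1]; exact hwO
      · intro h
        have := F.add_mem (back _ h) hcF
        rw [sub_add_cancel] at this
        exact hn1 this
    have m3 : t ≤ Fr.M ((a - b + c) / 2) := by
      apply hmin
      · exact K.div_mem (K.add_mem (K.sub_mem haK hbK) hcK) h2K
      · rw [e3]; exact Fr.O.sub_mem (Fr.O.add_mem hwO hcO) hbO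
      · intro h
        have := F.sub_mem (back _ h) hcF
        rw [add_sub_cancel_right] at this
        exact hn2 this
    have m4 : t ≤ Fr.M ((a - b - c) / 2) := by
      apply hmin
      · exact K.div_mem (K.sub_mem (K.sub_mem haK hbK) hcK) h2K
      · rw [e4]; exact Fr.O.sub_mem hwO hbO
      · intro h
        have := F.add_mem (back _ h) hcF
        rw [sub_add_cancel] at this
        exact hn2 this
    have hs := four_sum Fr a b c
    linarith
  -- conclusion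
  have fin : ∀ g : L, g ∈ F → ∀ ε : L, ε ^ 2 = 1 → ε ∈ F → b = ε * a + g → False := by
    intro g hg ε hε hεF hbe
    have h1 : 2 * ε * a * g = κ - g ^ 2 := by
      have : b ^ 2 = ε ^ 2 * a ^ 2 + 2 * ε * a * g + g ^ 2 := by rw [hbe]; ring
      rw [hb, hε] at this
      linear_combination -this
    by_cases hg0 : g = 0
    · rw [hg0] at h1
      apply hκ0
      linear_combination -h1
    · apply haF
      have hε0 : ε ≠ 0 := by rintro rfl; simp at hε
      have : a = (κ - g ^ 2) / (2 * ε * g) := by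
        rw [← h1]; field_simp
      rw [this]
      exact F.div_mem (F.sub_mem hκF (F.pow_mem hg 2)) (F.mul_mem (F.mul_mem h2F hεF) hg)
  rcases key with h | h
  · exact fin (a + b) h (-1) (by ring) (F.neg_mem F.one_mem) (by ring)
  · exact fin (-(a - b)) (F.neg_mem h) 1 (by ring) F.one_mem (by ring)

theorem specST1 : SpecST1 := by
  intro L _ Fr K F t T1 C1 hFK _hcj hmin hT1 ht a b κ ha1 haK haO haF haM hbK hbO hbF hκF hκO hκ0
    hκM hb hbM
  have h2 : (2 : L) ≠ 0 := Fr.two_ne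
  have h2F : (2 : L) ∈ F := by
    have := F.add_mem F.one_mem F.one_mem
    rwa [one_add_one_eq_two] at this
  have hb0 : b ≠ 0 := by rintro rfl; exact hbF F.zero_mem
  -- the level v' of b outside F
  obtain ⟨v', hv'1, hv'F⟩ := Fr.exists_cp_not_mem hbF
  set l : L := Fr.cp v' b with hl
  have hlM : t ≤ Fr.M l := hmin l (Fr.cp_mem hbK v') (Fr.cp_O hbO v') hv'F
  have hsF : b - l ∈ F := by
    by_contra hcon
    have h1 := hmin (b - l) (K.sub_mem hbK (Fr.cp_mem hbK v')) (Fr.O.sub_mem hbO (Fr.cp_O hbO v')) hcon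
    have h3 := Fr.M_split_cp v' b
    rw [← hl] at h3
    linarith
  have hlp : Fr.Pure v' l := Fr.pure_cp hv'1 b
  -- the top level
  obtain ⟨μ, hμ1, hμb, hμ0⟩ := Fr.exists_top hb0
  have ha2 : Fr.P 1 (a ^ 2) = a ^ 2 := by
    rw [sq]; exact Fr.P_mul le_rfl ha1 ha1
  rcases Nat.lt_or_ge μ 2 with hμ2 | hμ2
  · exfalso
    have : μ = 1 := by omega
    subst this
    exact step31 Fr K F t T1 C1 hFK hmin ht ha1 haK haO haF haM hbK hbO hκF hκO hκ0 hκM hb hbM hμb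
  · obtain ⟨hsq, -⟩ := Fr.cp_sq hμ2 hμb
    have hcpa : Fr.cp μ (a ^ 2) = 0 := by
      unfold Lev.cp
      rw [Fr.P_mono (show 1 ≤ μ by omega) ha2, Fr.P_mono (show 1 ≤ μ - 1 by omega) ha2, sub_self]
    have hcpb : Fr.cp μ (b ^ 2) = Fr.cp μ κ := by
      rw [hb]
      have : Fr.cp μ (a ^ 2 + κ) = Fr.cp μ (a ^ 2) + Fr.cp μ κ := by
        unfold Lev.cp
        rw [map_add, map_add]; ring
      rw [this, hcpa, zero_add]
    have hκμ : Fr.cp μ κ ∈ F := Fr.cp_mem hκF μ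
    have hprod : 2 * (Fr.cp μ b * Fr.P (μ - 1) b) ∈ F := by rw [← hsq, hcpb]; exact hκμ
    have hbe : b = Fr.cp μ b + Fr.P (μ - 1) b := by
      unfold Lev.cp; rw [hμb]; ring
    by_cases hμv : μ = v'
    · subst hμv
      refine ⟨μ, hμ2, ?_⟩
      have huF : Fr.P (μ - 1) b ∈ F := by
        have h1 : Fr.P (μ - 1) (b - l) ∈ F := Fr.P_stab (μ - 1) F _ hsF
        rw [map_sub, hlp.2.2, sub_zero] at h1
        exact h1
      have hu0 : Fr.P (μ - 1) b = 0 := by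
        by_contra hu
        apply hv'F
        have : Fr.cp μ b = 2 * (Fr.cp μ b * Fr.P (μ - 1) b) / (2 * Fr.P (μ - 1) b) := by
          field_simp
        rw [hl, this]
        exact F.div_mem hprod (F.mul_mem h2F huF)
      rw [hu0, add_zero] at hbe
      rw [hbe]
      exact hlp
    · exfalso
      -- the top part is in F
      have hqF : Fr.cp μ b ∈ F := by
        have h1 : Fr.cp μ (b - l) ∈ F := Fr.cp_mem hsF μ
        have h3 : Fr.cp μ (b - l) = Fr.cp μ b - Fr.cp μ l := by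
          unfold Lev.cp; rw [map_sub, map_sub]; ring
        rw [h3, hlp.cp_ne Fr hμv, sub_zero] at h1
        exact h1
      apply hbF
      have : Fr.P (μ - 1) b = 2 * (Fr.cp μ b * Fr.P (μ - 1) b) / (2 * Fr.cp μ b) := by
        field_simp
      rw [hbe]
      refine F.add_mem hqF ?_
      rw [this]
      exact F.div_mem hprod (F.mul_mem h2F hqF)

end Pool.Agent.Lib.MPcb8a44.AB.St1M
end
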