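import Mathlib
import Pool.Agent.Lib.MP_cb8a44_nt.AB.Defs
import Pool.Agent.Lib.MP_cb8a44_nt.AB.Spec

section
/-!
# The key lemma: a large gap forces a sum of squares which is not a sum of three squares
-/
open Finset

namespace Pool.Agent.Lib.MPcb8a44

section

variable {K : Type*} [Field K] {V : Type*} [Fintype V]

/-- the sum of the squares of the conjugates -/
noncomputable def Q (r : V → (K →+* ℝ)) (x : K) : ℝ := ∑ v, (r v x) ^ 2

lemma Q_nonneg (r : V → (K →+* ℝ)) (x : K) : 0 ≤ Q r x := Finset.sum_nonneg fun _ _ => sq_nonneg _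

lemma sq_le_Q (r : V → (K →+* ℝ)) (x : K) (v : V) : (r v x) ^ 2 ≤ Q r x :=
  Finset.single_le_sum (f := fun v => (r v x) ^ 2) (fun _ _ => sq_nonneg _) (Finset.mem_univ v)

/-- a lower bound for the conjugates of an element of norm at least one -/
lemma abs_ge_of_prod {r : V → (K →+* ℝ)} {x : K} (hx : 1 ≤ ∏ v, |r v x|) {M : ℝ} (hM1 : 1 ≤ M)
    (hM : ∀ v, |r v x| ≤ M) (v : V) : 1 ≤ |r v x| * M ^ (Fintype.card V) := by
  classical
  have h1 : ∏ v, |r v x| = |r v x| * ∏ w ∈ Finset.univ.erase v, |r w x| :=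
    (Finset.mul_prod_erase _ _ (Finset.mem_univ v)).symm
  have h2 : ∏ w ∈ Finset.univ.erase v, |r w x| ≤ M ^ (Fintype.card V) := by
    calc ∏ w ∈ Finset.univ.erase v, |r w x| ≤ ∏ w ∈ Finset.univ.erase v, M :=
          Finset.prod_le_prod (fun _ _ => abs_nonneg _) (fun w _ => hM w)
      _ = M ^ (Finset.univ.erase v).card := by rw [Finset.prod_const]
      _ ≤ M ^ (Fintype.card V) := by
          apply pow_le_pow_right₀ hM1
          exact (Finset.card_le_card (Finset.erase_subset _ _)).trans (by simp)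
  rw [h1] at hx
  exact hx.trans (mul_le_mul_of_nonneg_left h2 (abs_nonneg _))

/-- number of shifts -/
def shifts (d : ℕ) : ℕ := 2 ^ d + 1

/-- first constant -/
noncomputable def c₁ (d : ℕ) (S : ℝ) : ℝ := d * S + 1 + (shifts d : ℝ) ^ 2 * d + S

/-- second constant -/
noncomputable def c₂ (d : ℕ) (S : ℝ) : ℝ := shifts d + 2 * (1 + c₁ d S)

/-- third constant: bound for `e` -/
noncomputable def c₃ (d : ℕ) (S : ℝ) : ℝ := 2 * c₁ d S + (shifts d : ℝ) ^ 2 + (c₂ d S) ^ 2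

/-- bound for the leading coefficient -/
noncomputable def c₄ (d : ℕ) (S : ℝ) : ℝ := 1 + (c₂ d S) ^ 2 + (shifts d : ℝ) ^ 2

/-- the final bound for the conjugates of `ω'` -/
noncomputable def c₅ (d : ℕ) (S : ℝ) : ℝ :=
  1 + (c₄ d S) ^ d * (2 * (shifts d : ℝ) * c₃ d S + (c₂ d S) ^ 2 * c₁ d S + (c₃ d S) ^ 2)

/-- the threshold -/
noncomputable def gapBound (d : ℕ) (S : ℝ) : ℝ := c₅ d S + c₂ d S + c₁ d S + shifts d + 1

lemma c₁_nonneg {d : ℕ} {S : ℝ} (hS : 0 ≤ S) : 0 ≤ c₁ d S := by unfold c₁; positivity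

lemma c₂_nonneg {d : ℕ} {S : ℝ} (hS : 0 ≤ S) : 0 ≤ c₂ d S := by
  have := c₁_nonneg (d := d) hS
  unfold c₂; positivity

lemma c₃_nonneg {d : ℕ} {S : ℝ} (hS : 0 ≤ S) : 0 ≤ c₃ d S := by
  have := c₁_nonneg (d := d) hS
  unfold c₃; positivity

lemma one_le_c₄ (d : ℕ) (S : ℝ) : 1 ≤ c₄ d S := by
  unfold c₄
  have h1 := sq_nonneg (c₂ d S)
  have h2 := sq_nonneg (shifts d : ℝ)
  linarith

lemma one_le_c₅ {d : ℕ} {S : ℝ} (hS : 0 ≤ S) : 1 ≤ c₅ d S := by
  have h1 := c₁_nonneg (d := d) hS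
  have h2 := c₂_nonneg (d := d) hS
  have h3 := c₃_nonneg (d := d) hS
  have h4 := one_le_c₄ d S
  unfold c₅
  have : 0 ≤ (c₄ d S) ^ d *
    (2 * (shifts d : ℝ) * c₃ d S + (c₂ d S) ^ 2 * c₁ d S + (c₃ d S) ^ 2) := by positivity
  linarith

theorem gap_lemma [CharZero K] [Nonempty V] (r : V → (K →+* ℝ)) (O : Subring K)
    (hO : ∀ x ∈ O, x ≠ 0 → 1 ≤ ∏ v, |r v x|) (F : Subfield K) (s : K) (hsF : s ∈ F)
    (hsO : s ∈ O) (S : ℝ) (hS : ∀ v, r v s ≤ S) (hs0 : ∀ v, 0 ≤ r v s)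
    (hs2 : ¬ ∃ y ∈ F, ∃ z ∈ F, y ∈ O ∧ z ∈ O ∧ s = y ^ 2 + z ^ 2)
    (hB : ∀ x ∈ O, x ∉ F → ∃ v, gapBound (Fintype.card V) S < |r v x|)
    (hne : ∃ x ∈ O, x ∉ F) :
    ∃ ω ∈ O, ¬ ∃ x ∈ O, ∃ y ∈ O, ∃ z ∈ O, s + ω ^ 2 = x ^ 2 + y ^ 2 + z ^ 2 := by
  classical
  by_contra hcon
  push Not at hcon
  set d := Fintype.card V with hd
  set G := shifts d with hG
  set B := gapBound d S with hBdef
  obtain ⟨v₀⟩ := ‹Nonempty V›
  have hS0 : 0 ≤ S := (hs0 v₀).trans (hS v₀)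
  have hc1 := c₁_nonneg (d := d) hS0
  have hc2 := c₂_nonneg (d := d) hS0
  have hc3 := c₃_nonneg (d := d) hS0
  have hc4 := one_le_c₄ d S
  have hc5 := one_le_c₅ (d := d) hS0
  have hG0 : (0 : ℝ) ≤ G := Nat.cast_nonneg _
  have hBc5 : c₅ d S ≤ B := by rw [hBdef, gapBound]; linarith
  have hBc2 : c₂ d S ≤ B := by rw [hBdef, gapBound]; linarith
  have hBc1 : c₁ d S < B := by rw [hBdef, gapBound]; linarith
  have hB1 : 1 ≤ B := hc5.trans hBc5
  -- bounded integral elements lie in `F`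
  have hmem : ∀ x ∈ O, (∀ v, |r v x| ≤ B) → x ∈ F := by
    intro x hx hx'
    by_contra hxF
    obtain ⟨v, hv⟩ := hB x hx hxF
    exact absurd (hx' v) (not_le.2 hv)
  -- the infimum
  set A : Set K := {x | x ∈ O ∧ x ∉ F} with hA
  have hAne : (Q r '' A).Nonempty := by
    obtain ⟨x, hx, hxF⟩ := hne
    exact ⟨Q r x, x, ⟨hx, hxF⟩, rfl⟩
  have hAbdd : BddBelow (Q r '' A) := ⟨0, by rintro _ ⟨x, _, rfl⟩; exact Q_nonneg r x⟩
  set I := sInf (Q r '' A) with hI
  have hIle : ∀ x ∈ O, x ∉ F → I ≤ Q r x := fun x hx hxF =>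
    csInf_le hAbdd ⟨x, ⟨hx, hxF⟩, rfl⟩
  have hIB : B ^ 2 ≤ I := by
    apply le_csInf hAne
    rintro _ ⟨x, ⟨hx, hxF⟩, rfl⟩
    obtain ⟨v, hv⟩ := hB x hx hxF
    calc B ^ 2 ≤ |r v x| ^ 2 := by
          apply pow_le_pow_left₀ (by linarith) hv.le
      _ = (r v x) ^ 2 := sq_abs _
      _ ≤ Q r x := sq_le_Q r x v
  have hIc1 : c₁ d S < I := by nlinarith
  obtain ⟨_, ⟨ω₀, ⟨hω₀O, hω₀F⟩, rfl⟩, hω₀I⟩ := exists_lt_of_csInf_lt hAne (lt_add_one I)
  -- choose the sign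
  obtain ⟨ω, hωO, hωF, hωI, hωT⟩ : ∃ ω ∈ O, ω ∉ F ∧ Q r ω < I + 1 ∧ ∑ v, r v ω ≤ 0 := by
    rcases le_total (∑ v, r v ω₀) 0 with h | h
    · exact ⟨ω₀, hω₀O, hω₀F, hω₀I, h⟩
    · refine ⟨-ω₀, neg_mem hω₀O, fun h' => hω₀F (by simpa using neg_mem h'), ?_, ?_⟩
      · simpa [Q] using hω₀I
      · simpa using h
  -- the shifts
  have hshiftF : ∀ g : ℕ, ω + g ∉ F := by
    intro g h
    apply hωF
    have := sub_mem h (natCast_mem F g)
    simpa using this
  have hshiftO : ∀ g : ℕ, ω + g ∈ O := fun g => add_mem hωO (natCast_mem O g)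
  have hshiftQ : ∀ g : ℕ, g ≤ G → Q r (ω + g) ≤ I + 1 + (G : ℝ) ^ 2 * d := by
    intro g hg
    have h1 : Q r (ω + g) = Q r ω + 2 * g * ∑ v, r v ω + g ^ 2 * d := by
      simp only [Q, map_add, map_natCast, add_sq, Finset.sum_add_distrib, Finset.mul_sum]
      congr 1
      · congr 1
        apply Finset.sum_congr rfl
        intro v _
        ring
      · simp [hd, mul_comm]
    have h2 : (2 * (g : ℝ) * ∑ v, r v ω) ≤ 0 :=
      mul_nonpos_of_nonneg_of_nonpos (by positivity) hωT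
    have h3 : ((g : ℝ)) ^ 2 * d ≤ (G : ℝ) ^ 2 * d := by
      apply mul_le_mul_of_nonneg_right _ (Nat.cast_nonneg _)
      exact pow_le_pow_left₀ (Nat.cast_nonneg _) (by exact_mod_cast hg) 2
    linarith
  -- sum of `Q`
  have hQsum : ∀ g : ℕ, g ≤ G → ∀ x y z : K, s + (ω + g) ^ 2 = x ^ 2 + y ^ 2 + z ^ 2 →
      Q r x + Q r y + Q r z ≤ I + c₁ d S - S := by
    intro g hg x y z h
    have h1 : Q r x + Q r y + Q r z = ∑ v, r v s + Q r (ω + g) := by
      simp only [Q, ← Finset.sum_add_distrib]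
      apply Finset.sum_congr rfl
      intro v _
      have := congrArg (r v) h
      simp only [map_add, map_pow] at this ⊢
      linarith
    have h2 : ∑ v, r v s ≤ d * S := by
      calc ∑ v, r v s ≤ ∑ _v : V, S := Finset.sum_le_sum fun v _ => hS v
        _ = d * S := by simp [hd]
    have h3 := hshiftQ g hg
    rw [h1, c₁]
    linarith
  -- claim A
  have claimA' : ∀ g : ℕ, g ≤ G → ∀ x ∈ O, ∀ y ∈ O, ∀ z ∈ O,
      s + (ω + g) ^ 2 = x ^ 2 + y ^ 2 + z ^ 2 → x ∉ F →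
      ∃ x ∈ O, x ∉ F ∧ ∃ f ∈ O, f ∈ F ∧ f ≠ 0 ∧ x ^ 2 = (ω + g) ^ 2 + f ∧
        ∀ v, |r v f| ≤ c₁ d S := by
    intro g hg x hx y hy z hz h hxF
    have hsum := hQsum g hg x y z h
    have hxI := hIle x hx hxF
    have hQy := Q_nonneg r y
    have hQz := Q_nonneg r z
    have hyF : y ∈ F := by
      by_contra hyF
      have := hIle y hy hyF
      linarith
    have hzF : z ∈ F := by
      by_contra hzF
      have := hIle z hz hzF
      linarith
    refine ⟨x, hx, hxF, s - y ^ 2 - z ^ 2, ?_, ?_, ?_, ?_, ?_⟩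
    · exact sub_mem (sub_mem hsO (pow_mem hy 2)) (pow_mem hz 2)
    · exact sub_mem (sub_mem hsF (pow_mem hyF 2)) (pow_mem hzF 2)
    · intro h0
      apply hs2
      refine ⟨y, hyF, z, hzF, hy, hz, ?_⟩
      linear_combination h0
    · linear_combination -h
    · intro v
      have h1 := hs0 v
      have h2 := hS v
      have h3 := sq_le_Q r y v
      have h4 := sq_le_Q r z v
      have h5 := sq_nonneg (r v y)
      have h6 := sq_nonneg (r v z)
      have h7 : S ≤ c₁ d S := by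
        unfold c₁
        have : 0 ≤ d * S + 1 + (shifts d : ℝ) ^ 2 * d := by positivity
        linarith
      simp only [map_sub, map_pow]
      rw [abs_le]
      constructor <;> linarith
  have claimA : ∀ g : ℕ, g ≤ G → (ω + (g : K)) ^ 2 ∉ F →
      ∃ x ∈ O, x ∉ F ∧ ∃ f ∈ O, f ∈ F ∧ f ≠ 0 ∧ x ^ 2 = (ω + g) ^ 2 + f ∧
        ∀ v, |r v f| ≤ c₁ d S := by
    intro g hg hgF
    obtain ⟨x, hx, y, hy, z, hz, h⟩ := hcon (ω + g) (hshiftO g)
    by_cases hxF : x ∈ F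
    · by_cases hyF : y ∈ F
      · by_cases hzF : z ∈ F
        · exfalso
          apply hgF
          have : (ω + (g : K)) ^ 2 = x ^ 2 + y ^ 2 + z ^ 2 - s := by linear_combination h
          rw [this]
          exact sub_mem (add_mem (add_mem (pow_mem hxF 2) (pow_mem hyF 2)) (pow_mem hzF 2)) hsF
        · exact claimA' g hg z hz x hx y hy (by rw [h]; ring) hzF
      · exact claimA' g hg y hy x hx z hz (by rw [h]; ring) hyF
    · exact claimA' g hg x hx y hy z hz h hxF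
  -- the good shifts
  set good : Finset ℕ := (Finset.range (G + 1)).filter (fun g => (ω + (g : K)) ^ 2 ∉ F) with hgood
  set bad : Finset ℕ := (Finset.range (G + 1)).filter (fun g => ¬ (ω + (g : K)) ^ 2 ∉ F) with hbad
  have hbadcard : bad.card ≤ 1 := by
    rw [Finset.card_le_one]
    intro g hg g' hg'
    simp only [hbad, Finset.mem_filter, not_not] at hg hg'
    by_contra hne'
    apply hωF
    have h1 : ((g : K) - g') ≠ 0 := by
      rw [sub_ne_zero]
      exact_mod_cast hne'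
    have h2 : (ω + (g : K)) ^ 2 - (ω + (g' : K)) ^ 2 ∈ F := sub_mem hg.2 hg'.2
    have h3 : ω = (((ω + (g : K)) ^ 2 - (ω + (g' : K)) ^ 2) / (g - g') - g - g') / 2 := by
      field_simp
      ring
    rw [h3]
    refine div_mem (sub_mem (sub_mem (div_mem h2 ?_) (natCast_mem _ _)) (natCast_mem _ _)) ?_
    · exact sub_mem (natCast_mem _ _) (natCast_mem _ _)
    · exact_mod_cast natCast_mem F 2
  have hcardsum : good.card + bad.card = G + 1 := by
    have := Finset.card_filter_add_card_filter_not (s := Finset.range (G + 1))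
      (fun g => (ω + (g : K)) ^ 2 ∉ F)
    rw [Finset.card_range] at this
    exact this
  -- choose the solutions
  have hch : ∀ g : ℕ, ∃ x f : K, g ∈ good → x ∈ O ∧ x ∉ F ∧ f ∈ O ∧ f ∈ F ∧ f ≠ 0 ∧
      x ^ 2 = (ω + g) ^ 2 + f ∧ ∀ v, |r v f| ≤ c₁ d S := by
    intro g
    by_cases hg : g ∈ good
    · have hg' := hg
      simp only [hgood, Finset.mem_filter, Finset.mem_range] at hg'
      obtain ⟨x, hx, hxF, f, hf, h⟩ := claimA g (by omega) hg'.2
      exact ⟨x, f, fun _ => ⟨hx, hxF, hf, h⟩⟩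
    · exact ⟨0, 0, fun h => absurd h hg⟩
  choose X f hXf using hch
  -- the sign patterns
  have hpig : ∃ g ∈ good, ∃ g' ∈ good, g ≠ g' ∧
      (fun v => decide (|r v (X g - (ω + g))| ≤ 1 + c₁ d S)) =
      (fun v => decide (|r v (X g' - (ω + g'))| ≤ 1 + c₁ d S)) := by
    apply Finset.exists_ne_map_eq_of_card_lt_of_maps_to
      (t := (Finset.univ : Finset (V → Bool))) (s := good)
      (f := fun g => fun v => decide (|r v (X g - (ω + g))| ≤ 1 + c₁ d S))
    · rw [Finset.card_univ, Fintype.card_fun, Fintype.card_bool, ← hd]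
      have : G = 2 ^ d + 1 := rfl
      omega
    · intro g _
      exact Finset.mem_univ _
  obtain ⟨g, hg, g', hg', hgg', hpat⟩ := hpig
  obtain ⟨hXO, hXF, hfO, hfF, hf0, hXeq, hfb⟩ := hXf g hg
  obtain ⟨hXO', hXF', hfO', hfF', hf0', hXeq', hfb'⟩ := hXf g' hg'
  have hgG : g ≤ G := by
    simp only [hgood, Finset.mem_filter, Finset.mem_range] at hg
    omega
  have hgG' : g' ≤ G := by
    simp only [hgood, Finset.mem_filter, Finset.mem_range] at hg'
    omega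
  set x := X g
  set x' := X g'
  set f₁ := f g
  set f₂ := f g'
  set w := ω + (g' : K) with hw
  set k : K := (g : K) - g' with hk
  have hk0 : k ≠ 0 := by
    rw [hk, sub_ne_zero]
    exact_mod_cast hgg'
  have hkF : k ∈ F := sub_mem (natCast_mem _ _) (natCast_mem _ _)
  have hkO : k ∈ O := sub_mem (natCast_mem _ _) (natCast_mem _ _)
  have hkb : ∀ v, |r v k| ≤ G := by
    intro v
    simp only [hk, map_sub, map_natCast]
    have h1 : (0 : ℝ) ≤ g := Nat.cast_nonneg _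
    have h2 : (0 : ℝ) ≤ g' := Nat.cast_nonneg _
    have h3 : (g : ℝ) ≤ G := by exact_mod_cast hgG
    have h4 : (g' : ℝ) ≤ G := by exact_mod_cast hgG'
    rw [abs_le]
    constructor <;> linarith
  have hwk : ω + (g : K) = w + k := by rw [hw, hk]; ring
  rw [hwk] at hXeq
  -- bounds for `x - x'`
  have key : ∀ (y t u : K) (v : V), y ^ 2 = t ^ 2 + u → |r v u| ≤ c₁ d S →
      ¬ |r v (y - t)| ≤ 1 + c₁ d S → |r v (y + t)| ≤ 1 + c₁ d S := by
    intro y t u v hyt hu hn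
    by_contra hn'
    push Not at hn hn'
    have h1 : r v u = r v (y - t) * r v (y + t) := by
      rw [← map_mul]
      congr 1
      linear_combination -hyt
    have h2 : |r v u| = |r v (y - t)| * |r v (y + t)| := by rw [h1, abs_mul]
    have h3 : (1 + c₁ d S) * (1 + c₁ d S) < |r v (y - t)| * |r v (y + t)| :=
      mul_lt_mul'' hn hn' (by linarith) (by linarith)
    nlinarith
  set h : K := x - x' with hh
  have hhb : ∀ v, |r v h| ≤ c₂ d S := by
    intro v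
    have hpv := congrFun hpat v
    simp only [decide_eq_decide] at hpv
    have hkv := hkb v
    rw [show c₂ d S = G + 2 * (1 + c₁ d S) from rfl]
    by_cases hc : |r v (x - (ω + g))| ≤ 1 + c₁ d S
    · have hc' := hpv.1 hc
      have h1 : r v h = r v (x - (ω + g)) - r v (x' - (ω + g')) + r v k := by
        rw [← map_sub, ← map_add]
        congr 1
        rw [hh, hk]
        ring
      rw [h1]
      calc |r v (x - (ω + g)) - r v (x' - (ω + g')) + r v k|
          ≤ |r v (x - (ω + g)) - r v (x' - (ω + g'))| + |r v k| := abs_add_le _ _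
        _ ≤ |r v (x - (ω + g))| + |r v (x' - (ω + g'))| + |r v k| := by
            have := abs_sub (r v (x - (ω + g))) (r v (x' - (ω + g')))
            linarith
        _ ≤ _ := by linarith
    · have hc' := fun hc'' => hc (hpv.2 hc'')
      have h2 := key x (w + k) f₁ v hXeq (hfb v) (by rw [← hwk]; exact hc)
      have h3 := key x' w f₂ v hXeq' (hfb' v) hc'
      have h1 : r v h = r v (x + (w + k)) - r v (x' + w) - r v k := by
        rw [← map_sub, ← map_sub]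
        congr 1
        rw [hh]
        ring
      rw [h1]
      calc |r v (x + (w + k)) - r v (x' + w) - r v k|
          ≤ |r v (x + (w + k)) - r v (x' + w)| + |r v k| := abs_sub _ _
        _ ≤ |r v (x + (w + k))| + |r v (x' + w)| + |r v k| := by
            have := abs_sub (r v (x + (w + k))) (r v (x' + w))
            linarith
        _ ≤ _ := by linarith
  have hhO : h ∈ O := sub_mem hXO hXO'
  have hhF : h ∈ F := hmem h hhO fun v => (hhb v).trans hBc2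
  -- the element `e`
  set e : K := (f₁ - f₂ + k ^ 2 - h ^ 2) / 2 with he
  have heq : h * x' - k * w = e := by
    have h1 : x = x' + h := by rw [hh]; ring
    rw [h1] at hXeq
    rw [he, eq_div_iff (by norm_num)]
    linear_combination hXeq - hXeq'
  have heF : e ∈ F := by
    refine div_mem (sub_mem (add_mem (sub_mem hfF hfF') (pow_mem hkF 2)) (pow_mem hhF 2)) ?_
    exact_mod_cast natCast_mem F 2
  have heb : ∀ v, |r v e| ≤ c₃ d S := by
    intro v
    have h1 := hfb v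
    have h2 := hfb' v
    have h3 := hkb v
    have h4 := hhb v
    have h5 : r v e = (r v f₁ - r v f₂ + (r v k) ^ 2 - (r v h) ^ 2) / 2 := by
      rw [he]
      simp only [map_div₀, map_sub, map_add, map_pow, map_ofNat]
    have h6 : (r v k) ^ 2 ≤ (G : ℝ) ^ 2 := by
      rw [← sq_abs]
      exact pow_le_pow_left₀ (abs_nonneg _) h3 2
    have h7 : (r v h) ^ 2 ≤ (c₂ d S) ^ 2 := by
      rw [← sq_abs]
      exact pow_le_pow_left₀ (abs_nonneg _) h4 2
    have h8 := sq_nonneg (r v k)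
    have h9 := sq_nonneg (r v h)
    rw [abs_le] at h1 h2
    rw [h5, show c₃ d S = 2 * c₁ d S + (G : ℝ) ^ 2 + (c₂ d S) ^ 2 from rfl, abs_le]
    constructor <;> linarith
  -- the quadratic equation
  have hquad : (h ^ 2 - k ^ 2) * w ^ 2 = 2 * k * e * w + e ^ 2 - h ^ 2 * f₂ := by
    have h1 : (h * x') ^ 2 = (k * w + e) ^ 2 := by rw [← heq]; ring
    rw [mul_pow, hXeq'] at h1
    linear_combination h1
  have hwF : w ∉ F := hshiftF g'
  have hwO : w ∈ O := hshiftO g'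
  by_cases hdeg : h ^ 2 - k ^ 2 = 0
  · rw [hdeg, zero_mul] at hquad
    by_cases he0 : e = 0
    · rw [he0] at hquad
      have h1 : h ^ 2 * f₂ = 0 := by linear_combination hquad
      have h2 : h ^ 2 = k ^ 2 := by linear_combination hdeg
      rw [h2] at h1
      rcases mul_eq_zero.1 h1 with h3 | h3
      · exact hk0 (pow_eq_zero_iff (two_ne_zero) |>.1 h3)
      · exact hf0' h3
    · apply hwF
      have h1 : w = (h ^ 2 * f₂ - e ^ 2) / (2 * k * e) := by
        rw [eq_div_iff (mul_ne_zero (mul_ne_zero two_ne_zero hk0) he0)]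
        linear_combination -hquad
      rw [h1]
      refine div_mem (sub_mem (mul_mem (pow_mem hhF 2) hfF') (pow_mem heF 2))
        (mul_mem (mul_mem ?_ hkF) heF)
      exact_mod_cast natCast_mem F 2
  · -- bounded conjugates
    set a : K := h ^ 2 - k ^ 2 with ha
    have haO : a ∈ O := sub_mem (pow_mem hhO 2) (pow_mem hkO 2)
    have hab : ∀ v, |r v a| ≤ c₄ d S := by
      intro v
      have h3 := hkb v
      have h4 := hhb v
      have h6 : (r v k) ^ 2 ≤ (G : ℝ) ^ 2 := by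
        rw [← sq_abs]
        exact pow_le_pow_left₀ (abs_nonneg _) h3 2
      have h7 : (r v h) ^ 2 ≤ (c₂ d S) ^ 2 := by
        rw [← sq_abs]
        exact pow_le_pow_left₀ (abs_nonneg _) h4 2
      have h8 := sq_nonneg (r v k)
      have h9 := sq_nonneg (r v h)
      rw [show c₄ d S = 1 + (c₂ d S) ^ 2 + (G : ℝ) ^ 2 from rfl, ha, map_sub, map_pow, map_pow,
        abs_le]
      constructor <;> linarith
    have hprod := hO a haO hdeg
    obtain ⟨v, hv⟩ := hB w hwO hwF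
    have h1 := abs_ge_of_prod hprod hc4 hab v
    rw [← hd] at h1
    set t := |r v w| with ht
    have ht1 : 1 ≤ t := hB1.trans hv.le
    set P := (c₄ d S) ^ d with hP
    have hP0 : 0 ≤ P := by positivity
    -- the equation at `v`
    have h2 : |r v a| * t ^ 2 ≤ 2 * G * c₃ d S * t + (c₃ d S) ^ 2 + (c₂ d S) ^ 2 * c₁ d S := by
      have h3 : r v a * (r v w) ^ 2 =
          2 * r v k * r v e * r v w + (r v e) ^ 2 - (r v h) ^ 2 * r v f₂ := by
        have := congrArg (r v) hquad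
        simpa only [map_mul, map_sub, map_add, map_pow, map_ofNat] using this
      have h4 : |r v a| * t ^ 2 =
          |2 * r v k * r v e * r v w + (r v e) ^ 2 - (r v h) ^ 2 * r v f₂| := by
        rw [← h3, abs_mul, abs_pow]
      rw [h4]
      have h5 := hkb v
      have h6 := hhb v
      have h7 := heb v
      have h8 := hfb' v
      calc |2 * r v k * r v e * r v w + (r v e) ^ 2 - (r v h) ^ 2 * r v f₂|
          ≤ |2 * r v k * r v e * r v w + (r v e) ^ 2| + |(r v h) ^ 2 * r v f₂| := abs_sub _ _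
        _ ≤ |2 * r v k * r v e * r v w| + |(r v e) ^ 2| + |(r v h) ^ 2 * r v f₂| := by
            have := abs_add_le (2 * r v k * r v e * r v w) ((r v e) ^ 2)
            linarith
        _ = 2 * |r v k| * |r v e| * t + |r v e| ^ 2 + |r v h| ^ 2 * |r v f₂| := by
            simp only [abs_mul, abs_pow, abs_two, ht]
        _ ≤ 2 * G * c₃ d S * t + (c₃ d S) ^ 2 + (c₂ d S) ^ 2 * c₁ d S := by
            gcongr
    have h3 : t ^ 2 ≤ (|r v a| * P) * t ^ 2 := by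
      have := mul_le_mul_of_nonneg_right h1 (sq_nonneg t)
      linarith
    have h4 : t ^ 2 ≤ P * (2 * G * c₃ d S * t + (c₃ d S) ^ 2 + (c₂ d S) ^ 2 * c₁ d S) := by
      calc t ^ 2 ≤ (|r v a| * P) * t ^ 2 := h3
        _ = P * (|r v a| * t ^ 2) := by ring
        _ ≤ _ := mul_le_mul_of_nonneg_left h2 hP0
    have h5 : (c₃ d S) ^ 2 + (c₂ d S) ^ 2 * c₁ d S ≤
        ((c₃ d S) ^ 2 + (c₂ d S) ^ 2 * c₁ d S) * t :=
      le_mul_of_one_le_right (by positivity) ht1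
    have h6 : t ^ 2 ≤ (P * (2 * G * c₃ d S + (c₂ d S) ^ 2 * c₁ d S + (c₃ d S) ^ 2)) * t := by
      calc t ^ 2 ≤ P * (2 * G * c₃ d S * t + (c₃ d S) ^ 2 + (c₂ d S) ^ 2 * c₁ d S) := h4
        _ ≤ P * (2 * G * c₃ d S * t + ((c₃ d S) ^ 2 + (c₂ d S) ^ 2 * c₁ d S) * t) := by
            apply mul_le_mul_of_nonneg_left _ hP0
            linarith
        _ = _ := by ring
    have h7 : t ≤ P * (2 * G * c₃ d S + (c₂ d S) ^ 2 * c₁ d S + (c₃ d S) ^ 2) := by
      have ht0 : 0 < t := by linarith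
      rw [sq] at h6
      exact le_of_mul_le_mul_right h6 ht0
    have h8 : t < c₅ d S := by
      rw [show c₅ d S = 1 + P * (2 * (G : ℝ) * c₃ d S + (c₂ d S) ^ 2 * c₁ d S + (c₃ d S) ^ 2)
        from rfl]
      linarith
    linarith

end

end Pool.Agent.Lib.MPcb8a44
end

section
/-!
# A prime ideal of norm `3` modulo `4`, and a sum of three squares which is not a sum of two
-/
open NumberField

namespace Pool.Agent.Lib.MPcb8a44

/-- the real embedding attached to a complex embedding with real values -/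
noncomputable def realEmb {F : Type*} [Field F] (hF : ∀ φ : F →+* ℂ, ∀ x : F, (φ x).im = 0)
    (φ : F →+* ℂ) : F →+* ℝ where
  toFun x := (φ x).re
  map_one' := by simp
  map_zero' := by simp
  map_add' x y := by simp
  map_mul' x y := by simp [hF φ]

lemma ofReal_realEmb {F : Type*} [Field F] (hF : ∀ φ : F →+* ℂ, ∀ x : F, (φ x).im = 0)
    (φ : F →+* ℂ) (x : F) : ((realEmb hF φ x : ℝ) : ℂ) = φ x := by
  apply Complex.ext
  · rfl
  · simp [hF φ x]

lemma norm_realEmb {F : Type*} [Field F] (hF : ∀ φ : F →+* ℂ, ∀ x : F, (φ x).im = 0)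
    (φ : F →+* ℂ) (x : F) : |realEmb hF φ x| = ‖φ x‖ := by
  rw [← ofReal_realEmb hF φ x, Complex.norm_real, Real.norm_eq_abs]

variable {F : Type*} [Field F] [NumberField F]

lemma norm_eq_prod (hF : ∀ φ : F →+* ℂ, ∀ x : F, (φ x).im = 0) (x : F) :
    ((Algebra.norm ℚ x : ℚ) : ℝ) = ∏ φ : F →+* ℂ, realEmb hF φ x := by
  have h1 := Algebra.norm_eq_prod_embeddings ℚ ℂ x
  have h2 : ∏ σ : F →ₐ[ℚ] ℂ, σ x = ∏ φ : F →+* ℂ, φ x := by
    rw [← (RingHom.equivRatAlgHom (R := F) (S := ℂ)).prod_comp]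
    rfl
  rw [h2] at h1
  have h3 : (((Algebra.norm ℚ x : ℚ) : ℝ) : ℂ) = ((∏ φ : F →+* ℂ, realEmb hF φ x : ℝ) : ℂ) := by
    rw [Complex.ofReal_prod]
    simp only [ofReal_realEmb]
    rw [← h1]
    simp
  exact_mod_cast h3

lemma one_le_prod (hF : ∀ φ : F →+* ℂ, ∀ x : F, (φ x).im = 0) {x : F} (hx : IsIntegral ℤ x)
    (hx0 : x ≠ 0) : 1 ≤ ∏ φ : F →+* ℂ, |realEmb hF φ x| := by
  rw [← Finset.abs_prod, ← norm_eq_prod hF]
  obtain ⟨y, rfl⟩ : ∃ y : 𝓞 F, (y : F) = x := ⟨⟨x, hx⟩, rfl⟩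
  rw [← Algebra.coe_norm_int]
  have h1 : Algebra.norm ℤ y ≠ 0 := by
    rw [Algebra.norm_ne_zero_iff]
    rintro rfl
    simp at hx0
  have h2 : (1 : ℤ) ≤ |Algebra.norm ℤ y| := Int.one_le_abs h1
  exact_mod_cast h2

/-- the norm of `1 + 4 γ` is `1` modulo `4` -/
lemma norm_one_add_four_mul (γ : 𝓞 F) : ((Algebra.norm ℤ (1 + 4 * γ) : ℤ) : ZMod 4) = 1 := by
  classical
  let b := RingOfIntegers.basis F
  rw [Algebra.norm_eq_matrix_det b, map_add, map_one, map_mul, map_ofNat]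
  set M := Algebra.leftMulMatrix b γ
  have h := RingHom.map_det (Int.castRingHom (ZMod 4)) (1 + 4 * M)
  rw [eq_intCast] at h
  rw [h]
  have h2 : (Int.castRingHom (ZMod 4)).mapMatrix (1 + 4 * M) = 1 := by
    rw [map_add, map_one, map_mul, map_ofNat]
    have : (4 : Matrix (Module.Free.ChooseBasisIndex ℤ (𝓞 F))
        (Module.Free.ChooseBasisIndex ℤ (𝓞 F)) (ZMod 4)) = 0 := by
      have h3 : ((4 : ℕ) : Matrix (Module.Free.ChooseBasisIndex ℤ (𝓞 F))
        (Module.Free.ChooseBasisIndex ℤ (𝓞 F)) (ZMod 4)) = 0 := by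
        rw [← Matrix.diagonal_natCast, show ((4 : ℕ) : ZMod 4) = 0 by decide]
        exact Matrix.diagonal_zero
      exact_mod_cast h3
    rw [this, zero_mul, add_zero]
  rw [h2, Matrix.det_one]

/-- an integral primitive element -/
lemma exists_primitive : ∃ θ : 𝓞 F, Function.Injective (fun φ : F →+* ℂ => φ (θ : F)) := by
  let pb := Field.powerBasisOfFiniteOfSeparable ℚ F
  have halg : IsAlgebraic ℤ pb.gen :=
    (IsFractionRing.isAlgebraic_iff ℤ ℚ F).2 (Algebra.IsAlgebraic.isAlgebraic (R := ℚ) pb.gen)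
  obtain ⟨m, hm, hint⟩ := halg.exists_integral_multiple
  refine ⟨⟨m • pb.gen, hint⟩, ?_⟩
  intro φ ψ h
  have h1 : φ (m • pb.gen) = ψ (m • pb.gen) := h
  rw [zsmul_eq_mul, map_mul, map_mul, map_intCast, map_intCast] at h1
  have hm' : (m : ℂ) ≠ 0 := by exact_mod_cast hm
  have h2 : φ pb.gen = ψ pb.gen := mul_left_cancel₀ hm' h1
  have h3 : (RingHom.equivRatAlgHom (R := F) (S := ℂ)) φ =
      (RingHom.equivRatAlgHom (R := F) (S := ℂ)) ψ := pb.algHom_ext h2
  exact (RingHom.equivRatAlgHom (R := F) (S := ℂ)).injective h3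

lemma exists_neg_norm (hF : ∀ φ : F →+* ℂ, ∀ x : F, (φ x).im = 0) :
    ∃ γ : 𝓞 F, Algebra.norm ℤ (1 + 4 * γ) < 0 := by
  classical
  obtain ⟨θ, hθ⟩ := exists_primitive (F := F)
  set t : (F →+* ℂ) → ℝ := fun φ => realEmb hF φ (θ : F) with ht
  have htinj : Function.Injective t := by
    intro φ ψ h
    apply hθ
    have : ((t φ : ℝ) : ℂ) = ((t ψ : ℝ) : ℂ) := by rw [h]
    simpa only [ht, ofReal_realEmb] using this
  obtain ⟨φ₀, hφ₀⟩ := Finite.exists_min t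
  have hb : ∀ φ, ∃ b : ℕ, φ ≠ φ₀ → 2 ≤ b * (t φ - t φ₀) := by
    intro φ
    by_cases h : φ = φ₀
    · exact ⟨0, fun h' => absurd h h'⟩
    · have h1 : 0 < t φ - t φ₀ := by
        have h2 := hφ₀ φ
        have h3 : t φ ≠ t φ₀ := fun h' => h (htinj h')
        have := lt_of_le_of_ne h2 (Ne.symm h3)
        linarith
      obtain ⟨b, hb⟩ := exists_nat_ge (2 / (t φ - t φ₀))
      refine ⟨b, fun _ => ?_⟩
      rwa [div_le_iff₀ h1] at hb
  choose bf hbf using hb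
  set b : ℕ := Finset.univ.sup bf with hbdef
  have hb : ∀ φ, φ ≠ φ₀ → 2 ≤ (b : ℝ) * (t φ - t φ₀) := by
    intro φ hφ
    have h1 : bf φ ≤ b := Finset.le_sup (Finset.mem_univ φ)
    have h2 : ((bf φ : ℕ) : ℝ) ≤ b := by exact_mod_cast h1
    have h3 := hφ₀ φ
    calc (2 : ℝ) ≤ bf φ * (t φ - t φ₀) := hbf φ hφ
      _ ≤ b * (t φ - t φ₀) := mul_le_mul_of_nonneg_right h2 (by linarith)
  set a : ℤ := ⌊(b : ℝ) * t φ₀⌋ + 2 with ha
  have ha1 : (b : ℝ) * t φ₀ < a - 1 := by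
    have := Int.lt_floor_add_one ((b : ℝ) * t φ₀)
    rw [ha]
    push_cast
    linarith
  have ha2 : (a : ℝ) - 2 ≤ b * t φ₀ := by
    have := Int.floor_le ((b : ℝ) * t φ₀)
    rw [ha]
    push_cast
    linarith
  refine ⟨b * θ - a, ?_⟩
  set β : 𝓞 F := 1 + 4 * (b * θ - a) with hβ
  have hval : ∀ φ, realEmb hF φ (β : F) = 1 + 4 * (b * t φ - a) := by
    intro φ
    have h1 : (β : F) = 1 + 4 * (b * (θ : F) - a) := by
      rw [hβ]
      simp only [map_add, map_mul, map_sub, map_one, map_ofNat, map_natCast, map_intCast]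
    rw [h1]
    simp only [ht, map_add, map_mul, map_sub, map_one, map_ofNat, map_natCast, map_intCast]
  have hnorm := norm_eq_prod hF (β : F)
  rw [← Algebra.coe_norm_int] at hnorm
  have hneg : ∏ φ : F →+* ℂ, realEmb hF φ (β : F) < 0 := by
    rw [← Finset.mul_prod_erase _ _ (Finset.mem_univ φ₀)]
    apply mul_neg_of_neg_of_pos
    · rw [hval]
      linarith
    · apply Finset.prod_pos
      intro φ hφ
      rw [hval]
      have := hb φ (Finset.ne_of_mem_erase hφ)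
      have h2 : (b : ℝ) * (t φ - t φ₀) = b * t φ - b * t φ₀ := by ring
      linarith
  rw [← hnorm] at hneg
  exact_mod_cast hneg

lemma exists_prime (hF : ∀ φ : F →+* ℂ, ∀ x : F, (φ x).im = 0) :
    ∃ P : Ideal (𝓞 F), P.IsPrime ∧ P ≠ ⊥ ∧ Ideal.absNorm P % 4 = 3 := by
  obtain ⟨γ, hγ⟩ := exists_neg_norm hF
  have h1 := norm_one_add_four_mul γ
  set β : 𝓞 F := 1 + 4 * γ
  have h2 : Ideal.absNorm (Ideal.span {β}) % 4 = 3 := by
    rw [Ideal.absNorm_span_singleton]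
    have h3 : (Algebra.norm ℤ β) % 4 = 1 := by
      have h4 : ((Algebra.norm ℤ β : ℤ) : ZMod 4) = ((1 : ℤ) : ZMod 4) := by rw [h1]; simp
      rw [ZMod.intCast_eq_intCast_iff'] at h4
      simpa using h4
    omega
  have key : ∀ I : Ideal (𝓞 F), Ideal.absNorm I % 4 = 3 →
      ∃ P : Ideal (𝓞 F), P.IsPrime ∧ P ≠ ⊥ ∧ Ideal.absNorm P % 4 = 3 := by
    intro I
    induction I using UniqueFactorizationMonoid.induction_on_prime with
    | h₁ => intro h; simp at h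
    | h₂ I hI =>
      intro h
      rw [Ideal.isUnit_iff.1 hI, Ideal.absNorm_top] at h
      norm_num at h
    | h₃ I P hI hP ih =>
      intro h
      rw [map_mul, Nat.mul_mod] at h
      have hcases : Ideal.absNorm P % 4 = 3 ∨ Ideal.absNorm I % 4 = 3 := by
        have h3 : Ideal.absNorm P % 4 < 4 := Nat.mod_lt _ (by norm_num)
        have h4 : Ideal.absNorm I % 4 < 4 := Nat.mod_lt _ (by norm_num)
        interval_cases (Ideal.absNorm P % 4) <;> interval_cases (Ideal.absNorm I % 4) <;>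
          simp_all
      rcases hcases with h3 | h3
      · exact ⟨P, Ideal.isPrime_of_prime hP, hP.ne_zero, h3⟩
      · exact ih h3
  exact key _ h2

theorem exists_three_not_two (hF : ∀ φ : F →+* ℂ, ∀ x : F, (φ x).im = 0) :
    ∃ a b c : 𝓞 F, ¬ ∃ y z : 𝓞 F, a ^ 2 + b ^ 2 + c ^ 2 = y ^ 2 + z ^ 2 := by
  classical
  obtain ⟨P, hP, hP0, hPn⟩ := exists_prime hF
  have hPmax : P.IsMaximal := hP.isMaximal hP0
  let _ : Field (𝓞 F ⧸ P) := Ideal.Quotient.field P
  have : Finite (𝓞 F ⧸ P) := Ideal.finiteQuotientOfFreeOfNeBot P hP0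
  let _ : Fintype (𝓞 F ⧸ P) := Fintype.ofFinite _
  have hcard : Fintype.card (𝓞 F ⧸ P) % 4 = 3 := by
    rw [← Nat.card_eq_fintype_card]
    exact hPn
  have hns : ¬ IsSquare (-1 : 𝓞 F ⧸ P) := by
    rw [FiniteField.isSquare_neg_one_iff, not_not]
    exact hcard
  -- two squares in `P`
  have htwo : ∀ y z : 𝓞 F, y ^ 2 + z ^ 2 ∈ P → z ∈ P := by
    intro y z h
    by_contra hz
    apply hns
    have hz' : (Ideal.Quotient.mk P z) ≠ 0 := by
      rwa [Ne, Ideal.Quotient.eq_zero_iff_mem]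
    have h1 : (Ideal.Quotient.mk P y) ^ 2 + (Ideal.Quotient.mk P z) ^ 2 = 0 := by
      rw [← map_pow, ← map_pow, ← map_add, Ideal.Quotient.eq_zero_iff_mem]
      exact h
    refine ⟨Ideal.Quotient.mk P y / Ideal.Quotient.mk P z, ?_⟩
    field_simp
    linear_combination -h1
  have htwo' : ∀ y z : 𝓞 F, y ^ 2 + z ^ 2 ∈ P → y ^ 2 + z ^ 2 ∈ P ^ 2 := by
    intro y z h
    have hz := htwo y z h
    have hy := htwo z y (by rwa [add_comm])
    exact add_mem (Ideal.pow_mem_pow hy 2) (Ideal.pow_mem_pow hz 2)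
  -- an element of `P` which is a sum of three squares
  obtain ⟨p, hp⟩ := CharP.exists (𝓞 F ⧸ P)
  have hpp : p.Prime := CharP.char_is_prime (𝓞 F ⧸ P) p
  have : NeZero p := ⟨hpp.ne_zero⟩
  obtain ⟨a, b, hab⟩ := CharP.sq_add_sq (𝓞 F ⧸ P) p (-1)
  have hs0 : ((a : 𝓞 F)) ^ 2 + (b : 𝓞 F) ^ 2 + 1 ^ 2 ∈ P := by
    rw [← Ideal.Quotient.eq_zero_iff_mem]
    simp only [map_add, map_pow, map_natCast, map_one]
    rw [hab]
    push_cast
    ring
  by_cases hs : ((a : 𝓞 F)) ^ 2 + (b : 𝓞 F) ^ 2 + 1 ^ 2 ∈ P ^ 2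
  · -- change `a`
    have hlt : ∃ π ∈ P, π ∉ P ^ 2 := by
      have h1 : P ^ 2 < P ^ 1 :=
        Ideal.pow_right_strictAnti P hP0 hP.ne_top (show 1 < 2 by norm_num)
      rw [pow_one] at h1
      obtain ⟨π, h2, h3⟩ := Set.exists_of_ssubset h1
      exact ⟨π, h2, h3⟩
    obtain ⟨π, hπ, hπ2⟩ := hlt
    refine ⟨a + π, b, 1, ?_⟩
    rintro ⟨y, z, hyz⟩
    have hmem : (a + π : 𝓞 F) ^ 2 + (b : 𝓞 F) ^ 2 + 1 ^ 2 ∈ P := by
      have h1 : (a + π : 𝓞 F) ^ 2 + (b : 𝓞 F) ^ 2 + 1 ^ 2 =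
          ((a : 𝓞 F) ^ 2 + (b : 𝓞 F) ^ 2 + 1 ^ 2) + (2 * a + π) * π := by ring
      rw [h1]
      exact add_mem hs0 (P.mul_mem_left _ hπ)
    rw [hyz] at hmem
    have h2 := htwo' y z hmem
    rw [← hyz] at h2
    have h3 : (2 * (a : 𝓞 F)) * π ∈ P ^ 2 := by
      have h4 : (2 * (a : 𝓞 F)) * π = ((a + π : 𝓞 F) ^ 2 + (b : 𝓞 F) ^ 2 + 1 ^ 2) -
        ((a : 𝓞 F) ^ 2 + (b : 𝓞 F) ^ 2 + 1 ^ 2) - π ^ 2 := by ring
      rw [h4]
      exact sub_mem (sub_mem h2 hs) (Ideal.pow_mem_pow hπ 2)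
    rcases Ideal.IsPrime.mul_mem_pow P h3 with h4 | h4
    · apply hns
      rcases hP.mem_or_mem h4 with h5 | h5
      · have h6 : (2 : 𝓞 F ⧸ P) = 0 := by
          have := Ideal.Quotient.eq_zero_iff_mem.2 h5
          rwa [map_ofNat] at this
        exact ⟨1, by linear_combination -h6⟩
      · have h6 : ((a : 𝓞 F ⧸ P)) = 0 := by
          have := Ideal.Quotient.eq_zero_iff_mem.2 h5
          simpa using this
        refine ⟨b, ?_⟩
        rw [h6] at hab
        push_cast at hab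
        linear_combination -hab
    · exact hπ2 h4
  · refine ⟨a, b, 1, ?_⟩
    rintro ⟨y, z, hyz⟩
    apply hs
    rw [hyz] at hs0 ⊢
    exact htwo' y z hs0

end Pool.Agent.Lib.MPcb8a44
end

section
/-!
# Finiteness in bounded degree
-/
open NumberField Module Polynomial

namespace Pool.Agent.Lib.MPcb8a44

/-- Northcott: integral elements of bounded degree and bounded conjugates -/
lemma northcott (d : ℕ) (B : ℝ) : ∃ T : Set ℂ, T.Finite ∧
    ∀ (K : IntermediateField ℚ ℂ), FiniteDimensional ℚ K → finrank ℚ K ≤ d →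
    ∀ x : K, IsIntegral ℤ x → (∀ φ : K →+* ℂ, ‖φ x‖ ≤ B) → (x : ℂ) ∈ T := by
  classical
  set C := Nat.ceil ((max B 1) ^ d * (2 : ℝ) ^ d) with hC
  refine ⟨_, bUnion_roots_finite (algebraMap ℤ ℂ) d (Set.finite_Icc (-C : ℤ) C), ?_⟩
  intro K hK hKd x hx hb
  have hNF : NumberField K := { to_charZero := inferInstance, to_finiteDimensional := hK }
  simp_rw [Set.mem_iUnion]
  have h_map := minpoly.isIntegrallyClosed_eq_field_fractions' ℚ hx
  have hne : (minpoly ℤ x).map (algebraMap ℤ ℂ) ≠ 0 :=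
    (Polynomial.map_ne_zero_iff (by exact_mod_cast Int.cast_injective)).2 (minpoly.ne_zero hx)
  refine ⟨minpoly ℤ x, ⟨?_, fun i => ?_⟩, ?_⟩
  · rw [← (minpoly.monic hx).natDegree_map (algebraMap ℤ ℚ), ← h_map]
    exact (minpoly.natDegree_le x).trans hKd
  · rw [Set.mem_Icc, ← abs_le, ← @Int.cast_le ℝ]
    have h1 := NumberField.Embeddings.coeff_bdd_of_norm_le hb i
    have h2 : ‖(minpoly ℚ x).coeff i‖ = ((|(minpoly ℤ x).coeff i| : ℤ) : ℝ) := by
      rw [h_map, coeff_map, eq_intCast, Int.norm_cast_rat, Int.norm_eq_abs, Int.cast_abs]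
    rw [← h2]
    refine h1.trans ?_
    refine le_trans ?_ (Nat.le_ceil _)
    have h3 : (1 : ℝ) ≤ max B 1 := le_max_right _ _
    have h4 : ((finrank ℚ K).choose (finrank ℚ K / 2) : ℝ) ≤ 2 ^ d := by
      have : (finrank ℚ K).choose (finrank ℚ K / 2) ≤ 2 ^ d :=
        (Nat.choose_le_two_pow _ _).trans (Nat.pow_le_pow_right (by norm_num) hKd)
      exact_mod_cast this
    have h5 : (max B 1) ^ finrank ℚ K ≤ (max B 1) ^ d := pow_le_pow_right₀ h3 hKd
    gcongr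
  · rw [Finset.mem_coe, Multiset.mem_toFinset, mem_roots hne, IsRoot, eval_map_algebraMap]
    have := minpoly.aeval ℤ x
    have h2 : aeval (x : ℂ) (minpoly ℤ x) = ((aeval x (minpoly ℤ x) : K) : ℂ) := by
      exact (aeval_algebraMap_apply ℂ x (minpoly ℤ x))
    rw [h2, this]
    rfl

/-- totally real fields of degree at most `d` in which every sum of squares of integers is
a sum of three squares of integers -/
def smallPyth (d : ℕ) : Set (IntermediateField ℚ ℂ) := {K |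
      FiniteDimensional ℚ K ∧ Module.finrank ℚ K ≤ d ∧
      (∀ φ : K →+* ℂ, ∀ x : K, (φ x).im = 0) ∧
      (∀ x : integralClosure ℤ K,
        (∃ m : ℕ, ∃ f : Fin m → integralClosure ℤ K, x = ∑ i, f i ^ 2) →
          ∃ f : Fin 3 → integralClosure ℤ K, x = ∑ i, f i ^ 2)}

lemma totallyReal_of_le {F K : IntermediateField ℚ ℂ} (hFK : F ≤ K) (hK : FiniteDimensional ℚ K)
    (hreal : ∀ φ : K →+* ℂ, ∀ x : K, (φ x).im = 0) (φ : F →+* ℂ) (x : F) : (φ x).im = 0 := by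
  have hNF : NumberField K := { to_charZero := inferInstance, to_finiteDimensional := hK }
  have hF : FiniteDimensional ℚ F := by
    exact FiniteDimensional.of_injective (IntermediateField.inclusion hFK).toLinearMap
      (IntermediateField.inclusion_injective hFK)
  set y : K := IntermediateField.inclusion hFK x with hy
  have h1 : minpoly ℚ y = minpoly ℚ x :=
    minpoly.algHom_eq (IntermediateField.inclusion hFK)
      (IntermediateField.inclusion_injective hFK) x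
  have h2 : φ x ∈ (minpoly ℚ y).rootSet ℂ := by
    rw [h1]
    have hx : IsIntegral ℚ x := Algebra.IsIntegral.isIntegral x
    rw [mem_rootSet]
    refine ⟨minpoly.ne_zero hx, ?_⟩
    have h3 := congrArg φ (minpoly.aeval ℚ x)
    rw [map_zero] at h3
    rw [← h3]
    have h4 : aeval ((RingHom.equivRatAlgHom (R := F) (S := ℂ) φ) x) (minpoly ℚ x) =
      (RingHom.equivRatAlgHom (R := F) (S := ℂ) φ) (aeval x (minpoly ℚ x)) :=
      aeval_algHom_apply _ _ _
    exact h4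
  rw [← NumberField.Embeddings.range_eval_eq_rootSet_minpoly K ℂ y] at h2
  obtain ⟨ψ, hψ⟩ := h2
  rw [← hψ]
  exact hreal ψ y

/-- a field contained in infinitely many members, maximal with this property -/
lemma exists_maximal_subfield (d : ℕ) {S : Set (IntermediateField ℚ ℂ)} (hS : S.Infinite)
    (hSfin : ∀ K ∈ S, FiniteDimensional ℚ K) (hSd : ∀ K ∈ S, finrank ℚ K ≤ d) :
    ∃ F : IntermediateField ℚ ℂ, {K ∈ S | F ≤ K}.Infinite ∧
      ∀ F' : IntermediateField ℚ ℂ, F < F' → {K ∈ S | F' ≤ K}.Finite := by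
  classical
  set Good : Set ℕ := {n | ∃ F : IntermediateField ℚ ℂ, finrank ℚ F = n ∧
    {K ∈ S | F ≤ K}.Infinite} with hGood
  have hbdd : Good ⊆ Set.Iic d := by
    rintro n ⟨F, rfl, hinf⟩
    obtain ⟨K, hK, hFK⟩ := hinf.nonempty
    have := hSfin K hK
    exact (LinearMap.finrank_le_finrank_of_injective
      (f := (IntermediateField.inclusion hFK).toLinearMap)
      (IntermediateField.inclusion_injective hFK)).trans (hSd K hK)
  have hfin : Good.Finite := (Set.finite_Iic d).subset hbdd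
  have hne : Good.Nonempty := by
    refine ⟨finrank ℚ (⊥ : IntermediateField ℚ ℂ), ⊥, rfl, ?_⟩
    simpa using hS
  obtain ⟨n, ⟨F, hFn, hFinf⟩, hmax⟩ := Set.exists_max_image Good id hfin hne
  refine ⟨F, hFinf, ?_⟩
  intro F' hFF'
  by_contra hinf
  have h1 : finrank ℚ F' ∈ Good := ⟨F', rfl, hinf⟩
  have h2 := hmax _ h1
  simp only [id] at h2
  obtain ⟨K, hK, hFK⟩ := Set.Infinite.nonempty hinf
  have := hSfin K hK
  have hF'fin : FiniteDimensional ℚ F' :=
    FiniteDimensional.of_injective (IntermediateField.inclusion hFK).toLinearMap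
      (IntermediateField.inclusion_injective hFK)
  have h3 : F = F' := by
    apply IntermediateField.eq_of_le_of_finrank_le hFF'.le
    omega
  exact hFF'.ne h3

theorem smallPyth_finite (d : ℕ) : (smallPyth d).Finite := by
  classical
  by_contra hinf
  obtain ⟨F, hFinf, hFmax⟩ := exists_maximal_subfield d hinf (fun K hK => hK.1)
    (fun K hK => hK.2.1)
  -- `F` is a totally real number field
  obtain ⟨K₀, hK₀, hFK₀⟩ := hFinf.nonempty
  have hFfin : FiniteDimensional ℚ F := by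
    have := hK₀.1
    exact FiniteDimensional.of_injective (IntermediateField.inclusion hFK₀).toLinearMap
      (IntermediateField.inclusion_injective hFK₀)
  have hFreal : ∀ φ : F →+* ℂ, ∀ x : F, (φ x).im = 0 :=
    totallyReal_of_le hFK₀ hK₀.1 hK₀.2.2.1
  have hFNF : NumberField F := { to_charZero := inferInstance, to_finiteDimensional := hFfin }
  obtain ⟨a, b, c, habc⟩ := exists_three_not_two hFreal
  set s : 𝓞 F := a ^ 2 + b ^ 2 + c ^ 2 with hs
  obtain ⟨S₀, hS₀⟩ : ∃ S₀ : ℝ, ∀ φ : F →+* ℂ, ‖φ (s : F)‖ ≤ S₀ := by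
    obtain ⟨S₀, h⟩ := (Set.finite_range (fun φ : F →+* ℂ => ‖φ (s : F)‖)).bddAbove
    exact ⟨S₀, fun φ => h ⟨φ, rfl⟩⟩
  obtain ⟨B, hB⟩ : ∃ B : ℝ, ∀ n ≤ d, gapBound n S₀ ≤ B := by
    obtain ⟨B, h⟩ := ((Set.finite_Iic d).image (fun n => gapBound n S₀)).bddAbove
    exact ⟨B, fun n hn => h ⟨n, hn, rfl⟩⟩
  obtain ⟨T, hT, hTmem⟩ := northcott d B
  -- the exceptional fields
  have hexc : ({K ∈ smallPyth d | F ≤ K ∧ ∃ x : K, IsIntegral ℤ x ∧ (x : ℂ) ∉ F ∧
      ∀ φ : K →+* ℂ, ‖φ x‖ ≤ B}).Finite := by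
    apply Set.Finite.subset (hT.biUnion (t := fun t => {K ∈ smallPyth d | F ≤ K ∧ t ∈ K ∧ t ∉ F}) ?_)
    · rintro K ⟨hK, hFK, x, hx, hxF, hxb⟩
      simp only [Set.mem_iUnion]
      exact ⟨x, hTmem K hK.1 hK.2.1 x hx hxb, hK, hFK, x.2, hxF⟩
    · intro t _
      by_cases htF : t ∈ F
      · convert Set.finite_empty
        ext K
        simp [htF]
      · apply (hFmax (F ⊔ IntermediateField.adjoin ℚ {t}) ?_).subset
        · rintro K ⟨hK, hFK, htK, _⟩
          refine ⟨hK, sup_le hFK ?_⟩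
          rw [IntermediateField.adjoin_le_iff]
          simpa using htK
        · rw [left_lt_sup, IntermediateField.adjoin_le_iff]
          simpa using htF
  obtain ⟨K, ⟨⟨hK, hFK⟩, hKn⟩, hKF⟩ :=
    ((hFinf.sdiff hexc).sdiff (Set.finite_singleton F)).nonempty
  have hKF : K ≠ F := hKF
  have hgap : ∀ x : K, IsIntegral ℤ x → (x : ℂ) ∉ F → ∃ φ : K →+* ℂ, B < ‖φ x‖ := by
    intro x hx hxF
    by_contra hcon
    push Not at hcon
    exact hKn ⟨hK, hFK, x, hx, hxF, hcon⟩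
  obtain ⟨hKfin, hKd, hKreal, hK3⟩ := hK
  have hKNF : NumberField K := { to_charZero := inferInstance, to_finiteDimensional := hKfin }
  set ι : F →+* K := (IntermediateField.inclusion hFK : F →+* K) with hι
  have hιv : ∀ x : F, ((ι x : K) : ℂ) = x := fun x => rfl
  -- the data for the gap lemma
  set r : (K →+* ℂ) → (K →+* ℝ) := realEmb hKreal with hr
  set O : Subring K := (integralClosure ℤ K).toSubring with hO
  have hOmem : ∀ x : K, x ∈ O ↔ IsIntegral ℤ x := fun x => Iff.rfl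
  set F' : Subfield K := ι.fieldRange with hF'
  have hF'mem : ∀ x : K, x ∈ F' ↔ (x : ℂ) ∈ F := by
    intro x
    constructor
    · rintro ⟨y, rfl⟩
      exact y.2
    · intro h
      exact ⟨⟨x, h⟩, Subtype.ext rfl⟩
  have hιint : ∀ x : 𝓞 F, IsIntegral ℤ (ι (x : F)) := fun x =>
    (RingOfIntegers.isIntegral_coe x).map ι.toIntAlgHom
  have hcard : Fintype.card (K →+* ℂ) ≤ d := by
    rw [NumberField.Embeddings.card]
    exact hKd
  have hne : Nonempty (K →+* ℂ) := inferInstance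
  have hbound : ∀ φ : K →+* ℂ, ‖φ (ι (s : F))‖ ≤ S₀ := fun φ => hS₀ (φ.comp ι)
  obtain ⟨ω, hωO, hω⟩ := gap_lemma r O
    (fun x hx hx0 => one_le_prod hKreal ((hOmem x).1 hx) hx0) F' (ι (s : F)) ⟨_, rfl⟩ (hιint s) S₀
    (fun φ => (le_abs_self _).trans (by rw [norm_realEmb]; exact hbound φ))
    (fun φ => by
      have h1 : (s : F) = (a : F) ^ 2 + (b : F) ^ 2 + (c : F) ^ 2 := by
        rw [hs]
        simp only [map_add, map_pow]
      rw [h1]
      simp only [map_add, map_pow]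
      positivity)
    (by
      rintro ⟨y, ⟨y', rfl⟩, z, ⟨z', rfl⟩, hy, hz, hyz⟩
      apply habc
      have hy' : IsIntegral ℤ y' :=
        (isIntegral_algHom_iff ι.toIntAlgHom ι.injective).1 ((hOmem _).1 hy)
      have hz' : IsIntegral ℤ z' :=
        (isIntegral_algHom_iff ι.toIntAlgHom ι.injective).1 ((hOmem _).1 hz)
      refine ⟨⟨y', hy'⟩, ⟨z', hz'⟩, ?_⟩
      apply RingOfIntegers.ext
      apply ι.injective
      rw [hyz]
      simp only [map_add, map_pow]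
      rfl)
    (by
      intro x hx hxF
      obtain ⟨φ, hφ⟩ := hgap x ((hOmem x).1 hx) (fun h => hxF ((hF'mem x).2 h))
      refine ⟨φ, ?_⟩
      rw [hr, norm_realEmb]
      exact (hB _ hcard).trans_lt hφ)
    (by
      have h1 : ∃ x : K, (x : ℂ) ∉ F := by
        by_contra hcon
        push Not at hcon
        apply hKF
        apply le_antisymm _ hFK
        intro x hx
        exact hcon ⟨x, hx⟩
      obtain ⟨x, hx⟩ := h1
      have halg : IsAlgebraic ℤ x :=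
        (IsFractionRing.isAlgebraic_iff ℤ ℚ K).2 (Algebra.IsAlgebraic.isAlgebraic (R := ℚ) x)
      obtain ⟨m, hm, hint⟩ := halg.exists_integral_multiple
      refine ⟨m • x, hint, ?_⟩
      intro h
      apply hx
      have h2 := (hF'mem _).1 h
      have h3 : ((m • x : K) : ℂ) = (m : ℂ) * (x : ℂ) := by
        rw [zsmul_eq_mul]
        push_cast
        rfl
      rw [h3] at h2
      have hm' : (m : ℂ) ≠ 0 := by exact_mod_cast hm
      have h4 : (x : ℂ) = ((m : ℂ) * (x : ℂ)) / (m : ℂ) := by field_simp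
      rw [h4]
      exact div_mem h2 (intCast_mem F m))
  -- conclusion
  apply hω
  obtain ⟨f, hf⟩ := hK3 ⟨ι (s : F) + ω ^ 2, add_mem (hιint s) (pow_mem hωO 2)⟩
    ⟨4, ![⟨ι (a : F), hιint a⟩, ⟨ι (b : F), hιint b⟩, ⟨ι (c : F), hιint c⟩, ⟨ω, hωO⟩], by
      apply Subtype.ext
      simp only [Fin.sum_univ_four, Matrix.cons_val]
      push_cast
      rw [hs]
      simp only [map_add, map_pow]⟩
  refine ⟨f 0, (f 0).2, f 1, (f 1).2, f 2, (f 2).2, ?_⟩
  have h1 := congrArg (fun x : integralClosure ℤ K => (x : K)) hf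
  simp only [Fin.sum_univ_three] at h1
  exact_mod_cast h1

end Pool.Agent.Lib.MPcb8a44
end

section
/-!
FIN: the final assembly of Theorem AB (MP_cb8a44_nt).
-/
set_option autoImplicit false

namespace Pool.Agent.Lib.MPcb8a44.AB.FinM

open scoped BigOperators
open Filter Polynomial

/-- The fields of the theorem. -/
def KK : Set (IntermediateField ℚ ℂ) := {K : IntermediateField ℚ ℂ |
    (∃ N : ℕ, 0 < N ∧ K ≤ IntermediateField.adjoin ℚ {Complex.exp (2 * Real.pi * Complex.I / N)}) ∧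
    (∀ φ : K →+* ℂ, ∀ x : K, (φ x).im = 0) ∧
    (∀ x : integralClosure ℤ K,
      (∃ m : ℕ, ∃ f : Fin m → integralClosure ℤ K, x = ∑ i, f i ^ 2) →
        ∃ f : Fin 3 → integralClosure ℤ K, x = ∑ i, f i ^ 2)}

lemma KK_cyc {K : IntermediateField ℚ ℂ} (hK : K ∈ KK) : ∃ N : ℕ, 0 < N ∧ K ≤ Cyc N := hK.1

lemma KK_real {K : IntermediateField ℚ ℂ} (hK : K ∈ KK) : ∀ x ∈ K, x.im = 0 := by
  intro x hx
  exact hK.2.1 (algebraMap K ℂ) ⟨x, hx⟩

lemma isIntegral_coe {K : IntermediateField ℚ ℂ} {x : K} :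
    IsIntegral ℤ (x : ℂ) ↔ IsIntegral ℤ x :=
  isIntegral_algebraMap_iff (B := ℂ) (algebraMap K ℂ).injective

lemma KK_pyth {K : IntermediateField ℚ ℂ} (hK : K ∈ KK) : Pyth 3 K := by
  rintro k α ⟨g, hg, rfl⟩
  obtain ⟨f, hf⟩ := hK.2.2 (∑ i, (⟨⟨g i, (hg i).1⟩, isIntegral_coe.mp (hg i).2⟩ :
    integralClosure ℤ K) ^ 2) ⟨k, _, rfl⟩
  refine ⟨fun j => ((f j : K) : ℂ), fun j => ⟨(f j : K).2, isIntegral_coe.mpr (f j).2⟩, ?_⟩
  have h1 := congrArg (fun z : integralClosure ℤ K => ((z : K) : ℂ)) hf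
  simpa using h1

/-- Roots of a genuine quadratic polynomial. -/
lemma quad_finite (A B D : ℂ) (hA : A ≠ 0) : {a : ℂ | A * a ^ 2 + B * a + D = 0}.Finite := by
  have hp : (C A * X ^ 2 + C B * X + C D : ℂ[X]) ≠ 0 := by
    intro h
    have := congrArg (fun q => q.coeff 2) h
    simp at this
    exact hA this
  refine (Polynomial.finite_setOfPred_isRoot hp).subset ?_
  intro a ha
  simp only [Set.mem_ofPred_eq, IsRoot.def, eval_add, eval_mul, eval_C, eval_pow, eval_X] at ha ⊢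
  exact ha

section ultra

variable (U : Ultrafilter KK)

/-- The limit field. -/
noncomputable def FF : IntermediateField ℚ ℂ where
  carrier := {x | ∀ᶠ K : KK in (U : Filter KK), x ∈ (K : IntermediateField ℚ ℂ)}
  mul_mem' := by
    intro a b ha hb
    filter_upwards [ha, hb] with K h1 h2 using mul_mem h1 h2
  one_mem' := Eventually.of_forall fun K => one_mem _
  add_mem' := by
    intro a b ha hb
    filter_upwards [ha, hb] with K h1 h2 using add_mem h1 h2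
  zero_mem' := Eventually.of_forall fun K => zero_mem _
  algebraMap_mem' := fun q => Eventually.of_forall fun K => IntermediateField.algebraMap_mem _ q
  inv_mem' := by
    intro a ha
    filter_upwards [ha] with K h1 using inv_mem h1

lemma mem_FF {x : ℂ} : x ∈ FF U ↔ ∀ᶠ K : KK in (U : Filter KK), x ∈ (K : IntermediateField ℚ ℂ) :=
  Iff.rfl

lemma not_mem_FF {x : ℂ} (hx : x ∉ FF U) :
    ∀ᶠ K : KK in (U : Filter KK), x ∉ (K : IntermediateField ℚ ℂ) := by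
  rw [mem_FF] at hx
  exact Ultrafilter.eventually_not.mpr hx

lemma finite_eventually {S : Set ℂ} (hS : S.Finite) (hSF : ∀ x ∈ S, x ∈ FF U) :
    ∀ᶠ K : KK in (U : Filter KK), ∀ x ∈ S, x ∈ (K : IntermediateField ℚ ℂ) :=
  (eventually_all_finite hS).mpr fun x hx => hSF x hx

variable (hPS : SpecPS) (hMB : SpecMB) (hCB : SpecCB)

include hPS hMB

/-- Short elements are eventually in the limit field. -/
lemma stab (T : ℝ) : ∀ᶠ K : KK in (U : Filter KK), ∀ x ∈ (K : IntermediateField ℚ ℂ), IsIntegral ℤ x →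
    M x ≤ T → x ∈ FF U := by
  obtain ⟨W, hW, hWK⟩ := hPS 3 ⌈T⌉₊
  have hfin : {x : ℂ | x ∈ Cyc W ∧ IsIntegral ℤ x ∧ M x ≤ T}.Finite := (hMB W hW).2.2.2.2.2.1 T
  have h1 : ∀ᶠ K : KK in (U : Filter KK), ∀ x ∈ {x : ℂ | x ∈ Cyc W ∧ IsIntegral ℤ x ∧ M x ≤ T},
      x ∈ (K : IntermediateField ℚ ℂ) → x ∈ FF U := by
    refine (eventually_all_finite hfin).mpr fun x _ => ?_
    by_cases hx : x ∈ FF U
    · exact Eventually.of_forall fun K _ => hx
    · filter_upwards [not_mem_FF U hx] with K hK h using absurd h hK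
  filter_upwards [h1] with K hK x hxK hxi hxT
  obtain ⟨N, hN, hKN⟩ := KK_cyc K.2
  have hxT' : M x ≤ (⌈T⌉₊ : ℕ) := hxT.trans (Nat.le_ceil T)
  exact hK x ⟨hWK N K hN hKN (KK_real K.2) (KK_pyth K.2) x hxK hxi hxT', hxi, hxT⟩ hxK

/-- The short elements of the limit field. -/
lemma XX_finite (T : ℝ) : {x : ℂ | x ∈ FF U ∧ IsIntegral ℤ x ∧ M x ≤ T}.Finite := by
  obtain ⟨W, hW, hWK⟩ := hPS 3 ⌈T⌉₊
  have hfin : {x : ℂ | x ∈ Cyc W ∧ IsIntegral ℤ x ∧ M x ≤ T}.Finite := (hMB W hW).2.2.2.2.2.1 T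
  refine hfin.subset ?_
  rintro x ⟨hxF, hxi, hxT⟩
  obtain ⟨K, hxK⟩ := (hxF : ∀ᶠ K : KK in (U : Filter KK), x ∈ (K : IntermediateField ℚ ℂ)).exists
  obtain ⟨N, hN, hKN⟩ := KK_cyc K.2
  have hxT' : M x ≤ (⌈T⌉₊ : ℕ) := hxT.trans (Nat.le_ceil T)
  exact ⟨hWK N K hN hKN (KK_real K.2) (KK_pyth K.2) x hxK hxi hxT', hxi, hxT⟩

omit hPS in
include hMB in
/-- Elements of the limit field are in cyclotomic fields. -/
lemma FF_cyc {x : ℂ} (hx : x ∈ FF U) : ∃ N, 0 < N ∧ x ∈ Cyc N := by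
  obtain ⟨K, hxK⟩ := (hx : ∀ᶠ K : KK in (U : Filter KK), x ∈ (K : IntermediateField ℚ ℂ)).exists
  obtain ⟨N, hN, hKN⟩ := KK_cyc K.2
  exact ⟨N, hN, hKN hxK⟩

end ultra

/-- The sum of `M` over the entries depends only on the sum of squares. -/
lemma sum_M (hMB : SpecMB) {K : IntermediateField ℚ ℂ} {N : ℕ} (hN : 0 < N) (hK : K ≤ Cyc N)
    (hre : ∀ x ∈ K, x.im = 0) {k : ℕ} (x : Fin k → ℂ) (hx : ∀ i, x i ∈ K) :
    ∑ i, M (x i) = ntr (∑ i, x i ^ 2) := by
  have hadd := (hMB N hN).1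
  have hM := (hMB N hN).2.2.2.2.2.2
  have h0 : ntr 0 = 0 := by
    have := hadd 0 (zero_mem _) 0 (zero_mem _)
    rw [add_zero] at this
    linarith
  have key : ∀ s : Finset (Fin k), ∑ i ∈ s, M (x i) = ntr (∑ i ∈ s, x i ^ 2) := by
    classical
    intro s
    induction s using Finset.induction_on with
    | empty => simp [h0]
    | insert a s ha ih =>
      rw [Finset.sum_insert ha, Finset.sum_insert ha, ih,
        hadd _ (pow_mem (hK (hx a)) 2) _ (sum_mem fun i _ => pow_mem (hK (hx i)) 2),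
        hM _ (hK (hx a)) (hre _ (hx a))]
  exact key Finset.univ

/-- Common odd part: a finite set of cyclotomic numbers has bounded level. -/
lemma common_level (hCB : SpecCB) {S : Set ℂ} (hS : S.Finite) (hc : ∀ x ∈ S, ∃ N, 0 < N ∧ x ∈ Cyc N) :
    ∃ s N'' : ℕ, 2 ≤ s ∧ Odd N'' ∧ ∀ x ∈ S, x ∈ Cyc (2 ^ s * N'') := by
  classical
  have h1 : ∃ N, 0 < N ∧ ∀ x ∈ S, x ∈ Cyc N := by
    induction S, hS using Set.Finite.induction_on with
    | empty => exact ⟨1, one_pos, by simp⟩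
    | @insert a S _ _ ih =>
      obtain ⟨N, hN, hNS⟩ := ih fun x hx => hc x (Set.mem_insert_of_mem _ hx)
      obtain ⟨N1, hN1, hN1a⟩ := hc a (Set.mem_insert _ _)
      refine ⟨N * N1, Nat.mul_pos hN hN1, ?_⟩
      intro x hx
      rcases hx with rfl | hx
      · exact hCB.2.2.1 N1 (N * N1) (Nat.mul_pos hN hN1) (Dvd.intro_left N rfl) hN1a
      · exact hCB.2.2.1 N (N * N1) (Nat.mul_pos hN hN1) (Dvd.intro N1 rfl) (hNS x hx)
  obtain ⟨N, hN, hNS⟩ := h1
  obtain ⟨a, b, hb, hab⟩ := Nat.exists_eq_two_pow_mul_odd hN.ne'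
  refine ⟨max a 2, b, le_max_right _ _, hb, fun x hx => ?_⟩
  have hbpos : 0 < b := hb.pos
  refine hCB.2.2.1 N _ (by positivity) ?_ (hNS x hx)
  rw [hab]
  exact mul_dvd_mul_right (pow_dvd_pow 2 (le_max_left a 2)) b

/-- A cyclotomic field of a special form which contains `K`. -/
lemma big_cyc (hCB : SpecCB) {K : IntermediateField ℚ ℂ} {N : ℕ} (hN : 0 < N) (hK : K ≤ Cyc N)
    (s N'' : ℕ) (hN'' : Odd N'') :
    ∃ m N', s ≤ m ∧ Odd N' ∧ N'' ∣ N' ∧ K ≤ Cyc (2 ^ m * N') := by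
  obtain ⟨a, b, hb, hab⟩ := Nat.exists_eq_two_pow_mul_odd hN.ne'
  refine ⟨max a s, b * N'', le_max_right _ _, hb.mul hN'', Dvd.intro_left b rfl, hK.trans ?_⟩
  have hbpos : 0 < b := hb.pos
  have hNpos : 0 < N'' := hN''.pos
  refine hCB.2.2.1 N _ (by positivity) ?_
  rw [hab]
  exact mul_dvd_mul (pow_dvd_pow 2 (le_max_left a s)) (Dvd.intro N'' rfl)

lemma exists_s0 (s : ℕ) (B : ℝ) (hB : 1 ≤ B) :
    ∃ s0 : ℕ, 2 ≤ s0 ∧ (2 : ℝ) ^ s * (s0 * (B + 1)) < 2 ^ s0 := by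
  have h := tendsto_pow_const_div_const_pow_of_one_lt 1 (r := (2 : ℝ)) (by norm_num)
  have hpos : (0 : ℝ) < 2 ^ s * (B + 1) := by positivity
  have h2 : ∀ᶠ n : ℕ in atTop, (n : ℝ) ^ 1 / 2 ^ n < 1 / (2 ^ s * (B + 1)) :=
    h.eventually (gt_mem_nhds (by positivity))
  obtain ⟨s0, hs0, h3⟩ := (h2.and (eventually_ge_atTop 2)).exists
  refine ⟨s0, h3, ?_⟩
  rw [pow_one, div_lt_div_iff₀ (by positivity) hpos] at hs0
  linarith

/-- Core application. -/
lemma app (U : Ultrafilter KK) (hPS : SpecPS) (hMB : SpecMB) (hCB : SpecCB) (hCLC : SpecCLC)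
    (n : ℕ) (hn : 1 ≤ n) (k : ℕ) (x : Fin k → ℂ) (hx : ∀ i, x i ∈ FF U ∧ IsIntegral ℤ (x i))
    (hxn : ∀ᶠ K : KK in (U : Filter KK), ¬ Sq (n - 1) (K : IntermediateField ℚ ℂ) (∑ i, x i ^ 2)) :
    ∃ C0 : ℝ, ∀ᶠ K : KK in (U : Filter KK), ∀ F : IntermediateField ℚ ℂ,
      F ≤ (K : IntermediateField ℚ ℂ) → ∀ t : ℝ, C0 < t →
      (∀ y ∈ (K : IntermediateField ℚ ℂ), IsIntegral ℤ y → y ∉ F → t ≤ M y) →
      (∃ a ∈ (K : IntermediateField ℚ ℂ), IsIntegral ℤ a ∧ a ∉ F ∧ M a = t) →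
      ∃ (k' : ℕ) (y : Fin k' → ℂ), (∀ i, y i ∈ (K : IntermediateField ℚ ℂ) ∧ IsIntegral ℤ (y i)) ∧
        ∑ i, M (y i) ≤ 2 * t ∧ ¬ Sq n (K : IntermediateField ℚ ℂ) (∑ i, y i ^ 2) := by
  classical
  set B : ℝ := max 1 (∑ i, M (x i)) with hB
  have hB1 : 1 ≤ B := le_max_left _ _
  obtain ⟨s, N'', hs2, hN''odd, hs⟩ := common_level hCB (XX_finite U hPS hMB 2)
    (fun y hy => FF_cyc U hMB hy.1)
  obtain ⟨s0, hs02, hs0⟩ := exists_s0 s B hB1
  set T1 : ℝ := max (s0 * (B + 1)) 2 with hT1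
  have hf1 := XX_finite U hPS hMB T1
  obtain ⟨C2', hC2'⟩ := (hf1.image fun y => M (y ^ 2)).bddAbove
  set C2 : ℝ := max C2' (M (∑ i, x i ^ 2)) with hC2
  set C1 : ℝ := (n : ℝ) ^ 2 * C2 with hC1
  have hfc := XX_finite U hPS hMB C1
  set Bad : Set ℂ := ⋃ p ∈ ({y : ℂ | y ∈ FF U ∧ IsIntegral ℤ y ∧ M y ≤ T1} ×ˢ
    ({y : ℂ | y ∈ FF U ∧ IsIntegral ℤ y ∧ M y ≤ C1} ×ˢ
      {y : ℂ | y ∈ FF U ∧ IsIntegral ℤ y ∧ M y ≤ C1})),
    {a : ℂ | p.1 ^ 2 ≠ 1 ∧ (1 - p.1 ^ 2) * a ^ 2 + p.2.1 * a +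
      (p.2.1 ^ 2 / 4 + p.1 ^ 4 - p.1 ^ 2 * (1 + p.2.2)) = 0} with hBad
  have hBadfin : Bad.Finite := by
    refine Set.Finite.biUnion (hf1.prod (hfc.prod hfc)) fun p _ => ?_
    by_cases hp : p.1 ^ 2 = 1
    · refine Set.finite_empty.subset ?_
      rintro a ⟨h, _⟩
      exact absurd hp h
    · refine (quad_finite (1 - p.1 ^ 2) p.2.1
        (p.2.1 ^ 2 / 4 + p.1 ^ 4 - p.1 ^ 2 * (1 + p.2.2)) ?_).subset ?_
      · intro h
        exact hp (sub_eq_zero.mp h).symm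
      · rintro a ⟨_, h⟩
        exact h
  obtain ⟨C3, hC3⟩ := (hBadfin.image M).bddAbove
  refine ⟨max (max (T1 + 2) ((1 + T1 + C1) / 2)) C3, ?_⟩
  have hxfin : (Set.range x).Finite := Set.finite_range x
  filter_upwards [stab U hPS hMB 2, stab U hPS hMB T1, stab U hPS hMB C1, hxn,
    finite_eventually U hxfin (by rintro _ ⟨i, rfl⟩; exact (hx i).1)] with K h2 hKT1 hKC1 hKn hKx
  intro F hFK t ht hmin hatt
  obtain ⟨N, hN, hKN⟩ := KK_cyc K.2
  obtain ⟨m, N', hsm, hN'odd, hdvd, hKm⟩ := big_cyc hCB hN hKN s N'' hN''odd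
  have htT1 : T1 + 2 < t := (le_max_left _ _).trans_lt ((le_max_left _ _).trans_lt ht)
  have htC1 : 1 + T1 + C1 < 2 * t := by
    have : (1 + T1 + C1) / 2 < t := (le_max_right _ _).trans_lt ((le_max_left _ _).trans_lt ht)
    linarith
  have htC3 : C3 < t := (le_max_right _ _).trans_lt ht
  refine hCLC n s s0 m N' B C1 C2 T1 t K F hN'odd hn hB1 hs2 hsm hs02 hKm (KK_real K.2) hFK
    hT1 hs0 hC1 ?_ ?_ k x (fun i => ⟨hKx _ ⟨i, rfl⟩, (hx i).2⟩) (le_max_right _ _)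
    (le_max_right _ _) hKn hmin hatt htT1 htC1 ?_
  · intro y hy hyi hyM
    have hN'pos : 0 < N' := hN'odd.pos
    refine hCB.2.2.1 (2 ^ s * N'') _ (by positivity) (mul_dvd_mul_left _ hdvd) ?_
    exact hs y ⟨h2 y hy hyi hyM, hyi, hyM⟩
  · intro y hy hyi hyM
    refine le_trans (hC2' ⟨y, ⟨hKT1 y hy hyi hyM, hyi, hyM⟩, rfl⟩) (le_max_left _ _)
  · intro a ha hai haF s1 hs1 hs1i hs1M c1 hc1 hc1i hc1M c2 hc2 hc2i hc2M hs1ne hzero
    have hmem : a ∈ Bad := by
      rw [hBad]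
      simp only [Set.mem_iUnion]
      refine ⟨(s1, c1, c2), ⟨⟨hKT1 s1 hs1 hs1i hs1M, hs1i, hs1M⟩,
        ⟨hKC1 c1 hc1 hc1i hc1M, hc1i, hc1M⟩, ⟨hKC1 c2 hc2 hc2i hc2M, hc2i, hc2M⟩⟩, hs1ne, ?_⟩
      rw [← hzero]; ring
    have h3 : M a ≤ C3 := hC3 ⟨a, hmem, rfl⟩
    have h4 := hmin a ha hai haF
    linarith

/-- Padding to a fixed number of terms: nonzero integers have `M ≥ 1`. -/
lemma pad (hMB : SpecMB) {N : ℕ} (hN : 0 < N) {t : ℝ} {k' : ℕ} (y : Fin k' → ℂ)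
    (hy : ∀ i, y i ∈ Cyc N ∧ IsIntegral ℤ (y i)) (ht : ∑ i, M (y i) ≤ 2 * t) :
    ∃ z : Fin ⌊2 * t⌋₊ → ℂ, (∀ j, z j = 0 ∨ ∃ i, z j = y i) ∧ ∑ j, z j ^ 2 = ∑ i, y i ^ 2 := by
  classical
  set S : Finset (Fin k') := Finset.univ.filter fun i => y i ≠ 0 with hS
  have hcard : S.card ≤ ⌊2 * t⌋₊ := by
    have h1 : (S.card : ℝ) ≤ ∑ i ∈ S, M (y i) := by
      have : (S.card : ℝ) = ∑ i ∈ S, (1 : ℝ) := by simp
      rw [this]
      refine Finset.sum_le_sum fun i hi => ?_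
      exact (hMB N hN).2.2.1 _ (hy i).1 (hy i).2 (Finset.mem_filter.mp hi).2
    have h2 : ∑ i ∈ S, M (y i) ≤ ∑ i, M (y i) :=
      Finset.sum_le_sum_of_subset_of_nonneg (Finset.filter_subset _ _)
        fun i _ _ => (hMB N hN).2.1 _ (hy i).1
    exact Nat.le_floor (by linarith)
  obtain ⟨f⟩ : Nonempty (S ↪ Fin ⌊2 * t⌋₊) := by
    refine Function.Embedding.nonempty_of_card_le ?_
    simpa using hcard
  refine ⟨fun j => if h : ∃ i : S, f i = j then y (h.choose : Fin k') else 0, ?_, ?_⟩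
  · intro j
    by_cases h : ∃ i : S, f i = j
    · right
      exact ⟨_, by simp only [dif_pos h]; rfl⟩
    · left
      simp only [dif_neg h]
  · have h1 : ∑ i, y i ^ 2 = ∑ i ∈ S, y i ^ 2 := by
      symm
      refine Finset.sum_subset (Finset.subset_univ S) ?_
      intro i _ hi
      have : y i = 0 := by
        by_contra h
        exact hi (Finset.mem_filter.mpr ⟨Finset.mem_univ i, h⟩)
      rw [this]; simp
    rw [h1, ← Finset.sum_coe_sort S]
    symm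
    refine Finset.sum_of_injOn f (f.injective.injOn) (fun _ _ => by simp) ?_ ?_
    · intro j _ hj
      have h : ¬ ∃ i : S, f i = j := by
        rintro ⟨i, hi⟩
        exact hj ⟨i, by simp, hi⟩
      simp only [dif_neg h]
      simp
    · intro i _
      have h : ∃ i' : S, f i' = f i := ⟨i, rfl⟩
      have h2 : h.choose = i := f.injective h.choose_spec
      simp only [dif_pos h]
      rw [h2]

/-- Every algebraic number has a nonzero integer multiple which is integral. -/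
lemma int_mul {z : ℂ} (hz : IsIntegral ℚ z) : ∃ d : ℤ, d ≠ 0 ∧ IsIntegral ℤ ((d : ℂ) * z) := by
  have h1 : IsAlgebraic ℚ z := hz.isAlgebraic
  have h2 : IsAlgebraic ℤ z := (IsFractionRing.isAlgebraic_iff ℤ ℚ ℂ).mpr h1
  obtain ⟨d, hd, hdz⟩ := h2.exists_integral_multiple
  refine ⟨d, hd, ?_⟩
  simpa [zsmul_eq_mul] using hdz

lemma mem_of_int_mul {F : IntermediateField ℚ ℂ} {z : ℂ} {d : ℤ} (hd : d ≠ 0)
    (h : (d : ℂ) * z ∈ F) : z ∈ F := by
  have h1 : (d : ℂ) ∈ F := intCast_mem F d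
  have h2 : (d : ℂ) ≠ 0 := by exact_mod_cast hd
  have h3 : z = (d : ℂ)⁻¹ * ((d : ℂ) * z) := by
    rw [← mul_assoc, inv_mul_cancel₀ h2, one_mul]
  rw [h3]
  exact mul_mem (inv_mem h1) h

/-- The induction of case 2. -/
lemma claim_step (U : Ultrafilter KK) (hPS : SpecPS) (hMB : SpecMB) (hCB : SpecCB) (hCLC : SpecCLC)
    (hinf : ¬ FiniteDimensional ℚ (FF U)) (n : ℕ) (hn : 1 ≤ n)
    (h : ∃ (k : ℕ) (x : Fin k → ℂ), (∀ i, x i ∈ FF U ∧ IsIntegral ℤ (x i)) ∧
      ∀ᶠ K : KK in (U : Filter KK), ¬ Sq (n - 1) (K : IntermediateField ℚ ℂ) (∑ i, x i ^ 2)) :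
    ∃ (k : ℕ) (x : Fin k → ℂ), (∀ i, x i ∈ FF U ∧ IsIntegral ℤ (x i)) ∧
      ∀ᶠ K : KK in (U : Filter KK), ¬ Sq n (K : IntermediateField ℚ ℂ) (∑ i, x i ^ 2) := by
  classical
  obtain ⟨k, x, hx, hxn⟩ := h
  obtain ⟨C0, hC0⟩ := app U hPS hMB hCB hCLC n hn k x hx hxn
  set XC : Set ℂ := {y : ℂ | y ∈ FF U ∧ IsIntegral ℤ y ∧ M y ≤ C0} with hXC
  have hXCfin : XC.Finite := XX_finite U hPS hMB C0
  set F : IntermediateField ℚ ℂ := IntermediateField.adjoin ℚ XC with hF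
  have hFfin : FiniteDimensional ℚ F := by
    have : Finite XC := hXCfin.to_subtype
    refine IntermediateField.finiteDimensional_adjoin fun y hy => ?_
    exact hy.2.1.tower_top
  have hFFF : F ≤ FF U := IntermediateField.adjoin_le_iff.mpr fun y hy => hy.1
  -- an integer of the limit field outside `F`
  obtain ⟨w, hwFF, hwi, hwF⟩ : ∃ w ∈ FF U, IsIntegral ℤ w ∧ w ∉ F := by
    by_contra hcon
    push Not at hcon
    apply hinf
    have hle : FF U ≤ F := by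
      intro z hz
      obtain ⟨N, hN, hzN⟩ := FF_cyc U hMB hz
      have hzint : IsIntegral ℚ z := by
        have := hCB.2.2.2.1 N hN
        have h1 : IsIntegral ℚ (⟨z, hzN⟩ : Cyc N) := Algebra.IsIntegral.isIntegral _
        exact (isIntegral_algebraMap_iff (A := Cyc N) (B := ℂ) (algebraMap (Cyc N) ℂ).injective).mpr h1
      obtain ⟨d, hd, hdz⟩ := int_mul hzint
      exact mem_of_int_mul hd (hcon _ (mul_mem (intCast_mem _ d) hz) hdz)
    exact FiniteDimensional.of_injective (IntermediateField.inclusion hle).toLinearMap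
      (IntermediateField.inclusion_injective hle)
  -- the minimum
  set Y : Set ℂ := {y : ℂ | y ∈ FF U ∧ IsIntegral ℤ y ∧ M y ≤ M w} with hY
  have hYfin : Y.Finite := XX_finite U hPS hMB (M w)
  obtain ⟨a0, ⟨⟨ha0FF, ha0i, ha0M⟩, ha0F⟩, ha0min⟩ := Set.exists_min_image (Y ∩ {y | y ∉ F}) M
    (hYfin.subset Set.inter_subset_left) ⟨w, ⟨⟨hwFF, hwi, le_rfl⟩, hwF⟩⟩
  have hC0a : C0 < M a0 := by
    by_contra hcon
    push Not at hcon
    exact ha0F (IntermediateField.subset_adjoin ℚ XC ⟨ha0FF, ha0i, hcon⟩)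
  have hev : ∀ᶠ K : KK in (U : Filter KK), ∃ z : Fin ⌊2 * M a0⌋₊ → ℂ,
      (∀ j, z j ∈ {y : ℂ | y ∈ FF U ∧ IsIntegral ℤ y ∧ M y ≤ 2 * M a0}) ∧
      ¬ Sq n (K : IntermediateField ℚ ℂ) (∑ j, z j ^ 2) := by
    filter_upwards [hC0, stab U hPS hMB (M w), stab U hPS hMB (2 * M a0),
      finite_eventually U hXCfin (fun y hy => hy.1), ha0FF] with K hK hKw hK2 hKXC hKa0
    obtain ⟨N, hN, hKN⟩ := KK_cyc K.2
    have hFK : F ≤ (K : IntermediateField ℚ ℂ) :=
      IntermediateField.adjoin_le_iff.mpr fun y hy => hKXC y hy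
    obtain ⟨k', y, hy, hyM, hyn⟩ := hK F hFK (M a0) hC0a (by
      intro y hy hyi hyF
      by_cases hyM : M y ≤ M w
      · exact ha0min y ⟨⟨hKw y hy hyi hyM, hyi, hyM⟩, hyF⟩
      · push Not at hyM
        exact ha0M.trans hyM.le) ⟨a0, hKa0, ha0i, ha0F, rfl⟩
    obtain ⟨z, hz, hzy⟩ := pad hMB hN y (fun i => ⟨hKN (hy i).1, (hy i).2⟩) hyM
    have hM0 : M 0 = 0 := by
      have h1 := (hMB N hN).2.2.2.2.2.2 0 (zero_mem _) (by simp)
      have h2 := (hMB N hN).1 0 (zero_mem _) 0 (zero_mem _)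
      rw [add_zero] at h2
      rw [h1]
      norm_num
      linarith
    have ha0nn : 0 ≤ M a0 := (hMB N hN).2.1 _ (hKN hKa0)
    refine ⟨z, fun j => ?_, by rw [hzy]; exact hyn⟩
    rcases hz j with h0 | ⟨i, hi⟩
    · rw [h0]
      exact ⟨zero_mem _, isIntegral_zero, by rw [hM0]; linarith⟩
    · rw [hi]
      have hMi : M (y i) ≤ 2 * M a0 := by
        refine le_trans ?_ hyM
        exact Finset.single_le_sum (f := fun i => M (y i))
          (fun j _ => (hMB N hN).2.1 _ (hKN (hy j).1)) (Finset.mem_univ i)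
      exact ⟨hK2 _ (hy i).1 (hy i).2 hMi, (hy i).2, hMi⟩
  -- finitely many possibilities
  have hZfin : (Set.univ.pi fun _ : Fin ⌊2 * M a0⌋₊ =>
      {y : ℂ | y ∈ FF U ∧ IsIntegral ℤ y ∧ M y ≤ 2 * M a0}).Finite :=
    Set.Finite.pi fun _ => XX_finite U hPS hMB (2 * M a0)
  by_contra hcon
  have hall : ∀ᶠ K : KK in (U : Filter KK), ∀ z ∈ (Set.univ.pi fun _ : Fin ⌊2 * M a0⌋₊ =>
      {y : ℂ | y ∈ FF U ∧ IsIntegral ℤ y ∧ M y ≤ 2 * M a0}),
      Sq n (K : IntermediateField ℚ ℂ) (∑ j, z j ^ 2) := by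
    refine (eventually_all_finite hZfin).mpr fun z hz => ?_
    have h1 : ¬ ∀ᶠ K : KK in (U : Filter KK),
        ¬ Sq n (K : IntermediateField ℚ ℂ) (∑ j, z j ^ 2) := fun h =>
      hcon ⟨_, z, fun i => ⟨(hz i (Set.mem_univ i)).1, (hz i (Set.mem_univ i)).2.1⟩, h⟩
    have h2 := Ultrafilter.frequently_iff_eventually.mp (not_eventually.mp h1)
    filter_upwards [h2] with K hK
    exact not_not.mp hK
  obtain ⟨K, ⟨z, hz, hzn⟩, hK⟩ := (hev.and hall).exists
  exact hzn (hK z fun i _ => hz i)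

/-- Case 2: the limit field has infinite degree. -/
lemma case_two (U : Ultrafilter KK) (hPS : SpecPS) (hMB : SpecMB) (hCB : SpecCB) (hCLC : SpecCLC)
    (hinf : ¬ FiniteDimensional ℚ (FF U)) : False := by
  have h : ∀ n : ℕ, ∃ (k : ℕ) (x : Fin k → ℂ), (∀ i, x i ∈ FF U ∧ IsIntegral ℤ (x i)) ∧
      ∀ᶠ K : KK in (U : Filter KK), ¬ Sq n (K : IntermediateField ℚ ℂ) (∑ i, x i ^ 2) := by
    intro n
    induction n with
    | zero =>
      refine ⟨1, fun _ => 1, fun _ => ⟨one_mem _, isIntegral_one⟩, Eventually.of_forall fun K => ?_⟩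
      rintro ⟨g, _, hg⟩
      simp at hg
    | succ n ih =>
      exact claim_step U hPS hMB hCB hCLC hinf (n + 1) (by omega) (by simpa using ih)
  obtain ⟨k, x, hx, hxn⟩ := h 3
  obtain ⟨K, hK, hKx⟩ := (hxn.and (finite_eventually U (Set.finite_range x)
    (by rintro _ ⟨i, rfl⟩; exact (hx i).1))).exists
  exact hK (KK_pyth K.2 k _ ⟨x, fun i => ⟨hKx _ ⟨i, rfl⟩, (hx i).2⟩, rfl⟩)

/-- Case 1: the limit field is a number field. -/
lemma case_one (U : Ultrafilter KK) (hne : ∀ F : IntermediateField ℚ ℂ,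
      ∀ᶠ K : KK in (U : Filter KK), (K : IntermediateField ℚ ℂ) ≠ F)
    (hPS : SpecPS) (hMB : SpecMB) (hCB : SpecCB) (hCLC : SpecCLC)
    (hfin : FiniteDimensional ℚ (FF U)) : False := by
  classical
  -- eventually `FF U ≤ K`
  have hle : ∀ᶠ K : KK in (U : Filter KK), FF U ≤ (K : IntermediateField ℚ ℂ) := by
    set b := Module.finBasis ℚ (FF U) with hb
    have h1 := finite_eventually U (Set.finite_range fun i => ((b i : FF U) : ℂ))
      (by rintro _ ⟨i, rfl⟩; exact (b i).2)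
    filter_upwards [h1] with K hK z hz
    have h2 : z = ∑ i, (b.repr ⟨z, hz⟩ i) • ((b i : FF U) : ℂ) := by
      have h3 := congrArg (fun y : FF U => (y : ℂ)) (b.sum_repr ⟨z, hz⟩)
      refine h3.symm.trans ?_
      push_cast
      rfl
    rw [h2]
    exact sum_mem fun i _ => (K : IntermediateField ℚ ℂ).smul_mem (hK _ ⟨i, rfl⟩)
  -- the element which is not a sum of two squares
  obtain ⟨K0, hK0⟩ := hle.exists
  obtain ⟨N0, hN0, hK0N⟩ := KK_cyc K0.2
  have hK0fin : FiniteDimensional ℚ (K0 : IntermediateField ℚ ℂ) := by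
    have := hCB.2.2.2.1 N0 hN0
    exact FiniteDimensional.of_injective (IntermediateField.inclusion hK0N).toLinearMap
      (IntermediateField.inclusion_injective hK0N)
  have hFreal : ∀ φ : FF U →+* ℂ, ∀ x : FF U, (φ x).im = 0 :=
    totallyReal_of_le hK0 hK0fin K0.2.2.1
  have hNF : NumberField (FF U) := { to_charZero := inferInstance, to_finiteDimensional := hfin }
  obtain ⟨a, b, c, habc⟩ := exists_three_not_two hFreal
  set x : Fin 3 → ℂ := ![((a : FF U) : ℂ), ((b : FF U) : ℂ), ((c : FF U) : ℂ)] with hx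
  have hxmem : ∀ i, x i ∈ FF U ∧ IsIntegral ℤ (x i) := by
    intro i
    fin_cases i
    · exact ⟨(a : FF U).2, isIntegral_coe.mpr (NumberField.RingOfIntegers.isIntegral_coe a)⟩
    · exact ⟨(b : FF U).2, isIntegral_coe.mpr (NumberField.RingOfIntegers.isIntegral_coe b)⟩
    · exact ⟨(c : FF U).2, isIntegral_coe.mpr (NumberField.RingOfIntegers.isIntegral_coe c)⟩
  have hx2 : ∀ᶠ K : KK in (U : Filter KK), ¬ Sq (3 - 1) (K : IntermediateField ℚ ℂ) (∑ i, x i ^ 2) := by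
    filter_upwards [stab U hPS hMB (∑ i, M (x i)), hle] with K hKs hKF
    rintro ⟨g, hg, hgx⟩
    obtain ⟨N, hN, hKN⟩ := KK_cyc K.2
    have hsum : ∑ j, M (g j) = ∑ i, M (x i) := by
      rw [sum_M hMB hN hKN (KK_real K.2) g (fun j => (hg j).1),
        sum_M hMB hN hKN (KK_real K.2) x (fun i => hKF (hxmem i).1), ← hgx]
    have hgF : ∀ j, g j ∈ FF U := by
      intro j
      refine hKs _ (hg j).1 (hg j).2 ?_
      rw [← hsum]
      exact Finset.single_le_sum (f := fun j => M (g j))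
        (fun j _ => (hMB N hN).2.1 _ (hKN (hg j).1)) (Finset.mem_univ j)
    apply habc
    refine ⟨⟨⟨g 0, hgF 0⟩, isIntegral_coe.mp (hg 0).2⟩, ⟨⟨g 1, hgF 1⟩, isIntegral_coe.mp (hg 1).2⟩, ?_⟩
    apply NumberField.RingOfIntegers.ext
    apply Subtype.ext
    have h1 : (∑ i : Fin 3, x i ^ 2) = ∑ j : Fin 2, g j ^ 2 := hgx
    rw [Fin.sum_univ_three, Fin.sum_univ_two] at h1
    have h2 : ((a : FF U) : ℂ) ^ 2 + ((b : FF U) : ℂ) ^ 2 + ((c : FF U) : ℂ) ^ 2 =
        g 0 ^ 2 + g 1 ^ 2 := by simpa [hx] using h1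
    exact h2
  obtain ⟨C0, hC0⟩ := app U hPS hMB hCB hCLC 3 (by norm_num) 3 x hxmem hx2
  obtain ⟨K, hK, hKs, hKF, hKne⟩ := (hC0.and ((stab U hPS hMB C0).and (hle.and (hne (FF U))))).exists
  obtain ⟨N, hN, hKN⟩ := KK_cyc K.2
  -- an integer of `K` outside the limit field
  obtain ⟨w, hwK, hwi, hwF⟩ : ∃ w ∈ (K : IntermediateField ℚ ℂ), IsIntegral ℤ w ∧ w ∉ FF U := by
    by_contra hcon
    push Not at hcon
    apply hKne
    refine le_antisymm ?_ hKF
    intro z hz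
    have hzint : IsIntegral ℚ z := by
      have := hCB.2.2.2.1 N hN
      have h1 : IsIntegral ℚ (⟨z, hKN hz⟩ : Cyc N) := Algebra.IsIntegral.isIntegral _
      exact (isIntegral_algebraMap_iff (A := Cyc N) (B := ℂ) (algebraMap (Cyc N) ℂ).injective).mpr h1
    obtain ⟨d, hd, hdz⟩ := int_mul hzint
    exact mem_of_int_mul hd (hcon _ (mul_mem (intCast_mem _ d) hz) hdz)
  have hYfin : ({y : ℂ | y ∈ Cyc N ∧ IsIntegral ℤ y ∧ M y ≤ M w} ∩
      {y | y ∈ (K : IntermediateField ℚ ℂ) ∧ y ∉ FF U}).Finite :=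
    ((hMB N hN).2.2.2.2.2.1 (M w)).subset Set.inter_subset_left
  obtain ⟨a0, ⟨⟨ha0N, ha0i, ha0M⟩, ha0K, ha0F⟩, ha0min⟩ := Set.exists_min_image _ M hYfin
    ⟨w, ⟨⟨hKN hwK, hwi, le_rfl⟩, hwK, hwF⟩⟩
  have hC0a : C0 < M a0 := by
    by_contra hcon
    push Not at hcon
    exact ha0F (hKs a0 ha0K ha0i hcon)
  obtain ⟨k', y, hy, hyM, hyn⟩ := hK (FF U) hKF (M a0) hC0a (by
    intro y hy hyi hyF
    by_cases hyM : M y ≤ M w
    · exact ha0min y ⟨⟨hKN hy, hyi, hyM⟩, hy, hyF⟩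
    · push Not at hyM
      exact ha0M.trans hyM.le) ⟨a0, ha0K, ha0i, ha0F, rfl⟩
  exact hyn (KK_pyth K.2 k' _ ⟨y, hy, rfl⟩)

/-- The final theorem from the modules. -/
theorem specFIN (hPS : SpecPS) (hMB : SpecMB) (hCB : SpecCB) (hCLC : SpecCLC) : SpecFIN := by
  by_contra hinf
  have hinf' : KK.Infinite := hinf
  have : Infinite KK := hinf'.to_subtype
  set U : Ultrafilter KK := Filter.hyperfilter KK with hU
  have hne : ∀ F : IntermediateField ℚ ℂ,
      ∀ᶠ K : KK in (U : Filter KK), (K : IntermediateField ℚ ℂ) ≠ F := by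
    intro F
    have hf : {K : KK | (K : IntermediateField ℚ ℂ) = F}.Finite :=
      Set.Subsingleton.finite fun K hK K' hK' => Subtype.ext (hK.trans hK'.symm)
    exact hf.compl_mem_hyperfilter
  by_cases hfin : FiniteDimensional ℚ (FF U)
  · exact case_one U hne hPS hMB hCB hCLC hfin
  · exact case_two U hPS hMB hCB hCLC hfin

end Pool.Agent.Lib.MPcb8a44.AB.FinM
end

section
/-! # LH: linear algebra of relations (Theorem AB, MP_cb8a44_nt) -/
set_option autoImplicit false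

namespace Pool.Agent.Lib.MPcb8a44.AB.LHM

open Finset

/-- the relation vector of a quadruple -/
def rel {m : ℕ} (q : Fin m × Fin m × Fin m × Fin m) : Fin m → ℤ :=
  Pi.single q.1 1 + Pi.single q.2.1 1 - Pi.single q.2.2.1 1 - Pi.single q.2.2.2 1

/-- the lattice of relations -/
def lat {m : ℕ} (R : Finset (Fin m × Fin m × Fin m × Fin m)) : Submodule ℤ (Fin m → ℤ) :=
  Submodule.span ℤ (rel '' (R : Set (Fin m × Fin m × Fin m × Fin m)))

/-- vectors supported on `I0` -/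
def sup {m : ℕ} (I0 : Finset (Fin m)) : Submodule ℤ (Fin m → ℤ) where
  carrier := {v | ∀ a, a ∉ I0 → v a = 0}
  add_mem' := by
    intro u v hu hv a ha
    rw [Pi.add_apply, hu a ha, hv a ha, add_zero]
  zero_mem' := fun _ _ => rfl
  smul_mem' := by
    intro t v hv a ha
    rw [Pi.smul_apply, hv a ha, smul_zero]

/-- evaluation of integer vectors -/
def ev {m : ℕ} {A : Type} [AddCommGroup A] (i : Fin m → A) : (Fin m → ℤ) →ₗ[ℤ] A where
  toFun c := ∑ a, c a • i a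
  map_add' u v := by simp only [Pi.add_apply, add_smul, Finset.sum_add_distrib]
  map_smul' t v := by
    simp only [Pi.smul_apply, smul_eq_mul, mul_smul, Finset.smul_sum, RingHom.id_apply]

theorem ev_single {m : ℕ} {A : Type} [AddCommGroup A] (i : Fin m → A) (a : Fin m) :
    ev i (Pi.single a 1) = i a := by
  change ∑ b, (Pi.single a (1 : ℤ) : Fin m → ℤ) b • i b = i a
  rw [Finset.sum_eq_single a]
  · rw [Pi.single_eq_same, one_smul]
  · intro b _ hb
    rw [Pi.single_eq_of_ne hb, zero_smul]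
  · intro h
    exact absurd (mem_univ a) h

theorem ev_rel {m : ℕ} {A : Type} [AddCommGroup A] (i : Fin m → A)
    (q : Fin m × Fin m × Fin m × Fin m) :
    ev i (rel q) = i q.1 + i q.2.1 - i q.2.2.1 - i q.2.2.2 := by
  rw [rel, map_sub, map_sub, map_add, ev_single, ev_single, ev_single, ev_single]

theorem ev_lat {m : ℕ} {A : Type} [AddCommGroup A] (i : Fin m → A)
    (R : Finset (Fin m × Fin m × Fin m × Fin m))
    (hR : ∀ q ∈ R, i q.1 + i q.2.1 = i q.2.2.1 + i q.2.2.2) (v : Fin m → ℤ) (hv : v ∈ lat R) :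
    ev i v = 0 := by
  have h : lat R ≤ LinearMap.ker (ev i) := by
    rw [lat, Submodule.span_le]
    rintro _ ⟨q, hq, rfl⟩
    rw [SetLike.mem_coe, LinearMap.mem_ker, ev_rel, hR q hq]
    abel
  exact h hv

/-- generators of the relations supported on `I0` -/
theorem gens {m : ℕ} (R : Finset (Fin m × Fin m × Fin m × Fin m)) (I0 : Finset (Fin m)) :
    ∃ s : Finset (Fin m → ℤ), Submodule.span ℤ (s : Set (Fin m → ℤ)) = lat R ⊓ sup I0 :=
  IsNoetherian.noetherian (lat R ⊓ sup I0)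

theorem bound (m : ℕ) : ∃ H : ℕ, 0 < H ∧
    ∀ (R : Finset (Fin m × Fin m × Fin m × Fin m)) (I0 : Finset (Fin m)),
      ∃ s : Finset (Fin m → ℤ), Submodule.span ℤ (s : Set (Fin m → ℤ)) = lat R ⊓ sup I0 ∧
        ∀ c ∈ s, ∀ a, |c a| ≤ H := by
  choose s hs using fun (x : Finset (Fin m × Fin m × Fin m × Fin m) × Finset (Fin m)) =>
    gens x.1 x.2
  refine ⟨1 + ∑ x, ∑ c ∈ s x, ∑ a, (c a).natAbs, by omega, fun R I0 => ⟨s (R, I0), hs (R, I0), ?_⟩⟩
  intro c hc a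
  have h1 : (c a).natAbs ≤ ∑ a, (c a).natAbs :=
    Finset.single_le_sum (f := fun a => (c a).natAbs) (fun _ _ => Nat.zero_le _) (mem_univ a)
  have h2 : ∑ a, (c a).natAbs ≤ ∑ c ∈ s (R, I0), ∑ a, (c a).natAbs :=
    Finset.single_le_sum (f := fun c : Fin m → ℤ => ∑ a, (c a).natAbs)
      (fun _ _ => Nat.zero_le _) hc
  have h3 : ∑ c ∈ s (R, I0), ∑ a, (c a).natAbs ≤ ∑ x, ∑ c ∈ s x, ∑ a, (c a).natAbs :=
    Finset.single_le_sum (f := fun x => ∑ c ∈ s x, ∑ a, (c a).natAbs)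
      (fun _ _ => Nat.zero_le _) (mem_univ (R, I0))
  rw [Int.abs_eq_natAbs]
  exact_mod_cast (h1.trans (h2.trans h3)).trans (by omega)

/-- extension of a function on `I0` along the relations -/
theorem extend {m : ℕ} (R : Finset (Fin m × Fin m × Fin m × Fin m)) (I0 : Finset (Fin m))
    (η : Fin m → ℝ) (h : ∀ v ∈ lat R ⊓ sup I0, ev η v = 0) :
    ∃ δ : Fin m → ℝ, (∀ a ∈ I0, δ a = η a) ∧
      ∀ q ∈ R, δ q.1 + δ q.2.1 = δ q.2.2.1 + δ q.2.2.2 := by
  let φ : sup I0 →ₗ[ℤ] (Fin m → ℤ) ⧸ lat R := (lat R).mkQ.comp (sup I0).subtype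
  let E : sup I0 →ₗ[ℤ] ℝ := (ev η).comp (sup I0).subtype
  have hE : LinearMap.ker φ ≤ LinearMap.ker E := by
    intro v hv
    rw [LinearMap.mem_ker] at hv ⊢
    have h1 : (v : Fin m → ℤ) ∈ lat R := by
      have h2 : (lat R).mkQ (v : Fin m → ℤ) = 0 := hv
      rwa [Submodule.mkQ_apply, Submodule.Quotient.mk_eq_zero] at h2
    exact h _ ⟨h1, v.2⟩
  have hinj : Function.Injective ((LinearMap.ker φ).liftQ φ le_rfl) := by
    rw [← LinearMap.ker_eq_bot]
    exact Submodule.ker_liftQ_eq_bot _ _ _ le_rfl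
  obtain ⟨D, hD⟩ := (Module.Baer.of_divisible ℝ).extension_property
    ((LinearMap.ker φ).liftQ φ le_rfl) hinj ((LinearMap.ker φ).liftQ E hE)
  have hD' : ∀ v : sup I0, D ((lat R).mkQ (v : Fin m → ℤ)) = ev η v := by
    intro v
    have h1 := LinearMap.congr_fun hD ((LinearMap.ker φ).mkQ v)
    rw [LinearMap.comp_apply, Submodule.mkQ_apply, Submodule.liftQ_apply, Submodule.liftQ_apply]
      at h1
    exact h1
  refine ⟨fun a => D ((lat R).mkQ (Pi.single a 1)), fun a ha => ?_, fun q hq => ?_⟩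
  · have hv : (Pi.single a 1 : Fin m → ℤ) ∈ sup I0 := by
      intro b hb
      rw [Pi.single_eq_of_ne]
      rintro rfl
      exact hb ha
    have h1 := hD' ⟨_, hv⟩
    rw [ev_single] at h1
    exact h1
  · have h1 : D ((lat R).mkQ (rel q)) = 0 := by
      have h2 : (lat R).mkQ (rel q) = 0 := by
        rw [Submodule.mkQ_apply, Submodule.Quotient.mk_eq_zero]
        exact Submodule.subset_span ⟨q, hq, rfl⟩
      rw [h2, map_zero]
    rw [rel] at h1
    simp only [map_sub, map_add] at h1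
    dsimp only
    linarith

end Pool.Agent.Lib.MPcb8a44.AB.LHM

namespace Pool.Agent.Lib.MPcb8a44.AB

open LHM

theorem specLH : SpecLH := by
  intro m
  obtain ⟨H, hH, hb⟩ := bound m
  refine ⟨H, 1, hH, one_pos, ?_⟩
  intro Q _ i I0 η hη
  classical
  let R : Finset (Fin m × Fin m × Fin m × Fin m) :=
    Finset.univ.filter fun q => i q.1 + i q.2.1 = i q.2.2.1 + i q.2.2.2
  have hR : ∀ q ∈ R, i q.1 + i q.2.1 = i q.2.2.1 + i q.2.2.2 := fun q hq =>
    (Finset.mem_filter.1 hq).2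
  obtain ⟨s, hs, hsH⟩ := hb R I0
  have key : ∀ v ∈ lat R ⊓ sup I0, ev η v = 0 := by
    have h1 : lat R ⊓ sup I0 ≤ LinearMap.ker (ev η) := by
      rw [← hs, Submodule.span_le]
      intro c hc
      have hc' : c ∈ lat R ⊓ sup I0 := by
        rw [← hs]
        exact Submodule.subset_span hc
      rw [SetLike.mem_coe, LinearMap.mem_ker]
      have h2 := hη c (hsH c hc) hc'.2 (by
        have h3 := ev_lat i R hR c hc'.1
        change ((1 : ℕ) : ℤ) • ev i c = 0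
        rw [h3, smul_zero])
      change ∑ a, c a • η a = 0
      rw [← h2]
      exact Finset.sum_congr rfl fun a _ => zsmul_eq_mul _ _
    exact fun v hv => h1 hv
  obtain ⟨δ, h1, h2⟩ := extend R I0 η key
  refine ⟨δ, h1, fun a b a' b' hab => ?_⟩
  exact h2 (a, b, a', b') (Finset.mem_filter.2 ⟨Finset.mem_univ _, hab⟩)

end Pool.Agent.Lib.MPcb8a44.AB
end

section
set_option autoImplicit false

namespace Pool.Agent.Lib.MPcb8a44.AB.LevM

open Pool.Agent.Lib.MPcb8a44.AB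
open scoped BigOperators ComplexConjugate

/-! ### Averaging over a finite group of automorphisms -/

section Avg

variable {L : Type} [Field L] [Algebra ℚ L] (H : Subgroup (L ≃ₐ[ℚ] L)) [Fintype H]

/-- The average over `H`. -/
noncomputable def avg : L →+ L where
  toFun x := ((Fintype.card H : ℚ)⁻¹ : ℚ) • ∑ σ : H, (σ : L ≃ₐ[ℚ] L) x
  map_zero' := by simp
  map_add' x y := by
    simp only [map_add, Finset.sum_add_distrib]
    rw [Algebra.smul_def, Algebra.smul_def, Algebra.smul_def, mul_add]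

theorem avg_apply (x : L) :
    avg H x = ((Fintype.card H : ℚ)⁻¹ : ℚ) • ∑ σ : H, (σ : L ≃ₐ[ℚ] L) x := rfl

theorem card_ne : (Fintype.card H : ℚ) ≠ 0 := by
  exact_mod_cast Fintype.card_ne_zero

theorem avg_fix {x : L} (h : ∀ σ ∈ H, σ x = x) : avg H x = x := by
  rw [avg_apply]
  have : ∑ σ : H, (σ : L ≃ₐ[ℚ] L) x = ∑ _σ : H, x :=
    Finset.sum_congr rfl (fun σ _ => h σ σ.2)
  rw [this, Finset.sum_const, Finset.card_univ, ← Nat.cast_smul_eq_nsmul ℚ, smul_smul,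
    inv_mul_cancel₀ (card_ne H), one_smul]

theorem avg_comp {τ : L ≃ₐ[ℚ] L} (h : τ ∈ H) (x : L) : avg H (τ x) = avg H x := by
  rw [avg_apply, avg_apply]
  congr 1
  exact Fintype.sum_equiv (Equiv.mulRight (⟨τ, h⟩ : H)) _ _ (fun σ => by simp)

theorem fix_avg {τ : L ≃ₐ[ℚ] L} (h : τ ∈ H) (x : L) : τ (avg H x) = avg H x := by
  rw [avg_apply, map_smul, map_sum]
  congr 1
  exact Fintype.sum_equiv (Equiv.mulLeft (⟨τ, h⟩ : H)) _ _ (fun σ => by simp)

theorem avg_eq_iff {x : L} : avg H x = x ↔ ∀ σ ∈ H, σ x = x :=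
  ⟨fun h σ hσ => by rw [← h]; exact fix_avg H hσ x, avg_fix H⟩

theorem avg_lin {x : L} (h : ∀ σ ∈ H, σ x = x) (y : L) : avg H (x * y) = x * avg H y := by
  rw [avg_apply, avg_apply, mul_smul_comm, Finset.mul_sum]
  congr 1
  exact Finset.sum_congr rfl (fun σ _ => by rw [map_mul, h σ σ.2])

theorem avg_comm {τ : L →+* L} (h : ∀ σ ∈ H, ∀ x, σ (τ x) = τ (σ x)) (x : L) :
    avg H (τ x) = τ (avg H x) := by
  rw [avg_apply, avg_apply, map_rat_smul, map_sum]
  congr 1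
  exact Finset.sum_congr rfl (fun σ _ => h σ σ.2 x)

theorem avg_stab (F : Subfield L) (h : ∀ σ ∈ H, ∀ x ∈ F, σ x ∈ F) {x : L} (hx : x ∈ F) :
    avg H x ∈ F := by
  rw [avg_apply, Algebra.smul_def, map_inv₀, map_natCast]
  exact F.mul_mem (F.inv_mem (natCast_mem F _)) (sum_mem (fun σ _ => h σ σ.2 x hx))

theorem avg_avg (H' : Subgroup (L ≃ₐ[ℚ] L)) [Fintype H'] (hle : H' ≤ H) (x : L) :
    avg H (avg H' x) = avg H x := by
  rw [avg_apply H', map_rat_smul, map_sum]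
  have : ∑ σ : H', avg H ((σ : L ≃ₐ[ℚ] L) x) = ∑ _σ : H', avg H x :=
    Finset.sum_congr rfl (fun σ _ => avg_comp H (hle σ.2) x)
  rw [this, Finset.sum_const, Finset.card_univ, ← Nat.cast_smul_eq_nsmul ℚ, smul_smul,
    inv_mul_cancel₀ (card_ne H'), one_smul]

theorem avg_avg' (H' : Subgroup (L ≃ₐ[ℚ] L)) [Fintype H'] (hle : H' ≤ H) (x : L) :
    avg H' (avg H x) = avg H x :=
  avg_fix H' (fun _ hσ => fix_avg H (hle hσ) x)

theorem avg_neg {τ : L ≃ₐ[ℚ] L} (h : τ ∈ H) {x : L} (hx : τ x = -x) : avg H x = 0 := by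
  have h1 := avg_comp H h x
  rw [hx, map_neg] at h1
  have h2 : (2 : ℚ) • avg H x = 0 := by
    rw [two_smul]; nth_rewrite 1 [← h1]; simp
  exact (smul_eq_zero.mp h2).resolve_left two_ne_zero

theorem avg_tr (tr : L →+ ℝ) (h : ∀ σ ∈ H, ∀ x, tr (σ x) = tr x) (x : L) : tr (avg H x) = tr x := by
  rw [avg_apply, map_rat_smul, map_sum]
  have : ∑ σ : H, tr ((σ : L ≃ₐ[ℚ] L) x) = ∑ _σ : H, tr x :=
    Finset.sum_congr rfl (fun σ _ => h σ σ.2 x)
  rw [this, Finset.sum_const, Finset.card_univ, ← Nat.cast_smul_eq_nsmul ℚ, smul_smul,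
    inv_mul_cancel₀ (card_ne H), one_smul]

end Avg

/-! ### Arithmetic of roots of unity -/

theorem two_pow_mul_pos {m N' : ℕ} (hN : Odd N') : 0 < 2 ^ m * N' :=
  Nat.mul_pos (by positivity) hN.pos

/-- Even/odd splitting of a power of `ζ_{2^v N'}`. -/
theorem split_pow (hCB : SpecCB) {v N' : ℕ} (hv : 2 ≤ v) (hN : Odd N') (j : ℕ) :
    (∃ i : ℕ, ze (2 ^ v * N') ^ j = ze (2 ^ (v - 1) * N') ^ i) ∨
    (∃ i : ℕ, ze (2 ^ v * N') ^ j = ze (2 ^ (v - 1) * N') ^ i * ze (2 ^ v)) := by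
  obtain ⟨hprim, hdvd, -⟩ := hCB
  have hpos : 0 < 2 ^ v * N' := two_pow_mul_pos hN
  have hprim := hprim _ hpos
  have h1 : ze (2 ^ (v - 1) * N') = ze (2 ^ v * N') ^ 2 := by
    have e : 2 ^ v * N' = (2 ^ (v - 1) * N') * 2 := by
      obtain ⟨w, rfl⟩ : ∃ w, v = w + 1 := ⟨v - 1, by omega⟩
      simp [pow_succ]; ring
    have := hdvd (2 ^ (v - 1) * N') (2 ^ v * N') hpos ⟨2, e⟩
    rw [this]; congr 1
    rw [e]; exact Nat.mul_div_cancel_left 2 (two_pow_mul_pos hN)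
  have h2 : ze (2 ^ v) = ze (2 ^ v * N') ^ N' := by
    have := hdvd (2 ^ v) (2 ^ v * N') hpos ⟨N', rfl⟩
    rw [this]; congr 1
    exact Nat.mul_div_cancel_left N' (by positivity)
  rcases Nat.even_or_odd j with ⟨i, hi⟩ | hj
  · left; exact ⟨i, by rw [h1, ← pow_mul, hi]; congr 1; ring⟩
  · right
    -- j + 2^v N' * N' - N' is even
    have hbig : N' ≤ j + (2 ^ v * N') * N' := by nlinarith [hN.pos, Nat.one_le_two_pow (n := v)]
    have hev : Even (j + (2 ^ v * N') * N' - N') := by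
      rw [Nat.even_sub hbig]
      have h3 : Odd (j + (2 ^ v * N') * N') := by
        apply Odd.add_even hj
        have : Even (2 ^ v) := (Nat.even_pow.mpr ⟨even_two, by omega⟩)
        exact (this.mul_right _).mul_right _
      constructor
      · intro h; exact absurd h (Nat.not_even_iff_odd.mpr h3)
      · intro h; exact absurd h (Nat.not_even_iff_odd.mpr hN)
    obtain ⟨i, hi⟩ := hev
    refine ⟨i, ?_⟩
    rw [h1, h2, ← pow_mul, ← pow_add]
    have e : 2 * i + N' = j + (2 ^ v * N') * N' := by omega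
    rw [e, pow_add, pow_mul, hprim.pow_eq_one, one_pow, mul_one]

theorem ze_mem (N : ℕ) : ze N ∈ Cyc N :=
  IntermediateField.subset_adjoin ℚ {ze N} (Set.mem_singleton _)

theorem ze_int (hCB : SpecCB) {N : ℕ} (hN : 0 < N) : IsIntegral ℤ (ze N) :=
  (hCB.1 N hN).isIntegral hN

/-- Decomposition of integers of `ℚ(ζ_{2^v N'})`. -/
theorem decomp_int (hCB : SpecCB) (hINT : SpecINT) {v N' : ℕ} (hv : 2 ≤ v) (hN : Odd N') {x : ℂ}
    (hx : x ∈ Cyc (2 ^ v * N')) (hi : IsIntegral ℤ x) :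
    ∃ y z : ℂ, y ∈ Cyc (2 ^ (v - 1) * N') ∧ IsIntegral ℤ y ∧ z ∈ Cyc (2 ^ (v - 1) * N') ∧
      x = y + z * ze (2 ^ v) := by
  obtain ⟨a, ha⟩ := hINT _ (two_pow_mul_pos hN) x hx hi
  have key : ∀ n : ℕ, ∃ y z : ℂ, y ∈ Cyc (2 ^ (v - 1) * N') ∧ IsIntegral ℤ y ∧
      z ∈ Cyc (2 ^ (v - 1) * N') ∧
      ∑ j ∈ Finset.range n, (a j : ℂ) * ze (2 ^ v * N') ^ j = y + z * ze (2 ^ v) := by
    intro n
    induction n with
    | zero => exact ⟨0, 0, zero_mem _, isIntegral_zero, zero_mem _, by simp⟩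
    | succ n ih =>
      obtain ⟨y, z, hy, hyi, hz, he⟩ := ih
      rw [Finset.sum_range_succ, he]
      have hmem : ∀ i, (a n : ℂ) * ze (2 ^ (v - 1) * N') ^ i ∈ Cyc (2 ^ (v - 1) * N') := fun i =>
        mul_mem (intCast_mem _ _) (pow_mem (ze_mem _) i)
      have hint : ∀ i, IsIntegral ℤ ((a n : ℂ) * ze (2 ^ (v - 1) * N') ^ i) := fun i => by
        have h1 : IsIntegral ℤ ((a n : ℤ) : ℂ) := by
          have := isIntegral_algebraMap (R := ℤ) (A := ℂ) (x := a n)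
          simpa using this
        exact h1.mul ((ze_int hCB (two_pow_mul_pos hN)).pow i)
      rcases split_pow hCB hv hN n with ⟨i, hi⟩ | ⟨i, hi⟩
      · exact ⟨y + (a n : ℂ) * ze (2 ^ (v - 1) * N') ^ i, z, add_mem hy (hmem i), hyi.add (hint i),
          hz, by rw [hi]; ring⟩
      · exact ⟨y, z + (a n : ℂ) * ze (2 ^ (v - 1) * N') ^ i, hy, hyi, add_mem hz (hmem i),
          by rw [hi]; ring⟩
  obtain ⟨y, z, hy, hyi, hz, he⟩ := key (2 ^ v * N')
  exact ⟨y, z, hy, hyi, hz, by rw [ha, he]⟩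

/-- Decomposition of `ℚ(ζ_{2^v N'})`. -/
theorem decomp (hCB : SpecCB) (hINT : SpecINT) {v N' : ℕ} (hv : 2 ≤ v) (hN : Odd N') {x : ℂ}
    (hx : x ∈ Cyc (2 ^ v * N')) :
    ∃ y z : ℂ, y ∈ Cyc (2 ^ (v - 1) * N') ∧ (IsIntegral ℤ x → IsIntegral ℤ y) ∧
      z ∈ Cyc (2 ^ (v - 1) * N') ∧ x = y + z * ze (2 ^ v) := by
  by_cases hi : IsIntegral ℤ x
  · obtain ⟨y, z, hy, hyi, hz, he⟩ := decomp_int hCB hINT hv hN hx hi
    exact ⟨y, z, hy, fun _ => hyi, hz, he⟩
  · have hfd : FiniteDimensional ℚ (Cyc (2 ^ v * N')) := hCB.2.2.2.1 _ (two_pow_mul_pos hN)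
    have halg : IsAlgebraic ℚ x := by
      have h1 : IsAlgebraic ℚ (⟨x, hx⟩ : Cyc (2 ^ v * N')) := Algebra.IsAlgebraic.isAlgebraic _
      exact (isAlgebraic_algebraMap_iff (A := ℂ) (RingHom.injective _)).mpr h1
    have halg' : IsAlgebraic ℤ x := (IsFractionRing.isAlgebraic_iff ℤ ℚ ℂ).mpr halg
    obtain ⟨d, hd, hdx⟩ := halg'.exists_integral_multiple
    have hd' : ((d : ℤ) : ℂ) ≠ 0 := by exact_mod_cast hd
    have hdx' : IsIntegral ℤ ((d : ℂ) * x) := by
      have : d • x = (d : ℂ) * x := by simp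
      rwa [this] at hdx
    obtain ⟨y, z, hy, -, hz, he⟩ := decomp_int hCB hINT hv hN (mul_mem (intCast_mem _ d) hx) hdx'
    refine ⟨(d : ℂ)⁻¹ * y, (d : ℂ)⁻¹ * z, mul_mem (inv_mem (intCast_mem _ d)) hy,
      fun h => absurd h hi, mul_mem (inv_mem (intCast_mem _ d)) hz, ?_⟩
    have : x = (d : ℂ)⁻¹ * ((d : ℂ) * x) := by rw [← mul_assoc, inv_mul_cancel₀ hd', one_mul]
    rw [this, he]; ring

/-- Frobenius congruence. -/
theorem frob_aux (w : ℂ) (hw : IsIntegral ℤ w) (a : ℕ → ℤ) (n : ℕ) :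
    ∃ y : ℂ, IsIntegral ℤ y ∧ IsIntegral ℤ (∑ j ∈ Finset.range n, (a j : ℂ) * w ^ j) ∧
      (∑ j ∈ Finset.range n, (a j : ℂ) * w ^ j) ^ 2 -
        ∑ j ∈ Finset.range n, (a j : ℂ) * (-w ^ 2) ^ j = 2 * y := by
  have hZ : ∀ c : ℤ, IsIntegral ℤ ((c : ℤ) : ℂ) := fun c => by
    have := isIntegral_algebraMap (R := ℤ) (A := ℂ) (x := c)
    simpa using this
  induction n with
  | zero => exact ⟨0, isIntegral_zero, by simpa using isIntegral_zero, by simp⟩
  | succ n ih =>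
    obtain ⟨y, hy, hA, he⟩ := ih
    set A := ∑ j ∈ Finset.range n, (a j : ℂ) * w ^ j with hAdef
    set B := ∑ j ∈ Finset.range n, (a j : ℂ) * (-w ^ 2) ^ j with hBdef
    have hev : Even (a n ^ 2 - (-1) ^ n * a n) := by
      rw [Int.even_sub, Int.even_pow, Int.even_mul]
      constructor
      · intro h; right; exact h.1
      · rintro (h | h)
        · exact absurd h (by rw [Int.not_even_iff_odd]; exact Odd.pow (by decide))
        · exact ⟨h, two_ne_zero⟩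
    obtain ⟨c, hc⟩ := hev
    refine ⟨y + A * ((a n : ℂ) * w ^ n) + (c : ℂ) * (w ^ 2) ^ n, ?_, ?_, ?_⟩
    · exact (hy.add (hA.mul ((hZ _).mul (hw.pow n)))).add ((hZ c).mul ((hw.pow 2).pow n))
    · rw [Finset.sum_range_succ]; exact hA.add ((hZ _).mul (hw.pow n))
    · rw [Finset.sum_range_succ, Finset.sum_range_succ, ← hAdef, ← hBdef]
      have h1 : (-w ^ 2) ^ n = (-1) ^ n * (w ^ 2) ^ n := by rw [← mul_pow]; congr 1; ring
      have h2 : (w ^ n) ^ 2 = (w ^ 2) ^ n := by rw [← pow_mul, ← pow_mul, mul_comm]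
      have h3 : ((a n : ℂ) ^ 2 - (-1) ^ n * (a n : ℂ)) = (c : ℂ) + c := by exact_mod_cast hc
      have h4 : ((a n : ℂ) ^ 2) = (-1) ^ n * (a n : ℂ) + (c : ℂ) + c := by linear_combination h3
      calc (A + (a n : ℂ) * w ^ n) ^ 2 - (B + (a n : ℂ) * (-w ^ 2) ^ n)
          = (A ^ 2 - B) + 2 * (A * ((a n : ℂ) * w ^ n)) + ((a n : ℂ) ^ 2 * (w ^ n) ^ 2 -
              (a n : ℂ) * (-w ^ 2) ^ n) := by ring
        _ = 2 * y + 2 * (A * ((a n : ℂ) * w ^ n)) + ((a n : ℂ) ^ 2 * (w ^ 2) ^ n -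
              (a n : ℂ) * ((-1) ^ n * (w ^ 2) ^ n)) := by rw [he, h1, h2]
        _ = _ := by rw [h4]; ring

/-! ### The Galois action -/

theorem act_dvd (hCB : SpecCB) {N d s : ℕ} (hN : 0 < N) (hd : d ∣ N) (σ : Cyc N ≃ₐ[ℚ] Cyc N)
    (hs : ∀ x : Cyc N, (x : ℂ) = ze N → ((σ x : Cyc N) : ℂ) = ze N ^ s) (x : Cyc N)
    (hx : (x : ℂ) = ze d) : ((σ x : Cyc N) : ℂ) = ze d ^ s := by
  set z : Cyc N := ⟨ze N, ze_mem N⟩ with hz
  have h1 : x = z ^ (N / d) := by
    apply Subtype.ext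
    rw [hx, hCB.2.1 d N hN hd]; simp [hz]
  rw [h1, map_pow]
  have h2 : ((σ z : Cyc N) : ℂ) = ze N ^ s := hs z rfl
  rw [SubmonoidClass.coe_pow, h2, hCB.2.1 d N hN hd, ← pow_mul, ← pow_mul, mul_comm]

theorem act_fix (hCB : SpecCB) {N d s : ℕ} (hN : 0 < N) (hd : d ∣ N) (σ : Cyc N ≃ₐ[ℚ] Cyc N)
    (hs : ∀ x : Cyc N, (x : ℂ) = ze N → ((σ x : Cyc N) : ℂ) = ze N ^ s) {k : ℕ} (hk : s = 1 + d * k)
    (x : Cyc N) (hx : (x : ℂ) ∈ Cyc d) : σ x = x := by
  have hdpos : 0 < d := Nat.pos_of_dvd_of_pos hd hN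
  have hle : Cyc d ≤ Cyc N := hCB.2.2.1 d N hN hd
  have hmem : ze d ∈ IntermediateField.lift (IntermediateField.fixedField (Subgroup.zpowers σ)) := by
    have h1 : (⟨ze d, hle (ze_mem d)⟩ : Cyc N) ∈ IntermediateField.fixedField (Subgroup.zpowers σ) := by
      rw [IntermediateField.mem_fixedField_iff]
      have h2 : σ (⟨ze d, hle (ze_mem d)⟩ : Cyc N) = ⟨ze d, hle (ze_mem d)⟩ := by
        apply Subtype.ext
        rw [act_dvd hCB hN hd σ hs _ rfl, hk, pow_add, pow_one, pow_mul,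
          (hCB.1 d hdpos).pow_eq_one, one_pow, mul_one]
      rintro f ⟨n, rfl⟩
      have h3 : σ ∈ MulAction.stabilizer (Cyc N ≃ₐ[ℚ] Cyc N) (⟨ze d, hle (ze_mem d)⟩ : Cyc N) := h2
      exact (Subgroup.zpow_mem _ h3 n : σ ^ n ∈ MulAction.stabilizer (Cyc N ≃ₐ[ℚ] Cyc N) _)
    exact (IntermediateField.mem_lift (⟨ze d, hle (ze_mem d)⟩ : Cyc N)).mpr h1
  have hle2 : Cyc d ≤ IntermediateField.lift (IntermediateField.fixedField (Subgroup.zpowers σ)) := by
    unfold Cyc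
    rw [IntermediateField.adjoin_le_iff, Set.singleton_subset_iff]
    exact hmem
  have h4 : x ∈ IntermediateField.fixedField (Subgroup.zpowers σ) :=
    (IntermediateField.mem_lift x).mp (hle2 hx)
  rw [IntermediateField.mem_fixedField_iff] at h4
  exact h4 σ (Subgroup.mem_zpowers σ)

/-- The group fixing level `v`. -/
def Hs (m N' v : ℕ) : Subgroup (Cyc (2 ^ m * N') ≃ₐ[ℚ] Cyc (2 ^ m * N')) where
  carrier := {σ | ∀ x : Cyc (2 ^ m * N'), (x : ℂ) ∈ Cyc (2 ^ v * N') → σ x = x}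
  mul_mem' := fun {a b} ha hb x hx => by
    show a (b x) = x
    rw [hb x hx, ha x hx]
  one_mem' := fun x _ => rfl
  inv_mem' := fun {a} ha x hx => by
    have := ha x hx
    show a.symm x = x
    rw [AlgEquiv.symm_apply_eq]; exact this.symm

theorem mem_Hs {m N' v : ℕ} {σ : Cyc (2 ^ m * N') ≃ₐ[ℚ] Cyc (2 ^ m * N')} :
    σ ∈ Hs m N' v ↔ ∀ x : Cyc (2 ^ m * N'), (x : ℂ) ∈ Cyc (2 ^ v * N') → σ x = x := Iff.rfl

theorem Hs_anti (hCB : SpecCB) {m N' v w : ℕ} (hN : Odd N') (h : v ≤ w) : Hs m N' w ≤ Hs m N' v := by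
  intro σ hσ x hx
  refine hσ x (hCB.2.2.1 _ _ (two_pow_mul_pos hN) (Nat.mul_dvd_mul_right (pow_dvd_pow 2 h) _) hx)

section Frame

variable {m N' : ℕ} [FiniteDimensional ℚ (Cyc (2 ^ m * N'))]

noncomputable instance (v : ℕ) : Fintype (Hs m N' v) := Fintype.ofFinite _

variable (m N') in
/-- The projection to level at most `v`. -/
noncomputable def Pd (v : ℕ) : Cyc (2 ^ m * N') →+ Cyc (2 ^ m * N') :=
  if v = 0 then 0 else avg (Hs m N' v)

theorem Pd_zero (x : Cyc (2 ^ m * N')) : Pd m N' 0 x = 0 := by simp [Pd]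

theorem Pd_pos {v : ℕ} (hv : 1 ≤ v) : Pd m N' v = avg (Hs m N' v) := by
  unfold Pd; rw [if_neg (by omega)]

theorem Pd_iff {v : ℕ} (hv : 1 ≤ v) (x : Cyc (2 ^ m * N')) :
    Pd m N' v x = x ↔ ∀ σ ∈ Hs m N' v, σ x = x := by
  rw [Pd_pos hv]; exact avg_eq_iff _

omit [FiniteDimensional ℚ (Cyc (2 ^ m * N'))] in
/-- The automorphism `ζ ↦ ζ^(1 + 2^(v-1) N')`. -/
theorem exists_half (hCB : SpecCB) (hGAL : SpecGAL) {v : ℕ} (hv : 2 ≤ v) (hvm : v ≤ m) (hN : Odd N') :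
    ∃ τ : Cyc (2 ^ m * N') ≃ₐ[ℚ] Cyc (2 ^ m * N'), τ ∈ Hs m N' (v - 1) ∧
      ∀ E : Cyc (2 ^ m * N'), (E : ℂ) = ze (2 ^ v) → τ E = -E := by
  have hpos : 0 < 2 ^ m * N' := two_pow_mul_pos hN
  have hcop : (1 + 2 ^ (v - 1) * N').Coprime (2 ^ m * N') := by
    apply Nat.Coprime.mul_right
    · apply Nat.Coprime.pow_right
      rw [Nat.coprime_two_right]
      apply Odd.add_even odd_one
      exact (Nat.even_pow.mpr ⟨even_two, by omega⟩).mul_right _
    · simp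
  obtain ⟨τ, hτ⟩ := (hGAL _ hpos).2.2.1 _ hcop
  refine ⟨τ, ?_, ?_⟩
  · intro x hx
    exact act_fix hCB hpos (Nat.mul_dvd_mul_right (pow_dvd_pow 2 (by omega)) _) τ hτ
      (k := 1) (by ring) x hx
  · intro E hE
    apply Subtype.ext
    have hd : 2 ^ v ∣ 2 ^ m * N' := (pow_dvd_pow 2 hvm).mul_right _
    rw [act_dvd hCB hpos hd τ hτ E hE, pow_add, pow_one, pow_mul]
    have hprim := hCB.1 (2 ^ v) (by positivity)
    have h1 : ze (2 ^ v) ^ 2 ^ (v - 1) = -1 := by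
      have e : 2 ^ v = 2 ^ (v - 1) * 2 := by
        obtain ⟨w, rfl⟩ : ∃ w, v = w + 1 := ⟨v - 1, by omega⟩
        simp [pow_succ]
      have h2 : IsPrimitiveRoot (ze (2 ^ v) ^ 2 ^ (v - 1)) 2 :=
        hprim.pow (by positivity) e
      exact h2.eq_neg_one_of_two_right
    rw [h1, hN.neg_one_pow]
    simp [hE]

/-- One step down. -/
theorem one_step (hCB : SpecCB) (hGAL : SpecGAL) (hINT : SpecINT) {v : ℕ} (hv : 2 ≤ v) (hvm : v ≤ m)
    (hN : Odd N') (x : Cyc (2 ^ m * N')) (hx : (x : ℂ) ∈ Cyc (2 ^ v * N')) :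
    ∃ Z : Cyc (2 ^ m * N'), ((Pd m N' (v - 1) x : Cyc (2 ^ m * N')) : ℂ) ∈ Cyc (2 ^ (v - 1) * N') ∧
      (IsIntegral ℤ (x : ℂ) → IsIntegral ℤ ((Pd m N' (v - 1) x : Cyc (2 ^ m * N')) : ℂ)) ∧
      (Z : ℂ) ∈ Cyc (2 ^ (v - 1) * N') ∧
      (x : ℂ) = (Pd m N' (v - 1) x : Cyc (2 ^ m * N')) + Z * ze (2 ^ v) := by
  have hpos : 0 < 2 ^ m * N' := two_pow_mul_pos hN
  obtain ⟨y, z, hy, hyi, hz, he⟩ := decomp hCB hINT hv hN hx
  have hle : Cyc (2 ^ (v - 1) * N') ≤ Cyc (2 ^ m * N') :=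
    hCB.2.2.1 _ _ hpos (Nat.mul_dvd_mul_right (pow_dvd_pow 2 (by omega)) _)
  have hle2 : Cyc (2 ^ v) ≤ Cyc (2 ^ m * N') :=
    hCB.2.2.1 _ _ hpos ((pow_dvd_pow 2 hvm).mul_right _)
  obtain ⟨τ, hτ1, hτ2⟩ := exists_half hCB hGAL hv hvm hN
  set Y : Cyc (2 ^ m * N') := ⟨y, hle hy⟩ with hY
  set Z : Cyc (2 ^ m * N') := ⟨z, hle hz⟩ with hZ
  set E : Cyc (2 ^ m * N') := ⟨ze (2 ^ v), hle2 (ze_mem _)⟩ with hE
  have hx' : x = Y + Z * E := Subtype.ext he
  have hYf : ∀ σ ∈ Hs m N' (v - 1), σ Y = Y := fun σ hσ => hσ Y hy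
  have hZf : ∀ σ ∈ Hs m N' (v - 1), σ Z = Z := fun σ hσ => hσ Z hz
  have hP : Pd m N' (v - 1) x = Y := by
    rw [Pd_pos (by omega), hx', map_add, avg_lin _ hZf, avg_neg _ hτ1 (hτ2 E rfl), mul_zero, add_zero]
    exact avg_fix _ hYf
  refine ⟨Z, ?_, ?_, hz, ?_⟩
  · rw [hP]; exact hy
  · rw [hP]; exact hyi
  · rw [hP]; exact he

theorem Pd_Pd (hCB : SpecCB) (hN : Odd N') (v w : ℕ) (x : Cyc (2 ^ m * N')) :
    Pd m N' v (Pd m N' w x) = Pd m N' (min v w) x := by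
  rcases Nat.eq_zero_or_pos v with rfl | hv
  · rw [Nat.zero_min, Pd_zero, Pd_zero]
  rcases Nat.eq_zero_or_pos w with rfl | hw
  · rw [Nat.min_zero, Pd_zero, map_zero]
  rcases le_total v w with h | h
  · rw [min_eq_left h, Pd_pos hv, Pd_pos hw]
    exact avg_avg _ _ (Hs_anti hCB hN h) x
  · rw [min_eq_right h, Pd_pos hv, Pd_pos hw]
    exact avg_avg' _ _ (Hs_anti hCB hN h) x

theorem Pd_mem (hCB : SpecCB) (hGAL : SpecGAL) (hINT : SpecINT) (hN : Odd N') (k : ℕ) :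
    ∀ v, 1 ≤ v → v + k = m → ∀ x : Cyc (2 ^ m * N'),
      ((Pd m N' v x : Cyc (2 ^ m * N')) : ℂ) ∈ Cyc (2 ^ v * N') ∧
      (IsIntegral ℤ (x : ℂ) → IsIntegral ℤ ((Pd m N' v x : Cyc (2 ^ m * N')) : ℂ)) := by
  induction k with
  | zero =>
    intro v hv hk x
    have hvm : v = m := by omega
    subst hvm
    have h1 : Pd v N' v x = x := by
      rw [Pd_iff hv]; intro σ hσ; exact hσ x x.2
    rw [h1]
    exact ⟨x.2, fun h => h⟩
  | succ k ih =>
    intro v hv hk x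
    obtain ⟨h1, h2⟩ := ih (v + 1) (by omega) (by omega) x
    obtain ⟨Z, h3, h4, -, -⟩ := one_step hCB hGAL hINT (v := v + 1) (by omega) (by omega) hN
      (Pd m N' (v + 1) x) h1
    simp only [Nat.add_sub_cancel] at h3 h4
    rw [Pd_Pd hCB hN, min_eq_left (by omega : v ≤ v + 1)] at h3 h4
    exact ⟨h3, fun h => h4 (h2 h)⟩

theorem Pd_top (hCB : SpecCB) (hm : 1 ≤ m) (hN : Odd N') {v : ℕ} (hv : m ≤ v) (x : Cyc (2 ^ m * N')) :
    Pd m N' v x = x := by
  rw [Pd_iff (by omega)]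
  intro σ hσ
  exact hσ x (hCB.2.2.1 _ _ (two_pow_mul_pos hN) (Nat.mul_dvd_mul_right (pow_dvd_pow 2 hv) _) x.2)

theorem Pd_iff_mem (hCB : SpecCB) (hGAL : SpecGAL) (hINT : SpecINT) (hN : Odd N') {v : ℕ} (hv : 1 ≤ v)
    (hvm : v ≤ m) (x : Cyc (2 ^ m * N')) : Pd m N' v x = x ↔ (x : ℂ) ∈ Cyc (2 ^ v * N') := by
  constructor
  · intro h
    have := (Pd_mem hCB hGAL hINT hN (m - v) v hv (by omega) x).1
    rwa [h] at this
  · intro h
    rw [Pd_iff hv]; intro σ hσ; exact hσ x h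

theorem pure_form (hCB : SpecCB) (hGAL : SpecGAL) (hINT : SpecINT) (hN : Odd N') {v : ℕ} (hv : 2 ≤ v)
    (hvm : v ≤ m) {x : Cyc (2 ^ m * N')} (h1 : Pd m N' v x = x) (h2 : Pd m N' (v - 1) x = 0) :
    ∃ Z E : Cyc (2 ^ m * N'), (Z : ℂ) ∈ Cyc (2 ^ (v - 1) * N') ∧ (E : ℂ) = ze (2 ^ v) ∧ x = Z * E := by
  have hle2 : Cyc (2 ^ v) ≤ Cyc (2 ^ m * N') :=
    hCB.2.2.1 _ _ (two_pow_mul_pos hN) ((pow_dvd_pow 2 hvm).mul_right _)
  have hx := (Pd_iff_mem hCB hGAL hINT hN (by omega) hvm x).mp h1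
  obtain ⟨Z, -, -, h3, h4⟩ := one_step hCB hGAL hINT hv hvm hN x hx
  rw [h2] at h4
  refine ⟨Z, ⟨ze (2 ^ v), hle2 (ze_mem _)⟩, h3, rfl, Subtype.ext ?_⟩
  simpa using h4


omit [FiniteDimensional ℚ (Cyc (2 ^ m * N'))] in
/-- The automorphism `ζ ↦ ζ^(1 + 2^(v-2) N')`. -/
theorem exists_quarter (hCB : SpecCB) (hGAL : SpecGAL) {v : ℕ} (hv : 4 ≤ v) (hvm : v ≤ m)
    (hN : Odd N') :
    ∃ τ : Cyc (2 ^ m * N') ≃ₐ[ℚ] Cyc (2 ^ m * N'), τ ∈ Hs m N' (v - 2) ∧
      (τ * τ) ∈ Hs m N' (v - 1) ∧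
      ∀ E : Cyc (2 ^ m * N'), (E : ℂ) = ze (2 ^ v) → τ (τ E) = -E := by
  obtain ⟨w, rfl⟩ : ∃ w, v = w + 4 := ⟨v - 4, by omega⟩
  simp only [show w + 4 - 2 = w + 2 by omega, show w + 4 - 1 = w + 3 by omega]
  have hpos : 0 < 2 ^ m * N' := two_pow_mul_pos hN
  have hcop : (1 + 2 ^ (w + 2) * N').Coprime (2 ^ m * N') := by
    apply Nat.Coprime.mul_right
    · apply Nat.Coprime.pow_right
      rw [Nat.coprime_two_right]
      apply Odd.add_even odd_one
      exact (Nat.even_pow.mpr ⟨even_two, by omega⟩).mul_right _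
    · simp
  obtain ⟨τ, hτ⟩ := (hGAL _ hpos).2.2.1 _ hcop
  have hττ : ∀ x : Cyc (2 ^ m * N'), (x : ℂ) = ze (2 ^ m * N') →
      (((τ * τ) x : Cyc (2 ^ m * N')) : ℂ) = ze (2 ^ m * N') ^ ((1 + 2 ^ (w + 2) * N') ^ 2) := by
    intro x hx
    have h1 : τ x = x ^ (1 + 2 ^ (w + 2) * N') := by
      apply Subtype.ext
      rw [hτ x hx, SubmonoidClass.coe_pow, hx]
    show ((τ (τ x) : Cyc (2 ^ m * N')) : ℂ) = _
    rw [h1, map_pow, h1, SubmonoidClass.coe_pow, SubmonoidClass.coe_pow, hx, ← pow_mul, sq]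
  refine ⟨τ, ?_, ?_, ?_⟩
  · intro x hx
    exact act_fix hCB hpos (Nat.mul_dvd_mul_right (pow_dvd_pow 2 (by omega)) _) τ hτ
      (k := 1) (by ring) x hx
  · intro x hx
    exact act_fix hCB hpos (Nat.mul_dvd_mul_right (pow_dvd_pow 2 (by omega)) _) (τ * τ) hττ
      (k := 1 + 2 ^ (w + 1) * N') (by ring) x hx
  · intro E hE
    apply Subtype.ext
    have hd : 2 ^ (w + 4) ∣ 2 ^ m * N' := (pow_dvd_pow 2 hvm).mul_right _
    have h0 := act_dvd hCB hpos hd (τ * τ) hττ E hE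
    have e : (1 + 2 ^ (w + 2) * N') ^ 2 = 1 + 2 ^ (w + 3) * N' + 2 ^ (w + 4) * (2 ^ w * N' ^ 2) := by
      ring
    have hprim := hCB.1 (2 ^ (w + 4)) (by positivity)
    have h1 : ze (2 ^ (w + 4)) ^ 2 ^ (w + 3) = -1 := by
      have e : 2 ^ (w + 4) = 2 ^ (w + 3) * 2 := by ring
      have h2 : IsPrimitiveRoot (ze (2 ^ (w + 4)) ^ 2 ^ (w + 3)) 2 :=
        hprim.pow (by positivity) e
      exact h2.eq_neg_one_of_two_right
    rw [e, pow_add, pow_add, pow_one, pow_mul, pow_mul, h1, hN.neg_one_pow, hprim.pow_eq_one,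
      one_pow] at h0
    show ((τ (τ E) : Cyc (2 ^ m * N')) : ℂ) = _
    change ((τ (τ E) : Cyc (2 ^ m * N')) : ℂ) = _ at h0
    rw [h0]; simp [hE]

end Frame

theorem int_quad_aux {x a b : ℂ} (ha : IsIntegral ℤ a) (hb : IsIntegral ℤ b)
    (h : x ^ 2 - a * x + b = 0) : IsIntegral ℤ x := by
  let A := integralClosure ℤ ℂ
  let a' : A := ⟨a, ha⟩
  let b' : A := ⟨b, hb⟩
  have h1 : IsIntegral A x := by
    refine ⟨Polynomial.X ^ 2 + (-Polynomial.C a' * Polynomial.X + Polynomial.C b'), ?_, ?_⟩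
    · apply Polynomial.monic_X_pow_add
      refine lt_of_le_of_lt (b := (1 : WithBot ℕ)) ?_ (by norm_num)
      rw [← Polynomial.C_neg]
      exact Polynomial.degree_linear_le
    · simp only [Polynomial.eval₂_add, Polynomial.eval₂_pow, Polynomial.eval₂_X,
        Polynomial.eval₂_mul, Polynomial.eval₂_neg, Polynomial.eval₂_C]
      have e1 : algebraMap A ℂ a' = a := rfl
      have e2 : algebraMap A ℂ b' = b := rfl
      rw [e1, e2]; linear_combination h
  exact isIntegral_trans (A := A) x h1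

/-- LEV: the concrete frame. -/
theorem specLEV (hCB : SpecCB) (hGAL : SpecGAL) (hMB : SpecMB) (hINT : SpecINT) : SpecLEV := by
  intro m N' hm hN
  have hpos : 0 < 2 ^ m * N' := two_pow_mul_pos hN
  have hfd : FiniteDimensional ℚ (Cyc (2 ^ m * N')) := hCB.2.2.2.1 _ hpos
  obtain ⟨-, hcomm, hsurj, -, hconj, -, hFst⟩ := hGAL _ hpos
  obtain ⟨hadd, hMnn, hMone, -⟩ := hMB _ hpos
  let cj : Cyc (2 ^ m * N') →+* Cyc (2 ^ m * N') :=
    { toFun := fun x => ⟨conj (x : ℂ), hCB.2.2.2.2 _ hpos x x.2⟩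
      map_one' := Subtype.ext (by simp)
      map_mul' := fun x y => Subtype.ext (by simp)
      map_zero' := Subtype.ext (by simp)
      map_add' := fun x y => Subtype.ext (by simp) }
  have hcj : ∀ x, ((cj x : Cyc (2 ^ m * N')) : ℂ) = conj (x : ℂ) := fun _ => rfl
  let tr : Cyc (2 ^ m * N') →+ ℝ := AddMonoidHom.mk' (fun x => ntr (x : ℂ))
    (fun x y => hadd x x.2 y y.2)
  have htr : ∀ x, tr x = ntr (x : ℂ) := fun _ => rfl
  let O : Subring (Cyc (2 ^ m * N')) :=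
    (integralClosure ℤ ℂ).toSubring.comap (algebraMap (Cyc (2 ^ m * N')) ℂ)
  have hO : ∀ x, x ∈ O ↔ IsIntegral ℤ (x : ℂ) := fun _ => Iff.rfl
  have hinj : Function.Injective (algebraMap (Cyc (2 ^ m * N')) ℂ) := RingHom.injective _
  have hOint : ∀ x, x ∈ O ↔ IsIntegral ℤ x := fun x => by
    rw [hO]; exact isIntegral_algebraMap_iff hinj
  have hσO : ∀ (σ : Cyc (2 ^ m * N') ≃ₐ[ℚ] Cyc (2 ^ m * N')), ∀ x ∈ O, σ x ∈ O := by
    intro σ x hx
    rw [hOint] at hx ⊢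
    exact map_isIntegral_int σ hx
  have hσtr : ∀ (σ : Cyc (2 ^ m * N') ≃ₐ[ℚ] Cyc (2 ^ m * N')), ∀ x, tr (σ x) = tr x := by
    intro σ x
    have h1 : minpoly ℚ ((σ x : Cyc (2 ^ m * N')) : ℂ) = minpoly ℚ (x : ℂ) := by
      calc minpoly ℚ ((σ x : Cyc (2 ^ m * N')) : ℂ) = minpoly ℚ (σ x) :=
            minpoly.algebraMap_eq hinj (σ x)
        _ = minpoly ℚ x := minpoly.algEquiv_eq σ x
        _ = minpoly ℚ (x : ℂ) := (minpoly.algebraMap_eq hinj x).symm
    rw [htr, htr, ntr, ntr, h1]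
  have hσcj : ∀ (σ : Cyc (2 ^ m * N') ≃ₐ[ℚ] Cyc (2 ^ m * N')), ∀ x, σ (cj x) = cj (σ x) := by
    intro σ x
    exact Subtype.ext (hconj σ x (cj x) rfl)
  have hPiff : ∀ v, 1 ≤ v → ∀ x, Pd m N' v x = x ↔ ∀ σ ∈ Hs m N' v, σ x = x := fun v hv x =>
    Pd_iff hv x
  have hneg : ∀ v, m < v → ∀ x, Pd m N' (v - 1) x = 0 → x = 0 := by
    intro v hv x hx
    rwa [Pd_top hCB hm hN (by omega)] at hx
  refine ⟨{
    O := O
    cj := cj
    tr := tr
    G := {f | ∃ σ : Cyc (2 ^ m * N') ≃ₐ[ℚ] Cyc (2 ^ m * N'), ∀ x, f x = σ x}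
    P := Pd m N'
    m := m
    char0 := inferInstance
    one_le := ?_
    tr_nonneg := fun x => hMnn x x.2
    tr_one := ?_
    int_quad := ?_
    tr_G := ?_
    cj_G := ?_
    O_G := ?_
    G_stab := ?_
    P_zero := Pd_zero
    P_top := fun v hv x => Pd_top hCB hm hN hv x
    P_P := fun v w x => Pd_Pd hCB hN v w x
    P_lin := ?_
    P_one := ?_
    P_stab := ?_
    P_O := ?_
    P_cj := ?_
    P_tr := ?_
    P_G := ?_
    sq_level := ?_
    G_quarter := ?_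
    G_half := ?_
    frob := ?_ }, ?_⟩
  · -- one_le
    intro x hx hx0
    exact hMone x x.2 hx (fun h => hx0 (Subtype.ext h))
  · -- tr_one
    show ntr ((1 : Cyc (2 ^ m * N')) : ℂ) = 1
    have : ((1 : Cyc (2 ^ m * N')) : ℂ) = 1 := rfl
    rw [this, ntr, minpoly.one, show (Polynomial.X - 1 : Polynomial ℚ) =
      Polynomial.X - Polynomial.C 1 by simp, Polynomial.nextCoeff_X_sub_C,
      Polynomial.natDegree_X_sub_C]
    norm_num
  · -- int_quad
    intro x a ha b hb h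
    have h1 := congrArg (algebraMap (Cyc (2 ^ m * N')) ℂ) h
    exact int_quad_aux (a := (a : ℂ)) (b := (b : ℂ)) ha hb (by simpa using h1)
  · rintro f ⟨σ, hσ⟩ x
    rw [hσ]; exact hσtr σ x
  · rintro f ⟨σ, hσ⟩ x
    rw [hσ, hσ]; exact hσcj σ x
  · rintro f ⟨σ, hσ⟩ x hx
    rw [hσ]; exact hσO σ x hx
  · rintro f ⟨σ, hσ⟩ F x hx
    rw [hσ]; exact hFst σ F x hx
  · -- P_lin
    intro v x y hv hx
    rw [Pd_pos hv]; exact avg_lin _ ((hPiff v hv x).mp hx) y
  · -- P_one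
    intro v hv
    rw [Pd_pos hv]; exact avg_fix _ (fun σ _ => map_one σ)
  · -- P_stab
    intro v F x hx
    rcases Nat.eq_zero_or_pos v with rfl | hv
    · rw [Pd_zero]; exact F.zero_mem
    · rw [Pd_pos hv]; exact avg_stab _ F (fun σ _ x hx => hFst σ F x hx) hx
  · -- P_O
    intro v x hx
    rcases Nat.eq_zero_or_pos v with rfl | hv
    · rw [Pd_zero]; exact O.zero_mem
    · rcases le_total v m with hvm | hvm
      · exact (Pd_mem hCB hGAL hINT hN (m - v) v hv (by omega) x).2 hx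
      · rw [Pd_top hCB hm hN hvm]; exact hx
  · -- P_cj
    intro v x
    rcases Nat.eq_zero_or_pos v with rfl | hv
    · rw [Pd_zero, Pd_zero, map_zero]
    · rw [Pd_pos hv]; exact avg_comm _ (fun σ _ x => hσcj σ x) x
  · -- P_tr
    intro v x hv
    rw [Pd_pos hv]; exact avg_tr _ tr (fun σ _ x => hσtr σ x) x
  · -- P_G
    rintro v f ⟨σ, hσ⟩ x
    rcases Nat.eq_zero_or_pos v with rfl | hv
    · rw [Pd_zero, Pd_zero, map_zero]
    · rw [Pd_pos hv]
      exact avg_comm _ (τ := f) (fun τ _ x => by rw [hσ, hσ]; exact hcomm τ σ x) x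
  · -- sq_level
    intro v hv x y hx1 hx2 hy1 hy2
    rcases le_or_gt v m with hvm | hvm
    · obtain ⟨Z, E, hZ, hE, rfl⟩ := pure_form hCB hGAL hINT hN hv hvm hx1 hx2
      obtain ⟨Z', E', hZ', hE', rfl⟩ := pure_form hCB hGAL hINT hN hv hvm hy1 hy2
      rw [Pd_iff_mem hCB hGAL hINT hN (by omega) (by omega)]
      have e : ((Z * E * (Z' * E') : Cyc (2 ^ m * N')) : ℂ) = (Z : ℂ) * (Z' : ℂ) * ze (2 ^ (v - 1)) := by
        have e1 : ze (2 ^ (v - 1)) = ze (2 ^ v) ^ 2 := by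
          have e2 : 2 ^ v = 2 ^ (v - 1) * 2 := by
            obtain ⟨w, rfl⟩ : ∃ w, v = w + 1 := ⟨v - 1, by omega⟩
            simp [pow_succ]
          rw [hCB.2.1 (2 ^ (v - 1)) (2 ^ v) (by positivity) ⟨2, e2⟩]
          congr 1
          rw [e2]; exact Nat.mul_div_cancel_left 2 (by positivity)
        rw [e1]
        simp only [MulMemClass.coe_mul, hE, hE']
        ring
      rw [e]
      have hle : Cyc (2 ^ (v - 1)) ≤ Cyc (2 ^ (v - 1) * N') :=
        hCB.2.2.1 _ _ (two_pow_mul_pos hN) (Dvd.intro _ rfl)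
      exact mul_mem (mul_mem hZ hZ') (hle (ze_mem _))
    · rw [hneg v hvm x hx2, zero_mul, map_zero]
  · -- G_quarter
    intro v hv
    rcases le_or_gt v m with hvm | hvm
    · obtain ⟨τ, h1, h2, h3⟩ := exists_quarter hCB hGAL hv hvm hN
      refine ⟨(τ : Cyc (2 ^ m * N') →+* Cyc (2 ^ m * N')), ⟨τ, fun _ => rfl⟩, ?_, ?_⟩
      · intro x hx
        exact (hPiff (v - 2) (by omega) x).mp hx τ h1
      · intro x hx1 hx2
        obtain ⟨Z, E, hZ, hE, rfl⟩ := pure_form hCB hGAL hINT hN (by omega) hvm hx1 hx2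
        show τ (τ (Z * E)) = -(Z * E)
        rw [map_mul, map_mul, h3 E hE]
        have : τ (τ Z) = Z := h2 Z hZ
        rw [this]; ring
    · refine ⟨RingHom.id _, ⟨1, fun _ => rfl⟩, fun x _ => rfl, ?_⟩
      intro x _ hx2
      rw [hneg v hvm x hx2]; simp
  · -- G_half
    intro v hv
    rcases le_or_gt v m with hvm | hvm
    · obtain ⟨τ, h1, h3⟩ := exists_half hCB hGAL hv hvm hN
      refine ⟨(τ : Cyc (2 ^ m * N') →+* Cyc (2 ^ m * N')), ⟨τ, fun _ => rfl⟩, ?_, ?_⟩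
      · intro x hx
        exact (hPiff (v - 1) (by omega) x).mp hx τ h1
      · intro x hx1 hx2
        obtain ⟨Z, E, hZ, hE, rfl⟩ := pure_form hCB hGAL hINT hN hv hvm hx1 hx2
        show τ (Z * E) = -(Z * E)
        rw [map_mul, h3 E hE, h1 Z hZ]; ring
    · refine ⟨RingHom.id _, ⟨1, fun _ => rfl⟩, fun x _ => rfl, ?_⟩
      intro x _ hx2
      rw [hneg v hvm x hx2]; simp
  · -- frob
    have hcop : (2 + N').Coprime (2 ^ m * N') := by
      apply Nat.Coprime.mul_right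
      · apply Nat.Coprime.pow_right
        rw [Nat.coprime_two_right]
        exact Even.add_odd even_two hN
      · rw [Nat.coprime_add_self_left, Nat.coprime_two_left]; exact hN
    obtain ⟨φ, hφ⟩ := hsurj _ hcop
    refine ⟨(φ : Cyc (2 ^ m * N') →+* Cyc (2 ^ m * N')), ⟨φ, fun _ => rfl⟩,
      (φ.symm : Cyc (2 ^ m * N') →+* Cyc (2 ^ m * N')), ⟨φ.symm, fun _ => rfl⟩,
      fun x => φ.apply_symm_apply x, ?_⟩
    intro x hx hx1
    rw [Pd_iff_mem hCB hGAL hINT hN le_rfl hm] at hx1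
    obtain ⟨a, ha⟩ := hINT _ (two_pow_mul_pos hN) x hx1 hx
    have hd : 2 ^ 1 * N' ∣ 2 ^ m * N' := Nat.mul_dvd_mul_right (pow_dvd_pow 2 hm) _
    have hle : Cyc (2 ^ 1 * N') ≤ Cyc (2 ^ m * N') := hCB.2.2.1 _ _ hpos hd
    set w : Cyc (2 ^ m * N') := ⟨ze (2 ^ 1 * N'), hle (ze_mem _)⟩ with hw
    have hφw : ((φ w : Cyc (2 ^ m * N')) : ℂ) = -(ze (2 ^ 1 * N')) ^ 2 := by
      rw [act_dvd hCB hpos hd φ hφ w rfl, pow_add]
      have h1 : ze (2 ^ 1 * N') ^ N' = -1 := by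
        have h2 : IsPrimitiveRoot (ze (2 ^ 1 * N') ^ N') 2 :=
          (hCB.1 _ (two_pow_mul_pos hN)).pow (two_pow_mul_pos hN) (by ring)
        exact h2.eq_neg_one_of_two_right
      rw [h1]; ring
    have hxw : x = ∑ j ∈ Finset.range (2 ^ 1 * N'), ((a j : ℤ) : Cyc (2 ^ m * N')) * w ^ j := by
      apply Subtype.ext
      rw [ha]
      simp [hw]
    have hφx : ((φ x : Cyc (2 ^ m * N')) : ℂ) =
        ∑ j ∈ Finset.range (2 ^ 1 * N'), (a j : ℂ) * (-(ze (2 ^ 1 * N')) ^ 2) ^ j := by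
      rw [hxw, map_sum]
      simp only [map_mul, map_intCast, map_pow]
      rw [← hφw]
      simp
    obtain ⟨y, hy, -, he⟩ := frob_aux (ze (2 ^ 1 * N')) (ze_int hCB (two_pow_mul_pos hN)) a
      (2 ^ 1 * N')
    rw [← hφx, ← ha] at he
    have hyL : y ∈ Cyc (2 ^ m * N') := by
      have : y = (2 : ℂ)⁻¹ * ((x : ℂ) ^ 2 - (φ x : Cyc (2 ^ m * N'))) := by rw [he]; ring
      rw [this]
      exact mul_mem (inv_mem (ofNat_mem _ 2)) (sub_mem (pow_mem x.2 2) (φ x).2)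
    exact ⟨⟨y, hyL⟩, hy, Subtype.ext he⟩
  · -- IsLev
    refine ⟨hO, fun _ => rfl, hcj, fun σ => ⟨σ, fun _ => rfl⟩, rfl, ?_⟩
    intro v hv hvm x
    exact Pd_iff_mem hCB hGAL hINT hN hv hvm x

end Pool.Agent.Lib.MPcb8a44.AB.LevM
end

section
/-!
Module UA of Theorem AB (MP_cb8a44_nt): uniqueness of sparse expansions (fewer than `p` terms).
-/
set_option autoImplicit false

namespace Pool.Agent.Lib.MPcb8a44.AB

open scoped BigOperators ComplexConjugate

namespace UaM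

lemma ze_mem (N : ℕ) : ze N ∈ Cyc N := IntermediateField.mem_adjoin_simple_self ℚ (ze N)

/-- Embeddings of `Cyc (N0 * p)` that fix `Cyc N0` and move `ze p` to `ze p ^ s`. -/
lemma exists_hom (hCB : SpecCB) (hGAL : SpecGAL) {p N0 : ℕ} (hp : p.Prime) (hN0 : 0 < N0)
    (hpN : ¬ p ∣ N0) (s : ℕ) (hs : s.Coprime p) :
    ∃ φ : Cyc (N0 * p) →+* ℂ, (∀ x : Cyc (N0 * p), (x : ℂ) ∈ Cyc N0 → φ x = x) ∧
      (∀ x : Cyc (N0 * p), (x : ℂ) = ze p → φ x = ze p ^ s) := by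
  obtain ⟨hprim, hdiv, hle, -, -⟩ := hCB
  have hNp : 0 < N0 * p := Nat.mul_pos hN0 hp.pos
  have hcop : Nat.Coprime N0 p := ((Nat.Prime.coprime_iff_not_dvd hp).mpr hpN).symm
  obtain ⟨t, ht1, ht2⟩ := Nat.chineseRemainder hcop 1 s
  have htN : t.Coprime (N0 * p) := by
    apply Nat.Coprime.mul_right
    · have := ht1.gcd_eq
      simpa [Nat.Coprime] using this
    · have := ht2.gcd_eq
      unfold Nat.Coprime at hs ⊢
      omega
  obtain ⟨σ, hσ⟩ := (hGAL (N0 * p) hNp).2.2.1 t htN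
  have hzN0 : ze N0 = ze (N0 * p) ^ p := by
    have := hdiv N0 (N0 * p) hNp (Dvd.intro _ rfl)
    rwa [Nat.mul_div_cancel_left _ hN0] at this
  have hzp : ze p = ze (N0 * p) ^ N0 := by
    have := hdiv p (N0 * p) hNp (Dvd.intro_left _ rfl)
    rwa [Nat.mul_div_cancel _ hp.pos] at this
  let φ : Cyc (N0 * p) →ₐ[ℚ] ℂ := (Cyc (N0 * p)).val.comp (σ : Cyc (N0 * p) →ₐ[ℚ] Cyc (N0 * p))
  have hφz : φ ⟨ze (N0 * p), ze_mem _⟩ = ze (N0 * p) ^ t := hσ ⟨ze (N0 * p), ze_mem _⟩ rfl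
  have hleN : Cyc N0 ≤ Cyc (N0 * p) := hle N0 (N0 * p) hNp (Dvd.intro _ rfl)
  have hext : φ.comp (IntermediateField.inclusion hleN) = (Cyc N0).val := by
    refine IntermediateField.algHom_ext_of_eq_adjoin ℚ (S := Cyc N0) (s := {ze N0}) rfl ?_
    intro x hx
    have hx' : x = ze N0 := hx
    subst hx'
    have h1 : (IntermediateField.inclusion hleN) ⟨ze N0, ze_mem N0⟩ =
        (⟨ze (N0 * p), ze_mem _⟩ : Cyc (N0 * p)) ^ p := by
      apply Subtype.ext
      simpa using hzN0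
    have h2 : φ ((IntermediateField.inclusion hleN) ⟨ze N0, ze_mem N0⟩) = ze N0 := by
      rw [h1, map_pow, hφz, ← pow_mul, mul_comm t p, pow_mul, ← hzN0]
      have h3 := (hprim N0 hN0).pow_eq_one
      have h4 : ze N0 ^ t = ze N0 ^ 1 := by
        rw [← pow_mod_orderOf (ze N0) t, ← pow_mod_orderOf (ze N0) 1,
          ← (hprim N0 hN0).eq_orderOf]
        rw [show t % N0 = 1 % N0 from ht1]
      simpa using h4
    exact h2
  refine ⟨φ.toRingHom, ?_, ?_⟩
  · intro x hx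
    have := DFunLike.congr_fun hext ⟨(x : ℂ), hx⟩
    exact this
  · intro x hx
    have h1 : x = (⟨ze (N0 * p), ze_mem _⟩ : Cyc (N0 * p)) ^ N0 := by
      apply Subtype.ext
      rw [hx]
      simpa using hzp
    have h2 : φ x = ze p ^ s := by
      rw [h1, map_pow, hφz, ← pow_mul, mul_comm t N0, pow_mul, ← hzp]
      rw [← pow_mod_orderOf (ze p) t, ← pow_mod_orderOf (ze p) s, ← (hprim p hp.pos).eq_orderOf]
      rw [show t % p = s % p from ht2]
    exact h2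

/-- The powers `ze p ^ j`, `j < p - 1`, are linearly independent over `Cyc N0`. -/
lemma indep (hCB : SpecCB) (hGAL : SpecGAL) {p N0 : ℕ} (hp : p.Prime) (hN0 : 0 < N0)
    (hpN : ¬ p ∣ N0) (c : ℕ → ℂ) (hc : ∀ j, c j ∈ Cyc N0)
    (h : ∑ j ∈ Finset.range (p - 1), c j * ze p ^ j = 0) : ∀ j < p - 1, c j = 0 := by
  have hprim := hCB.1 p hp.pos
  have hNp : 0 < N0 * p := Nat.mul_pos hN0 hp.pos
  have hleN : Cyc N0 ≤ Cyc (N0 * p) := hCB.2.2.1 N0 (N0 * p) hNp (Dvd.intro _ rfl)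
  have hlep : Cyc p ≤ Cyc (N0 * p) := hCB.2.2.1 p (N0 * p) hNp (Dvd.intro_left _ rfl)
  set q : Polynomial ℂ := ∑ j ∈ Finset.range (p - 1), Polynomial.C (c j) * Polynomial.X ^ j with hq
  have hp2 := hp.two_le
  have hroot : ∀ i : Fin (p - 1), q.eval (ze p ^ ((i : ℕ) + 1)) = 0 := by
    intro i
    have hi : ((i : ℕ) + 1).Coprime p := by
      apply Nat.Coprime.symm
      rw [Nat.Prime.coprime_iff_not_dvd hp]
      intro hd
      have := Nat.le_of_dvd (by omega) hd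
      have := i.2
      omega
    obtain ⟨φ, hφ1, hφ2⟩ := exists_hom hCB hGAL hp hN0 hpN _ hi
    have h1 : (∑ j ∈ Finset.range (p - 1), (⟨c j, hleN (hc j)⟩ : Cyc (N0 * p)) *
        (⟨ze p, hlep (ze_mem p)⟩ : Cyc (N0 * p)) ^ j) = 0 := by
      apply Subtype.ext
      simpa using h
    have h2 := congrArg φ h1
    rw [map_sum, map_zero] at h2
    rw [hq, Polynomial.eval_finsetSum, ← h2]
    apply Finset.sum_congr rfl
    intro j _
    rw [map_mul, map_pow, hφ1 _ (hc j), hφ2 _ rfl]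
    simp
  have hinj : Function.Injective (fun i : Fin (p - 1) => ze p ^ ((i : ℕ) + 1)) := by
    intro i j hij
    have := hprim.pow_inj (by omega) (by omega) hij
    apply Fin.ext
    omega
  have hdeg : q.natDegree < Fintype.card (Fin (p - 1)) := by
    rw [Fintype.card_fin]
    have : q.natDegree ≤ p - 2 := by
      apply Polynomial.natDegree_sum_le_of_forall_le
      intro j hj
      have hj' := Finset.mem_range.mp hj
      exact le_trans (Polynomial.natDegree_C_mul_X_pow_le _ _) (by omega)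
    omega
  have hq0 := Polynomial.eq_zero_of_natDegree_lt_card_of_eval_eq_zero q hinj hroot hdeg
  intro j hj
  have := congrArg (fun r : Polynomial ℂ => r.coeff j) hq0
  simp only [hq, Polynomial.finsetSum_coeff, Polynomial.coeff_C_mul, Polynomial.coeff_X_pow,
    Polynomial.coeff_zero, mul_ite, mul_one, mul_zero] at this
  rw [Finset.sum_ite_eq] at this
  simpa [hj] using this

/-- A vanishing combination of the `p` powers of `ze p` over `Cyc N0` is constant. -/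
lemma const (hCB : SpecCB) (hGAL : SpecGAL) {p N0 : ℕ} (hp : p.Prime) (hN0 : 0 < N0)
    (hpN : ¬ p ∣ N0) (a : ℕ → ℂ) (ha : ∀ j, a j ∈ Cyc N0)
    (h : ∑ j ∈ Finset.range p, a j * ze p ^ j = 0) : ∀ j < p, a j = a (p - 1) := by
  have hprim := hCB.1 p hp.pos
  have hgeom : ∑ j ∈ Finset.range p, ze p ^ j = 0 := hprim.geom_sum_eq_zero hp.one_lt
  have hp2 := hp.two_le
  have h1 : ∑ j ∈ Finset.range (p - 1), (a j - a (p - 1)) * ze p ^ j = 0 := by
    have h2 : ∑ j ∈ Finset.range p, (a j - a (p - 1)) * ze p ^ j = 0 := by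
      simp only [sub_mul, Finset.sum_sub_distrib, h, ← Finset.mul_sum, hgeom]
      simp
    have h3 : Finset.range p = Finset.range ((p - 1) + 1) := by
      congr 1
      omega
    rw [h3, Finset.sum_range_succ] at h2
    simpa using h2
  intro j hj
  by_cases hjp : j < p - 1
  · have := indep hCB hGAL hp hN0 hpN (fun j => a j - a (p - 1))
      (fun j => sub_mem (ha j) (ha _)) h1 j hjp
    exact sub_eq_zero.mp this
  · have : j = p - 1 := by omega
    rw [this]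

end UaM

open UaM in
theorem specUA (hCB : SpecCB) (hGAL : SpecGAL) (hGU : SpecGU) : SpecUA := by
  intro p N0 k Q _ hp hN0 hpN hk hQ S Y hS hY hsum
  classical
  have hprim := hCB.1
  have hdiv := hCB.2.1
  have hp2 := hp.two_le
  obtain ⟨A, hA⟩ : ∃ A : ZMod Q → ℂ, ∀ g ∈ S, A g ∈ Cyc N0 ∧ Y g = A g * ze (p ^ k) ^ g.val := by
    choose! A hA using hY
    exact ⟨A, hA⟩
  set R : ℕ := p ^ (k - 1) with hR
  have hRpos : 0 < R := Nat.pow_pos hp.pos
  have : NeZero R := ⟨hRpos.ne'⟩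
  have hQR : Q = R * p := by
    rw [hQ, hR, ← pow_succ]
    congr 1
    omega
  have hpk : 0 < p ^ k := Nat.pow_pos hp.pos
  have hzp : ze p = ze (p ^ k) ^ R := by
    have h1 := hdiv p (p ^ k) hpk (dvd_pow_self p (by omega))
    rw [h1]
    congr 1
    rw [← hQ, hQR, Nat.mul_div_cancel _ hp.pos]
  have hz0 : ze (p ^ k) ≠ 0 := (hprim (p ^ k) hpk).ne_zero hpk.ne'
  have hexp : ∀ g ∈ S, Y g = (A g * ze p ^ (g.val / R)) * ze (p ^ k) ^ (g.val % R) := by
    intro g hg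
    rw [(hA g hg).2, hzp, ← pow_mul, mul_assoc, ← pow_add]
    congr 2
    exact (Nat.div_add_mod g.val R).symm
  -- the class sums
  set Z : ℕ → ℂ := fun h => ∑ g ∈ S with g.val % R = h, A g * ze p ^ (g.val / R) with hZ
  have hY' : ∀ h : ZMod R, (∑ g ∈ S with g.val % R = h.val, Y g) = Z h.val * ze (p ^ k) ^ h.val := by
    intro h
    rw [hZ]
    simp only
    rw [Finset.sum_mul]
    apply Finset.sum_congr rfl
    intro g hg
    obtain ⟨hgS, hgh⟩ := Finset.mem_filter.mp hg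
    rw [hexp g hgS, hgh]
  have hmemp : ze p ∈ Cyc (N0 * p ^ 1) := by
    rw [pow_one]
    exact hCB.2.2.1 p (N0 * p) (Nat.mul_pos hN0 hp.pos) (Dvd.intro_left _ rfl) (ze_mem p)
  have hleN : Cyc N0 ≤ Cyc (N0 * p ^ 1) :=
    hCB.2.2.1 N0 (N0 * p ^ 1) (by simpa using Nat.mul_pos hN0 hp.pos) (Dvd.intro _ rfl)
  have hZmem : ∀ h, Z h ∈ Cyc (N0 * p ^ 1) := by
    intro h
    apply sum_mem
    intro g hg
    exact mul_mem (hleN (hA g (Finset.mem_filter.mp hg).1).1) (pow_mem hmemp _)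
  have hGU' := hGU p N0 k 1 R hp hN0 hpN le_rfl hk rfl
    (fun h => ∑ g ∈ S with g.val % R = h.val, Y g)
    (fun h => ⟨Z h.val, hZmem _, hY' h⟩)
    (by
      rw [← hsum]
      symm
      have : ∀ g ∈ S, Y g = ∑ h : ZMod R, if g.val % R = h.val then Y g else 0 := by
        intro g _
        rw [Finset.sum_eq_single (((g.val % R : ℕ) : ZMod R))]
        · rw [ZMod.val_natCast, Nat.mod_mod, if_pos rfl]
        · intro b _ hb
          rw [if_neg]
          intro hcon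
          apply hb
          rw [hcon, ZMod.natCast_zmod_val]
        · intro h
          exact absurd (Finset.mem_univ _) h
      rw [Finset.sum_congr rfl this, Finset.sum_comm]
      apply Finset.sum_congr rfl
      intro h _
      rw [Finset.sum_filter])
  have hZ0 : ∀ h < R, Z h = 0 := by
    intro h hh
    have h1 := hGU' ((h : ℕ) : ZMod R)
    rw [hY', ZMod.val_natCast, Nat.mod_eq_of_lt hh] at h1
    exact (mul_eq_zero.mp h1).resolve_right (pow_ne_zero _ hz0)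
  intro g hg
  -- coefficients in the class of `g`
  set a : ℕ → ℂ := fun j => ∑ g' ∈ (S.filter (fun g' => g'.val % R = g.val % R)) with
    g'.val / R = j, A g' with ha
  have ha_mem : ∀ j, a j ∈ Cyc N0 := by
    intro j
    apply sum_mem
    intro g' hg'
    exact (hA g' (Finset.mem_filter.mp (Finset.mem_filter.mp hg').1).1).1
  have hdivlt : ∀ g' : ZMod Q, g'.val / R < p := by
    intro g'
    rw [Nat.div_lt_iff_lt_mul hRpos, mul_comm, ← hQR]
    exact ZMod.val_lt g'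
  have hasum : ∑ j ∈ Finset.range p, a j * ze p ^ j = 0 := by
    have h1 := hZ0 (g.val % R) (Nat.mod_lt _ hRpos)
    rw [hZ] at h1
    simp only at h1
    rw [← h1, ← Finset.sum_fiberwise_of_maps_to (s := S.filter (fun g' => g'.val % R = g.val % R))
      (t := Finset.range p) (g := fun g' => g'.val / R)
      (fun g' _ => Finset.mem_range.mpr (hdivlt g'))]
    apply Finset.sum_congr rfl
    intro j _
    rw [ha]
    simp only
    rw [Finset.sum_mul]
    apply Finset.sum_congr rfl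
    intro g' hg'
    rw [(Finset.mem_filter.mp hg').2]
  have hconst := const hCB hGAL hp hN0 hpN a ha_mem hasum
  obtain ⟨j0, hj0p, hj0⟩ : ∃ j0 < p, ∀ g' ∈ S, g'.val / R ≠ j0 := by
    by_contra hcon
    push Not at hcon
    have hsub : Finset.range p ⊆ S.image (fun g' => g'.val / R) := by
      intro j hj
      obtain ⟨g', hg', hgj⟩ := hcon j (Finset.mem_range.mp hj)
      exact Finset.mem_image.mpr ⟨g', hg', hgj⟩
    have := Finset.card_le_card hsub
    have h2 := Finset.card_image_le (s := S) (f := fun g' : ZMod Q => g'.val / R)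
    rw [Finset.card_range] at this
    omega
  have haj0 : a j0 = 0 := by
    rw [ha]
    simp only
    apply Finset.sum_eq_zero
    intro g' hg'
    exact absurd (Finset.mem_filter.mp hg').2 (hj0 g' (Finset.mem_filter.mp (Finset.mem_filter.mp hg').1).1)
  have hag : a (g.val / R) = A g := by
    rw [ha]
    simp only
    rw [Finset.sum_eq_single g]
    · intro g' hg' hne
      exfalso
      apply hne
      obtain ⟨h1, h2⟩ := Finset.mem_filter.mp hg'
      obtain ⟨h3, h4⟩ := Finset.mem_filter.mp h1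
      apply ZMod.val_injective Q
      rw [← Nat.div_add_mod g'.val R, ← Nat.div_add_mod g.val R, h2, h4]
    · intro h
      exfalso
      apply h
      simp [hg]
  have hA0 : A g = 0 := by
    rw [← hag, hconst _ (hdivlt g), ← hconst j0 hj0p, haj0]
  rw [(hA g hg).2, hA0, zero_mul]

end Pool.Agent.Lib.MPcb8a44.AB
end
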