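import Pool.Agent.Lib.MP_cb8a44_nt.AB.Spec
import Mathlib
import Pool.Agent.Lib.MP_cb8a44_nt.AB.Defs
import Pool.Agent.Lib.MP_cb8a44_nt.AB.St1
import Pool.Agent.Lib.MP_cb8a44_nt.AB.Ua

section
/-!
Module CB: basic facts on the cyclotomic fields.
-/
set_option autoImplicit false

namespace Pool.Agent.Lib.MPcb8a44.AB

namespace CBM

open scoped ComplexConjugate

theorem prim (N : ℕ) (hN : 0 < N) : IsPrimitiveRoot (ze N) N :=
  Complex.isPrimitiveRoot_exp N hN.ne'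

theorem ze_pow (a b : ℕ) (hb : 0 < b) (h : a ∣ b) : ze a = ze b ^ (b / a) := by
  obtain ⟨c, rfl⟩ := h
  have ha : 0 < a := Nat.pos_of_mul_pos_right hb
  have hc : 0 < c := Nat.pos_of_mul_pos_left hb
  rw [Nat.mul_div_cancel_left _ ha, ze, ze, ← Complex.exp_nat_mul]
  congr 1
  have ha' : (a : ℂ) ≠ 0 := by exact_mod_cast ha.ne'
  have hc' : (c : ℂ) ≠ 0 := by exact_mod_cast hc.ne'
  push_cast
  field_simp

theorem ze_mem (N : ℕ) : ze N ∈ Cyc N :=
  IntermediateField.mem_adjoin_simple_self ℚ (ze N)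

theorem mono (a b : ℕ) (hb : 0 < b) (h : a ∣ b) : Cyc a ≤ Cyc b := by
  unfold Cyc
  rw [IntermediateField.adjoin_le_iff, Set.singleton_subset_iff]
  change ze a ∈ IntermediateField.adjoin ℚ {ze b}
  rw [ze_pow a b hb h]
  exact pow_mem (ze_mem b) _

theorem int (N : ℕ) (hN : 0 < N) : IsIntegral ℚ (ze N) :=
  (prim N hN).isIntegral hN |>.tower_top

theorem conj_ze (N : ℕ) : conj (ze N) = (ze N)⁻¹ := by
  rw [ze, ← Complex.exp_conj, ← Complex.exp_neg]
  congr 1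
  simp only [map_div₀, map_mul, Complex.conj_I, Complex.conj_ofReal, map_natCast, map_ofNat]
  ring

theorem conj_mem (N : ℕ) (y : ℂ) (hy : y ∈ Cyc N) : conj y ∈ Cyc N := by
  unfold Cyc at hy
  induction hy using IntermediateField.adjoin_induction with
  | mem x hx =>
    rw [Set.mem_singleton_iff] at hx
    rw [hx, conj_ze]
    exact inv_mem (ze_mem N)
  | algebraMap x =>
    have : conj (algebraMap ℚ ℂ x) = algebraMap ℚ ℂ x := by simp
    rw [this]
    exact IntermediateField.algebraMap_mem _ x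
  | add x y hx hy ihx ihy =>
    rw [map_add]
    exact add_mem ihx ihy
  | mul x y hx hy ihx ihy =>
    rw [map_mul]
    exact mul_mem ihx ihy
  | inv x hx ihx =>
    rw [map_inv₀]
    exact inv_mem ihx

end CBM

open CBM in
theorem specCB : SpecCB :=
  ⟨prim, ze_pow, mono, fun N hN => IntermediateField.adjoin.finiteDimensional (int N hN),
    fun N _ => conj_mem N⟩

end Pool.Agent.Lib.MPcb8a44.AB
end

section
/-!
Module GAL: the Galois group of the cyclotomic fields.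
-/
set_option autoImplicit false

namespace Pool.Agent.Lib.MPcb8a44.AB

namespace GalM

open scoped ComplexConjugate
open CBM

theorem cyc (N : ℕ) [NeZero N] : IsCyclotomicExtension {N} ℚ (Cyc N) := by
  change IsCyclotomicExtension {N} ℚ (IntermediateField.adjoin ℚ {ze N}).toSubalgebra
  rw [IntermediateField.adjoin_simple_toSubalgebra_of_isAlgebraic
    (int N (Nat.pos_of_neZero N)).isAlgebraic]
  exact (prim N (Nat.pos_of_neZero N)).adjoin_isCyclotomicExtension ℚ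

theorem fin (N : ℕ) [NeZero N] : FiniteDimensional ℚ (Cyc N) :=
  IntermediateField.adjoin.finiteDimensional (int N (Nat.pos_of_neZero N))

theorem numf (N : ℕ) [NeZero N] : NumberField (Cyc N) where
  to_charZero := inferInstance
  to_finiteDimensional := fin N

theorem abel (N : ℕ) [NeZero N] : IsAbelianGalois ℚ (Cyc N) :=
  have := cyc N
  IsCyclotomicExtension.isAbelianGalois {N} ℚ (Cyc N)

theorem comm (N : ℕ) [NeZero N] (σ τ : Cyc N ≃ₐ[ℚ] Cyc N) (x : Cyc N) : σ (τ x) = τ (σ x) := by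
  have := (abel N).toIsMulCommutative
  have h : σ * τ = τ * σ := this.is_comm.comm σ τ
  exact congrArg (fun f : Cyc N ≃ₐ[ℚ] Cyc N => f x) h

theorem act (N : ℕ) [NeZero N] (σ : Cyc N ≃ₐ[ℚ] Cyc N) : ∃ s : ℕ, s.Coprime N ∧
    ∀ x : Cyc N, x ^ N = 1 → σ x = x ^ s := by
  have := cyc N
  have := numf N
  exact ⟨_, ZMod.val_coe_unit_coprime (IsCyclotomicExtension.Rat.galEquivZMod N (Cyc N) σ),
    fun x hx => IsCyclotomicExtension.Rat.galEquivZMod_apply_of_pow_eq N (Cyc N) σ hx⟩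

theorem exi (N : ℕ) [NeZero N] (s : ℕ) (hs : s.Coprime N) : ∃ σ : Cyc N ≃ₐ[ℚ] Cyc N,
    ∀ x : Cyc N, x ^ N = 1 → σ x = x ^ s := by
  have := cyc N
  have := numf N
  refine ⟨(IsCyclotomicExtension.Rat.galEquivZMod N (Cyc N)).symm (ZMod.unitOfCoprime s hs),
    fun x hx => ?_⟩
  rw [IsCyclotomicExtension.Rat.galEquivZMod_apply_of_pow_eq N (Cyc N) _ hx,
    MulEquiv.apply_symm_apply, ZMod.coe_unitOfCoprime, ZMod.val_natCast]
  conv_rhs => rw [← Nat.mod_add_div s N, pow_add, pow_mul, hx, one_pow, mul_one]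

theorem pow_of_coe (N : ℕ) [NeZero N] (x : Cyc N) (hx : (x : ℂ) = ze N) : x ^ N = 1 := by
  apply Subtype.ext
  push_cast
  rw [hx, (prim N (Nat.pos_of_neZero N)).pow_eq_one]

/-- complex conjugation -/
theorem cjg (N : ℕ) [NeZero N] : ∃ c : Cyc N ≃ₐ[ℚ] Cyc N, ∀ x : Cyc N,
    ((c x : Cyc N) : ℂ) = conj (x : ℂ) := by
  have := abel N
  have hn : Normal ℚ (Cyc N) := inferInstance
  refine ⟨(Complex.conjAe.restrictScalars ℚ).restrictNormal (Cyc N), fun x => ?_⟩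
  exact (Complex.conjAe.restrictScalars ℚ).restrictNormal_commutes (Cyc N) x

theorem conj_comm (N : ℕ) [NeZero N] (σ : Cyc N ≃ₐ[ℚ] Cyc N) (x y : Cyc N)
    (h : (y : ℂ) = conj (x : ℂ)) : ((σ y : Cyc N) : ℂ) = conj ((σ x : Cyc N) : ℂ) := by
  obtain ⟨c, hc⟩ := cjg N
  have h1 : y = c x := Subtype.ext (by rw [h, hc])
  rw [h1, comm N σ c x, hc]

theorem stab (N : ℕ) [NeZero N] (σ : Cyc N ≃ₐ[ℚ] Cyc N) (F : IntermediateField ℚ (Cyc N))
    (x : Cyc N) (hx : x ∈ F) : σ x ∈ F := by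
  have := abel N
  have h1 : IsAbelianGalois ℚ F := IsAbelianGalois.tower_bot ℚ F (Cyc N)
  have hn : Normal ℚ F := inferInstance
  have h2 := σ.restrictNormal_commutes F ⟨x, hx⟩
  have h3 : σ x = algebraMap F (Cyc N) (σ.restrictNormal F ⟨x, hx⟩) := h2.symm
  rw [h3]
  exact (σ.restrictNormal F ⟨x, hx⟩).2

theorem stab_sub (N : ℕ) [NeZero N] (σ : Cyc N ≃ₐ[ℚ] Cyc N) (F : Subfield (Cyc N))
    (x : Cyc N) (hx : x ∈ F) : σ x ∈ F :=
  stab N σ (F.toIntermediateField fun q => by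
    have : (algebraMap ℚ (Cyc N)) q = (q : Cyc N) := rfl
    rw [this]
    exact SubfieldClass.ratCast_mem F q) x hx

end GalM

open GalM in
theorem specGAL : SpecGAL := by
  intro N hN
  have : NeZero N := ⟨hN.ne'⟩
  refine ⟨(abel N).toIsGalois, comm N, fun s hs => ?_, fun σ => ?_, fun σ x y h =>
    conj_comm N σ x y h, fun σ K hK x hx => ?_, stab_sub N⟩
  · obtain ⟨σ, hσ⟩ := exi N s hs
    refine ⟨σ, fun x hx => ?_⟩
    rw [hσ x (pow_of_coe N x hx)]
    push_cast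
    rw [hx]
  · obtain ⟨s, hs, h⟩ := act N σ
    refine ⟨s, hs, fun x hx => ?_⟩
    rw [h x (pow_of_coe N x hx)]
    push_cast
    rw [hx]
  · exact (IntermediateField.mem_restrict hK (σ x)).mp
      (stab N σ (IntermediateField.restrict hK) x ((IntermediateField.mem_restrict hK x).mpr hx))

end Pool.Agent.Lib.MPcb8a44.AB
end

section
set_option autoImplicit false

namespace Pool.Agent.Lib.MPcb8a44.AB

open Polynomial

namespace IntM

lemma prim (N : ℕ) (hN : 0 < N) : IsPrimitiveRoot (ze N) N :=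
  Complex.isPrimitiveRoot_exp N hN.ne'

lemma cyc (N : ℕ) (hN : 0 < N) : IsCyclotomicExtension {N} ℚ (Cyc N) := by
  have : NeZero N := ⟨hN.ne'⟩
  have hz : IsPrimitiveRoot (ze N) N := prim N hN
  have halg : IsAlgebraic ℚ (ze N) := by
    have h : IsIntegral ℚ (ze N) := (hz.isIntegral hN).tower_top
    exact h.isAlgebraic
  change IsCyclotomicExtension {N} ℚ (IntermediateField.adjoin ℚ {ze N}).toSubalgebra
  rw [IntermediateField.adjoin_simple_toSubalgebra_of_isAlgebraic halg]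
  exact hz.adjoin_isCyclotomicExtension ℚ

end IntM

/-- INT: integers of the cyclotomic field `Cyc N` are integral combinations of powers of `ze N`. -/
theorem specINT : SpecINT := by
  intro N hN x hx hint
  have : NeZero N := ⟨hN.ne'⟩
  have hz : IsPrimitiveRoot (ze N) N := IntM.prim N hN
  have hc : IsCyclotomicExtension {N} ℚ (Cyc N) := IntM.cyc N hN
  have hmem : ze N ∈ Cyc N := IntermediateField.mem_adjoin_simple_self ℚ (ze N)
  set z : Cyc N := ⟨ze N, hmem⟩ with hzdef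
  have hz' : IsPrimitiveRoot z N := IsPrimitiveRoot.coe_submonoidClass_iff.mp hz
  have hcl := IsCyclotomicExtension.Rat.isIntegralClosure_adjoin_singleton hz'
  have hint' : IsIntegral ℤ (⟨x, hx⟩ : Cyc N) := by
    have hinj : Function.Injective (algebraMap (Cyc N) ℂ) := (algebraMap (Cyc N) ℂ).injective
    exact (isIntegral_algebraMap_iff hinj).mp hint
  obtain ⟨⟨y, hy2⟩, hy⟩ := (hcl.isIntegral_iff).mp hint'
  obtain ⟨p, hp⟩ : ∃ p : ℤ[X], aeval z p = y := by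
    have h := hy2
    rw [Algebra.adjoin_singleton_eq_range_aeval] at h
    exact h
  have hp' : aeval (ze N) p = x := by
    have h1 : algebraMap (Cyc N) ℂ (aeval z p) = aeval (ze N) p := by
      rw [← aeval_algebraMap_apply]
      rfl
    have h2 : aeval z p = (⟨x, hx⟩ : Cyc N) := by
      rw [← hy]
      exact hp
    rw [← h1, h2]
    rfl
  have hmon : (X ^ N - 1 : ℤ[X]).Monic := monic_X_pow_sub_C 1 hN.ne'
  set r : ℤ[X] := p %ₘ (X ^ N - 1) with hr
  have hdeg : r.natDegree < N := by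
    have h1 : (X ^ N - 1 : ℤ[X]).natDegree = N := natDegree_X_pow_sub_C
    have h2 : (X ^ N - 1 : ℤ[X]) ≠ 1 := by
      intro h
      rw [h, natDegree_one] at h1
      omega
    have h3 := natDegree_modByMonic_lt p hmon h2
    rwa [h1] at h3
  have hzN : ze N ^ N = 1 := hz.pow_eq_one
  have hev : aeval (ze N) r = x := by
    have h1 := modByMonic_add_div p (X ^ N - 1 : ℤ[X])
    have h2 : aeval (ze N) (p %ₘ (X ^ N - 1) + (X ^ N - 1) * (p /ₘ (X ^ N - 1))) = aeval (ze N) p := by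
      rw [h1]
    rw [map_add, map_mul, map_sub, map_pow, aeval_X, hzN, map_one, sub_self, zero_mul, add_zero,
      hp'] at h2
    exact h2
  refine ⟨fun j => r.coeff j, ?_⟩
  rw [← hev, aeval_eq_sum_range' hdeg]
  refine Finset.sum_congr rfl fun j _ => ?_
  rw [zsmul_eq_mul]

end Pool.Agent.Lib.MPcb8a44.AB
end

section
/-!
Module GR of Theorem AB (MP_cb8a44_nt): the graded expansion over a cyclotomic field and
Parseval's identity for the mean square of the conjugates.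
-/
set_option autoImplicit false

namespace Pool.Agent.Lib.MPcb8a44.AB

open scoped BigOperators ComplexConjugate

namespace GrM

lemma ze_mem (N : ℕ) : ze N ∈ Cyc N := IntermediateField.subset_adjoin _ _ (Set.mem_singleton _)

lemma ze_ne (N : ℕ) : ze N ≠ 0 := Complex.exp_ne_zero _

lemma conj_ze (N : ℕ) : conj (ze N) = (ze N)⁻¹ := by
  rw [ze, ← Complex.exp_conj, ← Complex.exp_neg]
  congr 1
  simp only [map_div₀, map_mul, Complex.conj_I, Complex.conj_ofReal, map_natCast, map_ofNat]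
  ring

lemma coe_zpow {N : ℕ} (x : Cyc N) (d : ℤ) : ((x ^ d : Cyc N) : ℂ) = (x : ℂ) ^ d :=
  map_zpow₀ (algebraMap (Cyc N) ℂ) x d

lemma pc_zero (N P g : ℕ) : (0 : ℂ) ∈ Pc N P g := ⟨0, zero_mem _, by simp⟩

lemma pc_add {N P g : ℕ} {x y : ℂ} (hx : x ∈ Pc N P g) (hy : y ∈ Pc N P g) : x + y ∈ Pc N P g := by
  obtain ⟨a, ha, rfl⟩ := hx
  obtain ⟨b, hb, rfl⟩ := hy
  exact ⟨a + b, add_mem ha hb, by ring⟩

lemma pc_smul {N P g : ℕ} {q x : ℂ} (hq : q ∈ Cyc N) (hx : x ∈ Pc N P g) : q * x ∈ Pc N P g := by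
  obtain ⟨a, ha, rfl⟩ := hx
  exact ⟨q * a, mul_mem hq ha, by ring⟩

lemma pc_sum {ι : Type} {N P g : ℕ} (s : Finset ι) (f : ι → ℂ) (h : ∀ i ∈ s, f i ∈ Pc N P g) :
    ∑ i ∈ s, f i ∈ Pc N P g := by
  classical
  induction s using Finset.induction_on with
  | empty => simpa using pc_zero N P g
  | insert a s ha ih =>
    rw [Finset.sum_insert ha]
    exact pc_add (h a (Finset.mem_insert_self a s))
      (ih fun i hi => h i (Finset.mem_insert_of_mem hi))

lemma ze_zpow_mem (hCB : SpecCB) {a b : ℕ} (hb : 0 < b) (h : a ∣ b) (z : ℤ) :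
    ze a ^ z ∈ Cyc b := zpow_mem (hCB.2.2.1 a b hb h (ze_mem a)) z

/-- The decomposition of the powers of the generator. -/
lemma ze_dec (hCB : SpecCB) (p N0 k c Q : ℕ) [NeZero Q] (hp : p.Prime) (hN0 : 0 < N0)
    (hpN : ¬ p ∣ N0) (hck : c ≤ k) (hQ : Q = p ^ (k - c)) :
    ∃ B : ℤ, ∀ j : ℕ, ze (N0 * p ^ k) ^ j ∈
      Pc (N0 * p ^ c) (p ^ k) (((B * j : ℤ) : ZMod Q).val) := by
  have hP : 0 < p ^ k := pow_pos hp.pos k
  have hN : 0 < N0 * p ^ k := Nat.mul_pos hN0 hP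
  have hcop : IsCoprime ((p ^ k : ℕ) : ℤ) (N0 : ℤ) := by
    rw [Int.isCoprime_iff_gcd_eq_one, Int.gcd_natCast_natCast]
    exact Nat.Coprime.pow_left k ((Nat.Prime.coprime_iff_not_dvd hp).mpr hpN)
  obtain ⟨A, B, hAB⟩ := hcop
  refine ⟨B, fun j => ?_⟩
  have e1 : ze N0 = ze (N0 * p ^ k) ^ (p ^ k) := by
    have := hCB.2.1 N0 (N0 * p ^ k) hN (Dvd.intro _ rfl)
    rwa [Nat.mul_div_cancel_left _ hN0] at this
  have e2 : ze (p ^ k) = ze (N0 * p ^ k) ^ N0 := by
    have := hCB.2.1 (p ^ k) (N0 * p ^ k) hN (Dvd.intro_left _ rfl)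
    rwa [Nat.mul_div_cancel _ hP] at this
  have e3 : ze (p ^ c) = ze (p ^ k) ^ Q := by
    have := hCB.2.1 (p ^ c) (p ^ k) hP (pow_dvd_pow p hck)
    rwa [Nat.pow_div hck hp.pos, ← hQ] at this
  have hz : ze (N0 * p ^ k) ≠ 0 := ze_ne _
  -- integer decomposition of the exponent
  obtain ⟨q, hq⟩ : ∃ q : ℤ, B * j = (((B * j : ℤ) : ZMod Q).val : ℤ) + Q * q := by
    refine ⟨B * j / Q, ?_⟩
    rw [ZMod.val_intCast]
    exact (Int.emod_add_mul_ediv _ _).symm
  refine ⟨ze N0 ^ (A * j) * ze (p ^ c) ^ q, ?_, ?_⟩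
  · have hMc : 0 < N0 * p ^ c := Nat.mul_pos hN0 (pow_pos hp.pos c)
    exact mul_mem (ze_zpow_mem hCB hMc (Dvd.intro _ rfl) _)
      (ze_zpow_mem hCB hMc (Dvd.intro_left _ rfl) _)
  · have h1 : ze (N0 * p ^ k) ^ j = ze N0 ^ (A * j) * ze (p ^ k) ^ (B * j) := by
      rw [e1, e2, ← zpow_natCast, ← zpow_natCast, ← zpow_natCast, ← zpow_mul, ← zpow_mul,
        ← zpow_add₀ hz]
      congr 1
      calc (j : ℤ) = (A * ((p ^ k : ℕ) : ℤ) + B * N0) * j := by rw [hAB, one_mul]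
        _ = _ := by push_cast; ring
    rw [h1, mul_assoc]
    congr 1
    conv_lhs => rw [hq]
    rw [zpow_add₀ (ze_ne _), zpow_natCast, zpow_mul, zpow_natCast, ← e3, mul_comm]

/-- Expansion of integral elements. -/
lemma exp_int (hCB : SpecCB) (hINT : SpecINT) (p N0 k c Q : ℕ) [NeZero Q] (hp : p.Prime)
    (hN0 : 0 < N0) (hpN : ¬ p ∣ N0) (hck : c ≤ k) (hQ : Q = p ^ (k - c)) (y : ℂ)
    (hy : y ∈ Cyc (N0 * p ^ k)) (hi : IsIntegral ℤ y) : ∃ Y : ZMod Q → ℂ,
    (∀ g, Y g ∈ Pc (N0 * p ^ c) (p ^ k) g.val) ∧ y = ∑ g, Y g ∧ ∀ g, IsIntegral ℤ (Y g) := by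
  classical
  have hN : 0 < N0 * p ^ k := Nat.mul_pos hN0 (pow_pos hp.pos k)
  obtain ⟨a, ha⟩ := hINT _ hN y hy hi
  obtain ⟨B, hB⟩ := ze_dec hCB p N0 k c Q hp hN0 hpN hck hQ
  refine ⟨fun g => ∑ j ∈ Finset.range (N0 * p ^ k) with ((B * (j : ℕ) : ℤ) : ZMod Q) = g,
    (a j : ℂ) * ze (N0 * p ^ k) ^ j, fun g => ?_, ?_, fun g => ?_⟩
  · refine pc_sum _ _ fun j hj => ?_
    have hg := (Finset.mem_filter.mp hj).2
    have := hB j
    rw [hg] at this
    exact pc_smul (intCast_mem _ _) this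
  · rw [ha]
    exact (Finset.sum_fiberwise (Finset.range (N0 * p ^ k))
      (fun j : ℕ => ((B * (j : ℕ) : ℤ) : ZMod Q)) _).symm
  · refine IsIntegral.sum _ fun j _ => ?_
    refine IsIntegral.mul (isIntegral_algebraMap (R := ℤ) (x := a j)) (IsIntegral.pow ?_ j)
    exact (hCB.1 _ hN).isIntegral hN

lemma exp_all (hCB : SpecCB) (hINT : SpecINT) (p N0 k c Q : ℕ) [NeZero Q] (hp : p.Prime)
    (hN0 : 0 < N0) (hpN : ¬ p ∣ N0) (hck : c ≤ k) (hQ : Q = p ^ (k - c)) (y : ℂ)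
    (hy : y ∈ Cyc (N0 * p ^ k)) : ∃ Y : ZMod Q → ℂ,
    (∀ g, Y g ∈ Pc (N0 * p ^ c) (p ^ k) g.val) ∧ y = ∑ g, Y g ∧
      (IsIntegral ℤ y → ∀ g, IsIntegral ℤ (Y g)) := by
  classical
  have hN : 0 < N0 * p ^ k := Nat.mul_pos hN0 (pow_pos hp.pos k)
  by_cases hi : IsIntegral ℤ y
  · obtain ⟨Y, h1, h2, h3⟩ := exp_int hCB hINT p N0 k c Q hp hN0 hpN hck hQ y hy hi
    exact ⟨Y, h1, h2, fun _ => h3⟩
  · have := hCB.2.2.2.1 _ hN
    have halg : IsAlgebraic ℚ y := by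
      have h := IsAlgebraic.of_finite ℚ (⟨y, hy⟩ : Cyc (N0 * p ^ k))
      exact (isAlgebraic_algebraMap_iff (algebraMap (Cyc (N0 * p ^ k)) ℂ).injective).mpr h
    have halg' : IsAlgebraic ℤ y := (IsFractionRing.isAlgebraic_iff ℤ ℚ ℂ).mpr halg
    obtain ⟨m, hm, hmy⟩ := halg'.exists_integral_multiple
    have hmC : (m : ℂ) ≠ 0 := by exact_mod_cast hm
    have hmy' : IsIntegral ℤ ((m : ℂ) * y) := by simpa [zsmul_eq_mul] using hmy
    obtain ⟨Y, h1, h2, h3⟩ := exp_int hCB hINT p N0 k c Q hp hN0 hpN hck hQ ((m : ℂ) * y)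
      (mul_mem (intCast_mem _ _) hy) hmy'
    refine ⟨fun g => (m : ℂ)⁻¹ * Y g, fun g => pc_smul (inv_mem (intCast_mem _ _)) (h1 g), ?_,
      fun h => absurd h hi⟩
    rw [← Finset.mul_sum, ← h2]
    field_simp

lemma ntr_inv {N : ℕ} (σ : Cyc N ≃ₐ[ℚ] Cyc N) (x : Cyc N) :
    ntr ((σ x : Cyc N) : ℂ) = ntr (x : ℂ) := by
  have h1 : minpoly ℚ ((σ x : Cyc N) : ℂ) = minpoly ℚ (σ x) :=
    minpoly.algebraMap_eq (algebraMap (Cyc N) ℂ).injective (σ x)
  have h2 : minpoly ℚ (x : ℂ) = minpoly ℚ x :=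
    minpoly.algebraMap_eq (algebraMap (Cyc N) ℂ).injective x
  rw [ntr, ntr, h1, h2, minpoly.algEquiv_eq σ x]

lemma ntr_sum (hMB : SpecMB) {N : ℕ} (hN : 0 < N) {ι : Type} (s : Finset ι) (f : ι → ℂ)
    (h : ∀ i ∈ s, f i ∈ Cyc N) : ntr (∑ i ∈ s, f i) = ∑ i ∈ s, ntr (f i) := by
  classical
  have h0 : ntr 0 = 0 := by
    have := (hMB N hN).1 0 (zero_mem _) 0 (zero_mem _)
    rw [add_zero] at this
    linarith
  induction s using Finset.induction_on with
  | empty => simpa using h0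
  | insert a s ha ih =>
    rw [Finset.sum_insert ha, Finset.sum_insert ha,
      (hMB N hN).1 _ (h a (Finset.mem_insert_self a s)) _
        (sum_mem fun i hi => h i (Finset.mem_insert_of_mem hi)),
      ih fun i hi => h i (Finset.mem_insert_of_mem hi)]

/-- An automorphism which fixes `ze M` fixes `Cyc M`. -/
lemma fix_sub {N M : ℕ} (hMN : Cyc M ≤ Cyc N) (σ : Cyc N ≃ₐ[ℚ] Cyc N)
    (h : ∀ x : Cyc N, (x : ℂ) = ze M → ((σ x : Cyc N) : ℂ) = ze M) :
    ∀ x : Cyc N, (x : ℂ) ∈ Cyc M → σ x = x := by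
  intro x hx
  have key : ∀ (z : ℂ) (hz : z ∈ Cyc M), σ ⟨z, hMN hz⟩ = ⟨z, hMN hz⟩ := by
    intro z hz
    have hz' : z ∈ IntermediateField.adjoin ℚ {ze M} := hz
    induction hz' using IntermediateField.adjoin_induction with
    | mem w hw =>
      obtain rfl : w = ze M := hw
      exact Subtype.ext (h _ rfl)
    | algebraMap q => exact σ.commutes q
    | add w1 w2 h1 h2 ih1 ih2 =>
      have := congrArg₂ (· + ·) (ih1 h1) (ih2 h2)
      simp only [← map_add] at this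
      exact this
    | inv w h1 ih1 =>
      have := congrArg (·⁻¹) (ih1 h1)
      simp only [← map_inv₀] at this
      exact this
    | mul w1 w2 h1 h2 ih1 ih2 =>
      have := congrArg₂ (· * ·) (ih1 h1) (ih2 h2)
      simp only [← map_mul] at this
      exact this
  exact key _ hx

/-- Vanishing of the trace of a piece of nonzero degree. -/
lemma ntr_piece (hCB : SpecCB) (hGAL : SpecGAL) (hMB : SpecMB) (p N0 k c Q : ℕ) [NeZero Q]
    (hp : p.Prime) (hN0 : 0 < N0) (hpN : ¬ p ∣ N0) (hc : 1 ≤ c) (hck : c ≤ k)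
    (hQ : Q = p ^ (k - c)) (a : ℂ) (ha : a ∈ Cyc (N0 * p ^ c)) (d : ℤ) (hd : ¬ (Q : ℤ) ∣ d) :
    ntr (a * ze (p ^ k) ^ d) = 0 := by
  classical
  have hP : 0 < p ^ k := pow_pos hp.pos k
  have hN : 0 < N0 * p ^ k := Nat.mul_pos hN0 hP
  have hMc : 0 < N0 * p ^ c := Nat.mul_pos hN0 (pow_pos hp.pos c)
  have hMN : N0 * p ^ c ∣ N0 * p ^ k := Nat.mul_dvd_mul_left _ (pow_dvd_pow p hck)
  have hle : Cyc (N0 * p ^ c) ≤ Cyc (N0 * p ^ k) := hCB.2.2.1 _ _ hN hMN
  have hleP : Cyc (p ^ k) ≤ Cyc (N0 * p ^ k) := hCB.2.2.1 _ _ hN (Dvd.intro_left _ rfl)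
  have hQ0 : 0 < Q := Nat.pos_of_ne_zero (NeZero.ne Q)
  set w : ℂ := a * ze (p ^ k) ^ d with hw
  have hζ : ze (p ^ k) ∈ Cyc (N0 * p ^ k) := hleP (ze_mem _)
  have hwm : w ∈ Cyc (N0 * p ^ k) := mul_mem (hle ha) (zpow_mem hζ d)
  have e2 : ze (p ^ k) = ze (N0 * p ^ k) ^ N0 := by
    have := hCB.2.1 (p ^ k) (N0 * p ^ k) hN (Dvd.intro_left _ rfl)
    rwa [Nat.mul_div_cancel _ hP] at this
  have e3 : ze (N0 * p ^ c) = ze (N0 * p ^ k) ^ Q := by
    have := hCB.2.1 (N0 * p ^ c) (N0 * p ^ k) hN hMN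
    rwa [Nat.mul_div_mul_left _ _ hN0, Nat.pow_div hck hp.pos, ← hQ] at this
  have e4 : ze Q = ze (p ^ k) ^ (p ^ c) := by
    have hd : Q ∣ p ^ k := by rw [hQ]; exact pow_dvd_pow p (Nat.sub_le k c)
    have := hCB.2.1 Q (p ^ k) hP hd
    have h2 : p ^ k / Q = p ^ c := by
      rw [hQ, Nat.pow_div (Nat.sub_le k c) hp.pos, Nat.sub_sub_self hck]
    rwa [h2] at this
  have hprim : IsPrimitiveRoot (ze Q) Q := hCB.1 Q hQ0
  -- the automorphisms
  have hex : ∀ u : ℕ, ∃ σ : Cyc (N0 * p ^ k) ≃ₐ[ℚ] Cyc (N0 * p ^ k),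
      ((σ ⟨w, hwm⟩ : Cyc (N0 * p ^ k)) : ℂ) = w * ((ze Q ^ N0) ^ d) ^ u := by
    intro u
    have hs : (1 + N0 * p ^ c * u).Coprime (N0 * p ^ k) := by
      have h1 : (1 + N0 * p ^ c * u).Coprime N0 := by
        rw [Nat.mul_assoc, Nat.coprime_add_mul_left_left]
        exact Nat.coprime_one_left _
      have h2 : (1 + N0 * p ^ c * u).Coprime p := by
        obtain ⟨c', rfl⟩ : ∃ c', c = c' + 1 := ⟨c - 1, by omega⟩
        have : N0 * p ^ (c' + 1) * u = p * (N0 * p ^ c' * u) := by ring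
        rw [this, Nat.coprime_add_mul_left_left]
        exact Nat.coprime_one_left _
      exact Nat.Coprime.mul_right h1 (Nat.Coprime.pow_right k h2)
    obtain ⟨σ, hσ⟩ := (hGAL _ hN).2.2.1 _ hs
    refine ⟨σ, ?_⟩
    have hzN : ze (N0 * p ^ k) ^ (N0 * p ^ k) = 1 := (hCB.1 _ hN).pow_eq_one
    set g : Cyc (N0 * p ^ k) := ⟨ze (N0 * p ^ k), ze_mem _⟩ with hg
    have hσg : ((σ g : Cyc (N0 * p ^ k)) : ℂ) = ze (N0 * p ^ k) ^ (1 + N0 * p ^ c * u) := hσ g rfl
    have hfix : ∀ x : Cyc (N0 * p ^ k), (x : ℂ) ∈ Cyc (N0 * p ^ c) → σ x = x := by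
      refine fix_sub hle σ fun x hx => ?_
      have hxg : x = g ^ Q := Subtype.ext (by rw [hx, e3]; rfl)
      rw [hxg, map_pow]
      have : (((σ g) ^ Q : Cyc (N0 * p ^ k)) : ℂ) = ((σ g : Cyc (N0 * p ^ k)) : ℂ) ^ Q := rfl
      rw [this, hσg, ← pow_mul, e3]
      have h3 : (1 + N0 * p ^ c * u) * Q = Q + (N0 * p ^ k) * u := by
        have : p ^ k = p ^ c * Q := by rw [hQ, ← pow_add]; congr 1; omega
        rw [this]; ring
      rw [h3, pow_add, pow_mul, hzN, one_pow, mul_one]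
    have hz : ((σ ⟨ze (p ^ k), hζ⟩ : Cyc (N0 * p ^ k)) : ℂ) = ze (p ^ k) * (ze Q ^ N0) ^ u := by
      have hxg : (⟨ze (p ^ k), hζ⟩ : Cyc (N0 * p ^ k)) = g ^ N0 := Subtype.ext (by
        show ze (p ^ k) = ze (N0 * p ^ k) ^ N0
        exact e2)
      rw [hxg, map_pow]
      have : (((σ g) ^ N0 : Cyc (N0 * p ^ k)) : ℂ) = ((σ g : Cyc (N0 * p ^ k)) : ℂ) ^ N0 := rfl
      rw [this, hσg, e4, e2, ← pow_mul, ← pow_mul, ← pow_mul, ← pow_mul, ← pow_add]
      congr 1
      ring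
    have hwe : (⟨w, hwm⟩ : Cyc (N0 * p ^ k)) = ⟨a, hle ha⟩ * ⟨ze (p ^ k), hζ⟩ ^ d := by
      refine Subtype.ext ?_
      rw [IntermediateField.coe_mul, coe_zpow]
    rw [hwe, map_mul, map_zpow₀, hfix ⟨a, hle ha⟩ ha]
    have : (((⟨a, hle ha⟩ : Cyc (N0 * p ^ k)) * (σ ⟨ze (p ^ k), hζ⟩) ^ d : Cyc (N0 * p ^ k)) : ℂ)
        = a * ((σ ⟨ze (p ^ k), hζ⟩ : Cyc (N0 * p ^ k)) : ℂ) ^ d := by
      rw [IntermediateField.coe_mul, coe_zpow]
    rw [this, hz, hw, mul_zpow, ← zpow_natCast ((ze Q ^ N0)) u, ← zpow_mul, mul_comm (u : ℤ) d,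
      zpow_mul, zpow_natCast, mul_assoc]
  set ρ : ℂ := (ze Q ^ N0) ^ d with hρ
  have hρ1 : ρ ≠ 1 := by
    rw [hρ, ← zpow_natCast, ← zpow_mul, Ne, hprim.zpow_eq_one_iff_dvd]
    intro h
    have hc : IsCoprime (Q : ℤ) (N0 : ℤ) := by
      rw [Int.isCoprime_iff_gcd_eq_one, Int.gcd_natCast_natCast, hQ]
      exact Nat.Coprime.pow_left _ ((Nat.Prime.coprime_iff_not_dvd hp).mpr hpN)
    exact hd (hc.dvd_of_dvd_mul_left h)
  have hρQ : ρ ^ Q = 1 := by
    rw [hρ, ← zpow_natCast, ← zpow_natCast, ← zpow_mul, ← zpow_mul, hprim.zpow_eq_one_iff_dvd]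
    exact ⟨(N0 : ℤ) * d, by ring⟩
  have hsum : ∑ u ∈ Finset.range Q, w * ρ ^ u = 0 := by
    rw [← Finset.mul_sum, geom_sum_eq hρ1, hρQ]
    simp
  have hmem : ∀ u : ℕ, w * ρ ^ u ∈ Cyc (N0 * p ^ k) := by
    intro u
    obtain ⟨σ, hσ⟩ := hex u
    rw [← hσ]
    exact Subtype.property _
  have hntr : ∀ u : ℕ, ntr (w * ρ ^ u) = ntr w := by
    intro u
    obtain ⟨σ, hσ⟩ := hex u
    rw [← hσ, ntr_inv]
  have h0 := ntr_sum hMB hN (Finset.range Q) (fun u => w * ρ ^ u) fun u _ => hmem u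
  rw [hsum] at h0
  simp only [hntr, Finset.sum_const, Finset.card_range, nsmul_eq_mul] at h0
  have h00 : ntr 0 = 0 := by
    have := (hMB _ hN).1 0 (zero_mem _) 0 (zero_mem _)
    rw [add_zero] at this
    linarith
  rw [h00] at h0
  have hQr : (Q : ℝ) ≠ 0 := by exact_mod_cast hQ0.ne'
  rcases mul_eq_zero.mp h0.symm with h | h
  · exact absurd h hQr
  · exact h

/-- Parseval. -/
lemma parseval (hCB : SpecCB) (hGAL : SpecGAL) (hMB : SpecMB) (p N0 k c Q : ℕ) [NeZero Q]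
    (hp : p.Prime) (hN0 : 0 < N0) (hpN : ¬ p ∣ N0) (hc : 1 ≤ c) (hck : c ≤ k)
    (hQ : Q = p ^ (k - c)) (Y : ZMod Q → ℂ) (hY : ∀ g, Y g ∈ Pc (N0 * p ^ c) (p ^ k) g.val) :
    M (∑ g, Y g) = ∑ g, M (Y g) := by
  classical
  have hN : 0 < N0 * p ^ k := Nat.mul_pos hN0 (pow_pos hp.pos k)
  have hMc : 0 < N0 * p ^ c := Nat.mul_pos hN0 (pow_pos hp.pos c)
  have hMN : N0 * p ^ c ∣ N0 * p ^ k := Nat.mul_dvd_mul_left _ (pow_dvd_pow p hck)
  have hle : Cyc (N0 * p ^ c) ≤ Cyc (N0 * p ^ k) := hCB.2.2.1 _ _ hN hMN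
  have hleP : Cyc (p ^ k) ≤ Cyc (N0 * p ^ k) := hCB.2.2.1 _ _ hN (Dvd.intro_left _ rfl)
  have hYm : ∀ g, Y g ∈ Cyc (N0 * p ^ k) := by
    intro g
    obtain ⟨a, ha, h⟩ := hY g
    rw [h]
    exact mul_mem (hle ha) (pow_mem (hleP (ze_mem _)) _)
  have hYc : ∀ g, conj (Y g) ∈ Cyc (N0 * p ^ k) := fun g => hCB.2.2.2.2 _ hN _ (hYm g)
  have hoff : ∀ g h, g ≠ h → ntr (Y g * conj (Y h)) = 0 := by
    intro g h hgh
    obtain ⟨a, ha, hga⟩ := hY g
    obtain ⟨b, hb, hgb⟩ := hY h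
    have hw : Y g * conj (Y h) = (a * conj b) * ze (p ^ k) ^ ((g.val : ℤ) - h.val) := by
      rw [hga, hgb, map_mul, map_pow, conj_ze, zpow_sub₀ (ze_ne _), zpow_natCast, zpow_natCast,
        inv_pow]
      ring
    rw [hw]
    refine ntr_piece hCB hGAL hMB p N0 k c Q hp hN0 hpN hc hck hQ _
      (mul_mem ha (hCB.2.2.2.2 _ hMc _ hb)) _ ?_
    intro hdiv
    apply hgh
    have h1 : ((((g.val : ℤ) - h.val : ℤ)) : ZMod Q) = 0 := (ZMod.intCast_zmod_eq_zero_iff_dvd _ _).mpr hdiv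
    push_cast at h1
    rw [ZMod.natCast_zmod_val, ZMod.natCast_zmod_val] at h1
    exact sub_eq_zero.mp h1
  have hM : M (∑ g, Y g) = ntr (∑ g, ∑ h, Y g * conj (Y h)) := by
    rw [M, map_sum, Finset.sum_mul_sum]
  rw [hM, ntr_sum hMB hN _ _ fun g _ => sum_mem fun h _ => mul_mem (hYm g) (hYc h)]
  refine Finset.sum_congr rfl fun g _ => ?_
  rw [ntr_sum hMB hN _ _ fun h _ => mul_mem (hYm g) (hYc h)]
  rw [Finset.sum_eq_single g (fun h _ hne => hoff g h hne.symm)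
    (fun h => absurd (Finset.mem_univ g) h)]
  rfl

end GrM

theorem specGR (hCB : SpecCB) (hGAL : SpecGAL) (hMB : SpecMB) (hINT : SpecINT) : SpecGR := by
  intro p N0 k c Q _ hp hN0 hpN hc hck hQ y hy
  obtain ⟨Y, h1, h2, h3⟩ := GrM.exp_all hCB hINT p N0 k c Q hp hN0 hpN hck hQ y hy
  refine ⟨Y, h1, h2, ?_, h3⟩
  rw [h2]
  exact GrM.parseval hCB hGAL hMB p N0 k c Q hp hN0 hpN hc hck hQ Y h1

end Pool.Agent.Lib.MPcb8a44.AB
end

section
/-!
CAS: the formula of Cassels for `ℚ(ζ_{N0 p})` over `ℚ(ζ_{N0})`.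
-/
set_option autoImplicit false

namespace Pool.Agent.Lib.MPcb8a44.AB

open scoped BigOperators ComplexConjugate

namespace CasM

open GrM Finset

/-- Lagrange's identity. -/
lemma pairs (p : ℕ) (b : ℕ → ℂ) :
    ∑ j ∈ range p, ∑ i ∈ range j, ‖b i - b j‖ ^ 2 =
      (p : ℝ) * ∑ i ∈ range p, ‖b i‖ ^ 2 - ‖∑ i ∈ range p, b i‖ ^ 2 := by
  induction p with
  | zero => simp
  | succ p ih =>
    rw [sum_range_succ, ih, sum_range_succ, sum_range_succ]
    have h1 : ∑ i ∈ range p, ‖b i - b p‖ ^ 2 =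
        ∑ i ∈ range p, ‖b i‖ ^ 2 + p * ‖b p‖ ^ 2 - 2 * ((∑ i ∈ range p, b i) * conj (b p)).re := by
      have h2 : ∀ i, ‖b i - b p‖ ^ 2 = ‖b i‖ ^ 2 + ‖b p‖ ^ 2 - 2 * (b i * conj (b p)).re := by
        intro i
        rw [← Complex.normSq_eq_norm_sq, ← Complex.normSq_eq_norm_sq, ← Complex.normSq_eq_norm_sq,
          Complex.normSq_sub]
      simp_rw [h2]
      rw [sum_sub_distrib, sum_add_distrib, sum_const, card_range, nsmul_eq_mul, ← mul_sum,
        sum_mul, Complex.re_sum]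
    have h3 : ‖∑ i ∈ range p, b i + b p‖ ^ 2 = ‖∑ i ∈ range p, b i‖ ^ 2 + ‖b p‖ ^ 2 +
        2 * ((∑ i ∈ range p, b i) * conj (b p)).re := by
      rw [← Complex.normSq_eq_norm_sq, ← Complex.normSq_eq_norm_sq, ← Complex.normSq_eq_norm_sq,
        Complex.normSq_add]
    rw [h1, h3]
    push_cast
    ring

/-- Orthogonality of the characters of `ℤ/p`. -/
lemma orth (p : ℕ) (hp : 0 < p) (ζ : ℂ) (hζ : IsPrimitiveRoot ζ p) (b : ℕ → ℂ) :
    ∑ r ∈ range p, ‖∑ i ∈ range p, b i * ζ ^ (r * i)‖ ^ 2 =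
      (p : ℝ) * ∑ i ∈ range p, ‖b i‖ ^ 2 := by
  have hn : ‖ζ‖ = 1 := Complex.norm_eq_one_of_pow_eq_one hζ.pow_eq_one hp.ne'
  have hζ0 : ζ ≠ 0 := hζ.ne_zero hp.ne'
  have hc : conj ζ = ζ⁻¹ := by
    rw [Complex.inv_def, Complex.normSq_eq_norm_sq, hn]
    simp
  have key : ((∑ r ∈ range p, ‖∑ i ∈ range p, b i * ζ ^ (r * i)‖ ^ 2 : ℝ) : ℂ) =
      (((p : ℝ) * ∑ i ∈ range p, ‖b i‖ ^ 2 : ℝ) : ℂ) := by
    push_cast
    have h1 : ∀ r ∈ range p, ((‖∑ i ∈ range p, b i * ζ ^ (r * i)‖ : ℝ) : ℂ) ^ 2 =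
        ∑ i ∈ range p, ∑ j ∈ range p, b i * conj (b j) * (ζ ^ ((i : ℤ) - j)) ^ r := by
      intro r _
      rw [← Complex.mul_conj', map_sum, sum_mul_sum]
      refine sum_congr rfl fun i _ => sum_congr rfl fun j _ => ?_
      rw [map_mul, map_pow, hc, zpow_sub₀ hζ0, zpow_natCast, zpow_natCast, div_pow, ← pow_mul,
        ← pow_mul, inv_pow, mul_comm r i, mul_comm r j]
      field_simp
    rw [sum_congr rfl h1, sum_comm, mul_sum]
    refine sum_congr rfl fun i hi => ?_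
    rw [sum_comm]
    have h2 : ∀ j ∈ range p, ∑ r ∈ range p, b i * conj (b j) * (ζ ^ ((i : ℤ) - j)) ^ r =
        if j = i then (p : ℂ) * (‖b i‖ : ℂ) ^ 2 else 0 := by
      intro j hj
      rw [← mul_sum]
      split_ifs with hji
      · subst hji
        simp only [sub_self, zpow_zero, one_pow, sum_const, card_range, nsmul_eq_mul, mul_one]
        rw [Complex.mul_conj']
        ring
      · have h3 : ζ ^ ((i : ℤ) - j) ≠ 1 := by
          intro h
          have h4 := (hζ.zpow_eq_one_iff_dvd _).mp h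
          have h5 : ((i : ℤ) - j) = 0 := by
            refine Int.eq_zero_of_abs_lt_dvd h4 ?_
            have := mem_range.mp hi
            have := mem_range.mp hj
            rw [abs_lt]
            constructor <;> omega
          exact hji (by omega)
        have h4 : (ζ ^ ((i : ℤ) - j)) ^ p = 1 := by
          rw [← zpow_natCast, ← zpow_mul, mul_comm, zpow_mul, zpow_natCast, hζ.pow_eq_one, one_zpow]
        have h5 := geom_sum_eq h3 p
        rw [h5, h4]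
        simp
    rw [sum_congr rfl h2, sum_ite_eq' (range p) i, if_pos hi]
  exact_mod_cast key

/-- The formula of Cassels. -/
lemma cassels (hCB : SpecCB) (hGAL : SpecGAL) (hMF : SpecMF) (p N0 : ℕ) (hp : p.Prime)
    (hN0 : 0 < N0) (hpN : ¬ p ∣ N0) (a : ℕ → ℂ) (ha : ∀ i, a i ∈ Cyc N0) :
    ((p : ℝ) - 1) * M (∑ i ∈ range p, a i * ze p ^ i) =
      ∑ j ∈ range p, ∑ i ∈ range j, M (a i - a j) := by
  classical
  have hN : 0 < N0 * p := Nat.mul_pos hN0 hp.pos
  obtain ⟨hG, -, hex, -, -, -, -⟩ := hGAL (N0 * p) hN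
  have hfd := hCB.2.2.2.1 (N0 * p) hN
  have := hfd
  haveI : Fintype (Cyc (N0 * p) ≃ₐ[ℚ] Cyc (N0 * p)) := Fintype.ofFinite _
  have hM : ∀ z : Cyc (N0 * p), M (z : ℂ) =
      (∑ σ : Cyc (N0 * p) ≃ₐ[ℚ] Cyc (N0 * p), ‖((σ z : Cyc (N0 * p)) : ℂ)‖ ^ 2) /
        (Nat.card (Cyc (N0 * p) ≃ₐ[ℚ] Cyc (N0 * p)) : ℝ) := by
    intro z
    rw [(hMF (N0 * p) hN).2 z, finsum_eq_sum_of_fintype]
  have hle : Cyc N0 ≤ Cyc (N0 * p) := hCB.2.2.1 _ _ hN (Dvd.intro _ rfl)
  have hlep : Cyc p ≤ Cyc (N0 * p) := hCB.2.2.1 _ _ hN (Dvd.intro_left _ rfl)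
  have e1 : ze N0 = ze (N0 * p) ^ p := by
    have := hCB.2.1 N0 (N0 * p) hN (Dvd.intro _ rfl)
    rwa [Nat.mul_div_cancel_left _ hN0] at this
  have e2 : ze p = ze (N0 * p) ^ N0 := by
    have := hCB.2.1 p (N0 * p) hN (Dvd.intro_left _ rfl)
    rwa [Nat.mul_div_cancel _ hp.pos] at this
  -- elements of the big field
  let A : ℕ → Cyc (N0 * p) := fun i => ⟨a i, hle (ha i)⟩
  let Z : Cyc (N0 * p) := ⟨ze p, hlep (ze_mem p)⟩
  let W : Cyc (N0 * p) := ⟨ze (N0 * p), ze_mem _⟩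
  have hZW : Z = W ^ N0 := Subtype.ext (by simpa [Z, W] using e2)
  let y : Cyc (N0 * p) := ∑ i ∈ range p, A i * Z ^ i
  have hy : (y : ℂ) = ∑ i ∈ range p, a i * ze p ^ i := by
    simp [y, A, Z]
  -- the automorphisms `τ r`
  have hτ : ∀ r : ℕ, ∃ τ : Cyc (N0 * p) ≃ₐ[ℚ] Cyc (N0 * p), ¬ p ∣ r →
      (∀ i, τ (A i) = A i) ∧ τ Z = Z ^ r := by
    intro r
    by_cases hr : p ∣ r
    · exact ⟨AlgEquiv.refl, fun h => absurd hr h⟩
    have hcop : N0.Coprime p := ((Nat.Prime.coprime_iff_not_dvd hp).mpr hpN).symm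
    obtain ⟨s, hs1, hs2⟩ := Nat.chineseRemainder hcop 1 r
    have hsN0 : s.Coprime N0 := by
      have h1 : Nat.gcd s N0 = Nat.gcd 1 N0 := Nat.ModEq.gcd_eq hs1
      rw [Nat.Coprime, h1]
      exact Nat.gcd_one_left _
    have hsp : s.Coprime p := by
      have h1 : Nat.gcd s p = Nat.gcd r p := Nat.ModEq.gcd_eq hs2
      rw [Nat.Coprime, h1]
      exact ((Nat.Prime.coprime_iff_not_dvd hp).mpr hr).symm
    obtain ⟨τ, hτ⟩ := hex s (Nat.Coprime.mul_right hsN0 hsp)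
    have hτW : τ W = W ^ s := Subtype.ext (by simpa [W] using hτ W rfl)
    refine ⟨τ, fun _ => ⟨fun i => ?_, ?_⟩⟩
    · refine fix_sub hle τ ?_ (A i) (ha i)
      intro x hx
      have hxW : x = W ^ p := Subtype.ext (by simpa [W, hx] using e1)
      rw [hxW, map_pow, hτW, ← pow_mul, mul_comm s p, pow_mul, ← hxW]
      have h1 : (ze N0) ^ N0 = 1 := (hCB.1 N0 hN0).pow_eq_one
      have h2 : ze N0 ^ s = ze N0 ^ 1 := by
        rw [pow_eq_pow_mod s h1, pow_eq_pow_mod 1 h1, hs1]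
      simpa [hx] using h2
    · rw [hZW, map_pow, hτW, ← pow_mul, mul_comm s N0, pow_mul, ← hZW]
      refine Subtype.ext ?_
      have h1 : (ze p) ^ p = 1 := (hCB.1 p hp.pos).pow_eq_one
      have h2 : ze p ^ s = ze p ^ r := by
        rw [pow_eq_pow_mod s h1, pow_eq_pow_mod r h1, hs2]
      simpa [Z] using h2
  choose τ hτ using hτ
  -- the computation for one automorphism
  have h1 : ∀ σ : Cyc (N0 * p) ≃ₐ[ℚ] Cyc (N0 * p),
      ∑ r ∈ range (p - 1), ‖((σ (τ (r + 1) y) : Cyc (N0 * p)) : ℂ)‖ ^ 2 =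
        ∑ j ∈ range p, ∑ i ∈ range j, ‖((σ (A i - A j) : Cyc (N0 * p)) : ℂ)‖ ^ 2 := by
    intro σ
    have hprim : IsPrimitiveRoot ((σ Z : Cyc (N0 * p)) : ℂ) p := by
      have h1 : IsPrimitiveRoot Z p := by
        have h2 : IsPrimitiveRoot ((algebraMap (Cyc (N0 * p)) ℂ) Z) p := hCB.1 p hp.pos
        exact IsPrimitiveRoot.of_map_of_injective (f := algebraMap (Cyc (N0 * p)) ℂ) h2
          (algebraMap (Cyc (N0 * p)) ℂ).injective
      have h2 : IsPrimitiveRoot (σ Z) p := h1.map_of_injective σ.injective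
      exact h2.map_of_injective (f := algebraMap (Cyc (N0 * p)) ℂ)
        (algebraMap (Cyc (N0 * p)) ℂ).injective
    have h3 := orth p hp.pos _ hprim (fun i => ((σ (A i) : Cyc (N0 * p)) : ℂ))
    have h4 := pairs p (fun i => ((σ (A i) : Cyc (N0 * p)) : ℂ))
    have h5 : ∀ j i, ‖((σ (A i - A j) : Cyc (N0 * p)) : ℂ)‖ ^ 2 =
        ‖((σ (A i) : Cyc (N0 * p)) : ℂ) - ((σ (A j) : Cyc (N0 * p)) : ℂ)‖ ^ 2 := by
      intro j i
      rw [map_sub]
      rfl
    simp_rw [h5]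
    rw [h4, ← h3]
    obtain ⟨q, rfl⟩ : ∃ q, p = q + 1 := ⟨p - 1, by have := hp.pos; omega⟩
    rw [sum_range_succ' (fun r => ‖∑ i ∈ range (q + 1), ((σ (A i) : Cyc (N0 * (q + 1))) : ℂ) *
      ((σ Z : Cyc (N0 * (q + 1))) : ℂ) ^ (r * i)‖ ^ 2)]
    simp only [zero_mul, pow_zero, mul_one, Nat.add_sub_cancel, add_sub_cancel_right]
    refine sum_congr rfl fun r hr => ?_
    have hr1 : ¬ (q + 1) ∣ (r + 1) := by
      intro h
      have := Nat.le_of_dvd (Nat.succ_pos r) h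
      have := mem_range.mp hr
      omega
    obtain ⟨h6, h7⟩ := hτ (r + 1) hr1
    have h8 : τ (r + 1) y = ∑ i ∈ range (q + 1), A i * Z ^ ((r + 1) * i) := by
      simp only [y, map_sum, map_mul, map_pow, h6, h7, ← pow_mul]
    rw [h8]
    simp only [map_sum, map_mul, map_pow, AddSubmonoidClass.coe_finsetSum, MulMemClass.coe_mul,
      SubmonoidClass.coe_pow]
  -- averaging
  have h2 : ((p : ℝ) - 1) * ∑ σ : Cyc (N0 * p) ≃ₐ[ℚ] Cyc (N0 * p),
      ‖((σ y : Cyc (N0 * p)) : ℂ)‖ ^ 2 =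
      ∑ j ∈ range p, ∑ i ∈ range j, ∑ σ : Cyc (N0 * p) ≃ₐ[ℚ] Cyc (N0 * p),
        ‖((σ (A i - A j) : Cyc (N0 * p)) : ℂ)‖ ^ 2 := by
    have h3 : ∀ r : ℕ, ∑ σ : Cyc (N0 * p) ≃ₐ[ℚ] Cyc (N0 * p),
        ‖((σ (τ (r + 1) y) : Cyc (N0 * p)) : ℂ)‖ ^ 2 =
        ∑ σ : Cyc (N0 * p) ≃ₐ[ℚ] Cyc (N0 * p), ‖((σ y : Cyc (N0 * p)) : ℂ)‖ ^ 2 := by
      intro r
      exact Fintype.sum_equiv (Equiv.mulRight (τ (r + 1))) _ _ (fun σ => rfl)
    have h4 : ((p : ℝ) - 1) * ∑ σ : Cyc (N0 * p) ≃ₐ[ℚ] Cyc (N0 * p),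
        ‖((σ y : Cyc (N0 * p)) : ℂ)‖ ^ 2 = ∑ r ∈ range (p - 1),
        ∑ σ : Cyc (N0 * p) ≃ₐ[ℚ] Cyc (N0 * p), ‖((σ (τ (r + 1) y) : Cyc (N0 * p)) : ℂ)‖ ^ 2 := by
      rw [sum_congr rfl fun r _ => h3 r, sum_const, card_range, nsmul_eq_mul,
        Nat.cast_sub hp.pos, Nat.cast_one]
    rw [h4, sum_comm, sum_congr rfl fun σ _ => h1 σ, sum_comm]
    exact sum_congr rfl fun j _ => sum_comm
  have h3 : ∀ i j, M (a i - a j) = (∑ σ : Cyc (N0 * p) ≃ₐ[ℚ] Cyc (N0 * p),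
      ‖((σ (A i - A j) : Cyc (N0 * p)) : ℂ)‖ ^ 2) /
        (Nat.card (Cyc (N0 * p) ≃ₐ[ℚ] Cyc (N0 * p)) : ℝ) := fun i j => hM (A i - A j)
  rw [← hy, hM y, ← mul_div_assoc, h2]
  simp_rw [h3, sum_div]

lemma zsum {E : Type} [AddCommMonoid E] (n : ℕ) [NeZero n] (F : ZMod n → E) :
    ∑ g, F g = ∑ i ∈ range n, F (i : ZMod n) := by
  refine (Finset.sum_nbij' (fun i : ℕ => (i : ZMod n)) (fun g => g.val) ?_ ?_ ?_ ?_ ?_).symm
  · intro i _
    exact mem_univ _
  · intro g _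
    exact mem_range.mpr (ZMod.val_lt g)
  · intro i hi
    exact ZMod.val_natCast_of_lt (mem_range.mp hi)
  · intro g _
    exact ZMod.natCast_zmod_val g
  · intro i _
    rfl

end CasM

open CasM GrM Finset in
theorem specCAS (hCB : SpecCB) (hGAL : SpecGAL) (hMF : SpecMF) (hINT : SpecINT) : SpecCAS := by
  intro p N0 hp hN0 hpN y hy hi
  have : NeZero p := ⟨hp.ne_zero⟩
  obtain ⟨Y, hY1, hY2, hY3⟩ := exp_int hCB hINT p N0 1 0 p hp hN0 hpN (Nat.zero_le _)
    (by simp) y (by simpa using hy) hi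
  simp only [pow_zero, mul_one, pow_one] at hY1
  have hz : ze p ^ p = 1 := (hCB.1 p hp.pos).pow_eq_one
  let a : ℕ → ℂ := fun i => Y (i : ZMod p) * (ze p)⁻¹ ^ ((i : ZMod p).val)
  have ha : ∀ i, a i ∈ Cyc N0 := by
    intro i
    obtain ⟨b, hb, hb'⟩ := hY1 (i : ZMod p)
    have h1 : a i = b := by
      simp only [a]
      rw [hb', mul_assoc, ← mul_pow, mul_inv_cancel₀ (ze_ne p), one_pow, mul_one]
    rw [h1]
    exact hb
  have hy' : y = ∑ i ∈ range p, a i * ze p ^ i := by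
    rw [hY2, zsum]
    refine sum_congr rfl fun i hi => ?_
    simp only [a]
    rw [ZMod.val_natCast_of_lt (mem_range.mp hi), mul_assoc, ← mul_pow,
      inv_mul_cancel₀ (ze_ne p), one_pow, mul_one]
  refine ⟨a, fun i => ⟨ha i, ?_⟩, hy', ?_⟩
  · refine (hY3 _).mul (IsIntegral.pow ?_ _)
    refine IsIntegral.of_pow hp.pos ?_
    rw [inv_pow, hz, inv_one]
    exact isIntegral_one
  · rw [hy']
    exact cassels hCB hGAL hMF p N0 hp hN0 hpN a ha

end Pool.Agent.Lib.MPcb8a44.AB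
end

section
/-!
Module MF: the normalised trace and the mean square as averages over the Galois group.
-/
set_option autoImplicit false

namespace Pool.Agent.Lib.MPcb8a44.AB

namespace MFM

open scoped ComplexConjugate
open CBM GalM

theorem ntr_eq (N : ℕ) [NeZero N] (z : Cyc N) : ((ntr (z : ℂ) : ℝ) : ℂ) =
    (∑ᶠ σ : Cyc N ≃ₐ[ℚ] Cyc N, ((σ z : Cyc N) : ℂ)) / (Nat.card (Cyc N ≃ₐ[ℚ] Cyc N) : ℂ) := by
  classical
  have := fin N
  have := abel N
  have hg : IsGalois ℚ (Cyc N) := inferInstance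
  have h1 : ∑ᶠ σ : Cyc N ≃ₐ[ℚ] Cyc N, ((σ z : Cyc N) : ℂ) =
      ((Algebra.trace ℚ (Cyc N) z : ℚ) : ℂ) := by
    rw [finsum_eq_sum_of_fintype]
    have h2 := congrArg (fun x : Cyc N => (x : ℂ)) (trace_eq_sum_automorphisms (K := ℚ) z)
    have h3 : ((algebraMap ℚ (Cyc N) (Algebra.trace ℚ (Cyc N) z) : Cyc N) : ℂ) =
        ((Algebra.trace ℚ (Cyc N) z : ℚ) : ℂ) := rfl
    rw [← h3]
    rw [h2]
    have h4 := map_sum (Cyc N).val (fun σ : Cyc N ≃ₐ[ℚ] Cyc N => σ z) Finset.univ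
    simp only [IntermediateField.coe_val] at h4
    exact h4.symm
  have h2 := trace_eq_finrank_mul_minpoly_nextCoeff ℚ z
  have h3 : minpoly ℚ (z : ℂ) = minpoly ℚ z :=
    minpoly.algebraMap_eq (algebraMap (Cyc N) ℂ).injective z
  have h4 : Module.finrank ℚ (IntermediateField.adjoin ℚ {z}) = (minpoly ℚ z).natDegree :=
    IntermediateField.adjoin.finrank (Algebra.IsIntegral.isIntegral z)
  have h5 : Nat.card (Cyc N ≃ₐ[ℚ] Cyc N) = Module.finrank ℚ (Cyc N) :=
    IsGalois.card_aut_eq_finrank ℚ (Cyc N)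
  have h6 := Module.finrank_mul_finrank ℚ (IntermediateField.adjoin ℚ {z}) (Cyc N)
  have h7 : 0 < Module.finrank ℚ (Cyc N) := Module.finrank_pos
  rw [h1, h5, ← h6, h4, ntr, h3, h2]
  have h8 : Module.finrank (IntermediateField.adjoin ℚ {z}) (Cyc N) ≠ 0 := by
    intro h
    rw [h, mul_zero] at h6
    omega
  have h9 : (minpoly ℚ z).natDegree ≠ 0 := by
    intro h
    rw [h4, h, zero_mul] at h6
    omega
  have h8' : ((Module.finrank (IntermediateField.adjoin ℚ {z}) (Cyc N) : ℕ) : ℂ) ≠ 0 := by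
    exact_mod_cast h8
  have h9' : (((minpoly ℚ z).natDegree : ℕ) : ℂ) ≠ 0 := by exact_mod_cast h9
  push_cast
  field_simp

theorem M_eq (N : ℕ) [NeZero N] (z : Cyc N) : M (z : ℂ) =
    (∑ᶠ σ : Cyc N ≃ₐ[ℚ] Cyc N, ‖((σ z : Cyc N) : ℂ)‖ ^ 2) /
      (Nat.card (Cyc N ≃ₐ[ℚ] Cyc N) : ℝ) := by
  have := fin N
  obtain ⟨c, hc⟩ := cjg N
  have h1 : (z : ℂ) * conj (z : ℂ) = ((z * c z : Cyc N) : ℂ) := by
    push_cast
    rw [hc]
  apply Complex.ofReal_injective
  rw [M, h1, ntr_eq, finsum_eq_sum_of_fintype, finsum_eq_sum_of_fintype]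
  push_cast
  congr 1
  refine Finset.sum_congr rfl fun σ _ => ?_
  rw [map_mul, comm N σ c z]
  push_cast
  rw [hc, Complex.mul_conj, Complex.normSq_eq_norm_sq]
  push_cast
  rfl

end MFM

open MFM in
theorem specMF : SpecMF := by
  intro N hN
  have : NeZero N := ⟨hN.ne'⟩
  exact ⟨ntr_eq N, M_eq N⟩

end Pool.Agent.Lib.MPcb8a44.AB
end

section
/-!
Module MB of Theorem AB (MP_cb8a44_nt): consequences of the formula for the mean square.
-/
set_option autoImplicit false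

namespace Pool.Agent.Lib.MPcb8a44.AB.MbM

open scoped BigOperators ComplexConjugate

lemma sq_norm_ge_one_add_log {z : ℂ} (hz : z ≠ 0) : 1 + Real.log (‖z‖ ^ 2) ≤ ‖z‖ ^ 2 := by
  have hpos : 0 < ‖z‖ ^ 2 := by positivity
  have := Real.log_le_sub_one_of_pos hpos
  linarith

lemma norm_par (a b : ℂ) : ‖a + b‖ ^ 2 + ‖a - b‖ ^ 2 = 2 * ‖a‖ ^ 2 + 2 * ‖b‖ ^ 2 := by
  have := parallelogram_law_with_norm ℝ a b
  nlinarith [this]

/-- Sum of the squares of the absolute values of the conjugates. -/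
noncomputable def S (K : IntermediateField ℚ ℂ) [Fintype (K ≃ₐ[ℚ] K)] (z : K) : ℝ :=
  ∑ σ : K ≃ₐ[ℚ] K, ‖((σ z : K) : ℂ)‖ ^ 2

lemma S_nonneg (K : IntermediateField ℚ ℂ) [Fintype (K ≃ₐ[ℚ] K)] (z : K) : 0 ≤ S K z :=
  Finset.sum_nonneg fun _ _ => by positivity

lemma S_par (K : IntermediateField ℚ ℂ) [Fintype (K ≃ₐ[ℚ] K)] (x y : K) :
    S K (x + y) + S K (x - y) = 2 * S K x + 2 * S K y := by
  unfold S
  rw [Finset.mul_sum, Finset.mul_sum, ← Finset.sum_add_distrib, ← Finset.sum_add_distrib]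
  refine Finset.sum_congr rfl fun σ _ => ?_
  rw [map_add, map_sub]
  push_cast
  exact norm_par _ _

lemma S_equiv (K : IntermediateField ℚ ℂ) [Fintype (K ≃ₐ[ℚ] K)] (σ : K ≃ₐ[ℚ] K) (x : K) :
    S K (σ x) = S K x := by
  unfold S
  refine Fintype.sum_equiv (Equiv.mulRight σ) _ _ ?_
  intro τ
  rfl

lemma le_S (K : IntermediateField ℚ ℂ) [Fintype (K ≃ₐ[ℚ] K)] (σ : K ≃ₐ[ℚ] K) (x : K) :
    ‖((σ x : K) : ℂ)‖ ^ 2 ≤ S K x := by
  unfold S
  exact Finset.single_le_sum (f := fun τ : K ≃ₐ[ℚ] K => ‖((τ x : K) : ℂ)‖ ^ 2)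
    (fun τ _ => by positivity) (Finset.mem_univ σ)

lemma S_ge (K : IntermediateField ℚ ℂ) [FiniteDimensional ℚ K] [IsGalois ℚ K]
    [Fintype (K ≃ₐ[ℚ] K)] (X : K) (hint : IsIntegral ℤ (X : ℂ)) (hX0 : X ≠ 0) :
    (Fintype.card (K ≃ₐ[ℚ] K) : ℝ) ≤ S K X := by
  have hintX : IsIntegral ℤ X :=
    (isIntegral_algebraMap_iff (FaithfulSMul.algebraMap_injective K ℂ)).1
      (show IsIntegral ℤ ((algebraMap K ℂ) X) from hint)
  have hnorm : IsIntegral ℤ (Algebra.norm ℚ X) := Algebra.isIntegral_norm ℚ hintX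
  obtain ⟨k, hk⟩ := IsIntegrallyClosed.isIntegral_iff.1 hnorm
  have hk0 : k ≠ 0 := by
    rintro rfl
    have : Algebra.norm ℚ X = 0 := by rw [← hk]; simp
    exact hX0 (Algebra.norm_eq_zero_iff.1 this)
  have hprod : (algebraMap ℚ K) (Algebra.norm ℚ X) = ∏ σ : K ≃ₐ[ℚ] K, σ X := by
    rw [Algebra.norm_eq_prod_automorphisms ℚ X]
    exact Finset.prod_congr (Finset.ext fun σ => by simp only [Finset.mem_univ]) fun _ _ => rfl
  have hprodC : ((k : ℤ) : ℂ) = ∏ σ : K ≃ₐ[ℚ] K, ((σ X : K) : ℂ) := by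
    have h1 : (K.val ((algebraMap ℚ K) (Algebra.norm ℚ X)) : ℂ) = K.val (∏ σ : K ≃ₐ[ℚ] K, σ X) := by
      rw [hprod]
    rw [map_prod, ← hk] at h1
    rw [← show K.val ((algebraMap ℚ K) ((algebraMap ℤ ℚ) k)) = ((k : ℤ) : ℂ) by simp, h1]
    rfl
  have hprodR : 1 ≤ ∏ σ : K ≃ₐ[ℚ] K, ‖((σ X : K) : ℂ)‖ ^ 2 := by
    rw [Finset.prod_pow, ← norm_prod, ← hprodC]
    have : (1 : ℝ) ≤ ‖((k : ℤ) : ℂ)‖ := by
      rw [Complex.norm_intCast]
      exact_mod_cast Int.one_le_abs hk0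
    nlinarith [this]
  have hne : ∀ σ : K ≃ₐ[ℚ] K, ((σ X : K) : ℂ) ≠ 0 := by
    intro σ hc
    have : σ X = 0 := by exact_mod_cast hc
    exact hX0 ((map_eq_zero_iff σ σ.injective).1 this)
  have hlog : 0 ≤ ∑ σ : K ≃ₐ[ℚ] K, Real.log (‖((σ X : K) : ℂ)‖ ^ 2) := by
    rw [← Real.log_prod]
    · exact Real.log_nonneg hprodR
    · intro σ _
      have := norm_pos_iff.2 (hne σ)
      positivity
  unfold S
  calc ((Fintype.card (K ≃ₐ[ℚ] K) : ℕ) : ℝ)
      = ∑ σ : K ≃ₐ[ℚ] K, (1 : ℝ) := by simp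
    _ ≤ ∑ σ : K ≃ₐ[ℚ] K, (1 + Real.log (‖((σ X : K) : ℂ)‖ ^ 2)) := by
        rw [Finset.sum_add_distrib]; linarith
    _ ≤ ∑ σ : K ≃ₐ[ℚ] K, ‖((σ X : K) : ℂ)‖ ^ 2 :=
        Finset.sum_le_sum fun σ _ => sq_norm_ge_one_add_log (hne σ)

lemma finite_S (K : IntermediateField ℚ ℂ) [FiniteDimensional ℚ K] [IsGalois ℚ K]
    [Fintype (K ≃ₐ[ℚ] K)] (B : ℝ) :
    {x : ℂ | ∃ z : K, (z : ℂ) = x ∧ IsIntegral ℤ x ∧ S K z ≤ B}.Finite := by
  have : NumberField K := ⟨⟩
  have hfin := NumberField.Embeddings.finite_of_norm_le K ℂ (Real.sqrt B)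
  refine (hfin.image (fun z : K => (z : ℂ))).subset ?_
  rintro x ⟨z, rfl, hint, hS⟩
  refine ⟨z, ⟨?_, ?_⟩, rfl⟩
  · exact (isIntegral_algebraMap_iff (FaithfulSMul.algebraMap_injective K ℂ)).1
      (show IsIntegral ℤ ((algebraMap K ℂ) z) from hint)
  · intro φ
    apply Real.le_sqrt_of_sq_le
    let φ' : K →ₐ[ℚ] ℂ := φ.toRatAlgHom
    let σ : K ≃ₐ[ℚ] K := φ'.restrictNormal' K
    have hσ : ((σ z : K) : ℂ) = φ z := AlgHom.restrictNormal_commutes φ' K z
    rw [← hσ]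
    exact (le_S K σ z).trans hS

theorem specMB (hCB : SpecCB) (hGAL : SpecGAL) (hMF : SpecMF) : SpecMB := by
  classical
  intro N hN
  obtain ⟨hmf1, hmf2⟩ := hMF N hN
  obtain ⟨hgal, -, -, -, -, -, -⟩ := hGAL N hN
  have : FiniteDimensional ℚ (Cyc N) := hCB.2.2.2.1 N hN
  have : IsGalois ℚ (Cyc N) := hgal
  have hcard : 0 < Fintype.card (Cyc N ≃ₐ[ℚ] Cyc N) := Fintype.card_pos
  obtain ⟨c, hc⟩ : ∃ c : ℕ, c = Fintype.card (Cyc N ≃ₐ[ℚ] Cyc N) := ⟨_, rfl⟩
  rw [← hc] at hcard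
  have hcR : (0 : ℝ) < (c : ℝ) := by exact_mod_cast hcard
  have f1 : ∀ (z : Cyc N) (w : ℂ), (z : ℂ) = w → ((ntr w : ℝ) : ℂ) =
      (∑ σ : Cyc N ≃ₐ[ℚ] Cyc N, ((σ z : Cyc N) : ℂ)) / (c : ℂ) := by
    intro z w hw
    rw [← hw, hmf1 z, finsum_eq_sum_of_fintype, Nat.card_eq_fintype_card, ← hc]
  have f2 : ∀ (z : Cyc N) (w : ℂ), (z : ℂ) = w → M w = S (Cyc N) z / (c : ℝ) := by
    intro z w hw
    rw [← hw, hmf2 z, finsum_eq_sum_of_fintype, Nat.card_eq_fintype_card, ← hc]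
    rfl
  refine ⟨?_, ?_, ?_, ?_, ?_, ?_, ?_⟩
  · intro x hx y hy
    have h1 := f1 ⟨x, hx⟩ x rfl
    have h2 := f1 ⟨y, hy⟩ y rfl
    have h3 := f1 (⟨x, hx⟩ + ⟨y, hy⟩) (x + y) rfl
    have h4 : (∑ σ : Cyc N ≃ₐ[ℚ] Cyc N, ((σ (⟨x, hx⟩ + ⟨y, hy⟩) : Cyc N) : ℂ)) =
        (∑ σ : Cyc N ≃ₐ[ℚ] Cyc N, ((σ ⟨x, hx⟩ : Cyc N) : ℂ)) +
        ∑ σ : Cyc N ≃ₐ[ℚ] Cyc N, ((σ ⟨y, hy⟩ : Cyc N) : ℂ) := by
      rw [← Finset.sum_add_distrib]
      refine Finset.sum_congr rfl fun σ _ => ?_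
      rw [map_add]; rfl
    rw [h4, add_div, ← h1, ← h2] at h3
    exact_mod_cast h3
  · intro x hx
    rw [f2 ⟨x, hx⟩ x rfl]
    exact div_nonneg (S_nonneg _ _) hcR.le
  · intro x hx hint h0
    rw [f2 ⟨x, hx⟩ x rfl, le_div_iff₀ hcR, one_mul, hc]
    refine S_ge (Cyc N) ⟨x, hx⟩ hint ?_
    intro hcon
    exact h0 (congrArg Subtype.val hcon)
  · intro x hx y hy
    rw [f2 (⟨x, hx⟩ + ⟨y, hy⟩) (x + y) rfl, f2 (⟨x, hx⟩ - ⟨y, hy⟩) (x - y) rfl,
      f2 ⟨x, hx⟩ x rfl, f2 ⟨y, hy⟩ y rfl, ← add_div, S_par]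
    ring
  · intro x σ
    rw [f2 (σ x) _ rfl, f2 x _ rfl, S_equiv]
  · intro T
    refine (finite_S (Cyc N) (T * c)).subset ?_
    rintro x ⟨hx, hint, hMx⟩
    refine ⟨⟨x, hx⟩, rfl, hint, ?_⟩
    rw [f2 ⟨x, hx⟩ x rfl, div_le_iff₀ hcR] at hMx
    exact hMx
  · intro x hx him
    unfold M
    rw [Complex.conj_eq_iff_im.2 him, sq]

end Pool.Agent.Lib.MPcb8a44.AB.MbM
end

section
/-!
SA: the sparse expansion of integers of `ℚ(ζ_{N0 p^k})`.
-/
set_option autoImplicit false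

namespace Pool.Agent.Lib.MPcb8a44.AB

open scoped BigOperators ComplexConjugate

namespace SaM

open GrM CasM Finset

lemma M_neg (x : ℂ) : M (-x) = M x := by
  rw [M, M, map_neg, neg_mul_neg]

lemma M_zero : M 0 = 0 := by
  rw [M, zero_mul, ntr, minpoly.zero]
  simp [Polynomial.nextCoeff]

lemma M_mul_ze (N j : ℕ) (x : ℂ) : M (x * ze N ^ j) = M x := by
  rw [M, M, map_mul, map_pow, conj_ze]
  congr 1
  have : ze N ^ j ≠ 0 := pow_ne_zero _ (ze_ne N)
  rw [inv_pow]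
  field_simp

/-- A symmetric function which vanishes on the diagonal. -/
lemma symm_sum (g : ℕ → ℕ → ℝ) (hs : ∀ i j, g i j = g j i) (hd : ∀ i, g i i = 0) (p : ℕ) :
    ∑ j ∈ range p, ∑ i ∈ range p, g i j = 2 * ∑ j ∈ range p, ∑ i ∈ range j, g i j := by
  induction p with
  | zero => simp
  | succ p ih =>
    rw [sum_range_succ, sum_range_succ (fun i => g i p), sum_range_succ (fun j => ∑ i ∈ range j, g i j),
      hd, add_zero]
    simp_rw [sum_range_succ (fun i => g i _)]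
    rw [sum_add_distrib, ih]
    have : ∑ x ∈ range p, g p x = ∑ x ∈ range p, g x p := sum_congr rfl fun i _ => hs p i
    rw [this]
    ring

/-- The most frequent value. -/
lemma freq (p : ℕ) (hp : 0 < p) (a : ℕ → ℂ) : ∃ i0 : ℕ,
    (p : ℝ) * #{i ∈ range p | a i ≠ a i0} ≤
      ∑ j ∈ range p, ∑ i ∈ range p, if a i = a j then (0 : ℝ) else 1 := by
  classical
  obtain ⟨i0, _, h0⟩ := exists_min_image (range p) (fun j => #{i ∈ range p | a i ≠ a j})
    ⟨0, mem_range.mpr hp⟩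
  refine ⟨i0, ?_⟩
  have h1 : ∀ j ∈ range p, (#{i ∈ range p | a i ≠ a i0} : ℝ) ≤
      ∑ i ∈ range p, if a i = a j then (0 : ℝ) else 1 := by
    intro j hj
    have h2 : ∑ i ∈ range p, (if a i = a j then (0 : ℝ) else 1) =
        ∑ i ∈ range p, if a i ≠ a j then (1 : ℝ) else 0 := by
      refine sum_congr rfl fun i _ => ?_
      split_ifs <;> simp_all
    rw [h2, sum_boole]
    exact_mod_cast h0 j hj
  calc (p : ℝ) * #{i ∈ range p | a i ≠ a i0} = ∑ j ∈ range p, (#{i ∈ range p | a i ≠ a i0} : ℝ) := by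
        rw [sum_const, card_range, nsmul_eq_mul]
    _ ≤ _ := sum_le_sum h1

/-- Sparse expansion for `k = 1`. -/
lemma sparse (hCB : SpecCB) (hCAS : SpecCAS) (hMB : SpecMB) (p N0 : ℕ) (hp : p.Prime)
    (hN0 : 0 < N0) (hpN : ¬ p ∣ N0) (b : ℂ) (hb : b ∈ Cyc (N0 * p)) (hbi : IsIntegral ℤ b) :
    ∃ d : ℕ → ℂ, (∀ i, d i ∈ Cyc N0) ∧ b = ∑ i ∈ range p, d i * ze p ^ i ∧
      (#{i ∈ range p | d i ≠ 0} : ℝ) ≤ 2 * M b := by
  classical
  have hN : 0 < N0 * p := Nat.mul_pos hN0 hp.pos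
  obtain ⟨a, ha, hba, hM⟩ := hCAS p N0 hp hN0 hpN b hb hbi
  obtain ⟨i0, hi0⟩ := freq p hp.pos a
  refine ⟨fun i => a i - a i0, fun i => sub_mem (ha i).1 (ha i0).1, ?_, ?_⟩
  · have h1 : ∑ i ∈ range p, ze p ^ i = 0 := (hCB.1 p hp.pos).geom_sum_eq_zero hp.one_lt
    simp only [sub_mul, sum_sub_distrib]
    rw [← mul_sum, h1, mul_zero, sub_zero]
    exact hba
  · have h0 : 0 ≤ M b := (hMB _ hN).2.1 b hb
    have h1 := symm_sum (fun i j => M (a i - a j)) (fun i j => by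
      rw [← M_neg, neg_sub]) (fun i => by simp only [sub_self]; exact M_zero) p
    rw [← hM] at h1
    have h2 : ∑ j ∈ range p, ∑ i ∈ range p, (if a i = a j then (0 : ℝ) else 1) ≤
        ∑ j ∈ range p, ∑ i ∈ range p, M (a i - a j) := by
      refine sum_le_sum fun j _ => sum_le_sum fun i _ => ?_
      split_ifs with h
      · rw [h, sub_self, M_zero]
      · exact (hMB N0 hN0).2.2.1 _ (sub_mem (ha i).1 (ha j).1) ((ha i).2.sub (ha j).2)
          (sub_ne_zero.mpr h)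
    have hp' : (0 : ℝ) < p := by exact_mod_cast hp.pos
    have h3 : (p : ℝ) * #{i ∈ range p | a i ≠ a i0} ≤ p * (2 * M b) := by
      have := hi0.trans (h2.trans_eq h1)
      nlinarith
    have h4 := le_of_mul_le_mul_left h3 hp'
    have h5 : (filter (fun i => a i - a i0 ≠ 0) (range p)) = filter (fun i => a i ≠ a i0) (range p) := by
      refine filter_congr fun i _ => ?_
      rw [sub_ne_zero]
    rw [h5]
    exact h4

lemma sum_range_mul' {E : Type} [AddCommMonoid E] (F : ℕ → E) (p q : ℕ) :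
    ∑ n ∈ range (p * q), F n = ∑ i ∈ range p, ∑ h ∈ range q, F (i * q + h) := by
  induction p with
  | zero => simp
  | succ p ih => rw [Nat.succ_mul, sum_range_add, ih, sum_range_succ]

lemma zsum_mul {E : Type} [AddCommMonoid E] (p Q Q' : ℕ) [NeZero Q] [NeZero Q'] (hQ : Q = p * Q')
    (F : ℕ → E) : ∑ g : ZMod Q, F g.val =
      ∑ h : ZMod Q', ∑ i ∈ range p, F (i * Q' + h.val) := by
  rw [zsum, zsum]
  have h1 : ∑ i ∈ range Q, F ((i : ZMod Q).val) = ∑ i ∈ range Q, F i :=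
    sum_congr rfl fun i hi => by rw [ZMod.val_natCast_of_lt (mem_range.mp hi)]
  have h2 : ∑ h ∈ range Q', ∑ i ∈ range p, F (i * Q' + (h : ZMod Q').val) =
      ∑ h ∈ range Q', ∑ i ∈ range p, F (i * Q' + h) :=
    sum_congr rfl fun h hh => by rw [ZMod.val_natCast_of_lt (mem_range.mp hh)]
  rw [h1, h2, sum_comm, ← sum_range_mul', hQ]

end SaM

open SaM CasM GrM Finset in
theorem specSA (hCAS : SpecCAS) (hGR : SpecGR) (hMB : SpecMB) (hCB : SpecCB) : SpecSA := by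
  classical
  intro p N0 k Q _ hp hN0 hpN hk hQ y hy hi
  have hP : 0 < p ^ k := pow_pos hp.pos k
  have : NeZero (p ^ (k - 1)) := ⟨(pow_pos hp.pos _).ne'⟩
  have hQQ : Q = p * p ^ (k - 1) := by
    rw [hQ, ← pow_succ', Nat.sub_add_cancel hk]
  obtain ⟨Y1, h1, h2, h3, h4⟩ := hGR p N0 k 1 (p ^ (k - 1)) hp hN0 hpN le_rfl hk rfl y hy
  have h4 := h4 hi
  rw [pow_one] at h1
  have hbase : ∀ h : ZMod (p ^ (k - 1)), ∃ d : ℕ → ℂ, (∀ i, d i ∈ Cyc N0) ∧
      Y1 h = ∑ i ∈ range p, d i * ze (p ^ k) ^ (i * p ^ (k - 1) + h.val) ∧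
      (#{i ∈ range p | d i ≠ 0} : ℝ) ≤ 2 * M (Y1 h) := by
    intro h
    obtain ⟨b, hb, hb'⟩ := h1 h
    have hbi : IsIntegral ℤ b := by
      have h5 : b = Y1 h * (ze (p ^ k))⁻¹ ^ h.val := by
        rw [hb', mul_assoc, ← mul_pow, mul_inv_cancel₀ (ze_ne _), one_pow, mul_one]
      rw [h5]
      refine (h4 h).mul (IsIntegral.pow ?_ _)
      refine IsIntegral.of_pow hP ?_
      rw [inv_pow, (hCB.1 _ hP).pow_eq_one, inv_one]
      exact isIntegral_one
    obtain ⟨d, hd, hd1, hd2⟩ := sparse hCB hCAS hMB p N0 hp hN0 hpN b hb hbi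
    have hze : ze p = ze (p ^ k) ^ (p ^ (k - 1)) := by
      have h6 := hCB.2.1 p (p ^ k) hP (dvd_pow_self p (by omega))
      rwa [show p ^ k / p = p ^ (k - 1) from by
        rw [← hQ, hQQ, Nat.mul_div_cancel_left _ hp.pos]] at h6
    refine ⟨d, hd, ?_, ?_⟩
    · rw [hb', hd1, sum_mul]
      refine sum_congr rfl fun i _ => ?_
      rw [hze, ← pow_mul, mul_assoc, ← pow_add, mul_comm i]
    · rwa [hb', M_mul_ze]
  choose d hd1 hd2 hd3 using hbase
  let D : ℕ → ℂ := fun n => d (n : ZMod (p ^ (k - 1))) (n / p ^ (k - 1))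
  have hD : ∀ (h : ZMod (p ^ (k - 1))) (i : ℕ), D (i * p ^ (k - 1) + h.val) = d h i := by
    intro h i
    have h5 : ((i * p ^ (k - 1) + h.val : ℕ) : ZMod (p ^ (k - 1))) = h := by
      rw [Nat.cast_add, Nat.cast_mul, ZMod.natCast_self, mul_zero, zero_add, ZMod.natCast_zmod_val]
    have h6 : (i * p ^ (k - 1) + h.val) / p ^ (k - 1) = i := by
      rw [mul_comm, Nat.mul_add_div (pow_pos hp.pos _), Nat.div_eq_of_lt (ZMod.val_lt h), add_zero]
    simp only [D]
    rw [h5, h6]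
  refine ⟨univ.filter (fun g => D g.val * ze (p ^ k) ^ g.val ≠ 0),
    fun g => D g.val * ze (p ^ k) ^ g.val, ?_, ?_, ?_⟩
  · intro g hg
    exact ⟨⟨D g.val, hd1 _ _, rfl⟩, (mem_filter.mp hg).2⟩
  · rw [sum_filter_ne_zero, zsum_mul p Q (p ^ (k - 1)) hQQ (fun n => D n * ze (p ^ k) ^ n), h2]
    refine sum_congr rfl fun h _ => ?_
    rw [hd2 h]
    exact sum_congr rfl fun i _ => by rw [hD]
  · have h5 : ((univ.filter (fun g : ZMod Q => D g.val * ze (p ^ k) ^ g.val ≠ 0)).card : ℝ) =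
        ∑ g : ZMod Q, (fun n => if D n ≠ 0 then (1 : ℝ) else 0) g.val := by
      rw [← sum_boole]
      refine sum_congr rfl fun g _ => ?_
      have : ze (p ^ k) ^ g.val ≠ 0 := pow_ne_zero _ (ze_ne _)
      simp only [ne_eq, mul_eq_zero, this, or_false]
    rw [h5, zsum_mul p Q (p ^ (k - 1)) hQQ (fun n => if D n ≠ 0 then (1 : ℝ) else 0), h3, mul_sum]
    refine sum_le_sum fun h _ => ?_
    have h6 : ∑ i ∈ range p, (if D (i * p ^ (k - 1) + h.val) ≠ 0 then (1 : ℝ) else 0) =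
        (#{i ∈ range p | d h i ≠ 0} : ℝ) := by
      rw [← sum_boole]
      exact sum_congr rfl fun i _ => by rw [hD]
    rw [h6]
    exact hd3 h

end Pool.Agent.Lib.MPcb8a44.AB
end

section
/-!
Module AN of Theorem AB (MP_cb8a44_nt): second derivative, `n + 1` squares are not `n` squares.
-/
set_option autoImplicit false

namespace Pool.Agent.Lib.MPcb8a44.AB

namespace AnM

open Filter Topology

/-- `n` linear functionals on an `(n+1)`-dimensional space have a common zero. -/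
theorem exists_ker {n : ℕ} (D : Fin n → (Fin (n + 1) → ℝ) →ₗ[ℝ] ℝ) :
    ∃ v : Fin (n + 1) → ℝ, v ≠ 0 ∧ ∀ j, D j v = 0 := by
  set Φ : (Fin (n + 1) → ℝ) →ₗ[ℝ] (Fin n → ℝ) := LinearMap.pi D with hΦ
  have hni : ¬ Function.Injective Φ := by
    intro hi
    have := LinearMap.finrank_le_finrank_of_injective hi
    simp at this
  rw [← LinearMap.ker_eq_bot, Submodule.eq_bot_iff] at hni
  push Not at hni
  obtain ⟨v, hv, hv0⟩ := hni
  refine ⟨v, hv0, fun j => ?_⟩
  have h1 := congrFun (LinearMap.mem_ker.1 hv) j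
  simpa [hΦ] using h1

/-- The slopes of a function which is differentiable at `x0` in direction `w`. -/
theorem slope_tendsto {E : Type*} [NormedAddCommGroup E] [NormedSpace ℝ E] (B : E → ℝ) (x0 w : E)
    (h : DifferentiableAt ℝ B x0) :
    Tendsto (fun t : ℝ => t⁻¹ * (B (x0 + t • w) - B x0)) (𝓝[≠] 0) (𝓝 (fderiv ℝ B x0 w)) := by
  have h1 := (h.hasFDerivAt.hasLineDerivAt w).tendsto_slope_zero
  simpa [smul_eq_mul] using h1

end AnM

open AnM Filter Topology

theorem specAN : SpecAN := by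
  intro n A A' s B hA hA' hB hid
  set x0 : Fin (n + 2) → ℝ := fun _ => s with hx0
  -- the functionals
  set ext : (Fin (n + 1) → ℝ) →ₗ[ℝ] (Fin (n + 2) → ℝ) :=
    LinearMap.pi (fun k => Fin.cases (0 : (Fin (n + 1) → ℝ) →ₗ[ℝ] ℝ) (fun l => LinearMap.proj l) k)
    with hext
  have ext0 : ∀ v, ext v 0 = 0 := fun v => by simp [hext]
  have exts : ∀ v (l : Fin (n + 1)), ext v l.succ = v l := fun v l => by simp [hext]
  obtain ⟨v, hv0, hv⟩ := exists_ker (fun j => ((fderiv ℝ (B j) x0 : (Fin (n + 2) → ℝ) →L[ℝ] ℝ) :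
    (Fin (n + 2) → ℝ) →ₗ[ℝ] ℝ).comp ext)
  have hv' : ∀ j, fderiv ℝ (B j) x0 (ext v) = 0 := fun j => by simpa using hv j
  -- values at the base point
  have hB0 : ∀ j, B j x0 = 0 := by
    have h := hid x0
    simp only [hx0, sub_self, ne_eq, OfNat.ofNat_ne_zero, not_false_eq_true, zero_pow,
      Finset.sum_const_zero] at h
    have h2 := (Finset.sum_eq_zero_iff_of_nonneg (fun j _ => sq_nonneg (B j fun _ => s))).1 h.symm
    intro j
    exact pow_eq_zero_iff (two_ne_zero) |>.1 (h2 j (Finset.mem_univ _))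
  have hR : Tendsto (fun t : ℝ => ∑ j, (t⁻¹ * (B j (x0 + t • ext v) - B j x0)) ^ 2) (𝓝[≠] 0)
      (𝓝 (∑ j, (fderiv ℝ (B j) x0 (ext v)) ^ 2)) :=
    tendsto_finsetSum _ fun j _ => (slope_tendsto (B j) x0 (ext v) (hB j)).pow 2
  have hL : Tendsto (fun t : ℝ => ∑ l : Fin (n + 1), (t⁻¹ * (A (s + t • v l) - A s)) ^ 2) (𝓝[≠] 0)
      (𝓝 (∑ l : Fin (n + 1), (fderiv ℝ A s (v l)) ^ 2)) :=
    tendsto_finsetSum _ fun l _ => (slope_tendsto A s (v l) hA.differentiableAt).pow 2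
  have heq : (fun t : ℝ => ∑ l : Fin (n + 1), (t⁻¹ * (A (s + t • v l) - A s)) ^ 2) =
      fun t : ℝ => ∑ j, (t⁻¹ * (B j (x0 + t • ext v) - B j x0)) ^ 2 := by
    funext t
    have h := hid (x0 + t • ext v)
    simp_rw [mul_pow, ← Finset.mul_sum]
    congr 1
    have e1 : ∀ l : Fin (n + 1), (x0 + t • ext v) l.succ = s + t • v l := fun l => by
      simp [hx0, exts]
    have e0 : (x0 + t • ext v) 0 = s := by simp [hx0, ext0]
    simp_rw [e1, e0] at h
    rw [h]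
    exact Finset.sum_congr rfl fun j _ => by rw [hB0 j, sub_zero]
  rw [heq] at hL
  have hlim := tendsto_nhds_unique hL hR
  simp only [hv', ne_eq, OfNat.ofNat_ne_zero, not_false_eq_true, zero_pow,
    Finset.sum_const_zero] at hlim
  have h2 := (Finset.sum_eq_zero_iff_of_nonneg (fun l _ => sq_nonneg (fderiv ℝ A s (v l)))).1 hlim
  apply hv0
  funext l
  have h3 : fderiv ℝ A s (v l) = 0 := pow_eq_zero_iff (two_ne_zero) |>.1 (h2 l (Finset.mem_univ _))
  rw [hA.hasFDerivAt.fderiv] at h3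
  simp only [ContinuousLinearMap.toSpanSingleton_apply, smul_eq_mul, mul_eq_zero] at h3
  rcases h3 with h3 | h3
  · exact h3
  · exact absurd h3 hA'

end Pool.Agent.Lib.MPcb8a44.AB
end

section
/-! # BO: generic rotations in Bohr sets (Theorem AB, MP_cb8a44_nt) -/
set_option autoImplicit false

namespace Pool.Agent.Lib.MPcb8a44.AB.BOM

open Finset

/-- a set of residues which are congruent modulo a divisor -/
theorem card_cong {Q d : ℕ} (hd : d ∣ Q) (S : Finset ℕ) (hS : ∀ x ∈ S, x < Q)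
    (hc : ∀ x ∈ S, ∀ y ∈ S, x % d = y % d) : S.card * d ≤ Q := by
  have h1 : S.card ≤ (range (Q / d)).card := by
    refine Finset.card_le_card_of_injOn (fun x => x / d) (fun x hx => ?_) ?_
    · rw [Finset.mem_coe, Finset.mem_range]
      exact Nat.div_lt_div_of_lt_of_dvd hd (hS x hx)
    · intro x hx y hy hxy
      have h2 : x / d = y / d := hxy
      rw [← Nat.div_add_mod x d, ← Nat.div_add_mod y d, h2, hc x hx y hy]
  rw [Finset.card_range] at h1
  calc S.card * d ≤ Q / d * d := Nat.mul_le_mul_right _ h1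
    _ ≤ Q := Nat.div_mul_le_self Q d

/-- the solutions of `C + x • z = 0` -/
theorem card_sol {Q : ℕ} [NeZero Q] (C z : ZMod Q) :
    ((range Q).filter fun x => C + x • z = 0).card * addOrderOf z ≤ Q := by
  have hd : addOrderOf z ∣ Q := by
    have h := addOrderOf_dvd_card (x := z)
    rwa [ZMod.card] at h
  refine card_cong hd _ (fun x hx => ?_) fun x hx y hy => ?_
  · exact mem_range.1 (mem_filter.1 hx).1
  · have h1 := (mem_filter.1 hx).2
    have h2 := (mem_filter.1 hy).2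
    have h3 : x • z = y • z := by
      have := h1.trans h2.symm
      exact add_left_cancel this
    have h4 : x ≡ y [MOD addOrderOf z] := by
      rwa [nsmul_eq_nsmul_iff_modEq] at h3
    exact h4

/-- the residues with `p ∣ 1 + x` -/
theorem card_dvd {Q p : ℕ} (hp : p ∣ Q) :
    ((range Q).filter fun x => p ∣ 1 + x).card * p ≤ Q := by
  refine card_cong hp _ (fun x hx => ?_) fun x hx y hy => ?_
  · exact mem_range.1 (mem_filter.1 hx).1
  · have h1 := (mem_filter.1 hx).2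
    have h2 := (mem_filter.1 hy).2
    have h3 : 1 + x ≡ 1 + y [MOD p] :=
      ((Nat.modEq_zero_iff_dvd).2 h1).trans ((Nat.modEq_zero_iff_dvd).2 h2).symm
    exact Nat.ModEq.add_left_cancel' 1 h3

/-- `valMinAbs` is the smallest representative -/
theorem abs_min {Q : ℕ} [NeZero Q] (z : ZMod Q) (D : ℤ) (h : (D : ZMod Q) = z) :
    |z.valMinAbs| ≤ |D| := by
  have h1 := ZMod.valMinAbs_mem_Ioc z
  have h2 : (Q : ℤ) ∣ D - z.valMinAbs := by
    rw [← ZMod.intCast_zmod_eq_zero_iff_dvd, Int.cast_sub, h, ZMod.coe_valMinAbs, sub_self]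
  obtain ⟨k, hk⟩ := h2
  have hQ : (0 : ℤ) < Q := by exact_mod_cast Nat.pos_of_ne_zero (NeZero.ne Q)
  rcases eq_or_ne k 0 with rfl | hk0
  · have : D = z.valMinAbs := by linarith
    rw [this]
  · have hv : |z.valMinAbs| * 2 ≤ Q := by
      rcases abs_cases z.valMinAbs with h3 | h3
      · rw [h3.1]
        exact h1.2
      · rw [h3.1]
        linarith [h1.1]
    have h4 : (Q : ℤ) ≤ |D - z.valMinAbs| := by
      rw [hk, abs_mul, abs_of_pos hQ]
      have : 1 ≤ |k| := Int.one_le_abs hk0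
      nlinarith
    have h5 : |D - z.valMinAbs| ≤ |D| + |z.valMinAbs| := abs_sub _ _
    linarith

/-- the Bohr set -/
def bohr (Q K : ℕ) (J : Finset (ZMod Q)) : Finset ℕ :=
  (range Q).filter fun x => ∀ g ∈ J, |(x • g).valMinAbs| * K ≤ (Q : ℤ)

theorem mem_bohr {Q K : ℕ} {J : Finset (ZMod Q)} {x : ℕ} :
    x ∈ bohr Q K J ↔ x < Q ∧ ∀ g ∈ J, |(x • g).valMinAbs| * K ≤ (Q : ℤ) := by
  unfold bohr
  rw [mem_filter, mem_range]

/-- pigeonhole for Bohr sets -/
theorem card_bohr {Q : ℕ} [NeZero Q] (K : ℕ) (hK : 0 < K) (J : Finset (ZMod Q)) :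
    Q ≤ K ^ J.card * (bohr Q K J).card := by
  classical
  have hQ : 0 < Q := Nat.pos_of_ne_zero (NeZero.ne Q)
  let cell : ℕ → (J → ℕ) := fun x g => (x • (g : ZMod Q)).val * K / Q
  have hmaps : ∀ x ∈ range Q, cell x ∈ Fintype.piFinset fun _ : J => range K := by
    intro x _
    rw [Fintype.mem_piFinset]
    intro g
    rw [mem_range]
    change (x • (g : ZMod Q)).val * K / Q < K
    rw [Nat.div_lt_iff_lt_mul hQ, mul_comm K Q]
    exact Nat.mul_lt_mul_of_pos_right (ZMod.val_lt _) hK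
  have hcard : (Fintype.piFinset fun _ : J => range K).card = K ^ J.card := by
    rw [Fintype.card_piFinset, Finset.prod_const, card_range, Finset.card_univ, Fintype.card_coe]
  have hfib : ∀ y ∈ Fintype.piFinset (fun _ : J => range K),
      ((range Q).filter fun x => cell x = y).card ≤ (bohr Q K J).card := by
    intro y _
    by_cases hne : ((range Q).filter fun x => cell x = y).Nonempty
    swap
    · rw [Finset.not_nonempty_iff_eq_empty] at hne
      rw [hne, card_empty]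
      exact Nat.zero_le _
    obtain ⟨x₀, hx₀, hmin⟩ := Finset.exists_min_image _ (fun x => x) hne
    refine Finset.card_le_card_of_injOn (fun x => x - x₀) (fun x hx => ?_) ?_
    · have hx' := mem_filter.1 (Finset.mem_coe.1 hx)
      have hx0' := mem_filter.1 hx₀
      have hle : x₀ ≤ x := hmin x hx
      have hxQ : x < Q := mem_range.1 hx'.1
      rw [Finset.mem_coe, mem_bohr]
      refine ⟨(Nat.sub_le x x₀).trans_lt hxQ, fun g hg => ?_⟩
      dsimp only
      have h1 : (x - x₀) • g = x • g - x₀ • g := by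
        rw [eq_sub_iff_add_eq, ← add_nsmul, Nat.sub_add_cancel hle]
      have h2 : (x • g).val * K / Q = (x₀ • g).val * K / Q := by
        have := congrFun (hx'.2.trans hx0'.2.symm) ⟨g, hg⟩
        exact this
      set A := (x • g).val with hA
      set B := (x₀ • g).val with hB
      have h3 : ((((A : ℤ) - (B : ℤ) : ℤ)) : ZMod Q) = (x - x₀) • g := by
        rw [h1, Int.cast_sub, Int.cast_natCast, Int.cast_natCast, hA, hB, ZMod.natCast_zmod_val,
          ZMod.natCast_zmod_val]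
      have h4 : |((x - x₀) • g).valMinAbs| ≤ |(A : ℤ) - (B : ℤ)| := by
        exact abs_min _ _ h3
      have h6 : |(A : ℤ) - (B : ℤ)| * K ≤ Q := by
        have e1 := Nat.div_add_mod (A * K) Q
        have e2 := Nat.div_add_mod (B * K) Q
        have e3 := Nat.mod_lt (A * K) hQ
        have e4 := Nat.mod_lt (B * K) hQ
        rw [h2] at e1
        have e5 : ((A : ℤ) - B) * K = ((A * K % Q : ℕ) : ℤ) - ((B * K % Q : ℕ) : ℤ) := by
          have e1' : ((Q * (B * K / Q) : ℕ) : ℤ) + ((A * K % Q : ℕ) : ℤ) = (A : ℤ) * K := by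
            exact_mod_cast e1
          have e2' : ((Q * (B * K / Q) : ℕ) : ℤ) + ((B * K % Q : ℕ) : ℤ) = (B : ℤ) * K := by
            exact_mod_cast e2
          linarith
        have e6 : |(A : ℤ) - (B : ℤ)| * K = |((A : ℤ) - B) * K| := by
          rw [abs_mul, Nat.abs_cast]
        rw [e6, e5, abs_le]
        constructor <;> omega
      exact (mul_le_mul_of_nonneg_right h4 (Nat.cast_nonneg K)).trans h6
    · intro a ha b hb hab
      have h1 : x₀ ≤ a := hmin a ha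
      have h2 : x₀ ≤ b := hmin b hb
      have h3 : a - x₀ = b - x₀ := hab
      omega
  have h := Finset.card_le_mul_card_image_of_maps_to hmaps _ hfib
  rw [card_range, hcard] at h
  linarith [Nat.mul_comm (bohr Q K J).card (K ^ J.card)]

/-- the combinations with small coefficients -/
theorem comb {Q : ℕ} [NeZero Q] (H : ℕ) (J : Finset (ZMod Q)) :
    ∃ W : Finset (ZMod Q), W.card ≤ (2 * H + 1) ^ J.card ∧
      ∀ w, w ∈ W ↔ ∃ a : ZMod Q → ℤ, (∀ g, |a g| ≤ H) ∧ w = ∑ g ∈ J, a g • g := by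
  classical
  refine ⟨(Finset.univ : Finset (J → Fin (2 * H + 1))).image
    fun b => ∑ g : J, (((b g : ℕ) : ℤ) - H) • (g : ZMod Q), ?_, fun w => ⟨?_, ?_⟩⟩
  · refine Finset.card_image_le.trans ?_
    rw [Finset.card_univ, Fintype.card_fun, Fintype.card_fin, Fintype.card_coe]
  · intro hw
    obtain ⟨b, -, rfl⟩ := Finset.mem_image.1 hw
    refine ⟨fun g => if hg : g ∈ J then ((b ⟨g, hg⟩ : ℕ) : ℤ) - H else 0, fun g => ?_, ?_⟩
    · dsimp only
      split_ifs with hg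
      · have := (b ⟨g, hg⟩).2
        rw [abs_le]
        constructor <;> omega
      · rw [abs_zero]
        exact Nat.cast_nonneg H
    · rw [← Finset.sum_coe_sort J]
      refine Finset.sum_congr rfl fun g _ => ?_
      dsimp only
      rw [dif_pos g.2]
  · rintro ⟨a, ha, rfl⟩
    refine Finset.mem_image.2 ⟨fun g => ⟨(a g + H).toNat, ?_⟩, Finset.mem_univ _, ?_⟩
    · have := abs_le.1 (ha g)
      omega
    · rw [← Finset.sum_coe_sort J]
      refine Finset.sum_congr rfl fun g _ => ?_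
      have h1 := abs_le.1 (ha g)
      have h2 : (((a g + H).toNat : ℕ) : ℤ) - H = a g := by omega
      dsimp only
      rw [h2]

theorem step {Q : ℕ} [NeZero Q] (p c h K Y1 N : ℕ) (J W : Finset (ZMod Q)) (hp : p.Prime)
    (hQp : p ∣ Q) (hc : c = 0 → Y1 ≤ p) (hK : 0 < K)
    (hW : ∀ w ∈ W, w ≠ 0 → Y1 ≤ addOrderOf ((h * p ^ c) • w))
    (hY : K ^ J.card * (W.card ^ (N + 2) + 1) < Y1) (u : Fin N → ℕ) :
    ∃ x ∈ bohr Q K J, ¬ p ∣ 1 + p ^ c * x ∧ ∀ w : Fin (N + 2) → ZMod Q, (∀ l, w l ∈ W) →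
      w (Fin.last (N + 1)) ≠ 0 →
      h • (w 0 + ∑ l : Fin N, (1 + p ^ c * u l) • w l.castSucc.succ +
        (1 + p ^ c * x) • w (Fin.last (N + 1))) ≠ 0 := by
  classical
  have hQ : 0 < Q := Nat.pos_of_ne_zero (NeZero.ne Q)
  let C : (Fin (N + 2) → ZMod Q) → ZMod Q := fun w =>
    h • (w 0 + ∑ l : Fin N, (1 + p ^ c * u l) • w l.castSucc.succ + w (Fin.last (N + 1)))
  let z : (Fin (N + 2) → ZMod Q) → ZMod Q := fun w => (h * p ^ c) • w (Fin.last (N + 1))
  let T : Finset (Fin (N + 2) → ZMod Q) :=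
    (Fintype.piFinset fun _ => W).filter fun w => w (Fin.last (N + 1)) ≠ 0
  let Bad1 : Finset ℕ := (range Q).filter fun x => p ∣ 1 + p ^ c * x
  let Bad2 : Finset ℕ := T.biUnion fun w => (range Q).filter fun x => C w + x • z w = 0
  have hT : T.card ≤ W.card ^ (N + 2) := by
    refine (Finset.card_filter_le _ _).trans ?_
    rw [Fintype.card_piFinset, Finset.prod_const, Finset.card_univ, Fintype.card_fin]
  have hb1 : Bad1.card * Y1 ≤ Q := by
    rcases Nat.eq_zero_or_pos c with rfl | hc0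
    · have h1 := card_dvd hQp
      have h2 : Bad1 = (range Q).filter fun x => p ∣ 1 + x := by
        refine Finset.filter_congr fun x _ => ?_
        rw [pow_zero, one_mul]
      rw [h2]
      exact (Nat.mul_le_mul_left _ (hc rfl)).trans h1
    · have h2 : Bad1 = ∅ := by
        refine Finset.filter_eq_empty_iff.2 fun x _ hx => ?_
        have h3 : p ∣ p ^ c * x := (dvd_pow_self p hc0.ne').mul_right x
        have h4 : p ∣ 1 := (Nat.dvd_add_left h3).1 hx
        exact hp.one_lt.ne' (Nat.dvd_one.1 h4)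
      rw [h2, card_empty, zero_mul]
      exact Nat.zero_le _
  have hb2 : Bad2.card * Y1 ≤ W.card ^ (N + 2) * Q := by
    calc Bad2.card * Y1 ≤ (∑ w ∈ T, ((range Q).filter fun x => C w + x • z w = 0).card) * Y1 :=
          Nat.mul_le_mul_right _ Finset.card_biUnion_le
      _ = ∑ w ∈ T, ((range Q).filter fun x => C w + x • z w = 0).card * Y1 := Finset.sum_mul _ _ _
      _ ≤ ∑ _w ∈ T, Q := by
          refine Finset.sum_le_sum fun w hw => ?_
          have h1 := Finset.mem_filter.1 hw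
          have h2 := hW _ ((Fintype.mem_piFinset.1 h1.1) (Fin.last (N + 1))) h1.2
          exact (Nat.mul_le_mul_left _ h2).trans (card_sol (C w) (z w))
      _ = T.card * Q := by rw [Finset.sum_const, smul_eq_mul]
      _ ≤ W.card ^ (N + 2) * Q := Nat.mul_le_mul_right _ hT
  have hlt : (Bad1 ∪ Bad2).card < (bohr Q K J).card := by
    by_contra hcon
    rw [not_lt] at hcon
    have h1 := card_bohr K hK J
    have h2 : (Bad1 ∪ Bad2).card * Y1 ≤ (W.card ^ (N + 2) + 1) * Q := by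
      calc (Bad1 ∪ Bad2).card * Y1 ≤ (Bad1.card + Bad2.card) * Y1 :=
            Nat.mul_le_mul_right _ (Finset.card_union_le _ _)
        _ = Bad1.card * Y1 + Bad2.card * Y1 := add_mul _ _ _
        _ ≤ Q + W.card ^ (N + 2) * Q := Nat.add_le_add hb1 hb2
        _ = _ := by ring
    have h3 : Q * Y1 ≤ Q * (K ^ J.card * (W.card ^ (N + 2) + 1)) := by
      calc Q * Y1 ≤ K ^ J.card * (bohr Q K J).card * Y1 := Nat.mul_le_mul_right _ h1
        _ = K ^ J.card * ((bohr Q K J).card * Y1) := mul_assoc _ _ _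
        _ ≤ K ^ J.card * ((Bad1 ∪ Bad2).card * Y1) :=
            Nat.mul_le_mul_left _ (Nat.mul_le_mul_right _ hcon)
        _ ≤ K ^ J.card * ((W.card ^ (N + 2) + 1) * Q) := Nat.mul_le_mul_left _ h2
        _ = _ := by ring
    exact absurd (Nat.le_of_mul_le_mul_left h3 hQ) (not_le.2 hY)
  obtain ⟨x, hx, hxb⟩ := Finset.exists_mem_notMem_of_card_lt_card hlt
  have hxQ : x ∈ range Q := mem_range.2 (mem_bohr.1 hx).1
  refine ⟨x, hx, fun hdvd => hxb (Finset.mem_union_left _ (Finset.mem_filter.2 ⟨hxQ, hdvd⟩)), ?_⟩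
  intro w hw hlast heq
  refine hxb (Finset.mem_union_right _ (Finset.mem_biUnion.2 ⟨w, ?_, ?_⟩))
  · exact Finset.mem_filter.2 ⟨Fintype.mem_piFinset.2 hw, hlast⟩
  · refine Finset.mem_filter.2 ⟨hxQ, ?_⟩
    rw [← heq]
    change h • (w 0 + ∑ l : Fin N, (1 + p ^ c * u l) • w l.castSucc.succ +
      w (Fin.last (N + 1))) + x • ((h * p ^ c) • w (Fin.last (N + 1))) = _
    rw [add_smul 1 (p ^ c * x), one_smul, ← add_assoc, smul_add h _ ((p ^ c * x) • _), smul_smul,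
      smul_smul]
    congr 2
    ring

theorem main {Q : ℕ} [NeZero Q] (p c h K Y1 n : ℕ) (J W : Finset (ZMod Q)) (hp : p.Prime)
    (hQp : p ∣ Q) (hc : c = 0 → Y1 ≤ p) (hK : 0 < K) (hY2 : 2 ≤ Y1)
    (hW : ∀ w ∈ W, w ≠ 0 → Y1 ≤ addOrderOf ((h * p ^ c) • w))
    (hY : ∀ N ≤ n, K ^ J.card * (W.card ^ (N + 2) + 1) < Y1) : ∀ N ≤ n + 1,
    ∃ u : Fin N → ℕ, (∀ l, u l ∈ bohr Q K J) ∧ (∀ l, ¬ p ∣ 1 + p ^ c * u l) ∧
      ∀ w : Fin (N + 1) → ZMod Q, (∀ l, w l ∈ W) →
        h • (w 0 + ∑ l : Fin N, (1 + p ^ c * u l) • w l.succ) = 0 → ∀ l, w l = 0 := by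
  intro N
  induction N with
  | zero =>
    intro _
    refine ⟨Fin.elim0, fun l => l.elim0, fun l => l.elim0, fun w hw h0 l => ?_⟩
    rw [Finset.univ_eq_empty, Finset.sum_empty, add_zero] at h0
    rw [Subsingleton.elim (α := Fin 1) l 0]
    by_contra hne
    have h1 := hW _ (hw 0) hne
    rw [mul_comm h, mul_smul, h0, smul_zero, addOrderOf_zero] at h1
    omega
  | succ N ih =>
    intro hN
    obtain ⟨u, hu1, hu2, hu3⟩ := ih (by omega)
    obtain ⟨x, hx1, hx2, hx3⟩ := step p c h K Y1 N J W hp hQp hc hK hW (hY N (by omega)) u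
    refine ⟨Fin.snoc (α := fun _ => ℕ) u x, fun l => ?_, fun l => ?_, fun w hw h0 => ?_⟩
    · refine Fin.lastCases ?_ (fun l => ?_) l
      · rwa [Fin.snoc_last]
      · rw [Fin.snoc_castSucc]
        exact hu1 l
    · refine Fin.lastCases ?_ (fun l => ?_) l
      · rwa [Fin.snoc_last]
      · rw [Fin.snoc_castSucc]
        exact hu2 l
    · rw [Fin.sum_univ_castSucc] at h0
      simp only [Fin.snoc_castSucc, Fin.snoc_last, Fin.succ_last] at h0
      rw [← add_assoc] at h0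
      have hlast : w (Fin.last (N + 1)) = 0 := by
        by_contra hne
        exact hx3 w hw hne h0
      rw [hlast, smul_zero, add_zero] at h0
      have h1 := hu3 (fun l => w l.castSucc) (fun l => hw _) (by
        simp only [Fin.castSucc_zero, ← Fin.succ_castSucc]
        exact h0)
      intro l
      refine Fin.lastCases hlast (fun l => ?_) l
      exact h1 l

end Pool.Agent.Lib.MPcb8a44.AB.BOM

namespace Pool.Agent.Lib.MPcb8a44.AB

open BOM Finset

theorem specBO : SpecBO := by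
  intro r H h n hH hh
  refine ⟨(4 * r * H) ^ r * (((2 * H + 1) ^ r) ^ (n + 2) + 2) + 2, ?_⟩
  intro p e c Q _ hp hQe hc J hJ hord g0 hg0 hg0ord
  set Y1 := (4 * r * H) ^ r * (((2 * H + 1) ^ r) ^ (n + 2) + 2) + 2 with hY1
  have hQ : 0 < Q := Nat.pos_of_ne_zero (NeZero.ne Q)
  have hr : 1 ≤ r := (Finset.card_pos.2 ⟨g0, hg0⟩).trans_le hJ
  have hK : 0 < 4 * r * H := by positivity
  have hY2 : 2 ≤ Y1 := by omega
  have hQp : p ∣ Q := by
    rcases Nat.eq_zero_or_pos e with rfl | he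
    · exfalso
      rw [pow_zero] at hQe
      subst hQe
      rw [Subsingleton.elim g0 0, addOrderOf_zero] at hg0ord
      omega
    · rw [hQe]
      exact dvd_pow_self p he.ne'
  obtain ⟨W, hWc, hW⟩ := comb H J
  have hWr : W.card ≤ (2 * H + 1) ^ r := hWc.trans (Nat.pow_le_pow_right (by omega) hJ)
  have hKr : (4 * r * H) ^ J.card ≤ (4 * r * H) ^ r := Nat.pow_le_pow_right hK hJ
  have hY : ∀ N ≤ n, (4 * r * H) ^ J.card * (W.card ^ (N + 2) + 1) < Y1 := by
    intro N hN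
    have h1 : W.card ^ (N + 2) ≤ ((2 * H + 1) ^ r) ^ (n + 2) :=
      (Nat.pow_le_pow_left hWr _).trans
        (Nat.pow_le_pow_right (Nat.pos_of_ne_zero (by positivity)) (by omega))
    calc (4 * r * H) ^ J.card * (W.card ^ (N + 2) + 1)
        ≤ (4 * r * H) ^ r * (((2 * H + 1) ^ r) ^ (n + 2) + 2) :=
          Nat.mul_le_mul hKr (by omega)
      _ < Y1 := by omega
  have hWo : ∀ w ∈ W, w ≠ 0 → Y1 ≤ addOrderOf ((h * p ^ c) • w) := by
    intro w hw hne
    obtain ⟨a, ha, rfl⟩ := (hW w).1 hw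
    exact hord a ha hne
  obtain ⟨u, hu1, hu2, hu3⟩ := main p c h (4 * r * H) Y1 n J W hp hQp hc hK hY2 hWo hY (n + 1)
    le_rfl
  have hbohr : ∀ x ∈ bohr Q (4 * r * H) J, ∀ g ∈ J,
      |((x : ℕ) • g).valMinAbs| * (4 * r * H) ≤ (Q : ℤ) := by
    intro x hx g hg
    have h1 := (mem_bohr.1 hx).2 g hg
    push_cast at h1
    exact h1
  have hus : ∃ us ∈ bohr Q (4 * r * H) J, us • g0 ≠ 0 := by
    classical
    have hlt : ((range Q).filter fun x => (0 : ZMod Q) + x • g0 = 0).card <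
        (bohr Q (4 * r * H) J).card := by
      by_contra hcon
      rw [not_lt] at hcon
      have h1 := card_bohr (4 * r * H) hK J
      have h2 := card_sol (0 : ZMod Q) g0
      have h3 : Q * Y1 ≤ Q * (4 * r * H) ^ r := by
        calc Q * Y1 ≤ (4 * r * H) ^ J.card * (bohr Q (4 * r * H) J).card * Y1 :=
              Nat.mul_le_mul_right _ h1
          _ = (4 * r * H) ^ J.card * ((bohr Q (4 * r * H) J).card * Y1) := mul_assoc _ _ _
          _ ≤ (4 * r * H) ^ r * (((range Q).filter fun x => (0 : ZMod Q) + x • g0 = 0).card *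
                addOrderOf g0) :=
              Nat.mul_le_mul hKr (Nat.mul_le_mul hcon hg0ord)
          _ ≤ (4 * r * H) ^ r * Q := Nat.mul_le_mul_left _ h2
          _ = _ := mul_comm _ _
      have h4 := Nat.le_of_mul_le_mul_left h3 hQ
      have h5 : (4 * r * H) ^ r ≤ (4 * r * H) ^ r * (((2 * H + 1) ^ r) ^ (n + 2) + 2) :=
        Nat.le_mul_of_pos_right _ (by omega)
      omega
    obtain ⟨x, hx, hxn⟩ := Finset.exists_mem_notMem_of_card_lt_card hlt
    refine ⟨x, hx, fun h0 => hxn (Finset.mem_filter.2 ⟨mem_range.2 (mem_bohr.1 hx).1, ?_⟩)⟩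
    rw [zero_add]
    exact h0
  obtain ⟨us, hus1, hus2⟩ := hus
  refine ⟨us, u, hbohr us hus1, fun l => hbohr _ (hu1 l), hus2, hu2, fun w hw h0 => ?_⟩
  refine hu3 w (fun l => ?_) h0
  exact (hW _).2 (hw l)

end Pool.Agent.Lib.MPcb8a44.AB
end

section
set_option autoImplicit false

namespace Pool.Agent.Lib.MPcb8a44.AB

open Polynomial

namespace GuM

lemma ze_mem (N : ℕ) : ze N ∈ Cyc N := IntermediateField.mem_adjoin_simple_self ℚ (ze N)

lemma ze_zpow (N : ℕ) (z : ℤ) : ze N ^ z = Complex.exp (z * (2 * Real.pi * Complex.I / N)) := by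
  rw [ze, Complex.exp_int_mul]

lemma ze_split (a b : ℕ) (ha : 0 < a) (hb : 0 < b) (h : Nat.Coprime a b) :
    ∃ u v : ℤ, ze (a * b) = ze a ^ u * ze b ^ v := by
  obtain ⟨v, u, huv⟩ : IsCoprime (a : ℤ) (b : ℤ) := Nat.isCoprime_iff_coprime.mpr h
  refine ⟨u, v, ?_⟩
  have ha' : (a : ℂ) ≠ 0 := by exact_mod_cast ha.ne'
  have hb' : (b : ℂ) ≠ 0 := by exact_mod_cast hb.ne'
  have huv' : (v : ℂ) * a + u * b = 1 := by exact_mod_cast huv
  rw [ze_zpow, ze_zpow, ← Complex.exp_add, ze]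
  congr 1
  push_cast
  have h1 : (u : ℂ) * (2 * Real.pi * Complex.I / a) + v * (2 * Real.pi * Complex.I / b) =
      (v * a + u * b) * (2 * Real.pi * Complex.I) / (a * b) := by
    field_simp
    ring
  rw [h1, huv', one_mul]

/-- The degree of `ze (p ^ k)` over `Cyc (N0 * p ^ c)` is at least `p ^ (k - c)`. -/
lemma deg_ge (hCB : SpecCB) (p N0 k c : ℕ) (hp : p.Prime) (hN0 : 0 < N0) (hpN : ¬ p ∣ N0)
    (hc : 1 ≤ c) (hck : c ≤ k) :
    p ^ (k - c) ≤ (minpoly (Cyc (N0 * p ^ c)) (ze (p ^ k))).natDegree := by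
  have hP : 0 < p ^ k := pow_pos hp.pos k
  have hPc : 0 < p ^ c := pow_pos hp.pos c
  have hM : 0 < N0 * p ^ c := Nat.mul_pos hN0 hPc
  have hN : 0 < N0 * p ^ k := Nat.mul_pos hN0 hP
  set F := Cyc (N0 * p ^ c) with hF
  have hintQ : IsIntegral ℚ (ze (p ^ k)) := ((IntM.prim _ hP).isIntegral hP).tower_top
  have hintF : IsIntegral F (ze (p ^ k)) := hintQ.tower_top
  have hfin : FiniteDimensional ℚ F := hCB.2.2.2.1 _ hM
  have hfinE : FiniteDimensional ℚ (Cyc (N0 * p ^ k)) := hCB.2.2.2.1 _ hN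
  set L := IntermediateField.adjoin F {ze (p ^ k)} with hL
  have hfinL : FiniteDimensional F L := IntermediateField.adjoin.finiteDimensional hintF
  have hdeg : Module.finrank F L = (minpoly F (ze (p ^ k))).natDegree :=
    IntermediateField.adjoin.finrank hintF
  have htow : Module.finrank ℚ F * Module.finrank F L = Module.finrank ℚ L :=
    Module.finrank_mul_finrank ℚ F L
  have hfinQL : FiniteDimensional ℚ L := FiniteDimensional.trans ℚ F L
  -- `E ≤ L`
  have hcop : Nat.Coprime N0 (p ^ k) := by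
    apply Nat.Coprime.pow_right
    exact ((Nat.Prime.coprime_iff_not_dvd hp).mpr hpN).symm
  have hzN0 : ze N0 ∈ F := by
    rw [hCB.2.1 N0 (N0 * p ^ c) hM (Dvd.intro _ rfl)]
    exact pow_mem (ze_mem _) _
  have hzL1 : ze N0 ∈ L := by
    have h := IntermediateField.algebraMap_mem L (⟨ze N0, hzN0⟩ : F)
    exact h
  have hzL2 : ze (p ^ k) ∈ L := IntermediateField.mem_adjoin_simple_self F _
  have hzL : ze (N0 * p ^ k) ∈ L := by
    obtain ⟨u, v, huv⟩ := ze_split N0 (p ^ k) hN0 hP hcop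
    rw [huv]
    exact mul_mem (zpow_mem hzL1 u) (zpow_mem hzL2 v)
  have hEL : Cyc (N0 * p ^ k) ≤ IntermediateField.restrictScalars ℚ L := by
    rw [Cyc, IntermediateField.adjoin_simple_le_iff]
    exact hzL
  have hle : Module.finrank ℚ (Cyc (N0 * p ^ k)) ≤ Module.finrank ℚ L := by
    have h1 : Module.finrank ℚ (Cyc (N0 * p ^ k)) ≤
        Module.finrank ℚ (IntermediateField.restrictScalars ℚ L) := by
      have : FiniteDimensional ℚ (IntermediateField.restrictScalars ℚ L) := hfinQL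
      exact Submodule.finrank_mono (s := (Cyc (N0 * p ^ k)).toSubalgebra.toSubmodule)
        (t := (IntermediateField.restrictScalars ℚ L).toSubalgebra.toSubmodule) hEL
    exact h1
  have hne1 : NeZero (N0 * p ^ k) := ⟨hN.ne'⟩
  have hne2 : NeZero (N0 * p ^ c) := ⟨hM.ne'⟩
  have hc1 := IntM.cyc _ hN
  have hc2 := IntM.cyc _ hM
  have hr1 : Module.finrank ℚ (Cyc (N0 * p ^ k)) = (N0 * p ^ k).totient :=
    IsCyclotomicExtension.Rat.finrank (N0 * p ^ k) (Cyc (N0 * p ^ k))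
  have hr2 : Module.finrank ℚ F = (N0 * p ^ c).totient :=
    IsCyclotomicExtension.Rat.finrank (N0 * p ^ c) (Cyc (N0 * p ^ c))
  have hcopc : Nat.Coprime N0 (p ^ c) := by
    apply Nat.Coprime.pow_right
    exact ((Nat.Prime.coprime_iff_not_dvd hp).mpr hpN).symm
  have hk : 1 ≤ k := le_trans hc hck
  rw [hr1, ← htow, hr2, hdeg, Nat.totient_mul hcop, Nat.totient_mul hcopc,
    Nat.totient_prime_pow hp hk, Nat.totient_prime_pow hp hc] at hle
  have hexp : p ^ (k - 1) = p ^ (c - 1) * p ^ (k - c) := by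
    rw [← pow_add]
    congr 1
    omega
  have hpos : 0 < N0.totient * (p ^ (c - 1) * (p - 1)) := by
    have h1 : 0 < N0.totient := Nat.totient_pos.mpr hN0
    have h2 : 0 < p ^ (c - 1) := pow_pos hp.pos _
    have h3 : 0 < p - 1 := Nat.sub_pos_of_lt hp.one_lt
    positivity
  rw [hexp] at hle
  refine Nat.le_of_mul_le_mul_left ?_ hpos
  calc N0.totient * (p ^ (c - 1) * (p - 1)) * p ^ (k - c)
      = N0.totient * (p ^ (c - 1) * p ^ (k - c) * (p - 1)) := by ring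
    _ ≤ _ := hle

end GuM

/-- GU: uniqueness of the graded expansion for `c ≥ 1`. -/
theorem specGU (hCB : SpecCB) : SpecGU := by
  intro p N0 k c Q _ hp hN0 hpN hc hck hQ Y hY hsum
  set F := Cyc (N0 * p ^ c) with hF
  choose a ha hYa using hY
  set z := ze (p ^ k) with hz
  have hzne : z ≠ 0 := Complex.exp_ne_zero _
  have hdeg := GuM.deg_ge hCB p N0 k c hp hN0 hpN hc hck
  rw [← hQ] at hdeg
  set P : F[X] := ∑ g : ZMod Q, C (⟨a g, ha g⟩ : F) * X ^ g.val with hP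
  have hPdeg : P.degree < Q := by
    rw [hP, ← mem_degreeLT]
    refine Submodule.sum_mem _ fun g _ => ?_
    rw [mem_degreeLT]
    refine lt_of_le_of_lt (degree_C_mul_X_pow_le _ _) ?_
    exact_mod_cast ZMod.val_lt g
  have hPev : aeval z P = 0 := by
    rw [hP, map_sum, ← hsum]
    refine Finset.sum_congr rfl fun g _ => ?_
    rw [map_mul, aeval_C, map_pow, aeval_X, hYa g]
    rfl
  have hP0 : P = 0 := by
    by_contra hne
    have h1 := minpoly.degree_le_of_ne_zero F z hne hPev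
    have h2 : (Q : WithBot ℕ) ≤ (minpoly F z).degree := by
      have hmne : minpoly F z ≠ 0 := by
        intro h0
        rw [h0, natDegree_zero] at hdeg
        exact NeZero.ne Q (by omega)
      rw [degree_eq_natDegree hmne]
      exact_mod_cast hdeg
    exact absurd (lt_of_le_of_lt (le_trans h2 h1) hPdeg) (lt_irrefl _)
  intro g
  have hcoef : P.coeff g.val = ⟨a g, ha g⟩ := by
    rw [hP, finsetSum_coeff]
    rw [Finset.sum_eq_single g]
    · rw [coeff_C_mul, coeff_X_pow_self, mul_one]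
    · intro b _ hb
      rw [coeff_C_mul, coeff_X_pow, if_neg, mul_zero]
      intro h
      exact hb (ZMod.val_injective Q h.symm)
    · intro h
      exact absurd (Finset.mem_univ g) h
  rw [hP0, coeff_zero] at hcoef
  have h0 : a g = 0 := by
    have := congrArg (Subtype.val) hcoef
    exact this.symm
  rw [hYa g, h0, zero_mul]

end Pool.Agent.Lib.MPcb8a44.AB
end

section
/-!
Theorem AB (MP_cb8a44_nt): short elements lie in a fixed cyclotomic field (module PS).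
-/
set_option autoImplicit false

namespace Pool.Agent.Lib.MPcb8a44.AB

/-- Module PS. -/
theorem specPS (hPSA : SpecPSA) (hPSB : SpecPSB) (hGCD : SpecGCD) (hCB : SpecCB) : SpecPS := by
  classical
  intro n T
  obtain ⟨P0, hA⟩ := hPSA n T
  obtain ⟨k0, hB⟩ := hPSB n T
  refine ⟨P0.factorial ^ k0, pow_pos P0.factorial_pos k0, ?_⟩
  intro N K hN hK hre hP x hxK hxI hxM
  have hex : ∃ N', N' ∣ N ∧ x ∈ Cyc N' := ⟨N, dvd_rfl, hK hxK⟩
  obtain ⟨hd, hx⟩ := Nat.find_spec hex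
  have hmin : ∀ m, m < Nat.find hex → ¬ (m ∣ N ∧ x ∈ Cyc m) := fun m hm => Nat.find_min hex hm
  generalize Nat.find hex = N' at hd hx hmin
  have hN' : 0 < N' := Nat.pos_of_dvd_of_pos hd hN
  have key : ∀ p, p.Prime → p ∣ N' → p < P0 ∧ N'.factorization p < k0 := by
    intro p hp hpN'
    by_contra hcon
    obtain ⟨k, hkdef⟩ : ∃ k, k = N'.factorization p := ⟨_, rfl⟩
    obtain ⟨k', hk'def⟩ : ∃ k', k' = N.factorization p := ⟨_, rfl⟩
    have hk : 1 ≤ k := by
      rw [hkdef]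
      exact (hp.dvd_iff_one_le_factorization hN'.ne').1 hpN'
    have hle : ∀ q, N'.factorization q ≤ N.factorization q :=
      fun q => (Nat.factorization_le_iff_dvd hN'.ne' hN.ne').2 hd q
    have hkk' : k ≤ k' := by rw [hkdef, hk'def]; exact hle p
    obtain ⟨N0, hN0⟩ : ∃ N0, N = N0 * p ^ k' := by
      rw [hk'def]
      exact ⟨N / p ^ N.factorization p, (Nat.div_mul_cancel (Nat.ordProj_dvd N p)).symm⟩
    have hN0pos : 0 < N0 := by
      rcases Nat.eq_zero_or_pos N0 with h | h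
      · rw [h, Nat.zero_mul] at hN0; omega
      · exact h
    have hfac : ∀ q, N.factorization q = N0.factorization q + k' * (if q = p then 1 else 0) := by
      intro q
      rw [hN0, Nat.factorization_mul hN0pos.ne' (pow_pos hp.pos k').ne', hp.factorization_pow]
      by_cases h : q = p
      · subst h; simp
      · simp [h]
    have hpN0 : ¬ p ∣ N0 := by
      intro h
      have h1 := (hp.dvd_iff_one_le_factorization hN0pos.ne').1 h
      have h2 := hfac p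
      simp only [if_true, mul_one] at h2
      omega
    have hdvd : N' ∣ N0 * p ^ k := by
      rw [← Nat.factorization_le_iff_dvd hN'.ne' (Nat.mul_pos hN0pos (pow_pos hp.pos k)).ne']
      intro q
      rw [Nat.factorization_mul hN0pos.ne' (pow_pos hp.pos k).ne', hp.factorization_pow]
      have h1 := hle q
      have h2 := hfac q
      by_cases h : q = p
      · subst h; simp [hkdef]
      · simp only [h, if_false, mul_zero, add_zero] at h2
        simp [Ne.symm h]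
        omega
    have hx1 : x ∈ Cyc (N0 * p ^ k) :=
      hCB.2.2.1 _ _ (Nat.mul_pos hN0pos (pow_pos hp.pos k)) hdvd hx
    have hx2 : x ∈ Cyc (N0 * p ^ (k - 1)) := by
      rcases not_and_or.1 hcon with h | h
      · exact hA p N0 k k' K hp (not_lt.1 h) hN0pos hpN0 hk hkk' (hN0 ▸ hK) hre hP x hxK hxI hxM hx1
      · exact hB p N0 k k' K hp (by rw [hkdef]; exact not_lt.1 h) hN0pos hpN0 hk hkk' (hN0 ▸ hK) hre
          hP x hxK hxI hxM hx1
    have hx3 : x ∈ Cyc (Nat.gcd N' (N0 * p ^ (k - 1))) :=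
      hGCD N' (N0 * p ^ (k - 1)) hN' (Nat.mul_pos hN0pos (pow_pos hp.pos _)) x hx hx2
    have hlt : Nat.gcd N' (N0 * p ^ (k - 1)) < N' := by
      refine lt_of_le_of_ne (Nat.gcd_le_left _ hN') fun heq => ?_
      have h1 : N' ∣ N0 * p ^ (k - 1) := heq ▸ Nat.gcd_dvd_right N' (N0 * p ^ (k - 1))
      have h2 : p ^ k ∣ N' := by rw [hkdef]; exact Nat.ordProj_dvd N' p
      have h3 : p ^ k ∣ N0 * p ^ (k - 1) := h2.trans h1
      have h4 : p ^ k = p * p ^ (k - 1) := by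
        rw [← pow_succ', Nat.sub_add_cancel hk]
      rw [h4] at h3
      exact hpN0 (Nat.dvd_of_mul_dvd_mul_right (pow_pos hp.pos _) h3)
    exact hmin _ hlt ⟨(Nat.gcd_dvd_left _ _).trans hd, hx3⟩
  have hdW : N' ∣ P0.factorial ^ k0 := by
    rw [← Nat.factorization_le_iff_dvd hN'.ne' (pow_pos P0.factorial_pos k0).ne']
    intro p
    rw [Nat.factorization_pow]
    simp only [Finsupp.smul_apply, smul_eq_mul]
    by_cases hp : p.Prime
    · by_cases hpN' : p ∣ N'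
      · obtain ⟨h1, h2⟩ := key p hp hpN'
        have h3 : 1 ≤ P0.factorial.factorization p :=
          (hp.dvd_iff_one_le_factorization P0.factorial_pos.ne').1 ((hp.dvd_factorial).2 h1.le)
        nlinarith
      · rw [Nat.factorization_eq_zero_of_not_dvd hpN']
        exact Nat.zero_le _
    · rw [Nat.factorization_eq_zero_of_not_prime _ hp]
      exact Nat.zero_le _
  exact hCB.2.2.1 _ _ (pow_pos P0.factorial_pos k0) hdW hx

end Pool.Agent.Lib.MPcb8a44.AB
end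

section
/-!
Module SPX of Theorem AB (MP_cb8a44_nt): the abstract sparse lemma (torus lemma), assembled from
Lemma H (SpecLH), Lemma B (SpecBO), the deformation lemma (SpecDF), the nonconstancy lemma (SpecNC) and
the second derivative argument (SpecAN).
-/
set_option autoImplicit false

namespace Pool.Agent.Lib.MPcb8a44.AB

open scoped BigOperators ComplexConjugate

namespace SpxM

/-! ### the function `ee` -/

lemma ee_zero : ee 0 = 1 := by simp [ee]

lemma ee_add (s t : ℝ) : ee (s + t) = ee s * ee t := by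
  rw [ee, ee, ee, ← Complex.exp_add]
  congr 1
  push_cast
  ring

lemma ee_int (z : ℤ) : ee (z : ℝ) = 1 := by
  rw [ee]
  have : (2 * Real.pi * Complex.I * ((z : ℝ) : ℂ) : ℂ) = (z : ℂ) * (2 * Real.pi * Complex.I) := by
    push_cast
    ring
  rw [this]
  exact Complex.exp_int_mul_two_pi_mul_I z

lemma conj_ee (t : ℝ) : conj (ee t) = ee (-t) := by
  rw [ee, ee, ← Complex.exp_conj]
  congr 1
  simp only [map_mul, Complex.conj_I, Complex.conj_ofReal, map_ofNat]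
  push_cast
  ring

/-! ### general index sets -/

/-- Lemma H for a finite index type with at most `m` elements. -/
lemma lh_gen {m H h : ℕ}
    (hLH : ∀ (Q : ℕ) [NeZero Q] (i : Fin m → ZMod Q) (I0 : Finset (Fin m)) (η : Fin m → ℝ),
      (∀ c : Fin m → ℤ, (∀ a, |c a| ≤ H) → (∀ a, a ∉ I0 → c a = 0) →
        (h : ℤ) • ∑ a, c a • i a = 0 → ∑ a, (c a : ℝ) * η a = 0) →
      ∃ δ : Fin m → ℝ, (∀ a ∈ I0, δ a = η a) ∧
        ∀ a b a' b', i a + i b = i a' + i b' → δ a + δ b = δ a' + δ b')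
    (Q : ℕ) [NeZero Q] (I : Type) [Fintype I] [Nonempty I] (hI : Fintype.card I ≤ m)
    (i : I → ZMod Q) (P : I → Prop) (η : I → ℝ)
    (hc : ∀ c : I → ℤ, (∀ a, |c a| ≤ H) → (∀ a, ¬ P a → c a = 0) →
      (h : ℤ) • ∑ a, c a • i a = 0 → ∑ a, (c a : ℝ) * η a = 0) :
    ∃ δ : I → ℝ, (∀ a, P a → δ a = η a) ∧
      ∀ a b a' b', i a + i b = i a' + i b' → δ a + δ b = δ a' + δ b' := by
  classical
  obtain ⟨φ⟩ : Nonempty (I ↪ Fin m) :=
    Function.Embedding.nonempty_of_card_le (by simpa using hI)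
  have hψ : ∀ a, Function.invFun φ (φ a) = a := Function.leftInverse_invFun φ.injective
  set ψ := Function.invFun φ with hψd
  obtain ⟨δ, h1, h2⟩ := hLH Q (fun b => i (ψ b)) ((Finset.univ.filter P).map φ)
    (fun b => η (ψ b)) (by
      intro c hcH hc0 hc1
      have hout : ∀ b, b ∉ Set.range φ → c b = 0 := by
        intro b hb
        apply hc0
        intro h
        obtain ⟨a, -, rfl⟩ := Finset.mem_map.mp h
        exact hb ⟨a, rfl⟩
      have e1 : ∑ a, c (φ a) • i a = ∑ b, c b • i (ψ b) := by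
        refine Fintype.sum_of_injective φ φ.injective _ _ (fun b hb => ?_) fun a => ?_
        · rw [hout b hb, zero_smul]
        · rw [hψ]
      have e2 : ∑ a, (c (φ a) : ℝ) * η a = ∑ b, (c b : ℝ) * η (ψ b) := by
        refine Fintype.sum_of_injective φ φ.injective _ _ (fun b hb => ?_) fun a => ?_
        · rw [hout b hb, Int.cast_zero, zero_mul]
        · rw [hψ]
      rw [← e2]
      refine hc (fun a => c (φ a)) (fun a => hcH _) (fun a ha => hc0 _ fun h => ?_) (by rw [e1, hc1])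
      obtain ⟨a', ha', he⟩ := Finset.mem_map.mp h
      rw [φ.injective he] at ha'
      exact ha (Finset.mem_filter.mp ha').2)
  refine ⟨fun a => δ (φ a), fun a ha => ?_, fun a b a' b' hab => ?_⟩
  · have := h1 (φ a) (Finset.mem_map.mpr ⟨a, Finset.mem_filter.mpr ⟨Finset.mem_univ a, ha⟩, rfl⟩)
    show δ (φ a) = η a
    rw [this, hψ]
  · apply h2
    simpa [hψ] using hab

/-- The deformation lemma for general finite index types. -/
lemma df_gen (hDF : SpecDF) (Q : ℕ) [NeZero Q] (Lg : ZMod Q → AddSubgroup ℂ) (R m : ℕ)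
    (hm : m ^ 2 ≤ R) (hmul : ∀ g h x y, x ∈ Lg g → y ∈ Lg h → x * y ∈ Lg (g + h))
    (huniq : ∀ (S : Finset (ZMod Q)) (y : ZMod Q → ℂ), S.card ≤ R → (∀ g ∈ S, y g ∈ Lg g) →
      ∑ g ∈ S, y g = 0 → ∀ g ∈ S, y g = 0)
    (I J : Type) [Fintype I] [Fintype J] [Nonempty I] (hI : Fintype.card I ≤ m)
    (i : I → ZMod Q) (ε : J → ℤ) (Y : J → I → ℂ) (δ : I → ℝ)
    (hY : ∀ j a, Y j a ∈ Lg (i a))
    (hδ : ∀ a b a' b', i a + i b = i a' + i b' → δ a + δ b = δ a' + δ b')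
    (h0 : ∑ j, (ε j : ℂ) * (∑ a, Y j a) ^ 2 = 0) :
    ∑ j, (ε j : ℂ) * (∑ a, Y j a * ee (δ a)) ^ 2 = 0 := by
  classical
  obtain ⟨φ⟩ : Nonempty (I ↪ Fin m) :=
    Function.Embedding.nonempty_of_card_le (by simpa using hI)
  have hψ : ∀ a, Function.invFun φ (φ a) = a := Function.leftInverse_invFun φ.injective
  set ψ := Function.invFun φ with hψd
  set e := Fintype.equivFin J with he
  have hsum : ∀ (j : J) (θ : I → ℝ), ∑ a, Y j a * ee (θ a) =
      ∑ b, (if b ∈ Set.range φ then Y j (ψ b) else 0) * ee (θ (ψ b)) := by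
    intro j θ
    refine Fintype.sum_of_injective φ φ.injective _ _ (fun b hb => ?_) fun a => ?_
    · rw [if_neg hb, zero_mul]
    · rw [if_pos ⟨a, rfl⟩, hψ]
  have hsum0 : ∀ (j : J), ∑ a, Y j a =
      ∑ b, (if b ∈ Set.range φ then Y j (ψ b) else 0) := by
    intro j
    have := hsum j (fun _ => 0)
    simpa [ee_zero] using this
  have key := hDF Q Lg R m (Fintype.card J) hm hmul huniq (fun b => i (ψ b))
    (fun k => ε (e.symm k)) (fun k b => if b ∈ Set.range φ then Y (e.symm k) (ψ b) else 0)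
    (fun b => δ (ψ b)) (by
      intro k b
      by_cases hb : b ∈ Set.range φ
      · simp only [if_pos hb]
        exact hY _ _
      · simp only [if_neg hb]
        exact (Lg _).zero_mem) (fun a b a' b' h => hδ _ _ _ _ h) (by
      refine Eq.trans ?_ h0
      rw [← e.symm.sum_comp]
      refine Finset.sum_congr rfl fun k _ => ?_
      rw [hsum0])
  refine Eq.trans ?_ key
  rw [← e.symm.sum_comp]
  refine Finset.sum_congr rfl fun k _ => ?_
  rw [hsum]

/-! ### reality -/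

/-- A real sum stays real under an odd deformation. -/
lemma real_def (Q : ℕ) [NeZero Q] (Lg : ZMod Q → AddSubgroup ℂ) (R : ℕ)
    (hconj : ∀ g x, x ∈ Lg g → conj x ∈ Lg (-g))
    (huniq : ∀ (S : Finset (ZMod Q)) (y : ZMod Q → ℂ), S.card ≤ R → (∀ g ∈ S, y g ∈ Lg g) →
      ∑ g ∈ S, y g = 0 → ∀ g ∈ S, y g = 0)
    (S : Finset (ZMod Q)) (hS : 2 * S.card ≤ R) (y : ZMod Q → ℂ) (hy : ∀ g ∈ S, y g ∈ Lg g)
    (him : (∑ g ∈ S, y g).im = 0) :
    (∀ g ∈ S, y g ≠ 0 → -g ∈ S) ∧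
    ∀ θ : ZMod Q → ℝ, (∀ g ∈ S, -g ∈ S → θ g + θ (-g) = 0) → (∑ g ∈ S, y g * ee (θ g)).im = 0 := by
  classical
  set z : ZMod Q → ℂ := fun g => if g ∈ S then y g else 0 with hz
  have hzm : ∀ g, z g ∈ Lg g := by
    intro g
    by_cases hg : g ∈ S
    · simp only [hz, if_pos hg]; exact hy g hg
    · simp only [hz, if_neg hg]; exact (Lg g).zero_mem
  set T := S ∪ S.image (fun g => -g) with hT
  have hTc : T.card ≤ R := by
    refine (Finset.card_union_le _ _).trans ?_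
    have := Finset.card_image_le (s := S) (f := fun g : ZMod Q => -g)
    omega
  have hzT : ∀ g, g ∉ T → z g = 0 := by
    intro g hg
    have : g ∉ S := fun h => hg (Finset.mem_union_left _ h)
    simp only [hz, if_neg this]
  have hzT' : ∀ g, g ∉ T → z (-g) = 0 := by
    intro g hg
    have : -g ∉ S := fun h => hg (Finset.mem_union_right _ (Finset.mem_image.mpr ⟨-g, h, neg_neg g⟩))
    simp only [hz, if_neg this]
  have hsz : ∑ g ∈ S, y g = ∑ g, z g := by
    rw [Finset.sum_ite_mem]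
    simp
  have hsT : ∑ g ∈ T, (z g - conj (z (-g))) = 0 := by
    have e1 : ∑ g ∈ T, (z g - conj (z (-g))) = ∑ g, (z g - conj (z (-g))) := by
      refine Finset.sum_subset (Finset.subset_univ _) fun g _ hg => ?_
      rw [hzT g hg, hzT' g hg, map_zero, sub_zero]
    have e2 : ∑ g, conj (z (-g)) = conj (∑ g, z g) := by
      rw [map_sum]
      exact Equiv.sum_comp (Equiv.neg (ZMod Q)) (fun g => conj (z g))
    rw [e1, Finset.sum_sub_distrib, e2, ← hsz]
    rw [Complex.conj_eq_iff_im.mpr him, sub_self]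
  have hall : ∀ g, z g = conj (z (-g)) := by
    intro g
    by_cases hg : g ∈ T
    · have := huniq T (fun g => z g - conj (z (-g))) hTc (fun g _ => by
        have h2 := hconj _ _ (hzm (-g))
        rw [neg_neg] at h2
        exact (Lg g).sub_mem (hzm g) h2) hsT g hg
      exact sub_eq_zero.mp this
    · rw [hzT g hg, hzT' g hg, map_zero]
  have hsym : ∀ g, z g ≠ 0 → -g ∈ S := by
    intro g hg
    by_contra h
    apply hg
    rw [hall g]
    simp only [hz, if_neg h, map_zero]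
  refine ⟨fun g hg hne => hsym g (by simp only [hz, if_pos hg]; exact hne), fun θ hθ => ?_⟩
  have hs : ∑ g ∈ S, y g * ee (θ g) = ∑ g, z g * ee (θ g) := by
    have : ∀ g, z g * ee (θ g) = if g ∈ S then y g * ee (θ g) else 0 := by
      intro g
      by_cases hg : g ∈ S
      · simp only [hz, if_pos hg]
      · simp only [hz, if_neg hg, zero_mul]
    simp only [this]
    rw [Finset.sum_ite_mem]
    simp
  rw [hs, ← Complex.conj_eq_iff_im, map_sum]
  rw [← Equiv.sum_comp (Equiv.neg (ZMod Q)) (fun g => z g * ee (θ g))]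
  refine Finset.sum_congr rfl fun g _ => ?_
  rw [map_mul, conj_ee]
  show conj (z g) * ee (-θ g) = z (-g) * ee (θ (-g))
  have h1 : z (-g) = conj (z g) := by
    have := hall (-g)
    rwa [neg_neg] at this
  rw [h1]
  by_cases h0 : z g = 0
  · rw [h0]; simp
  · have hgS : g ∈ S := by
      by_contra h
      apply h0
      simp only [hz, if_neg h]
    have h2 := hθ g hgS (hsym g h0)
    have h3 : θ (-g) = -θ g := by linarith
    rw [h3]

/-! ### integers of small absolute value -/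

lemma sum_small (Q : ℕ) [NeZero Q] (J : Finset (ZMod Q)) (r H : ℕ) (hr : 0 < r)
    (hJ : J.card ≤ r) (c : J → ℤ) (hc : ∀ g, |c g| ≤ H) (hw : ∑ g : J, c g • (g : ZMod Q) = 0)
    (v : ℕ) (hv : ∀ g ∈ J, |((v : ℕ) • g).valMinAbs| * (4 * r * H) ≤ (Q : ℤ)) :
    ∑ g : J, (c g) * ((v • (g : ZMod Q)).valMinAbs) = 0 := by
  have hdvd : (Q : ℤ) ∣ ∑ g : J, (c g) * ((v • (g : ZMod Q)).valMinAbs) := by
    rw [← ZMod.intCast_zmod_eq_zero_iff_dvd]
    push_cast
    have : ∑ g : J, (c g : ZMod Q) * (v • (g : ZMod Q)) = v • ∑ g : J, c g • (g : ZMod Q) := by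
      rw [Finset.smul_sum]
      refine Finset.sum_congr rfl fun g _ => ?_
      simp only [zsmul_eq_mul, nsmul_eq_mul]
      ring
    rw [this, hw, smul_zero]
  have hQ : (0 : ℤ) < Q := by exact_mod_cast Nat.pos_of_ne_zero (NeZero.ne Q)
  refine Int.eq_zero_of_abs_lt_dvd hdvd ?_
  have h1 : |∑ g : J, (c g) * ((v • (g : ZMod Q)).valMinAbs)| * (4 * r) ≤ r * Q := by
    calc |∑ g : J, (c g) * ((v • (g : ZMod Q)).valMinAbs)| * (4 * r)
        ≤ (∑ g : J, |(c g) * ((v • (g : ZMod Q)).valMinAbs)|) * (4 * r) := by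
          refine mul_le_mul_of_nonneg_right (Finset.abs_sum_le_sum_abs _ _) (by positivity)
      _ = ∑ g : J, |c g| * |(v • (g : ZMod Q)).valMinAbs| * (4 * r) := by
          rw [Finset.sum_mul]
          refine Finset.sum_congr rfl fun g _ => by rw [abs_mul]
      _ ≤ ∑ _g : J, (Q : ℤ) := by
          refine Finset.sum_le_sum fun g _ => ?_
          have := hv g g.2
          have h2 := hc g
          have h3 : |c g| * |(v • (g : ZMod Q)).valMinAbs| * (4 * r) ≤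
              H * |(v • (g : ZMod Q)).valMinAbs| * (4 * r) := by gcongr
          linarith
      _ = (J.card : ℤ) * Q := by simp
      _ ≤ r * Q := by
          refine mul_le_mul_of_nonneg_right (by exact_mod_cast hJ) hQ.le
  have hr' : (0 : ℤ) < r := by exact_mod_cast hr
  nlinarith

/-- The index set of the pieces. -/
abbrev Ix (n Q : ℕ) (J : Finset (ZMod Q)) (S : Fin n → Finset (ZMod Q)) : Type :=
  Unit ⊕ ((Fin (n + 2) × J) ⊕ (Σ j : Fin n, S j))

/-- The degrees of the pieces. -/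
def ix (n Q : ℕ) (J : Finset (ZMod Q)) (S : Fin n → Finset (ZMod Q)) (s : Fin (n + 2) → ℕ) :
    Ix n Q J S → ZMod Q :=
  Sum.elim (fun _ => 0) (Sum.elim (fun a => s a.1 • (a.2 : ZMod Q)) (fun a => (a.2 : ZMod Q)))

lemma sum_ix {E : Type} [AddCommMonoid E] {n Q : ℕ} {J : Finset (ZMod Q)}
    {S : Fin n → Finset (ZMod Q)} (F : Ix n Q J S → E) :
    ∑ a, F a = F (Sum.inl ()) + (∑ l, ∑ g : J, F (Sum.inr (Sum.inl (l, g))) +
      ∑ j, ∑ g : S j, F (Sum.inr (Sum.inr ⟨j, g⟩))) := by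
  rw [Fintype.sum_sum_type, Fintype.sum_sum_type, Fintype.sum_prod_type, Fintype.sum_sigma]
  simp

/-- Existence of the exponents. -/
lemma ex_delta {n r m0 H h : ℕ} (hr : 0 < r)
    (lh : ∀ (Q : ℕ) [NeZero Q] (i : Fin m0 → ZMod Q) (I0 : Finset (Fin m0)) (η : Fin m0 → ℝ),
      (∀ c : Fin m0 → ℤ, (∀ a, |c a| ≤ H) → (∀ a, a ∉ I0 → c a = 0) →
        (h : ℤ) • ∑ a, c a • i a = 0 → ∑ a, (c a : ℝ) * η a = 0) →
      ∃ δ : Fin m0 → ℝ, (∀ a ∈ I0, δ a = η a) ∧
        ∀ a b a' b', i a + i b = i a' + i b' → δ a + δ b = δ a' + δ b')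
    (Q : ℕ) [NeZero Q] (J : Finset (ZMod Q)) (hJ : J.card ≤ r) (S : Fin n → Finset (ZMod Q))
    (hcard : Fintype.card (Ix n Q J S) ≤ m0) (s : Fin (n + 2) → ℕ)
    (hiv : ∀ w : Fin (n + 2) → ZMod Q,
      (∀ l, ∃ a : ZMod Q → ℤ, (∀ g, |a g| ≤ H) ∧ w l = ∑ g ∈ J, a g • g) →
      h • (∑ l, s l • w l) = 0 → ∀ l, w l = 0)
    (κ : Fin (n + 2) → ℝ) (v : Fin (n + 2) → ℕ)
    (hv : ∀ l, ∀ g ∈ J, |((v l : ℕ) • g).valMinAbs| * (4 * r * H) ≤ (Q : ℤ)) :
    ∃ δ : Ix n Q J S → ℝ, δ (Sum.inl ()) = 0 ∧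
      (∀ l (g : J), δ (Sum.inr (Sum.inl (l, g))) = κ l * ((v l • (g : ZMod Q)).valMinAbs : ℝ)) ∧
      ∀ a b a' b', ix n Q J S s a + ix n Q J S s b = ix n Q J S s a' + ix n Q J S s b' →
        δ a + δ b = δ a' + δ b' := by
  classical
  obtain ⟨δ, hδ1, hδ2⟩ := lh_gen lh Q (Ix n Q J S) hcard (ix n Q J S s)
    (Sum.elim (fun _ => True) (Sum.elim (fun _ => True) (fun _ => False)))
    (Sum.elim (fun _ => 0) (Sum.elim (fun a => κ a.1 * ((v a.1 • (a.2 : ZMod Q)).valMinAbs : ℝ))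
      (fun _ => 0))) (by
      intro c hcH hc0 hc1
      have hz : ∀ (j : Fin n) (g : S j), c (Sum.inr (Sum.inr ⟨j, g⟩)) = 0 :=
        fun j g => hc0 _ (by simp)
      have hs : ∑ a, c a • ix n Q J S s a =
          ∑ l, s l • ∑ g : J, c (Sum.inr (Sum.inl (l, g))) • (g : ZMod Q) := by
        rw [sum_ix]
        have e0 : c (Sum.inl ()) • ix n Q J S s (Sum.inl ()) = 0 := by simp [ix]
        have e2 : ∑ j, ∑ g : S j, c (Sum.inr (Sum.inr ⟨j, g⟩)) • ix n Q J S s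
            (Sum.inr (Sum.inr ⟨j, g⟩)) = 0 :=
          Finset.sum_eq_zero fun j _ => Finset.sum_eq_zero fun g _ => by rw [hz, zero_smul]
        rw [e0, e2, zero_add, add_zero]
        refine Finset.sum_congr rfl fun l _ => ?_
        rw [Finset.smul_sum]
        refine Finset.sum_congr rfl fun g _ => ?_
        show c (Sum.inr (Sum.inl (l, g))) • (s l • (g : ZMod Q)) = _
        rw [smul_comm]
      have hw := hiv (fun l => ∑ g : J, c (Sum.inr (Sum.inl (l, g))) • (g : ZMod Q)) (by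
        intro l
        refine ⟨fun g => if hg : g ∈ J then c (Sum.inr (Sum.inl (l, ⟨g, hg⟩))) else 0, ?_, ?_⟩
        · intro g
          by_cases hg : g ∈ J
          · simp only [dif_pos hg]
            exact hcH _
          · simp only [dif_neg hg, abs_zero]
            positivity
        · rw [← Finset.sum_coe_sort J]
          refine Finset.sum_congr rfl fun g _ => ?_
          simp) (by
        rw [← hs]
        simpa using hc1)
      rw [sum_ix]
      simp only [Sum.elim_inl, Sum.elim_inr, mul_zero, zero_add, Finset.sum_const_zero, add_zero]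
      refine Finset.sum_eq_zero fun l _ => ?_
      have h1 := sum_small Q J r H hr hJ (fun g => c (Sum.inr (Sum.inl (l, g))))
        (fun g => hcH _) (hw l) (v l) (hv l)
      have h2 : ∑ g : J, (c (Sum.inr (Sum.inl (l, g))) : ℝ) *
          (κ l * ((v l • (g : ZMod Q)).valMinAbs : ℝ)) =
          κ l * ((∑ g : J, c (Sum.inr (Sum.inl (l, g))) *
            (v l • (g : ZMod Q)).valMinAbs : ℤ) : ℝ) := by
        push_cast
        rw [Finset.mul_sum]
        refine Finset.sum_congr rfl fun g _ => ?_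
        ring
      rw [h2, h1]
      simp)
  refine ⟨δ, ?_, fun l g => ?_, hδ2⟩
  · exact hδ1 (Sum.inl ()) trivial
  · exact hδ1 (Sum.inr (Sum.inl (l, g))) trivial

/-- The pieces. -/
noncomputable def Yf {n Q : ℕ} {J : Finset (ZMod Q)} {S : Fin n → Finset (ZMod Q)}
    (x : ZMod Q → ℂ) (u : Fin (n + 1) → ℕ) (b : Fin n → ZMod Q → ℂ) :
    Fin (n + 1) ⊕ Fin n → Ix n Q J S → ℂ :=
  Sum.elim
    (fun l => Sum.elim (fun _ => 0) (Sum.elim (fun a =>
      if a.1 = l.succ then x a.2 * ee ((u l : ℝ) * ((a.2 : ZMod Q).val : ℝ) / (Q : ℝ))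
      else if a.1 = 0 then - x a.2 else 0) (fun _ => 0)))
    (fun j => Sum.elim (fun _ => 0) (Sum.elim (fun _ => 0)
      (fun a => if a.1 = j then b j a.2 else 0)))

lemma sum_Yl {n Q : ℕ} {J : Finset (ZMod Q)} {S : Fin n → Finset (ZMod Q)}
    (x : ZMod Q → ℂ) (u : Fin (n + 1) → ℕ) (b : Fin n → ZMod Q → ℂ) (l : Fin (n + 1))
    (θ : Ix n Q J S → ℝ) :
    ∑ a, Yf x u b (Sum.inl l) a * ee (θ a) =
      ∑ g : J, x g * ee ((u l : ℝ) * ((g : ZMod Q).val : ℝ) / (Q : ℝ)) *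
        ee (θ (Sum.inr (Sum.inl (l.succ, g)))) -
      ∑ g : J, x g * ee (θ (Sum.inr (Sum.inl (0, g)))) := by
  classical
  rw [sum_ix]
  simp only [Yf, Sum.elim_inl, Sum.elim_inr, zero_mul, zero_add, Finset.sum_const_zero, add_zero]
  rw [Fin.sum_univ_succ]
  have h1 : ∀ (l' : Fin (n + 1)), ∑ g : J, (if l'.succ = l.succ then
      x g * ee ((u l : ℝ) * ((g : ZMod Q).val : ℝ) / (Q : ℝ)) else if l'.succ = 0 then
        - x g else 0) * ee (θ (Sum.inr (Sum.inl (l'.succ, g)))) =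
        if l' = l then ∑ g : J, x g * ee ((u l : ℝ) * ((g : ZMod Q).val : ℝ) / (Q : ℝ)) *
          ee (θ (Sum.inr (Sum.inl (l'.succ, g)))) else 0 := by
    intro l'
    by_cases h : l' = l
    · subst h
      simp
    · have h2 : l'.succ ≠ l.succ := fun h' => h (Fin.succ_injective _ h')
      simp [h2, h, Fin.succ_ne_zero]
  have h0 : ((0 : Fin (n + 2)) = l.succ) = False :=
    eq_false (Fin.succ_ne_zero l).symm
  simp only [h0, h1, if_false, if_true]
  rw [Finset.sum_ite_eq' Finset.univ l]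
  simp only [Finset.mem_univ, if_true, neg_mul, Finset.sum_neg_distrib]
  ring

lemma sum_Yb {n Q : ℕ} {J : Finset (ZMod Q)} {S : Fin n → Finset (ZMod Q)}
    (x : ZMod Q → ℂ) (u : Fin (n + 1) → ℕ) (b : Fin n → ZMod Q → ℂ) (j : Fin n)
    (θ : Ix n Q J S → ℝ) :
    ∑ a, Yf x u b (Sum.inr j) a * ee (θ a) =
      ∑ g : S j, b j g * ee (θ (Sum.inr (Sum.inr ⟨j, g⟩))) := by
  classical
  rw [sum_ix]
  simp only [Yf, Sum.elim_inl, Sum.elim_inr, zero_mul, zero_add, Finset.sum_const_zero]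
  rw [Finset.sum_eq_single j]
  · simp
  · intro j' _ hj
    refine Finset.sum_eq_zero fun g _ => ?_
    rw [if_neg hj, zero_mul]
  · intro h
    exact absurd (Finset.mem_univ j) h

lemma ee_rot (Q : ℕ) [NeZero Q] (v : ℕ) (g : ZMod Q) (τ : ℝ) :
    ee ((v : ℝ) * (g.val : ℝ) / (Q : ℝ)) * ee (-((v • g).valMinAbs : ℝ) / (Q : ℝ) + τ) = ee τ := by
  have hQ0 : (Q : ℝ) ≠ 0 := by exact_mod_cast NeZero.ne Q
  have hd : (Q : ℤ) ∣ ((v : ℤ) * (g.val : ℤ) - (v • g).valMinAbs) := by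
    rw [← ZMod.intCast_zmod_eq_zero_iff_dvd]
    push_cast
    rw [ZMod.natCast_zmod_val, nsmul_eq_mul, sub_self]
  obtain ⟨z, hz⟩ := hd
  rw [← ee_add]
  have h : (v : ℝ) * (g.val : ℝ) / (Q : ℝ) + (-((v • g).valMinAbs : ℝ) / (Q : ℝ) + τ) =
      (z : ℝ) + τ := by
    have hz' : (v : ℝ) * (g.val : ℝ) - ((v • g).valMinAbs : ℝ) = Q * z := by exact_mod_cast hz
    field_simp
    linarith
  rw [h, ee_add, ee_int, one_mul]

lemma vma_neg (Q : ℕ) [NeZero Q] (r H v : ℕ) (hr : 0 < r) (hH : 0 < H) (g : ZMod Q)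
    (hv : |((v : ℕ) • g).valMinAbs| * (4 * r * H) ≤ (Q : ℤ)) :
    (v • (-g)).valMinAbs = -(v • g).valMinAbs := by
  rw [ZMod.valMinAbs_spec]
  have hQ : (0 : ℤ) < Q := by exact_mod_cast Nat.pos_of_ne_zero (NeZero.ne Q)
  refine ⟨?_, ?_⟩
  · push_cast
    rw [smul_neg]
  · have h1 : (1 : ℤ) ≤ r * H := by exact_mod_cast Nat.mul_pos hr hH
    have h2 : |(v • g).valMinAbs| * 4 ≤ Q := by
      calc |(v • g).valMinAbs| * 4 = |(v • g).valMinAbs| * 4 * 1 := by ring
        _ ≤ |(v • g).valMinAbs| * 4 * (r * H) := by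
            exact mul_le_mul_of_nonneg_left h1 (by positivity)
        _ ≤ Q := by linarith
    have h3 := le_abs_self (v • g).valMinAbs
    have h4 := neg_abs_le (v • g).valMinAbs
    constructor <;> linarith

end SpxM

open SpxM in
theorem specSPX (hLH : SpecLH) (hBO : SpecBO) (hAN : SpecAN) (hNC : SpecNC) (hDF : SpecDF) :
    SpecSPX := by
  classical
  intro n r m0
  obtain ⟨H, h, hH, hh, lh⟩ := hLH m0
  obtain ⟨Y1, bo⟩ := hBO r H h n hH hh
  refine ⟨Y1, H, h, hH, hh, ?_⟩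
  intro p e c Q _ hp hQ hc Lg R hR h1 hmul hconj hrot huniq J x hJ hx him hord ⟨g0, hg0, hg0o⟩
  obtain ⟨us, u, hus, hu, hus0, hup, hiv⟩ := bo p e c Q hp hQ hc J hJ hord g0 hg0 hg0o
  refine ⟨u, hup, ?_⟩
  intro S b hb hbim hcard heq
  have hQ0 : (Q : ℝ) ≠ 0 := by exact_mod_cast NeZero.ne Q
  have hr : 0 < r := lt_of_lt_of_le (Finset.card_pos.mpr ⟨g0, hg0⟩) hJ
  set u' : Fin (n + 2) → ℕ := Fin.cons 0 u with hu'
  set s : Fin (n + 2) → ℕ := fun l => 1 + p ^ c * u' l with hs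
  have hu0 : u' 0 = 0 := rfl
  have hus' : ∀ l, u' l.succ = u l := fun l => rfl
  have hub : ∀ l, ∀ g ∈ J, |((u' l : ℕ) • g).valMinAbs| * (4 * r * H) ≤ (Q : ℤ) := by
    intro l g hg
    refine Fin.cases ?_ (fun l => hu l g hg) l
    rw [hu0]
    simp
  have hivs : ∀ w : Fin (n + 2) → ZMod Q,
      (∀ l, ∃ a : ZMod Q → ℤ, (∀ g, |a g| ≤ H) ∧ w l = ∑ g ∈ J, a g • g) →
      h • (∑ l, s l • w l) = 0 → ∀ l, w l = 0 := by
    intro w hw h0
    refine hiv w hw ?_
    rw [Fin.sum_univ_succ] at h0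
    simpa [hs, hu0, hus'] using h0
  have hcardI : Fintype.card (Ix n Q J S) ≤ m0 := by
    have h3 : Fintype.card (Ix n Q J S) = 1 + ((n + 2) * J.card + ∑ j, (S j).card) := by
      simp [Ix]
    rw [h3]
    have := Nat.mul_le_mul_left (n + 2) hJ
    omega
  obtain ⟨δ0, hδ00, hδ01, hδ02⟩ := ex_delta hr lh Q J hJ S hcardI s hivs
    (fun _ => -1 / Q) u' hub
  have hexk := fun k : Fin (n + 2) => ex_delta hr lh Q J hJ S hcardI s hivs
    (fun l => if l = k then 1 else 0) (fun _ => us) (fun _ => hus)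
  choose δk hδk0 hδk1 hδk2 using hexk
  set δ : (Fin (n + 2) → ℝ) → Ix n Q J S → ℝ := fun t a => δ0 a + ∑ k, t k * δk k a with hδ
  set f : ZMod Q → ℝ := fun g => ((us • g).valMinAbs : ℝ) with hf
  have hδo : ∀ t, δ t (Sum.inl ()) = 0 := by
    intro t
    simp [hδ, hδ00, hδk0]
  have hδl : ∀ t l (g : J), δ t (Sum.inr (Sum.inl (l, g))) =
      - ((u' l • (g : ZMod Q)).valMinAbs : ℝ) / Q + t l * f g := by
    intro t l g
    simp only [hδ, hδ01, hδk1, hf]
    have : ∑ k, t k * ((if l = k then (1 : ℝ) else 0) * ((us • (g : ZMod Q)).valMinAbs : ℝ)) =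
        t l * ((us • (g : ZMod Q)).valMinAbs : ℝ) := by
      rw [Finset.sum_eq_single l]
      · simp
      · intro k _ hk
        rw [if_neg (Ne.symm hk)]
        ring
      · intro hk
        exact absurd (Finset.mem_univ l) hk
    rw [this]
    ring
  have hδ2 : ∀ t a b a' b', ix n Q J S s a + ix n Q J S s b = ix n Q J S s a' + ix n Q J S s b' →
      δ t a + δ t b = δ t a' + δ t b' := by
    intro t a b a' b' h
    have h1 := hδ02 a b a' b' h
    have h2 : ∑ k, t k * δk k a + ∑ k, t k * δk k b =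
        ∑ k, t k * δk k a' + ∑ k, t k * δk k b' := by
      rw [← Finset.sum_add_distrib, ← Finset.sum_add_distrib]
      refine Finset.sum_congr rfl fun k _ => ?_
      rw [← mul_add, ← mul_add, hδk2 k a b a' b' h]
    simp only [hδ]
    linarith
  have hδb : ∀ t (j : Fin n) (g g' : S j), (g' : ZMod Q) = -(g : ZMod Q) →
      δ t (Sum.inr (Sum.inr ⟨j, g⟩)) + δ t (Sum.inr (Sum.inr ⟨j, g'⟩)) = 0 := by
    intro t j g g' hgg
    have := hδ2 t (Sum.inr (Sum.inr ⟨j, g⟩)) (Sum.inr (Sum.inr ⟨j, g'⟩)) (Sum.inl ()) (Sum.inl ())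
      (by simp [ix, hgg])
    rw [this, hδo, add_zero]
  -- sizes
  have hm1 : 1 + (n + 2) * r ≤ m0 := by omega
  have hrm : r + 1 ≤ m0 := by
    have : r ≤ (n + 2) * r := Nat.le_mul_of_pos_left r (by omega)
    omega
  have hsq : ∀ a : ℕ, a + 1 ≤ m0 → 2 * a ≤ R := by
    intro a ha
    refine le_trans ?_ hR
    nlinarith
  have hJR : 2 * J.card ≤ R := le_trans (Nat.mul_le_mul_left 2 hJ) (hsq r hrm)
  have hSR : ∀ j, 2 * (S j).card ≤ R := by
    intro j
    apply hsq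
    have := Finset.single_le_sum (f := fun j => (S j).card) (fun i _ => Nat.zero_le _)
      (Finset.mem_univ j)
    omega
  -- reality
  have hA : ∀ τ : ℝ, (∑ g ∈ J, x g * ee (τ * f g)).im = 0 := by
    intro τ
    refine (real_def Q Lg R hconj huniq J hJR x (fun g hg => (hx g hg).1) him).2
      (fun g => τ * f g) fun g hg _ => ?_
    have := vma_neg Q r H us hr hH g (hus g hg)
    simp only [hf, this]
    push_cast
    ring
  have hB : ∀ t (j : Fin n),
      (∑ g : S j, b j g * ee (δ t (Sum.inr (Sum.inr ⟨j, g⟩)))).im = 0 := by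
    intro t j
    have := (real_def Q Lg R hconj huniq (S j) (hSR j) (b j) (hb j) (hbim j)).2
      (fun g => if hg : g ∈ S j then δ t (Sum.inr (Sum.inr ⟨j, ⟨g, hg⟩⟩)) else 0)
      (fun g hg hg' => by
        simp only [dif_pos hg, dif_pos hg']
        exact hδb t j ⟨g, hg⟩ ⟨-g, hg'⟩ rfl)
    rw [← Finset.sum_coe_sort (S j)] at this
    simpa using this
  -- the deformed identity
  have hdef : ∀ t : Fin (n + 2) → ℝ,
      ∑ l : Fin (n + 1), (∑ g ∈ J, x g * ee (t l.succ * f g) - ∑ g ∈ J, x g * ee (t 0 * f g)) ^ 2 =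
        ∑ j, (∑ g : S j, b j g * ee (δ t (Sum.inr (Sum.inr ⟨j, g⟩)))) ^ 2 := by
    intro t
    have hYm : ∀ (q : Fin (n + 1) ⊕ Fin n) (a : Ix n Q J S), Yf x u b q a ∈ Lg (ix n Q J S s a) := by
      rintro (l | j) (o | ⟨l', g⟩ | ⟨j', g⟩)
      · exact (Lg _).zero_mem
      · show (if l' = l.succ then x g * ee ((u l : ℝ) * ((g : ZMod Q).val : ℝ) / (Q : ℝ))
          else if l' = 0 then - x g else 0) ∈ Lg (s l' • (g : ZMod Q))
        by_cases h2 : l' = l.succ
        · rw [if_pos h2, h2]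
          exact hrot (u l) (hup l) g (x g) (hx g g.2).1
        · rw [if_neg h2]
          by_cases h3 : l' = 0
          · rw [if_pos h3, h3]
            have : s 0 = 1 := by simp [hs, hu0]
            rw [this, one_smul]
            exact (Lg _).neg_mem (hx g g.2).1
          · rw [if_neg h3]
            exact (Lg _).zero_mem
      · exact (Lg _).zero_mem
      · exact (Lg _).zero_mem
      · exact (Lg _).zero_mem
      · show (if j' = j then b j g else 0) ∈ Lg (g : ZMod Q)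
        by_cases h2 : j' = j
        · subst h2
          rw [if_pos rfl]
          exact hb j' g g.2
        · rw [if_neg h2]
          exact (Lg _).zero_mem
    have h0 : ∑ q : Fin (n + 1) ⊕ Fin n, ((Sum.elim (fun _ => 1) (fun _ => -1) q : ℤ) : ℂ) *
        (∑ a, Yf (J := J) (S := S) x u b q a) ^ 2 = 0 := by
      have e1 : ∀ l : Fin (n + 1), ∑ a, Yf (J := J) (S := S) x u b (Sum.inl l) a =
          (∑ g ∈ J, x g * ee ((u l : ℝ) * ((g : ZMod Q).val : ℝ) / (Q : ℝ))) - ∑ g ∈ J, x g := by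
        intro l
        have := sum_Yl (J := J) (S := S) x u b l (fun _ => 0)
        simp only [ee_zero, mul_one] at this
        rw [this, ← Finset.sum_coe_sort J, ← Finset.sum_coe_sort J]
      have e2 : ∀ j : Fin n, ∑ a, Yf (J := J) (S := S) x u b (Sum.inr j) a =
          ∑ g ∈ S j, b j g := by
        intro j
        have := sum_Yb (J := J) (S := S) x u b j (fun _ => 0)
        simp only [ee_zero, mul_one] at this
        rw [this, ← Finset.sum_coe_sort (S j)]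
      rw [Fintype.sum_sum_type]
      simp only [Sum.elim_inl, Sum.elim_inr, e1, e2]
      simp only [Int.cast_one, Int.cast_neg, one_mul, neg_mul, Finset.sum_neg_distrib]
      rw [heq]
      ring
    have key := df_gen hDF Q Lg R m0 hR hmul huniq (Ix n Q J S) (Fin (n + 1) ⊕ Fin n) hcardI
      (ix n Q J S s) (Sum.elim (fun _ => 1) (fun _ => -1)) (Yf x u b) (δ t) hYm (hδ2 t) h0
    rw [Fintype.sum_sum_type] at key
    have e3 : ∀ l : Fin (n + 1), ∑ a, Yf (J := J) (S := S) x u b (Sum.inl l) a * ee (δ t a) =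
        ∑ g ∈ J, x g * ee (t l.succ * f g) - ∑ g ∈ J, x g * ee (t 0 * f g) := by
      intro l
      rw [sum_Yl, ← Finset.sum_coe_sort J, ← Finset.sum_coe_sort J]
      congr 1
      · refine Finset.sum_congr rfl fun g _ => ?_
        rw [hδl, hus', mul_assoc, ee_rot]
      · refine Finset.sum_congr rfl fun g _ => ?_
        rw [hδl, hu0]
        simp
    simp only [Sum.elim_inl, Sum.elim_inr, e3, sum_Yb] at key
    simp only [Int.cast_one, Int.cast_neg, one_mul, neg_mul, Finset.sum_neg_distrib] at key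
    exact add_neg_eq_zero.mp key
  -- a nonzero derivative
  have hv : f g0 ≠ 0 := by
    simp only [hf]
    intro h0
    apply hus0
    have : (us • g0).valMinAbs = 0 := by exact_mod_cast h0
    exact (ZMod.valMinAbs_eq_zero _).mp this
  have hsum0 : (∑ g ∈ J with f g = f g0, x g) ≠ 0 := by
    intro h0
    have := huniq (J.filter fun g => f g = f g0) x
      (le_trans (Finset.card_filter_le _ _) (by omega))
      (fun g hg => (hx g (Finset.mem_filter.mp hg).1).1) h0 g0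
      (Finset.mem_filter.mpr ⟨hg0, rfl⟩)
    exact (hx g0 hg0).2 this
  obtain ⟨τ, A', hA', hA0⟩ := hNC (ZMod Q) J x f (f g0) hv hA hsum0
  refine hAN n (fun τ => (∑ g ∈ J, x g * ee (τ * f g)).re) A' τ
    (fun j t => (∑ g : S j, b j g * ee (δ t (Sum.inr (Sum.inr ⟨j, g⟩)))).re) hA' hA0 ?_ ?_
  · intro j
    apply Differentiable.differentiableAt
    refine Complex.reCLM.differentiable.comp ?_
    simp only [ee, hδ]
    fun_prop
  · intro t
    have h2 := hdef t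
    have e1 : ∀ τ : ℝ, ∑ g ∈ J, x g * ee (τ * f g) =
        (((∑ g ∈ J, x g * ee (τ * f g)).re : ℝ) : ℂ) := fun τ =>
      Complex.ext (by simp) (by simp [hA τ])
    have e2 : ∀ j, ∑ g : S j, b j g * ee (δ t (Sum.inr (Sum.inr ⟨j, g⟩))) =
        (((∑ g : S j, b j g * ee (δ t (Sum.inr (Sum.inr ⟨j, g⟩)))).re : ℝ) : ℂ) := fun j =>
      Complex.ext (by simp) (by simpa using hB t j)
    have h3 : ((∑ l : Fin (n + 1), ((∑ g ∈ J, x g * ee (t l.succ * f g)).re -
        (∑ g ∈ J, x g * ee (t 0 * f g)).re) ^ 2 : ℝ) : ℂ) =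
        ((∑ j, (∑ g : S j, b j g * ee (δ t (Sum.inr (Sum.inr ⟨j, g⟩)))).re ^ 2 : ℝ) : ℂ) := by
      push_cast
      rw [e1 (t 0)] at h2
      calc _ = ∑ l : Fin (n + 1), (∑ g ∈ J, x g * ee (t l.succ * f g) -
          (((∑ g ∈ J, x g * ee (t 0 * f g)).re : ℝ) : ℂ)) ^ 2 := by
            refine Finset.sum_congr rfl fun l _ => ?_
            rw [e1 (t l.succ)]
            simp
        _ = _ := h2
        _ = _ := by
            refine Finset.sum_congr rfl fun j _ => ?_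
            rw [e2 j]
            simp
    exact_mod_cast h3

end Pool.Agent.Lib.MPcb8a44.AB
end

section
/-!
Module WIN of Theorem AB (MP_cb8a44_nt): windows of valuations.
-/
set_option autoImplicit false

namespace Pool.Agent.Lib.MPcb8a44.AB

namespace WinM

/-- The centres of the windows. -/
def cc (D : ℕ) : ℕ → ℕ
  | 0 => 1
  | i + 1 => 2 * cc D i + D

theorem cc_pos (D i : ℕ) : 1 ≤ cc D i := by
  induction i with
  | zero => simp [cc]
  | succ i ih => simp only [cc]; omega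

theorem cc_mono (D : ℕ) : Monotone (cc D) := by
  refine monotone_nat_of_le_succ fun i => ?_
  simp only [cc]
  omega

theorem cc_step (D : ℕ) {i j : ℕ} (h : i < j) : 2 * cc D i + D ≤ cc D j :=
  cc_mono D (Nat.succ_le_of_lt h)

end WinM

open WinM

theorem specWIN : SpecWIN := by
  intro W0 D
  refine ⟨cc D W0, fun p hp k hk W hW => ?_⟩
  by_contra hcon
  push Not at hcon
  have H : ∀ i : Fin (W0 + 1), ∃ w ∈ W, (p : ℤ) ^ (k - 2 * cc D i - D) ∣ w ∧
      ¬ (p : ℤ) ^ (k - cc D i) ∣ w := fun i =>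
    hcon (cc D i) (cc_pos D i) (cc_mono D (Nat.lt_succ_iff.1 i.2))
  choose f hfW hf using H
  have key : ∀ i j : Fin (W0 + 1), (i : ℕ) < j → f i ≠ f j := by
    intro i j hij he
    apply (hf j).2
    rw [← he]
    refine dvd_trans (pow_dvd_pow _ ?_) (hf i).1
    have := cc_step D hij
    omega
  have inj : Function.Injective f := by
    intro i j he
    rcases lt_trichotomy (i : ℕ) j with h | h | h
    · exact absurd he (key i j h)
    · exact Fin.ext h
    · exact absurd he.symm (key j i h)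
  have h1 : (Finset.univ.image f).card = W0 + 1 := by
    rw [Finset.card_image_of_injective _ inj, Finset.card_univ, Fintype.card_fin]
  have h2 : Finset.univ.image f ⊆ W := by
    intro w hw
    obtain ⟨i, -, rfl⟩ := Finset.mem_image.1 hw
    exact hfW i
  have := Finset.card_le_card h2
  omega

end Pool.Agent.Lib.MPcb8a44.AB
end

section
/-!
Theorem AB (MP_cb8a44_nt): assembly of all modules.
-/
set_option autoImplicit false

namespace Pool.Agent.Lib.MPcb8a44.AB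

/-- Only finitely many totally real subfields of cyclotomic fields have Pythagoras number at
most 3. -/
theorem main : SpecFIN := by
  have hCB : SpecCB := specCB
  have hGAL : SpecGAL := specGAL
  have hMF : SpecMF := specMF
  have hMB : SpecMB := MbM.specMB hCB hGAL hMF
  have hINT : SpecINT := specINT
  have hGU : SpecGU := specGU hCB
  have hGR : SpecGR := specGR hCB hGAL hMB hINT
  have hUA : SpecUA := specUA hCB hGAL hGU
  have hSPX : SpecSPX := specSPX specLH specBO specAN specNC specDF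
  have hCAS : SpecCAS := specCAS hCB hGAL hMF hINT
  have hSA : SpecSA := specSA hCAS hGR hMB hCB
  have hPSA : SpecPSA := specPSA hSPX hSA hUA hCB hGAL hMB
  have hPSB : SpecPSB := specPSB hSPX hGR hGU specWIN hCB hGAL hMB
  have hPS : SpecPS := specPS hPSA hPSB specGCD hCB
  have hLEV : SpecLEV := LevM.specLEV hCB hGAL hMB hINT
  have hL4 : SpecL4 := specL4 hCB hGAL hMB hGU hGR
  have hCLA : SpecCLA := specCLA St1M.specST1 specST2
  have hCLC : SpecCLC := specCLC hCLA hLEV hL4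
  exact FinM.specFIN hPS hMB hCB hCLC

end Pool.Agent.Lib.MPcb8a44.AB
end
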